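import Pool.Agent.helper81.JB.AlgR2

/-!
# JB-AlgR3: the special flips

`hU`, `hb`, `W` as in `AlgR1.lean`.
* `firstk_card`: the rank is a bijection of `S` onto `{0, …, S.card - 1}` (or `Finset.orderIsoOfFin`).
* `sp_fm`: `sp_of_flip` for `(W, u)`: `X = vsX`, `T = vsT` (`firstk_card`; for `w ∈ W`,
  `al W w = N {w} univ - 2 * N {w} W ≥ 0`, so `vsQ` is `al W w / 2 + 1`), the set
  `W \ insert w X ∪ T` is `f2 ..`, which is in the family, `flip_of_le`; `win`: `f3`.
  In the same way for `(sw W u, u)` with `b = 1` (`cutN_sw`; `sw_sw`, `u_mem_Zr_sw` for the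
  hypotheses of `sp_of_flip`).
* `rdy_fm`: `stk_fm`, `stk_fm_sw`, `sp_fm`.
-/

set_option autoImplicit false

open Finset

namespace Pool.Agent.helper81.JB

variable {n : ℕ} {G : SimpleGraph (Fin n)} {τ L : ℤ} {U W : Finset (Fin n)} {u : Fin n}

theorem firstk_subset (S : Finset (Fin n)) (q : ℕ) : firstk S q ⊆ S := by
  unfold firstk
  exact filter_subset _ _

theorem firstk_card (S : Finset (Fin n)) {q : ℕ} (h : q ≤ S.card) : (firstk S q).card = q := by
  classical
  have hlt : ∀ v ∈ S, ∀ w ∈ S, v < w →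
      (S.filter fun z => z < v).card < (S.filter fun z => z < w).card := by
    intro v hv w hw hvw
    apply card_lt_card
    refine ⟨fun z hz => ?_, fun hsub => ?_⟩
    · rw [mem_filter] at hz ⊢
      exact ⟨hz.1, hz.2.trans hvw⟩
    · have h1 := hsub (mem_filter.2 ⟨hv, hvw⟩)
      exact lt_irrefl _ (mem_filter.1 h1).2
  have hinj : Set.InjOn (fun v => (S.filter fun z => z < v).card) (S : Set (Fin n)) := by
    intro v hv w hw he
    rcases lt_trichotomy v w with h1 | h1 | h1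
    · exact absurd he (hlt v hv w hw h1).ne
    · exact h1
    · exact absurd he (hlt w hw v hv h1).ne'
  have hrange : S.image (fun v => (S.filter fun z => z < v).card) = range S.card := by
    apply eq_of_subset_of_card_le
    · intro x hx
      obtain ⟨v, hv, rfl⟩ := mem_image.1 hx
      rw [mem_range]
      apply card_lt_card
      refine ⟨filter_subset _ _, fun hsub => ?_⟩
      exact lt_irrefl _ (mem_filter.1 (hsub hv)).2
    · rw [card_range, card_image_of_injOn hinj]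
  have himg : (firstk S q).image (fun v => (S.filter fun z => z < v).card) = range q := by
    ext x
    rw [mem_image, mem_range]
    constructor
    · rintro ⟨v, hv, rfl⟩
      unfold firstk at hv
      exact (mem_filter.1 hv).2
    · intro hx
      have h1 : x ∈ S.image (fun v => (S.filter fun z => z < v).card) := by
        rw [hrange, mem_range]
        omega
      obtain ⟨v, hv, hvx⟩ := mem_image.1 h1
      refine ⟨v, ?_, hvx⟩
      unfold firstk
      rw [mem_filter]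
      exact ⟨hv, by rw [← hvx] at hx; exact hx⟩
  rw [← card_image_of_injOn (hinj.mono (by
    intro v hv
    exact firstk_subset S q hv)), himg, card_range]

theorem AlgR3_vsQ (h : 0 ≤ al G W u) (hu : u ∈ W) : (vsQ G W u : ℤ) = al G W u / 2 + 1 := by
  have e : N G {u} univ - 2 * N G {u} W = al G W u := by
    rw [al_mem G hu, N_compl_right]
    ring
  unfold vsQ
  rw [e]
  push_cast
  rw [Int.toNat_of_nonneg h]

theorem AlgR3_sp {X : Finset (Fin n)} (hU : ∀ F ∈ Fm G τ U, cutN G F ≤ cutN G U)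
    (hX : cutN G X = cutN G U) (h2 : ∀ x, f2 G τ X u x ∈ Fm G τ U)
    (h3 : ∀ x, f3 G τ X u x ∈ Fm G τ U) (hS : Stk G τ L X) (hS2 : Stk G τ L (sw X u))
    (hL : -3 ≤ L) (hu : u ∈ Zr G τ X) : Sp G τ X u := by
  have huX : u ∈ X := Bg_subset (Zr_subset hu)
  have hZp : Zp G τ X u ⊆ Xᶜ := Zp_subset huX
  have hS1 : S1 G τ X ⊆ X := fun v hv => by
    unfold S1 at hv
    exact Bg_subset (mem_sdiff.1 hv).1
  refine sp_of_flip hS hS2 hL hu ?_ ?_
  · intro w hw hle
    have hwX := hS1 hw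
    have hq := AlgR3_vsQ (hS.loc.one w) hwX
    rw [← hq] at hle
    have hle' : vsQ G X w ≤ (Xn G (Zr G τ X) w).card := by exact_mod_cast hle
    have hXc : (vsX G τ X w).card = vsQ G X w := firstk_card _ hle'
    have hXs : vsX G τ X w ⊆ Xn G (Zr G τ X) w := firstk_subset _ _
    refine ⟨vsX G τ X w, hXs, by rw [hXc, hq], fun hc => ?_⟩
    rw [hXc] at hc
    have hTs : vsT G τ X u w ⊆ Cn G (Zp G τ X u) (insert w (vsX G τ X w)) := firstk_subset _ _
    refine ⟨vsT G τ X u w, hTs, by rw [hXc]; exact firstk_card _ hc, ?_⟩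
    refine flip_of_le G ?_ ?_ ?_
    · intro v hv
      rcases mem_insert.1 hv with rfl | hv
      · exact hwX
      · have h4 := hXs hv
        simp only [Xn, mem_filter] at h4
        exact Bg_subset (Zr_subset h4.1)
    · intro v hv
      have h4 := hTs hv
      simp only [Cn, mem_filter] at h4
      exact hZp h4.1
    · have h5 := hU _ (h2 w)
      rw [← hX] at h5
      exact h5
  · intro i _ _
    refine flip_of_le G hS1 ((win_subset _ _ _).trans hZp) ?_
    have h5 := hU _ (h3 i)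
    rw [← hX] at h5
    exact h5

theorem AlgR3_mem (hn : 2 ≤ n) (hW : W = U ∨ W = Uᶜ) (u x : Fin n) :
    (f2 G τ W u x ∈ Fm G τ U ∧ f3 G τ W u x ∈ Fm G τ U) ∧
    (f2 G τ (sw W u) u x ∈ Fm G τ U ∧ f3 G τ (sw W u) u x ∈ Fm G τ U) := by
  have hnn : 4 ≤ n * n := Nat.mul_le_mul hn hn
  obtain ⟨a, ha, e⟩ : ∃ a < n * n, Wv a 0 u.val U = W := by
    rcases hW with rfl | rfl
    · exact ⟨0, by omega, Wv_zero _⟩
    · exact ⟨1, by omega, Wv_compl _⟩
  have e1 : Wv a 1 u.val U = sw W u := by rw [Wv_one, e]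
  refine ⟨⟨?_, ?_⟩, ?_, ?_⟩
  · exact Or.inr ⟨a, ha, 0, by omega, u, Or.inr (Or.inr ⟨x, Or.inl (by rw [e])⟩)⟩
  · exact Or.inr ⟨a, ha, 0, by omega, u, Or.inr (Or.inr ⟨x, Or.inr (by rw [e])⟩)⟩
  · exact Or.inr ⟨a, ha, 1, by omega, u, Or.inr (Or.inr ⟨x, Or.inl (by rw [e1])⟩)⟩
  · exact Or.inr ⟨a, ha, 1, by omega, u, Or.inr (Or.inr ⟨x, Or.inr (by rw [e1])⟩)⟩

theorem sp_fm (hn : 2 ≤ n) (hU : ∀ F ∈ Fm G τ U, cutN G F ≤ cutN G U)
    (hb : ∀ F ∈ Fm G τ U, ¬ good G τ F) (hW : W = U ∨ W = Uᶜ)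
    (ht : N G univ univ = 2 * (4 * τ - L)) (hL : -3 ≤ L) (hE : τ + 1 ≤ E G W)
    (hu : u ∈ Zr G τ W) : Sp G τ W u ∧ Sp G τ (sw W u) u := by
  have hS := stk_fm hn hU hb hW ht hE
  have hS2 := stk_fm_sw hn hU hb hW ht hE hu
  have huW : u ∈ W := Bg_subset (Zr_subset hu)
  have hcW : cutN G W = cutN G U := by
    rcases hW with rfl | rfl
    · rfl
    · exact cutN_compl _
  have hc2 : cutN G (sw W u) = cutN G U := by
    rw [cutN_sw huW (mem_Zr.1 hu).2, hcW]
  have hss : sw (sw W u) u = W := sw_sw huW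
  refine ⟨?_, ?_⟩
  · exact AlgR3_sp hU hcW (fun x => (AlgR3_mem hn hW u x).1.1)
      (fun x => (AlgR3_mem hn hW u x).1.2) hS hS2 hL hu
  · exact AlgR3_sp hU hc2 (fun x => (AlgR3_mem hn hW u x).2.1)
      (fun x => (AlgR3_mem hn hW u x).2.2) hS2 (hss.symm ▸ hS) hL (u_mem_Zr_sw hS hL hu)

theorem rdy_fm (hn : 2 ≤ n) (hU : ∀ F ∈ Fm G τ U, cutN G F ≤ cutN G U)
    (hb : ∀ F ∈ Fm G τ U, ¬ good G τ F) (hW : W = U ∨ W = Uᶜ)
    (ht : N G univ univ = 2 * (4 * τ - L)) (hL : -3 ≤ L) (hE : τ + 1 ≤ E G W) :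
    Rdy G τ L W :=
  ⟨stk_fm hn hU hb hW ht hE, fun _ hu => stk_fm_sw hn hU hb hW ht hE hu,
    fun _ hu => (sp_fm hn hU hb hW ht hL hE hu).1, fun _ hu => (sp_fm hn hU hb hW ht hL hE hu).2⟩

end Pool.Agent.helper81.JB
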