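import Pool.Agent.helper81.JB.C

/-!
# JB-D1: a stuck state `U` and the stuck state `sw U u` obtained by moving a zero vertex `u`

`W = sw U u = Uᶜ ∪ {u}`, `x = E U - τ`, `y = τ - E Uᶜ`, `d = N {u} U = N {u} Uᶜ` (`al U u = 0`),
`E W = E Uᶜ + d`, so `x' = E W - τ = d - y`, `y' = τ - E Wᶜ = d - x`.
`B = Bg τ U`, `B2 = Bg τ W`, `Z = Zr τ U`, `Z2 = Zr τ W`, `Zp = Z2.erase u`.
`R` with `y ≤ L + R - 2`, `y' ≤ L + R - 2`.

* `u_mem_Zr_sw`: `u ∈ W`, `N {u} W = N {u} Uᶜ = d ≥ x' = d - y` as `y ≥ 0` (`y_ge`);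
  `al W u = - al U u = 0`.
* `al_ge_two`: `v ∈ B2`, `v ≠ u`, so `v ∉ U`. If `v` is adjacent to `u`: `al U v = al W v + 2`
  (`al_sw_compl`). Otherwise `al U v = al W v`, and `al W v ≤ 1` contradicts `adj01` for `W`
  (`al W u = 0`).
* `card_B2_le`: `2 (B2.card - 1) ≤ ∑_{v ∈ B2.erase u} al U v ≤ ∑_{Uᶜ} al = 3 y - L - x`.
* `Zp_adj`, `Zp_al`: `Zp ⊆ Z2` is a clique together with `u` (`adj01` for `W`), `al U v = al W v + 2 = 2`.
* `M2_le`: for `w ∈ B`: `N {w} Uᶜ = N {w} (B2.erase u) + N {w} (Uᶜ \ B2) ≥ y + 1` and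
  `N {w} (B2.erase u) + Mo {w} (B2.erase u) = B2.card - 1`.  So
  `2 Mo ≤ 2 (B2.card - 1) - 2 (y + 1) + 2 N {w} (Uᶜ \ B2) ≤ y - L - x - 2 + ... ≤ R - 4 - x + ...`.
* `M2_le'`: `N {w} Uᶜ = al U w + N {w} U ≥ al U w + N {w} B`, `N {w} B = B.card - 1 - Mo {w} B`.
* `out_le`: `C = W \ B2 = Uᶜ \ B2`.  `N U C = ∑_{v ∈ C} N {v} U` and for `v ∈ C`, `N {v} U =
  N {v} Wᶜ + ind v u = al W v + N {v} W + ind v u`. `∑_C al W = ∑_W al W - ∑_{B2} al W`,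
  `∑_W al W = y' - L - 3 x'`. `N C W = 2 E C + N C B2`, `E C + N C B2 = E W - E B2 ≤ x' - 1`
  (`E_Bg`). `N C B2 = N C (B2.erase u) + N C {u}`. Sum:
  `E C + N C (B2.erase u) + N U C = (y' - L - 3 x' - A') + 3 E C + 2 N C B2
  ≤ y' - L - 3 x' - A' + 3 (x' - 1) = y' - L - 3 - A' ≤ R - 5 - A'`.
* `A_le`: `∑_B al U ≤ ∑_U al U = y - L - 3 x ≤ R - 2 - 3 = R - 5`.
* `card_Z_ge`: `B.card ≤ Z.card + ∑_B al` (`al ≥ 1` on `B \ Z`).
-/

set_option autoImplicit false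

open Finset

namespace Pool.Agent.helper81.JB

variable {V : Type} [Fintype V] [DecidableEq V] {G : SimpleGraph V} {τ L R : ℤ} {U : Finset V}
  {u : V}

theorem A_le (h : Stk G τ L U) (hy : τ - E G Uᶜ ≤ L + R - 2) :
    ∑ v ∈ Bg G τ U, al G U v ≤ R - 5 := by
  have h1 : ∑ v ∈ Bg G τ U, al G U v ≤ ∑ v ∈ U, al G U v :=
    Finset.sum_le_sum_of_subset_of_nonneg Bg_subset (fun v _ _ => h.loc.one v)
  have h2 := sum_al_U G (U := U) h.tot
  have h3 := h.big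
  linarith

theorem sum_Bg_eq (h : Stk G τ L U) : ∑ v ∈ S1 G τ U, al G U v = ∑ v ∈ Bg G τ U, al G U v := by
  have h1 : ∑ v ∈ Bg G τ U \ Zr G τ U, al G U v + ∑ v ∈ Zr G τ U, al G U v
      = ∑ v ∈ Bg G τ U, al G U v := Finset.sum_sdiff Zr_subset
  have h2 : ∑ v ∈ Zr G τ U, al G U v = 0 :=
    Finset.sum_eq_zero (fun v hv => (mem_Zr.1 hv).2)
  unfold S1
  linarith

theorem D1_card_S1_le (h : Stk G τ L U) :
    ((S1 G τ U).card : ℤ) ≤ ∑ v ∈ S1 G τ U, al G U v := by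
  have h1 : ∑ v ∈ S1 G τ U, (1 : ℤ) ≤ ∑ v ∈ S1 G τ U, al G U v :=
    Finset.sum_le_sum (fun v hv => ((mem_S1 h.loc).1 hv).2)
  simpa using h1

theorem card_Z_ge (h : Stk G τ L U) :
    ((Bg G τ U).card : ℤ) ≤ (Zr G τ U).card + ∑ v ∈ Bg G τ U, al G U v := by
  have h1 := D1_card_S1_le h
  have h2 := sum_Bg_eq h
  have h3 : (S1 G τ U).card + (Zr G τ U).card = (Bg G τ U).card := by
    unfold S1
    exact Finset.card_sdiff_add_card_eq_card Zr_subset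
  have h4 : ((S1 G τ U).card : ℤ) + (Zr G τ U).card = (Bg G τ U).card := by exact_mod_cast h3
  linarith

theorem card_S1_le (h : Stk G τ L U) :
    ((S1 G τ U).card : ℤ) ≤ ∑ v ∈ S1 G τ U, al G U v := by
  exact D1_card_S1_le h

theorem u_mem_Zr_sw (h : Stk G τ L U) (hL : -3 ≤ L) (hu : u ∈ Zr G τ U) :
    u ∈ Zr G τ (sw U u) := by
  obtain ⟨hB, hz⟩ := mem_Zr.1 hu
  have hU : u ∈ U := Bg_subset hB
  have h1 : N G {u} (sw U u) = N G {u} Uᶜ := by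
    unfold sw
    rw [N_insert_right G (by simp [hU]), N_sing, ind_self, zero_add]
  have h2 := E_sw G hU
  have h3 := y_ge h
  have h4 := h.big
  have h5 : u ∈ Bg G τ (sw U u) := by
    unfold Bg
    rw [Finset.mem_filter]
    refine ⟨mem_sw_self U u, ?_⟩
    rw [h1, h2]
    linarith
  rw [mem_Zr]
  refine ⟨h5, ?_⟩
  rw [al_sw_self G hU, hz, neg_zero]

theorem al_ge_two (h : Stk G τ L U) (h2 : Stk G τ L (sw U u)) (hL : -3 ≤ L) (hu : u ∈ Zr G τ U)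
    {v : V} (hv : v ∈ (Bg G τ (sw U u)).erase u) : 2 ≤ al G U v := by
  obtain ⟨hB, hz⟩ := mem_Zr.1 hu
  have hU : u ∈ U := Bg_subset hB
  obtain ⟨hne, hvB⟩ := Finset.mem_erase.1 hv
  have hvU : v ∉ U := by
    have h3 : v ∈ sw U u := Bg_subset hvB
    unfold sw at h3
    rcases Finset.mem_insert.1 h3 with h4 | h4
    · exact absurd h4 hne
    · simpa using h4
  have h5 := al_sw_compl G hU hvU
  have h6 := h2.loc.one v
  by_cases hadj : G.Adj u v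
  · rw [ind_adj G hadj] at h5
    linarith
  · rw [ind_not G hadj] at h5
    by_contra hlt
    push Not at hlt
    have hu2 := u_mem_Zr_sw h hL hu
    obtain ⟨hB2, hz2⟩ := mem_Zr.1 hu2
    have h7 : al G (sw U u) u + al G (sw U u) v ≤ 1 := by
      rw [hz2]
      linarith
    exact hadj (adj01 h2 hL hB2 hvB (Ne.symm hne) h7)

theorem D1_erase_subset : (Bg G τ (sw U u)).erase u ⊆ Uᶜ := by
  intro v hv
  obtain ⟨hne, hvB⟩ := Finset.mem_erase.1 hv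
  have h3 : v ∈ sw U u := Bg_subset hvB
  unfold sw at h3
  rcases Finset.mem_insert.1 h3 with h4 | h4
  · exact absurd h4 hne
  · exact h4

theorem card_B2_le (h : Stk G τ L U) (h2 : Stk G τ L (sw U u)) (hL : -3 ≤ L)
    (hu : u ∈ Zr G τ U) : 2 * (((Bg G τ (sw U u)).card : ℤ) - 1) ≤
      3 * (τ - E G Uᶜ) - L - (E G U - τ) := by
  have hu2 := u_mem_Zr_sw h hL hu
  have hB2 := (mem_Zr.1 hu2).1
  have hsub := D1_erase_subset (G := G) (τ := τ) (U := U) (u := u)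
  have h3 : ∑ v ∈ (Bg G τ (sw U u)).erase u, (2 : ℤ) ≤
      ∑ v ∈ (Bg G τ (sw U u)).erase u, al G U v :=
    Finset.sum_le_sum (fun v hv => al_ge_two h h2 hL hu hv)
  have h4 : ∑ v ∈ (Bg G τ (sw U u)).erase u, al G U v ≤ ∑ v ∈ Uᶜ, al G U v :=
    Finset.sum_le_sum_of_subset_of_nonneg hsub (fun v _ _ => h.loc.one v)
  have h5 := sum_al_Uc G (U := U) h.tot
  have h6 : ((Bg G τ (sw U u)).erase u).card + 1 = (Bg G τ (sw U u)).card :=
    Finset.card_erase_add_one hB2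
  have h7 : (((Bg G τ (sw U u)).erase u).card : ℤ) + 1 = (Bg G τ (sw U u)).card := by
    exact_mod_cast h6
  rw [Finset.sum_const, nsmul_eq_mul] at h3
  linarith

theorem Zr_adj (h : Stk G τ L U) (hL : -3 ≤ L) {v w : V} (hv : v ∈ Zr G τ U)
    (hw : w ∈ Zr G τ U) (hne : v ≠ w) : G.Adj v w := by
  obtain ⟨hvB, hvz⟩ := mem_Zr.1 hv
  obtain ⟨hwB, hwz⟩ := mem_Zr.1 hw
  refine adj01 h hL hvB hwB hne ?_
  rw [hvz, hwz]
  norm_num

theorem Zp_subset (hu : u ∈ U) : Zp G τ U u ⊆ Uᶜ := by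
  have _ := hu
  exact (Finset.erase_subset_erase u Zr_subset).trans D1_erase_subset

theorem Zp_subset_B2 : Zp G τ U u ⊆ (Bg G τ (sw U u)).erase u := by
  exact Finset.erase_subset_erase u Zr_subset

theorem Zp_adj_u (h : Stk G τ L U) (h2 : Stk G τ L (sw U u)) (hL : -3 ≤ L) (hu : u ∈ Zr G τ U)
    {v : V} (hv : v ∈ Zp G τ U u) : G.Adj u v := by
  obtain ⟨hne, hvZ⟩ := Finset.mem_erase.1 hv
  exact Zr_adj h2 hL (u_mem_Zr_sw h hL hu) hvZ (Ne.symm hne)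

theorem Zp_adj (h2 : Stk G τ L (sw U u)) (hL : -3 ≤ L) {v w : V} (hv : v ∈ Zp G τ U u)
    (hw : w ∈ Zp G τ U u) (hne : v ≠ w) : G.Adj v w := by
  exact Zr_adj h2 hL (Finset.mem_erase.1 hv).2 (Finset.mem_erase.1 hw).2 hne

theorem Zp_al (h : Stk G τ L U) (h2 : Stk G τ L (sw U u)) (hL : -3 ≤ L) (hu : u ∈ Zr G τ U)
    {v : V} (hv : v ∈ Zp G τ U u) : al G U v = 2 := by
  have hU : u ∈ U := Bg_subset (mem_Zr.1 hu).1
  have hadj := Zp_adj_u h h2 hL hu hv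
  have hvU : v ∉ U := by
    have h3 := Zp_subset hU hv
    simpa using h3
  have h5 := al_sw_compl G hU hvU
  rw [ind_adj G hadj, (mem_Zr.1 (Finset.mem_erase.1 hv).2).2] at h5
  linarith

theorem card_Zp_ge (h : Stk G τ L U) (h2 : Stk G τ L (sw U u)) (hL : -3 ≤ L)
    (hu : u ∈ Zr G τ U) : ((Bg G τ (sw U u)).card : ℤ) - 1 -
      ∑ v ∈ Bg G τ (sw U u), al G (sw U u) v ≤ (Zp G τ U u).card := by
  have hu2 := u_mem_Zr_sw h hL hu
  have h3 := card_Z_ge h2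
  have h6 : ((Zr G τ (sw U u)).erase u).card + 1 = (Zr G τ (sw U u)).card :=
    Finset.card_erase_add_one hu2
  have h7 : (((Zr G τ (sw U u)).erase u).card : ℤ) + 1 = (Zr G τ (sw U u)).card := by
    exact_mod_cast h6
  unfold Zp
  linarith

end Pool.Agent.helper81.JB
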