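import Pool.Agent.helper81.JB.Defs
import Pool.Agent.helper81.LC.Lang

/-!
# JB-Alg: the local search algorithm, as a program of the language `LC`, and the sets it computes

The input `w` is the adjacency matrix of a graph on `n` vertices, `w.length = n * n`.
Arrays: 0 all vertices, 1 the current cut `U`, 2 the output `O`, 3 `W` (`U` or `Uᶜ`, possibly with one
vertex moved and the classes exchanged), 4 `sw W u`, 5 `Bg W`, 6 `Zr W`, 7 `Bg (sw W u)`,
8 `Zr (sw W u)`, 9 `Zp`, 12 the new set `F`, 10, 11, 13, 14, 15 scratch.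
Variables: 0 `τ`, 1 the number of the pass, 2, 3, 4, 5 parameters; 16 is bound in `upd`;
14, 15, 17, 18, 19 are bound in sums.
-/

set_option autoImplicit false

open Finset

namespace Pool.Agent.helper81.JB

open Pool.Agent.helper81.LC (Tm Pr)

/-! ## The sets (mathematical definitions) -/

section
variable {n : ℕ}

/-- the first `q` elements of `S` -/
def firstk (S : Finset (Fin n)) (q : ℕ) : Finset (Fin n) :=
  S.filter fun v => (S.filter fun z => z < v).card < q

/-- flip up to four vertices (numbers `≥ n` are ignored) -/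
def f1 (p q r s : ℕ) (U : Finset (Fin n)) : Finset (Fin n) :=
  univ.filter fun v => ((if v ∈ U then 1 else 0) + (if v.val = p then 1 else 0) +
    (if v.val = q then 1 else 0) + (if v.val = r then 1 else 0) +
    (if v.val = s then 1 else 0)) % 2 = 1

/-- the working class: `U` or `Uᶜ`, or the same with `u` moved and the names exchanged -/
def Wv (a b u : ℕ) (U : Finset (Fin n)) : Finset (Fin n) :=
  let W0 := if a = 0 then U else Uᶜ
  if b = 0 then W0 else univ.filter fun v => v ∉ W0 ∨ v.val = u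

/-- the number of vertices of `X` in the flip `vs` -/
noncomputable def vsQ (G : SimpleGraph (Fin n)) (W : Finset (Fin n)) (w : Fin n) : ℕ :=
  (N G {w} univ - 2 * N G {w} W).toNat / 2 + 1

/-- the set `X` of the flip `vs` -/
noncomputable def vsX (G : SimpleGraph (Fin n)) (τ : ℤ) (W : Finset (Fin n)) (w : Fin n) :
    Finset (Fin n) := firstk (Xn G (Zr G τ W) w) (vsQ G W w)

/-- the set `T` of the flip `vs` -/
noncomputable def vsT (G : SimpleGraph (Fin n)) (τ : ℤ) (W : Finset (Fin n)) (u w : Fin n) :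
    Finset (Fin n) := firstk (Cn G (Zp G τ W u) (insert w (vsX G τ W w))) (vsQ G W w)

/-- the flip `vs` -/
noncomputable def f2 (G : SimpleGraph (Fin n)) (τ : ℤ) (W : Finset (Fin n)) (u w : Fin n) :
    Finset (Fin n) := W \ insert w (vsX G τ W w) ∪ vsT G τ W u w

/-- the flip of `S1` and a window -/
noncomputable def f3 (G : SimpleGraph (Fin n)) (τ : ℤ) (W : Finset (Fin n)) (u i : Fin n) :
    Finset (Fin n) := W \ S1 G τ W ∪ win (Zp G τ W u) ((S1 G τ W).card - 1) i

open Classical in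
/-- greedy removal of `v = k - 1, …, 0` from `S` as long as `W \ S` has at most `τ` edges -/
noncomputable def grd (G : SimpleGraph (Fin n)) (τ : ℤ) (W : Finset (Fin n)) :
    ℕ → Finset (Fin n) → Finset (Fin n)
  | 0, S => S
  | k + 1, S => grd G τ W k
      (if (∃ v ∈ S, v.val = k) ∧ E G (W \ S.filter fun v => v.val ≠ k) ≤ τ
        then S.filter fun v => v.val ≠ k else S)

/-- the candidate from the greedy removal -/
noncomputable def f4 (G : SimpleGraph (Fin n)) (τ : ℤ) (W : Finset (Fin n)) : Finset (Fin n) :=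
  W \ grd G τ W (n * n) (W \ Bg G τ W)

open Classical in
/-- the vertices of `W` which are not adjacent to all other vertices of `W` -/
noncomputable def suppF (G : SimpleGraph (Fin n)) (W : Finset (Fin n)) : Finset (Fin n) :=
  W.filter fun a => ∃ b ∈ W, b ≠ a ∧ ¬ G.Adj a b

/-- the candidate for the sparse side -/
noncomputable def f5 (G : SimpleGraph (Fin n)) (τ : ℤ) (W : Finset (Fin n)) (u : Fin n) :
    Finset (Fin n) :=
  let D := Bg G τ W ∪ Bg G τ (sw W u)
  suppF G D ∪ firstk (D \ suppF G D) ((Bg G τ W).card - (suppF G D).card)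

end

/-! ## The program -/

/-- terms -/
abbrev T := Tm 20 16

/-- programs -/
abbrev P := Pr 20 16

/-- variables -/
abbrev vr (i : Fin 20) : T := .var i

/-- the number of vertices -/
def nT : T := .sum 19 (.lt (.mul (vr 19) (vr 19)) .size)

/-- adjacency of the vertices `s`, `t` -/
def adjT (s t : T) : T := .inp (.add (.mul s nT) t)

/-- `1` if `s = t`, otherwise `0` -/
def eqT (s t : T) : T := .mul (.lt s (.add t (.num 1))) (.lt t (.add s (.num 1)))

/-- `1` if `t = 0`, otherwise `0` -/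
def notT (t : T) : T := .sub (.num 1) t

/-- ordered adjacent pairs between two arrays -/
def NT (a b : Fin 16) : T := .sum 17 (.sum 18
  (.mul (.mul (.arr a (vr 17)) (.arr b (vr 18))) (adjT (vr 17) (vr 18))))

/-- neighbours of `x` in an array (`x` must not contain the variables 18, 19) -/
def degT (x : T) (b : Fin 16) : T := .sum 18 (.mul (.arr b (vr 18)) (adjT x (vr 18)))

/-- number of elements of an array -/
def cardT (a : Fin 16) : T := .sum 18 (.arr a (vr 18))

/-- number of elements smaller than `x` of an array -/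
def rankT (x : T) (a : Fin 16) : T := .sum 18 (.mul (.arr a (vr 18)) (.lt (vr 18) x))

/-- `t / 2` (`t` must not contain the variable 14) -/
def halfT (t : T) : T := .sum 14 (.lt (.add (.mul (.num 2) (vr 14)) (.num 1)) t)

/-- twice `(d + τ)`, plus one -/
def tauT (d : T) : T := .add (.mul (.num 2) (.add d (vr 0))) (.num 1)

/-- sequences -/
def sq : List P → P
  | [] => .skip
  | p :: ps => .seq p (sq ps)

/-- array 0: all vertices -/
def pV : P := .upd 0 16 (.lt (vr 16) nT)

/-- consider the set in array 12 -/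
def pCons : P := sq [
  .upd 13 16 (.mul (.arr 0 (vr 16)) (notT (.arr 12 (vr 16)))),
  .ite (.mul (.lt (NT 12 12) (tauT (.num 0))) (.lt (NT 13 13) (tauT (.num 0))))
    (.upd 2 16 (.arr 12 (vr 16))) .skip,
  .upd 11 16 (.mul (.arr 0 (vr 16)) (notT (.arr 1 (vr 16)))),
  .ite (.lt (NT 1 11) (NT 12 13)) (.upd 1 16 (.arr 12 (vr 16))) .skip]

/-- flip up to four vertices -/
def pF1 : P := .upd 12 16 (.mul (.arr 0 (vr 16))
  (let s := Tm.add (.add (.add (.add (.arr 1 (vr 16)) (eqT (vr 16) (vr 2))) (eqT (vr 16) (vr 3)))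
    (eqT (vr 16) (vr 4))) (eqT (vr 16) (vr 5))
  .add (.add (eqT s (.num 1)) (eqT s (.num 3))) (eqT s (.num 5))))

/-- arrays 3 to 9 -/
def pSet : P := sq [
  .upd 11 16 (.mul (.arr 0 (vr 16)) (.add (.mul (notT (vr 2)) (.arr 1 (vr 16)))
    (.mul (notT (notT (vr 2))) (notT (.arr 1 (vr 16)))))),
  .upd 3 16 (.mul (.arr 0 (vr 16)) (.add (.mul (notT (vr 3)) (.arr 11 (vr 16)))
    (.mul (notT (notT (vr 3))) (.add (notT (.arr 11 (vr 16))) (eqT (vr 16) (vr 4)))))),
  .upd 4 16 (.mul (.arr 0 (vr 16)) (.add (notT (.arr 3 (vr 16))) (eqT (vr 16) (vr 4)))),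
  .upd 5 16 (.mul (.arr 3 (vr 16)) (.lt (NT 3 3) (tauT (degT (vr 16) 3)))),
  .upd 6 16 (.mul (.arr 5 (vr 16)) (eqT (degT (vr 16) 0) (.mul (.num 2) (degT (vr 16) 3)))),
  .upd 7 16 (.mul (.arr 4 (vr 16)) (.lt (NT 4 4) (tauT (degT (vr 16) 4)))),
  .upd 8 16 (.mul (.arr 7 (vr 16)) (eqT (degT (vr 16) 0) (.mul (.num 2) (degT (vr 16) 4)))),
  .upd 9 16 (.mul (.arr 8 (vr 16)) (notT (eqT (vr 16) (vr 4))))]

/-- `vsQ` for `w` = variable 5 -/
def qT : T := .add (halfT (.sub (degT (vr 5) 0) (.mul (.num 2) (degT (vr 5) 3)))) (.num 1)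

/-- the flip `vs` -/
def pF2 : P := sq [
  .upd 10 16 (.mul (.arr 6 (vr 16)) (notT (adjT (vr 5) (vr 16)))),
  .upd 14 16 (.mul (.arr 10 (vr 16)) (.lt (rankT (vr 16) 10) qT)),
  .upd 15 16 (.mul (.arr 0 (vr 16)) (.add (.arr 14 (vr 16)) (eqT (vr 16) (vr 5)))),
  .upd 11 16 (.mul (.arr 9 (vr 16)) (notT (.sum 15 (.mul (.arr 15 (vr 15))
    (notT (adjT (vr 15) (vr 16))))))),
  .upd 13 16 (.mul (.arr 11 (vr 16)) (.lt (rankT (vr 16) 11) qT)),
  .upd 12 16 (.add (.mul (.arr 3 (vr 16)) (notT (.arr 15 (vr 16)))) (.arr 13 (vr 16)))]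

/-- the flip of `S1` and a window -/
def pF3 : P := sq [
  .upd 14 16 (.mul (.arr 5 (vr 16)) (notT (.arr 6 (vr 16)))),
  .upd 11 16 (.mul (.arr 9 (vr 16)) (.lt (.sum 15 (.mul (.arr 9 (vr 15))
    (.add (.mul (.mul (.lt (vr 5) (.add (vr 16) (.num 1))) (.lt (vr 5) (.add (vr 15) (.num 1))))
      (.lt (vr 15) (vr 16)))
    (.mul (.lt (vr 16) (vr 5)) (.add (.lt (vr 5) (.add (vr 15) (.num 1)))
      (.lt (vr 15) (vr 16))))))) (.sub (cardT 14) (.num 1)))),
  .upd 12 16 (.add (.mul (.arr 3 (vr 16)) (notT (.arr 14 (vr 16)))) (.arr 11 (vr 16)))]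

/-- the greedy candidate -/
def pF4 : P := sq [
  .upd 14 16 (.mul (.arr 3 (vr 16)) (notT (.arr 5 (vr 16)))),
  .loop 5 (sq [
    .upd 11 16 (.mul (.arr 3 (vr 16)) (.add (notT (.arr 14 (vr 16))) (eqT (vr 16) (vr 5)))),
    .ite (.mul (.arr 14 (vr 5)) (.lt (NT 11 11) (tauT (.num 0))))
      (.upd 14 16 (.mul (.arr 14 (vr 16)) (notT (eqT (vr 16) (vr 5))))) .skip]),
  .upd 12 16 (.mul (.arr 3 (vr 16)) (notT (.arr 14 (vr 16))))]

/-- the candidate for the sparse side -/
def pF5 : P := sq [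
  .upd 10 16 (.mul (.arr 0 (vr 16)) (.add (.arr 5 (vr 16)) (.arr 7 (vr 16)))),
  .upd 14 16 (.mul (.arr 10 (vr 16)) (.sum 15 (.mul (.mul (.arr 10 (vr 15))
    (notT (eqT (vr 15) (vr 16)))) (notT (adjT (vr 16) (vr 15)))))),
  .upd 15 16 (.mul (.arr 10 (vr 16)) (notT (.arr 14 (vr 16)))),
  .upd 12 16 (.add (.arr 14 (vr 16)) (.mul (.arr 15 (vr 16))
    (.lt (rankT (vr 16) 15) (.sub (cardT 5) (cardT 14)))))]

/-- one pass -/
def pPass : P := .seq
  (.loop 2 (.loop 3 (.loop 4 (.loop 5 (.seq pF1 pCons)))))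
  (.loop 2 (.loop 3 (.loop 4 (.seq (.seq (.seq pSet pF5) pCons) (.seq (.seq (.seq pSet pF4) pCons)
    (.seq (.loop 5 (.seq (.seq pSet pF2) pCons)) (.loop 5 (.seq (.seq pSet pF3) pCons))))))))

/-- the whole program -/
def pMain : P := .seq pV (.loop 0 (.loop 1 pPass))

end Pool.Agent.helper81.JB
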