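import Pool.Agent.helper81.JB.AlgT2

/-!
# JB-AlgS: what a program piece does to the current cut and to the output

`Inv n A`: array 0 is the full vertex set, arrays 1 (`U`) and 2 (`O`) have no entries `≥ n`.
`Srch G w p Φ`: running `p` never decreases the cut `U`, never spoils a good output, and if the cut value
does not increase then `U` is unchanged, and every set `F` of the family `Φ ρ U` has been considered:
it is not a larger cut, and if it is good then the output is good afterwards.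

* `run_cons`: unfold `pCons`, `sq`, `run`; arrays 13 and 11 are `Fᶜ` and `Uᶜ`
  (`fs_upd`, `val_arr`, `val_notT`), the conditions are `2 * E F < 2 * τ + 1`, `2 * E Fᶜ < 2 * τ + 1`
  (`val_NT`, `two_E`) and `cut U < cut F`.
* `srch_seq`: if the cut value after `p; q` is not larger than at the start then the same holds for `p` and
  for `q` separately.  `srch_loop`: induction on the number of rounds (`down`), `i ≠ 0` so `ρ 0` is
  not changed.
* `srch_piece`: `run_cons`.
-/

set_option autoImplicit false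

open Finset

namespace Pool.Agent.helper81.JB

open Pool.Agent.helper81.LC (Tm Pr val run b2n down)
open Function (update)

/-- the invariants of the state -/
structure Inv (n : ℕ) (A : Fin 16 → ℕ → Bool) : Prop where
  all : fs n A 0 = univ
  s0 : Sup n A 0
  s1 : Sup n A 1
  s2 : Sup n A 2

variable {n : ℕ} {G : SimpleGraph (Fin n)} {w : List Bool}

/-- the value of a cut -/
noncomputable def cutN (G : SimpleGraph (Fin n)) (X : Finset (Fin n)) : ℤ := N G X Xᶜ

/-- at most `τ` edges inside each class -/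
def good (G : SimpleGraph (Fin n)) (τ : ℤ) (X : Finset (Fin n)) : Prop :=
  E G X ≤ τ ∧ E G Xᶜ ≤ τ

/-- families of sets depending on the variables and on the current cut -/
abbrev Fam (n : ℕ) : Type := (Fin 20 → ℕ) → Finset (Fin n) → Finset (Fin n) → Prop

/-- `p` searches the family `Φ` -/
def Srch (G : SimpleGraph (Fin n)) (w : List Bool) (p : P) (Φ : Fam n) : Prop :=
  ∀ (ρ : Fin 20 → ℕ) (A : Fin 16 → ℕ → Bool), Inv n A →
    Inv n (run w p ρ A) ∧
    cutN G (fs n A 1) ≤ cutN G (fs n (run w p ρ A) 1) ∧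
    (∀ σ : ℤ, (ρ 0 : ℤ) ≤ σ → good G σ (fs n A 2) → good G σ (fs n (run w p ρ A) 2)) ∧
    (cutN G (fs n (run w p ρ A) 1) ≤ cutN G (fs n A 1) →
      fs n (run w p ρ A) 1 = fs n A 1 ∧
      ∀ F, Φ ρ (fs n A 1) F → cutN G F ≤ cutN G (fs n A 1) ∧
        (good G (ρ 0) F → good G (ρ 0) (fs n (run w p ρ A) 2)))

/-- `p` computes the sets of the family `Φ` in array 12 -/
def Comp (G : SimpleGraph (Fin n)) (w : List Bool) (p : P) (Φ : Fam n) : Prop :=
  ∀ (ρ : Fin 20 → ℕ) (A : Fin 16 → ℕ → Bool), Inv n A →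
    Inv n (run w p ρ A) ∧ fs n (run w p ρ A) 1 = fs n A 1 ∧
    fs n (run w p ρ A) 2 = fs n A 2 ∧ Sup n (run w p ρ A) 12 ∧
    ∀ F, Φ ρ (fs n A 1) F → fs n (run w p ρ A) 12 = F

theorem good_mono {σ τ : ℤ} (h : τ ≤ σ) {X : Finset (Fin n)} (hX : good G τ X) :
    good G σ X := ⟨hX.1.trans h, hX.2.trans h⟩

theorem srch_seq {p q : P} {Φ Ψ : Fam n} (hp : Srch G w p Φ) (hq : Srch G w q Ψ) :
    Srch G w (.seq p q) fun ρ U F => Φ ρ U F ∨ Ψ ρ U F := by
  intro ρ A hA
  obtain ⟨I1, c1, g1, s1⟩ := hp ρ A hA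
  obtain ⟨I2, c2, g2, s2⟩ := hq ρ (run w p ρ A) I1
  have e : run w (.seq p q) ρ A = run w q ρ (run w p ρ A) := rfl
  rw [e]
  refine ⟨I2, c1.trans c2, fun σ hσ hg => g2 σ hσ (g1 σ hσ hg), fun hle => ?_⟩
  obtain ⟨e1, f1⟩ := s1 (c2.trans hle)
  obtain ⟨e2, f2⟩ := s2 (hle.trans c1)
  refine ⟨e2.trans e1, fun F hF => ?_⟩
  rcases hF with hF | hF
  · obtain ⟨h1, h2⟩ := f1 F hF
    exact ⟨h1, fun hg => g2 _ le_rfl (h2 hg)⟩
  · rw [← e1] at hF ⊢
    exact f2 F hF

theorem srch_loop {p : P} {Φ : Fam n} {i : Fin 20} (hi : i ≠ 0) (hp : Srch G w p Φ) :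
    Srch G w (.loop i p) fun ρ U F => ∃ x < w.length, Φ (update ρ i x) U F := by
  intro ρ
  have h0 : ∀ x : ℕ, (update ρ i x) 0 = ρ 0 := fun x => Function.update_of_ne (Ne.symm hi) x ρ
  have key : ∀ (N : ℕ) (A : Fin 16 → ℕ → Bool), Inv n A →
      Inv n (down (fun x A' => run w p (update ρ i x) A') N A) ∧
      cutN G (fs n A 1) ≤
        cutN G (fs n (down (fun x A' => run w p (update ρ i x) A') N A) 1) ∧
      (∀ σ : ℤ, (ρ 0 : ℤ) ≤ σ → good G σ (fs n A 2) →
        good G σ (fs n (down (fun x A' => run w p (update ρ i x) A') N A) 2)) ∧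
      (cutN G (fs n (down (fun x A' => run w p (update ρ i x) A') N A) 1) ≤ cutN G (fs n A 1) →
        fs n (down (fun x A' => run w p (update ρ i x) A') N A) 1 = fs n A 1 ∧
        ∀ F, (∃ x < N, Φ (update ρ i x) (fs n A 1) F) → cutN G F ≤ cutN G (fs n A 1) ∧
          (good G (ρ 0) F →
            good G (ρ 0) (fs n (down (fun x A' => run w p (update ρ i x) A') N A) 2))) := by
    intro N
    induction N with
    | zero =>
      intro A hA
      refine ⟨hA, le_rfl, fun σ _ hg => hg, fun _ => ⟨rfl, ?_⟩⟩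
      rintro F ⟨x, hx, _⟩
      exact absurd hx (Nat.not_lt_zero x)
    | succ N ih =>
      intro A hA
      obtain ⟨I1, c1, g1, s1⟩ := hp (update ρ i N) A hA
      obtain ⟨I2, c2, g2, s2⟩ := ih (run w p (update ρ i N) A) I1
      rw [h0] at g1 s1
      have e : down (fun x A' => run w p (update ρ i x) A') (N + 1) A =
          down (fun x A' => run w p (update ρ i x) A') N (run w p (update ρ i N) A) := rfl
      rw [e]
      refine ⟨I2, c1.trans c2, fun σ hσ hg => g2 σ hσ (g1 σ hσ hg), fun hle => ?_⟩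
      obtain ⟨e1, f1⟩ := s1 (c2.trans hle)
      obtain ⟨e2, f2⟩ := s2 (hle.trans c1)
      refine ⟨e2.trans e1, ?_⟩
      rintro F ⟨x, hx, hF⟩
      by_cases hxN : x = N
      · subst hxN
        obtain ⟨h1, h2⟩ := f1 F hF
        exact ⟨h1, fun hg => g2 _ le_rfl (h2 hg)⟩
      · rw [← e1] at hF ⊢
        exact f2 F ⟨x, by omega, hF⟩
  intro A hA
  exact key w.length A hA

theorem srch_mono {p : P} {Φ Ψ : Fam n} (hp : Srch G w p Φ)
    (h : ∀ ρ U F, Ψ ρ U F → Φ ρ U F) : Srch G w p Ψ := by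
  intro ρ A hA
  obtain ⟨I1, c1, g1, s1⟩ := hp ρ A hA
  refine ⟨I1, c1, g1, fun hle => ?_⟩
  obtain ⟨e1, f1⟩ := s1 hle
  exact ⟨e1, fun F hF => f1 F (h _ _ _ hF)⟩

end Pool.Agent.helper81.JB
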