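import Pool.Agent.helper81.JB.AlgR1

/-!
# JB-AlgR2: the greedy set, and stuck states

`hU`, `hb`, `W` as in `AlgR1.lean`.
* `grd_min`: when `v` was treated (round `k = v.val`) it was not removed from the set `S'` of that moment, so
  `E (W \ S'.erase v) > τ`; the final set is contained in `S'`, `E_mono`.
* `stk_fm`: `loc_of_flip`, `flip_fm`; `mv`: `W.erase v` is `symmDiff W {v}`, it or its complement is in the
  family, so not good; `(W.erase v)ᶜ = insert v Wᶜ`. `mn`: `S = grd G τ W (n * n) (W \ Bg G τ W)`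
  (`grd_subset`, `grd_le`, `grd_min`), `f4 G τ W` is not good and `(W \ S)ᶜ = Wᶜ ∪ S`
  (`W = Wv a 0 u U` for any vertex `u`).
* `stk_fm_sw`: the same for `sw W u = Wv a 1 u U`, `u ∈ Zr G τ W`: `E (sw W u) ≥ τ + 1` by `E_sw`, `deg_out`.
-/

set_option autoImplicit false

open Finset

namespace Pool.Agent.helper81.JB

variable {n : ℕ} {G : SimpleGraph (Fin n)} {τ L : ℤ} {U W : Finset (Fin n)} {u : Fin n}

theorem grd_subset (k : ℕ) (S : Finset (Fin n)) : grd G τ W k S ⊆ S := by
  classical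
  induction k generalizing S with
  | zero => exact Subset.rfl
  | succ k ih =>
    unfold grd
    split_ifs with hc
    · exact (ih _).trans (filter_subset _ _)
    · exact ih _

theorem grd_le (k : ℕ) {S : Finset (Fin n)} (h : E G (W \ S) ≤ τ) :
    E G (W \ grd G τ W k S) ≤ τ := by
  classical
  induction k generalizing S with
  | zero => exact h
  | succ k ih =>
    unfold grd
    split_ifs with hc
    · exact ih hc.2
    · exact ih h

theorem AlgR2_grd_min (k : ℕ) {S : Finset (Fin n)} {v : Fin n} (hk : v.val < k)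
    (hv : v ∈ grd G τ W k S) : τ + 1 ≤ E G (W \ (grd G τ W k S).erase v) := by
  classical
  induction k generalizing S with
  | zero => exact absurd hk (Nat.not_lt_zero _)
  | succ k ih =>
    unfold grd at hv ⊢
    split_ifs at hv ⊢ with hc
    · by_cases hvk : v.val = k
      · have h1 := grd_subset k _ hv
        rw [mem_filter] at h1
        exact absurd hvk h1.2
      · exact ih (by omega) hv
    · by_cases hvk : v.val = k
      · have h1 := grd_subset k _ hv
        have h2 : ¬ E G (W \ S.filter fun v => v.val ≠ k) ≤ τ := fun h3 => hc ⟨⟨v, h1, hvk⟩, h3⟩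
        have h3 : (S.filter fun v => v.val ≠ k) = S.erase v := by
          ext z
          rw [mem_filter, mem_erase]
          constructor
          · rintro ⟨h4, h5⟩
            exact ⟨fun h6 => h5 (h6 ▸ hvk), h4⟩
          · rintro ⟨h4, h5⟩
            exact ⟨h5, fun h6 => h4 (Fin.ext (h6.trans hvk.symm))⟩
        rw [h3] at h2
        have h4 : W \ S.erase v ⊆ W \ (grd G τ W k S).erase v :=
          sdiff_subset_sdiff Subset.rfl (erase_subset_erase v (grd_subset k S))
        have h5 := E_mono G h4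
        omega
      · exact ih (by omega) hv

theorem grd_min {S : Finset (Fin n)} {v : Fin n}
    (hv : v ∈ grd G τ W (n * n) S) : τ + 1 ≤ E G (W \ (grd G τ W (n * n) S).erase v) := by
  refine AlgR2_grd_min (n * n) ?_ hv
  have h1 := v.isLt
  have h2 : n * 1 ≤ n * n := Nat.mul_le_mul_left n (by omega)
  omega

theorem AlgR2_not_good (hn : 2 ≤ n) (hb : ∀ F ∈ Fm G τ U, ¬ good G τ F) (hW : W = U ∨ W = Uᶜ)
    {D : Finset (Fin n)} (hD : D.card ≤ 4) : ¬ good G τ (symmDiff W D) := by
  obtain ⟨p, hp, q, hq, r, hr, s, hs, he⟩ := f1_eq hn U D hD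
  have h1 : ¬ good G τ (symmDiff U D) := by
    refine hb _ (Or.inl ⟨p, hp, q, hq, r, hr, s, hs, he.symm⟩)
  rcases hW with rfl | rfl
  · exact h1
  · have h2 : symmDiff Uᶜ D = (symmDiff U D)ᶜ := by
      ext z
      simp only [mem_symmDiff, mem_compl]
      tauto
    rw [h2, good_compl]
    exact h1

theorem AlgR2_mn (hb : ∀ F ∈ Fm G τ U, ¬ good G τ F) {a b : ℕ} (ha : a < n * n) (hb' : b < n * n)
    {c : Fin n} (hB : E G (Bg G τ (Wv a b c.val U)) ≤ τ) :
    ∃ S ⊆ Wv a b c.val U \ Bg G τ (Wv a b c.val U), E G (Wv a b c.val U \ S) ≤ τ ∧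
      (∀ v ∈ S, τ + 1 ≤ E G (Wv a b c.val U \ S.erase v)) ∧
      τ + 1 ≤ E G ((Wv a b c.val U)ᶜ ∪ S) := by
  obtain ⟨X, hX⟩ : ∃ X, X = Wv a b c.val U := ⟨_, rfl⟩
  have hf : ¬ good G τ (f4 G τ X) := by
    rw [hX]
    exact hb _ (Or.inr ⟨a, ha, b, hb', c, Or.inr (Or.inl rfl)⟩)
  rw [← hX] at hB ⊢
  have h0 : E G (X \ (X \ Bg G τ X)) ≤ τ := by
    rw [Finset.sdiff_sdiff_eq_self Bg_subset]
    exact hB
  have h1 := grd_le (n * n) h0
  refine ⟨grd G τ X (n * n) (X \ Bg G τ X), grd_subset _ _, h1, fun v hv => grd_min hv, ?_⟩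
  have h2 : (X \ grd G τ X (n * n) (X \ Bg G τ X))ᶜ = Xᶜ ∪ grd G τ X (n * n) (X \ Bg G τ X) := by
    ext z
    simp only [mem_compl, mem_sdiff, mem_union, not_and, not_not]
    tauto
  by_contra hcon
  apply hf
  unfold f4 good
  refine ⟨h1, ?_⟩
  rw [h2]
  omega

theorem AlgR2_exists_Wv (hn : 2 ≤ n) (hW : W = U ∨ W = Uᶜ) : ∃ a < n * n, ∀ c : ℕ,
    Wv a 0 c U = W := by
  have h2 : 2 * 2 ≤ n * n := Nat.mul_le_mul hn hn
  rcases hW with rfl | rfl
  · exact ⟨0, by omega, fun c => Wv_zero c⟩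
  · exact ⟨1, by omega, fun c => Wv_compl c⟩

theorem stk_fm (hn : 2 ≤ n) (hU : ∀ F ∈ Fm G τ U, cutN G F ≤ cutN G U)
    (hb : ∀ F ∈ Fm G τ U, ¬ good G τ F) (hW : W = U ∨ W = Uᶜ)
    (ht : N G univ univ = 2 * (4 * τ - L)) (hE : τ + 1 ≤ E G W) : Stk G τ L W := by
  have hnn : 2 * 2 ≤ n * n := Nat.mul_le_mul hn hn
  refine ⟨loc_of_flip G fun S hS R hR hc => flip_fm hn hU hW hS hR hc, ht, hE, ?_, ?_⟩
  · intro v hv h1
    have h2 := AlgR2_not_good (D := {v}) hn hb hW (by simp)
    have h3 : symmDiff W {v} = W.erase v := by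
      ext z
      simp only [mem_symmDiff, mem_singleton, mem_erase]
      constructor
      · rintro (⟨h4, h5⟩ | ⟨h4, h5⟩)
        · exact ⟨h5, h4⟩
        · exact absurd (h4 ▸ hv) h5
      · rintro ⟨h4, h5⟩
        exact Or.inl ⟨h5, h4⟩
    have h4 : (W.erase v)ᶜ = insert v Wᶜ := by
      ext z
      simp only [mem_compl, mem_erase, mem_insert, not_and]
      tauto
    by_contra hcon
    apply h2
    rw [h3]
    refine ⟨h1, ?_⟩
    rw [h4]
    omega
  · intro hB
    obtain ⟨a, ha, hWv⟩ := AlgR2_exists_Wv hn hW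
    have hc : 0 < n := by omega
    have h1 := AlgR2_mn (c := ⟨0, hc⟩) hb ha (show 0 < n * n by omega)
    rw [hWv] at h1
    exact h1 hB

theorem stk_fm_sw (hn : 2 ≤ n) (hU : ∀ F ∈ Fm G τ U, cutN G F ≤ cutN G U)
    (hb : ∀ F ∈ Fm G τ U, ¬ good G τ F) (hW : W = U ∨ W = Uᶜ)
    (ht : N G univ univ = 2 * (4 * τ - L)) (hE : τ + 1 ≤ E G W) (hu : u ∈ Zr G τ W) :
    Stk G τ L (sw W u) := by
  have hnn : 2 * 2 ≤ n * n := Nat.mul_le_mul hn hn
  have hS := stk_fm hn hU hb hW ht hE
  obtain ⟨huB, hal⟩ := mem_Zr.1 hu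
  have huW : u ∈ W := Bg_subset huB
  refine ⟨loc_of_flip G fun S hS R hR hc => flip_fm_sw hn hU hW huW hal hS hR hc, ht, ?_, ?_, ?_⟩
  · have h1 := E_sw G huW
    have h2 := deg_out hS huB
    omega
  · intro v hv h1
    by_cases hvu : v = u
    · have h2 : insert v (sw W u)ᶜ = W := by
        rw [hvu, sw_compl, insert_erase huW]
      rw [h2]
      exact hE
    · have hvW : v ∉ W := by
        unfold sw at hv
        rcases mem_insert.1 hv with h2 | h2
        · exact absurd h2 hvu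
        · exact mem_compl.1 h2
      have h2 := AlgR2_not_good (D := {u, v}) hn hb hW ((card_le_two).trans (by norm_num))
      have h3 : symmDiff W {u, v} = insert v (sw W u)ᶜ := by
        rw [sw_compl]
        ext z
        simp only [mem_symmDiff, mem_singleton, mem_insert, mem_erase]
        constructor
        · rintro (⟨h4, h5⟩ | ⟨h4 | h4, h5⟩)
          · push Not at h5
            exact Or.inr ⟨h5.1, h4⟩
          · exact absurd (h4 ▸ huW) h5
          · exact Or.inl h4
        · rintro (h4 | ⟨h4, h5⟩)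
          · exact Or.inr ⟨Or.inr h4, fun h5 => hvW (h4 ▸ h5)⟩
          · refine Or.inl ⟨h5, ?_⟩
            rintro (h6 | h6)
            · exact h4 h6
            · exact hvW (h6 ▸ h5)
      have h4 : (insert v (sw W u)ᶜ)ᶜ = (sw W u).erase v := by
        ext z
        simp only [mem_compl, mem_erase, mem_insert, not_or, not_not]
      by_contra hcon
      apply h2
      rw [h3]
      refine ⟨by omega, ?_⟩
      rw [h4]
      exact h1
  · intro hB
    obtain ⟨a, ha, hWv⟩ := AlgR2_exists_Wv hn hW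
    have h1 := AlgR2_mn (c := u) hb ha (show 1 < n * n by omega)
    rw [Wv_one, hWv] at h1
    exact h1 hB

end Pool.Agent.helper81.JB
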