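import Pool.Agent.helper81.JB.AlgF

/-!
# JB-AlgF1: the piece `pF1` computes the set `f1`

Unfold the piece and `run`, use `run_set` (AlgW) for the state after `pSet`, and `fs_upd`, `sup_upd`,
`val_*` for the following updates (name the state after each update).  The family is functional
(`F = f ...`), so `Comp` says that array 12 holds `f ...` whenever the parameters are vertices.
* `comp1`: the term is `1` iff the sum is 1, 3 or 5; the sum is at most 5.
-/

set_option autoImplicit false

open Finset

namespace Pool.Agent.helper81.JB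

open Pool.Agent.helper81.LC (Tm Pr val run b2n down)
open Function (update)

variable {n : ℕ} {G : SimpleGraph (Fin n)} {w : List Bool}

/-- value of a product -/
theorem AlgF1_mul {A : Fin 16 → ℕ → Bool} {ρ : Fin 20 → ℕ} (s t : T) :
    val w A ρ (.mul s t) = val w A ρ s * val w A ρ t := rfl

/-- value of a sum of two terms -/
theorem AlgF1_add {A : Fin 16 → ℕ → Bool} {ρ : Fin 20 → ℕ} (s t : T) :
    val w A ρ (.add s t) = val w A ρ s + val w A ρ t := rfl

/-- value of a constant -/
theorem AlgF1_num {A : Fin 16 → ℕ → Bool} {ρ : Fin 20 → ℕ} (c : ℕ) :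
    val w A ρ (.num c) = c := rfl

/-- the sum of five bits is odd iff it is 1, 3 or 5 -/
theorem AlgF1_key (a b c d e : ℕ) (ha : a ≤ 1) (hb : b ≤ 1) (hc : c ≤ 1) (hd : d ≤ 1)
    (he : e ≤ 1) :
    0 < 1 * ((if a + b + c + d + e = 1 then 1 else 0) + (if a + b + c + d + e = 3 then 1 else 0) +
      (if a + b + c + d + e = 5 then 1 else 0)) ↔ (a + b + c + d + e) % 2 = 1 := by
  split_ifs <;> omega

theorem comp1 (h : Enc G w) : Comp G w pF1 Φ1 := by
  intro ρ A hA
  have hzero : ∀ x, n ≤ x → val w A (update ρ 16 x) (.arr 0 (vr 16)) = 0 := fun x hx =>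
    val_arr_of_sup hA.s0 (by simpa [LC.val] using hx)
  refine ⟨⟨?_, ?_, ?_, ?_⟩, ?_, ?_, ?_, ?_⟩
  · rw [pF1, fs_upd_ne (by decide)]
    exact hA.all
  · rw [pF1, sup_upd_ne (by decide)]
    exact hA.s0
  · rw [pF1, sup_upd_ne (by decide)]
    exact hA.s1
  · rw [pF1, sup_upd_ne (by decide)]
    exact hA.s2
  · rw [pF1, fs_upd_ne (by decide)]
  · rw [pF1, fs_upd_ne (by decide)]
  · refine sup_upd _ _ _ fun x hx => ?_
    simp only [LC.val] at hzero ⊢
    rw [hzero x hx, Nat.zero_mul]
  · intro F hF
    rw [hF, pF1, fs_upd h]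
    ext v
    have h0 : val w A (update ρ 16 v.val) (.arr 0 (vr 16)) = 1 := by
      rw [val_arr h (v := v) (by simp [LC.val]), hA.all]
      simp
    have h1 : val w A (update ρ 16 v.val) (.arr 1 (vr 16)) = if v ∈ fs n A 1 then 1 else 0 :=
      val_arr h (v := v) (by simp [LC.val])
    have he : ∀ i : Fin 20, i ≠ 16 → val w A (update ρ 16 v.val) (eqT (vr 16) (vr i)) =
        if v.val = ρ i then 1 else 0 := by
      intro i hi
      rw [val_eqT]
      simp [LC.val, Function.update_of_ne hi]
    simp only [f1, mem_filter, mem_univ, true_and]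
    simp only [AlgF1_mul, AlgF1_add, h0, h1, val_eqT, AlgF1_num]
    have e2 := he 2 (by decide)
    have e3 := he 3 (by decide)
    have e4 := he 4 (by decide)
    have e5 := he 5 (by decide)
    simp only [val_eqT] at e2 e3 e4 e5
    rw [e2, e3, e4, e5]
    exact AlgF1_key _ _ _ _ _ (by split_ifs <;> omega) (by split_ifs <;> omega)
      (by split_ifs <;> omega) (by split_ifs <;> omega) (by split_ifs <;> omega)

end Pool.Agent.helper81.JB
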