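import Pool.Agent.helper81.JB.AlgF

/-!
# JB-AlgF2: the piece `pF2` computes the set `f2`

Unfold the piece and `run`, use `run_set` (AlgW) for the state after `pSet`, and `fs_upd`, `sup_upd`,
`val_*` for the following updates (name the state after each update).  The family is functional
(`F = f ...`), so `Comp` says that array 12 holds `f ...` whenever the parameters are vertices.
* `comp2`: array 10 `Xn`, array 14 `vsX` (`val_rankT`, `val_halfT`, `qT` is `vsQ`: `degT (vr 5) 0` is
  `N {w} univ`, the natural subtraction is `Int.toNat` of the difference; its half is `≤ n ≤ n * n`),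
  array 15 `insert w X`, array 11 `Cn`, array 13 `vsT`.
-/

set_option autoImplicit false

open Finset

namespace Pool.Agent.helper81.JB

open Pool.Agent.helper81.LC (Tm Pr val run b2n down)
open Function (update)

variable {n : ℕ} {G : SimpleGraph (Fin n)} {w : List Bool}

section AlgF2

variable {A : Fin 16 → ℕ → Bool} {ρ : Fin 20 → ℕ}

theorem algF2_mul (s t : T) : val w A ρ (.mul s t) = val w A ρ s * val w A ρ t := rfl

theorem algF2_add (s t : T) : val w A ρ (.add s t) = val w A ρ s + val w A ρ t := rfl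

theorem algF2_sub (s t : T) : val w A ρ (.sub s t) = val w A ρ s - val w A ρ t := rfl

theorem algF2_num (c : ℕ) : val w A ρ (.num c) = c := rfl

theorem algF2_var (i : Fin 20) : val w A ρ (.var i) = ρ i := rfl

theorem algF2_lt (s t : T) : val w A ρ (.lt s t) = if val w A ρ s < val w A ρ t then 1 else 0 :=
  rfl

theorem algF2_sum (i : Fin 20) (t : T) : val w A ρ (.sum i t) =
    ∑ x ∈ range w.length, val w A (update ρ i x) t := rfl

theorem algF2_seq (p q : P) : run w (.seq p q) ρ A = run w q ρ (run w p ρ A) := rfl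

/-- a product of an indicator and a number is positive -/
theorem algF2_pos_mul {p : Prop} [Decidable p] {x : ℕ} :
    0 < (if p then 1 else 0) * x ↔ p ∧ 0 < x := by
  by_cases hp : p <;> simp [hp]

theorem algF2_pos_not {x : ℕ} : 0 < (if x = 0 then 1 else 0) ↔ x = 0 := by
  by_cases hx : x = 0 <;> simp [hx]

theorem algF2_pos_if {p : Prop} [Decidable p] : 0 < (if p then 1 else 0) ↔ p := by
  by_cases hp : p <;> simp [hp]

theorem algF2_if_zero {p : Prop} [Decidable p] : (if p then 1 else 0) = 0 ↔ ¬ p := by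
  by_cases hp : p <;> simp [hp]

theorem algF2_N_le (x : Fin n) (W : Finset (Fin n)) : N G {x} W ≤ n := by
  classical
  unfold N
  rw [sum_singleton]
  calc ∑ b ∈ W, ind G x b ≤ ∑ b ∈ W, (1 : ℤ) := by
        refine sum_le_sum fun b _ => ?_
        unfold ind
        split <;> simp
    _ = (W.card : ℤ) := by simp
    _ ≤ n := by
        have := card_le_univ W
        rw [Fintype.card_fin] at this
        exact_mod_cast this

theorem algF2_N_nonneg (x : Fin n) (W : Finset (Fin n)) : 0 ≤ N G {x} W := by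
  classical
  unfold N
  rw [sum_singleton]
  refine sum_nonneg fun b _ => ?_
  unfold ind
  split <;> simp

/-- the value of `qT` -/
theorem algF2_val_qT (h : Enc G w) (h0 : fs n A 0 = univ) (s0 : Sup n A 0) (s3 : Sup n A 3)
    {x : Fin n} (hx : ρ 5 = x.val) : val w A ρ qT = vsQ G (fs n A 3) x := by
  have key : ∀ y, val w A (update ρ 14 y) (.sub (degT (vr 5) 0) (.mul (.num 2) (degT (vr 5) 3))) =
      (N G {x} univ - 2 * N G {x} (fs n A 3)).toNat := by
    intro y
    have h1 := val_degT (A := A) (ρ := update ρ 14 y) h s0 (x := vr 5) (i := x) (by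
      intro z
      show update (update ρ 14 y) 18 z 5 = x.val
      simpa using hx)
    have h2 := val_degT (A := A) (ρ := update ρ 14 y) h s3 (x := vr 5) (i := x) (by
      intro z
      show update (update ρ 14 y) 18 z 5 = x.val
      simpa using hx)
    rw [h0] at h1
    rw [algF2_sub, algF2_mul, algF2_num, ← h1, ← h2]
    omega
  unfold qT vsQ
  rw [algF2_add, algF2_num, val_halfT key]
  have h3 := algF2_N_le (G := G) x univ
  have h4 := algF2_N_nonneg (G := G) x (fs n A 3)
  have hn : 1 ≤ n := by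
    have := x.isLt
    omega
  rw [h.len]
  have h5 : n ≤ n * n := Nat.le_mul_of_pos_left n hn
  omega

/-- the value of `firstk` in a program -/
theorem algF2_firstk (h : Enc G w) (h0 : fs n A 0 = univ) (s0 : Sup n A 0) (s3 : Sup n A 3)
    {a : Fin 16} (sa : Sup n A a) {x : Fin n} (hx : ρ 5 = x.val) (b : Fin 16) :
    fs n (run w (.upd b 16 (.mul (.arr a (vr 16)) (.lt (rankT (vr 16) a) qT))) ρ A) b =
      firstk (fs n A a) (vsQ G (fs n A 3) x) := by
  rw [fs_upd h]
  unfold firstk
  ext v
  simp only [mem_filter, mem_univ, true_and]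
  rw [algF2_mul, val_arr h (v := v) (by simp [algF2_var]), algF2_lt,
    val_rankT h sa (x := vr 16) (i := v) (by intro y; simp [algF2_var]),
    algF2_val_qT h h0 s0 s3 (x := x) (by simpa using hx), algF2_pos_mul, algF2_pos_if]

/-- an array which is a subset of an array without entries `≥ n` -/
theorem algF2_sup (a b : Fin 16) (sa : Sup n A a) (t : T) :
    Sup n (run w (.upd b 16 (.mul (.arr a (vr 16)) t)) ρ A) b := by
  refine sup_upd _ _ _ fun x hx => ?_
  rw [algF2_mul, val_arr_of_sup sa (by simpa [algF2_var] using hx), zero_mul]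

end AlgF2

theorem comp2 (h : Enc G w) : Comp G w (.seq pSet pF2) (Φ2 G) := by
  classical
  intro ρ A hA
  obtain ⟨hI, hf1, hf2, hS, hset⟩ := run_set (ρ := ρ) h hA
  rw [algF2_seq]
  set B := run w pSet ρ A with hB
  -- the states after the six updates
  let B1 := run w (.upd 10 16 (.mul (.arr 6 (vr 16)) (notT (adjT (vr 5) (vr 16))))) ρ B
  let B2 := run w (.upd 14 16 (.mul (.arr 10 (vr 16)) (.lt (rankT (vr 16) 10) qT))) ρ B1
  let B3 := run w (.upd 15 16 (.mul (.arr 0 (vr 16)) (.add (.arr 14 (vr 16))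
    (eqT (vr 16) (vr 5))))) ρ B2
  let B4 := run w (.upd 11 16 (.mul (.arr 9 (vr 16)) (notT (.sum 15 (.mul (.arr 15 (vr 15))
    (notT (adjT (vr 15) (vr 16)))))))) ρ B3
  let B5 := run w (.upd 13 16 (.mul (.arr 11 (vr 16)) (.lt (rankT (vr 16) 11) qT))) ρ B4
  let B6 := run w (.upd 12 16 (.add (.mul (.arr 3 (vr 16)) (notT (.arr 15 (vr 16))))
    (.arr 13 (vr 16)))) ρ B5
  have hrun : run w pF2 ρ B = B6 := rfl
  rw [hrun]
  -- unchanged arrays
  have e1 : ∀ b : Fin 16, b ≠ 10 → fs n B1 b = fs n B b := fun b hb => fs_upd_ne hb _ _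
  have e2 : ∀ b : Fin 16, b ≠ 14 → fs n B2 b = fs n B1 b := fun b hb => fs_upd_ne hb _ _
  have e3 : ∀ b : Fin 16, b ≠ 15 → fs n B3 b = fs n B2 b := fun b hb => fs_upd_ne hb _ _
  have e4 : ∀ b : Fin 16, b ≠ 11 → fs n B4 b = fs n B3 b := fun b hb => fs_upd_ne hb _ _
  have e5 : ∀ b : Fin 16, b ≠ 13 → fs n B5 b = fs n B4 b := fun b hb => fs_upd_ne hb _ _
  have e6 : ∀ b : Fin 16, b ≠ 12 → fs n B6 b = fs n B5 b := fun b hb => fs_upd_ne hb _ _
  have s1 : ∀ b : Fin 16, b ≠ 10 → (Sup n B1 b ↔ Sup n B b) := fun b hb => sup_upd_ne hb _ _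
  have s2 : ∀ b : Fin 16, b ≠ 14 → (Sup n B2 b ↔ Sup n B1 b) := fun b hb => sup_upd_ne hb _ _
  have s3 : ∀ b : Fin 16, b ≠ 15 → (Sup n B3 b ↔ Sup n B2 b) := fun b hb => sup_upd_ne hb _ _
  have s4 : ∀ b : Fin 16, b ≠ 11 → (Sup n B4 b ↔ Sup n B3 b) := fun b hb => sup_upd_ne hb _ _
  have s5 : ∀ b : Fin 16, b ≠ 13 → (Sup n B5 b ↔ Sup n B4 b) := fun b hb => sup_upd_ne hb _ _
  have s6 : ∀ b : Fin 16, b ≠ 12 → (Sup n B6 b ↔ Sup n B5 b) := fun b hb => sup_upd_ne hb _ _
  -- supports
  have u3 : Sup n B 3 := hS 3 (by decide) (by decide)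
  have u6 : Sup n B 6 := hS 6 (by decide) (by decide)
  have u9 : Sup n B 9 := hS 9 (by decide) (by decide)
  have p10 : Sup n B1 10 := algF2_sup 6 10 u6 _
  have p14 : Sup n B2 14 := algF2_sup 10 14 p10 _
  have p0 : Sup n B2 0 := (s2 0 (by decide)).2 ((s1 0 (by decide)).2 hI.s0)
  have p15 : Sup n B3 15 := algF2_sup 0 15 p0 _
  have p9 : Sup n B3 9 := (s3 9 (by decide)).2 ((s2 9 (by decide)).2 ((s1 9 (by decide)).2 u9))
  have p11 : Sup n B4 11 := algF2_sup 9 11 p9 _
  have p13 : Sup n B5 13 := algF2_sup 11 13 p11 _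
  have p3 : Sup n B5 3 := (s5 3 (by decide)).2 ((s4 3 (by decide)).2 ((s3 3 (by decide)).2
    ((s2 3 (by decide)).2 ((s1 3 (by decide)).2 u3))))
  have p12 : Sup n B6 12 := by
    refine sup_upd _ _ _ fun x hx => ?_
    rw [algF2_add, algF2_mul, val_arr_of_sup p3 (by simpa [algF2_var] using hx),
      val_arr_of_sup p13 (by simpa [algF2_var] using hx), zero_mul]
  have low : ∀ b : Fin 16, b.val < 3 → fs n B6 b = fs n B b ∧ (Sup n B6 b ↔ Sup n B b) := by
    intro b hb
    have n10 : b ≠ 10 := by rintro rfl; exact absurd hb (by decide)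
    have n11 : b ≠ 11 := by rintro rfl; exact absurd hb (by decide)
    have n12 : b ≠ 12 := by rintro rfl; exact absurd hb (by decide)
    have n13 : b ≠ 13 := by rintro rfl; exact absurd hb (by decide)
    have n14 : b ≠ 14 := by rintro rfl; exact absurd hb (by decide)
    have n15 : b ≠ 15 := by rintro rfl; exact absurd hb (by decide)
    exact ⟨by rw [e6 b n12, e5 b n13, e4 b n11, e3 b n15, e2 b n14, e1 b n10],
      by rw [s6 b n12, s5 b n13, s4 b n11, s3 b n15, s2 b n14, s1 b n10]⟩
  refine ⟨⟨by rw [(low 0 (by decide)).1, hI.all], (low 0 (by decide)).2.2 hI.s0,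
    (low 1 (by decide)).2.2 hI.s1, (low 2 (by decide)).2.2 hI.s2⟩,
    by rw [(low 1 (by decide)).1, hf1], by rw [(low 2 (by decide)).1, hf2], p12, ?_⟩
  rintro F ⟨u, x, hu, hx, rfl⟩
  have hSet := hset u hu
  unfold WW f2
  set W := Wv (ρ 2) (ρ 3) (ρ 4) (fs n A 1) with hW
  -- array 10
  have f10 : fs n B1 10 = Xn G (Zr G (ρ 0) W) x := by
    show fs n (run w (.upd 10 16 _) ρ B) 10 = _
    rw [fs_upd h]
    unfold Xn
    ext v
    simp only [mem_filter, mem_univ, true_and]
    rw [algF2_mul, val_arr h (v := v) (by simp [algF2_var]), val_notT,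
      val_adjT h (i := x) (j := v) (by simpa [algF2_var] using hx) (by simp [algF2_var]),
      algF2_pos_mul, algF2_pos_not, algF2_if_zero, hSet.a6]
  -- array 14
  have f3 : fs n B1 3 = W := by rw [e1 3 (by decide), hSet.a3]
  have f14 : fs n B2 14 = vsX G (ρ 0) W x := by
    show fs n (run w (.upd 14 16 _) ρ B1) 14 = _
    rw [algF2_firstk h (by rw [e1 0 (by decide), hI.all]) ((s1 0 (by decide)).2 hI.s0)
      ((s1 3 (by decide)).2 u3) p10 hx, f10, f3]
    rfl
  -- array 15
  have f15 : fs n B3 15 = insert x (vsX G (ρ 0) W x) := by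
    show fs n (run w (.upd 15 16 _) ρ B2) 15 = _
    rw [fs_upd h]
    ext v
    simp only [mem_filter, mem_univ, true_and, mem_insert]
    rw [algF2_mul, val_arr h (v := v) (by simp [algF2_var]), algF2_add,
      val_arr h (v := v) (by simp [algF2_var]), val_eqT, f14, algF2_pos_mul]
    have g0 : v ∈ fs n B2 0 := by rw [e2 0 (by decide), e1 0 (by decide), hI.all]; exact mem_univ v
    have g1 : val w B2 (update ρ 16 v.val) (vr 16) = v.val := by simp [algF2_var]
    have g2 : val w B2 (update ρ 16 v.val) (vr 5) = x.val := by simpa [algF2_var] using hx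
    rw [g1, g2]
    have g3 : (v.val = x.val) ↔ v = x := Fin.val_inj
    by_cases c1 : v = x
    · rw [if_pos (g3.2 c1)]
      exact ⟨fun _ => Or.inl c1, fun _ => ⟨g0, by omega⟩⟩
    · by_cases c2 : v ∈ vsX G (ρ 0) W x <;> simp [g0, c1, c2, g3]
  -- array 11
  have f9 : fs n B3 9 = Zp G (ρ 0) W u := by
    rw [e3 9 (by decide), e2 9 (by decide), e1 9 (by decide), hSet.a9]
  have f11 : fs n B4 11 = Cn G (Zp G (ρ 0) W u) (insert x (vsX G (ρ 0) W x)) := by
    show fs n (run w (.upd 11 16 _) ρ B3) 11 = _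
    rw [fs_upd h]
    unfold Cn
    ext v
    simp only [mem_filter, mem_univ, true_and]
    rw [algF2_mul, val_arr h (v := v) (by simp [algF2_var]), val_notT, algF2_pos_mul,
      algF2_pos_not, algF2_sum, f9, sum_eq_zero_iff]
    refine and_congr_right fun _ => ⟨fun hz z hz1 => ?_, fun hz y _ => ?_⟩
    · have h1 : z.val ∈ range w.length := by
        rw [mem_range, h.len]
        have := z.isLt
        exact lt_of_lt_of_le this (Nat.le_mul_of_pos_left n (by omega))
      have h2 := hz z.val h1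
      rw [algF2_mul, val_arr h (v := z) (by simp [algF2_var]), val_notT,
        val_adjT h (i := z) (j := v) (by simp [algF2_var]) (by simp [algF2_var]), f15,
        if_pos hz1, one_mul] at h2
      by_contra hna
      rw [if_neg hna, if_pos rfl] at h2
      exact one_ne_zero h2
    · rw [algF2_mul]
      by_cases hy : y < n
      · rw [val_arr h (v := ⟨y, hy⟩) (by simp [algF2_var]), val_notT,
          val_adjT h (i := ⟨y, hy⟩) (j := v) (by simp [algF2_var]) (by simp [algF2_var]), f15]
        by_cases hy1 : (⟨y, hy⟩ : Fin n) ∈ insert x (vsX G (ρ 0) W x)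
        · rw [if_pos (hz _ hy1)]
          simp
        · rw [if_neg hy1, zero_mul]
      · rw [val_arr_of_sup p15 (by simpa [algF2_var] using hy), zero_mul]
  -- array 13
  have q0 : fs n B4 0 = univ := by
    rw [e4 0 (by decide), e3 0 (by decide), e2 0 (by decide), e1 0 (by decide), hI.all]
  have q1 : Sup n B4 0 := (s4 0 (by decide)).2 ((s3 0 (by decide)).2 p0)
  have q2 : Sup n B4 3 := (s4 3 (by decide)).2 ((s3 3 (by decide)).2 ((s2 3 (by decide)).2
    ((s1 3 (by decide)).2 u3)))
  have q3 : fs n B4 3 = W := by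
    rw [e4 3 (by decide), e3 3 (by decide), e2 3 (by decide), f3]
  have f13 : fs n B5 13 = vsT G (ρ 0) W u x := by
    show fs n (run w (.upd 13 16 _) ρ B4) 13 = _
    rw [algF2_firstk h q0 q1 q2 p11 hx, f11, q3]
    rfl
  -- array 12
  show fs n (run w (.upd 12 16 _) ρ B5) 12 = _
  rw [fs_upd h]
  ext v
  simp only [mem_filter, mem_univ, true_and, mem_union, mem_sdiff]
  rw [algF2_add, algF2_mul, val_arr h (v := v) (by simp [algF2_var]), val_notT,
    val_arr h (v := v) (by simp [algF2_var]), val_arr h (v := v) (by simp [algF2_var]), f13,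
    e5 3 (by decide), q3, e5 15 (by decide), e4 15 (by decide), f15]
  by_cases c1 : v ∈ W <;> by_cases c2 : v ∈ insert x (vsX G (ρ 0) W x) <;>
    by_cases c3 : v ∈ vsT G (ρ 0) W u x <;> simp only [c1, c2, c3, if_true, if_false] <;> simp

end Pool.Agent.helper81.JB
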