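import Pool.Agent.helper81.JB.AlgF

/-!
# JB-AlgF4: the piece `pF4` computes the set `f4`

Unfold the piece and `run`, use `run_set` (AlgW) for the state after `pSet`, and `fs_upd`, `sup_upd`,
`val_*` for the following updates (name the state after each update).  The family is functional
(`F = f ...`), so `Comp` says that array 12 holds `f ...` whenever the parameters are vertices.
* `comp4`: array 14 `W \ Bg`, then the loop computes `grd` (induction, `down`): after the rounds
  `n * n - 1, …, k` array 14 holds a set `S'` with `grd k S' = grd (n * n) (W \ Bg)`.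
-/

set_option autoImplicit false

open Finset

namespace Pool.Agent.helper81.JB

open Pool.Agent.helper81.LC (Tm Pr val run b2n down)
open Function (update)

variable {n : ℕ} {G : SimpleGraph (Fin n)} {w : List Bool}

/-- difference of two arrays -/
theorem AlgF4_sdiff (h : Enc G w) {ρ : Fin 20 → ℕ} {A : Fin 16 → ℕ → Bool}
    {b : Fin 16} (hb : Sup n A b) (a c : Fin 16) :
    fs n (run w (.upd a 16 (.mul (.arr b (vr 16)) (notT (.arr c (vr 16)))) : P) ρ A) a =
        fs n A b \ fs n A c ∧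
      Sup n (run w (.upd a 16 (.mul (.arr b (vr 16)) (notT (.arr c (vr 16)))) : P) ρ A) a := by
  constructor
  · rw [fs_upd h]
    ext v
    rw [mem_filter, mem_sdiff]
    have hv : val w A (update ρ 16 v.val) (vr 16) = v.val := by
      show update ρ 16 v.val 16 = v.val
      exact Function.update_self _ _ _
    have e1 : val w A (update ρ 16 v.val) (.mul (.arr b (vr 16)) (notT (.arr c (vr 16))) : T) =
        val w A (update ρ 16 v.val) (.arr b (vr 16)) *
          val w A (update ρ 16 v.val) (notT (.arr c (vr 16))) := rfl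
    rw [e1, val_notT, val_arr h hv, val_arr h hv]
    by_cases hb : v ∈ fs n A b <;> by_cases hc : v ∈ fs n A c <;> simp [hb, hc]
  · apply sup_upd
    intro x hx
    have hv : val w A (update ρ 16 x) (vr 16) = x := by
      show update ρ 16 x 16 = x
      exact Function.update_self _ _ _
    have e1 : val w A (update ρ 16 x) (.mul (.arr b (vr 16)) (notT (.arr c (vr 16))) : T) =
        val w A (update ρ 16 x) (.arr b (vr 16)) *
          val w A (update ρ 16 x) (notT (.arr c (vr 16))) := rfl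
    rw [e1, val_arr_of_sup hb (by rw [hv]; exact hx), zero_mul]

/-- the set in array 11 -/
theorem AlgF4_upd11 (h : Enc G w) {ρ : Fin 20 → ℕ} {A : Fin 16 → ℕ → Bool}
    (hb : Sup n A 3) :
    fs n (run w (.upd 11 16 (.mul (.arr 3 (vr 16)) (.add (notT (.arr 14 (vr 16)))
        (eqT (vr 16) (vr 5)))) : P) ρ A) 11 =
        fs n A 3 \ (fs n A 14).filter (fun v => v.val ≠ ρ 5) ∧
      Sup n (run w (.upd 11 16 (.mul (.arr 3 (vr 16)) (.add (notT (.arr 14 (vr 16)))
        (eqT (vr 16) (vr 5)))) : P) ρ A) 11 := by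
  constructor
  · rw [fs_upd h]
    ext v
    rw [mem_filter, mem_sdiff, mem_filter]
    have hv : val w A (update ρ 16 v.val) (vr 16) = v.val := by
      show update ρ 16 v.val 16 = v.val
      exact Function.update_self _ _ _
    have h5 : val w A (update ρ 16 v.val) (vr 5) = ρ 5 := by
      show update ρ 16 v.val 5 = ρ 5
      exact Function.update_of_ne (by decide) _ _
    have e1 : val w A (update ρ 16 v.val) (.mul (.arr 3 (vr 16)) (.add (notT (.arr 14 (vr 16)))
        (eqT (vr 16) (vr 5))) : T) =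
        val w A (update ρ 16 v.val) (.arr 3 (vr 16)) *
          (val w A (update ρ 16 v.val) (notT (.arr 14 (vr 16))) +
            val w A (update ρ 16 v.val) (eqT (vr 16) (vr 5))) := rfl
    rw [e1, val_notT, val_eqT, val_arr h hv, val_arr h hv, hv, h5]
    by_cases hb : v ∈ fs n A 3 <;> by_cases hc : v ∈ fs n A 14 <;>
      by_cases hd : v.val = ρ 5 <;> simp [hb, hc, hd]
  · apply sup_upd
    intro x hx
    have hv : val w A (update ρ 16 x) (vr 16) = x := by
      show update ρ 16 x 16 = x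
      exact Function.update_self _ _ _
    have e1 : val w A (update ρ 16 x) (.mul (.arr 3 (vr 16)) (.add (notT (.arr 14 (vr 16)))
        (eqT (vr 16) (vr 5))) : T) =
        val w A (update ρ 16 x) (.arr 3 (vr 16)) *
          (val w A (update ρ 16 x) (notT (.arr 14 (vr 16))) +
            val w A (update ρ 16 x) (eqT (vr 16) (vr 5))) := rfl
    rw [e1, val_arr_of_sup hb (by rw [hv]; exact hx), zero_mul]

/-- the update of array 14 in the loop -/
theorem AlgF4_upd14 (h : Enc G w) {ρ : Fin 20 → ℕ} {A : Fin 16 → ℕ → Bool}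
    (hb : Sup n A 14) :
    fs n (run w (.upd 14 16 (.mul (.arr 14 (vr 16)) (notT (eqT (vr 16) (vr 5)))) : P) ρ A) 14 =
        (fs n A 14).filter (fun v => v.val ≠ ρ 5) ∧
      Sup n (run w (.upd 14 16 (.mul (.arr 14 (vr 16)) (notT (eqT (vr 16) (vr 5)))) : P) ρ A)
        14 := by
  constructor
  · rw [fs_upd h]
    ext v
    rw [mem_filter, mem_filter]
    have hv : val w A (update ρ 16 v.val) (vr 16) = v.val := by
      show update ρ 16 v.val 16 = v.val
      exact Function.update_self _ _ _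
    have h5 : val w A (update ρ 16 v.val) (vr 5) = ρ 5 := by
      show update ρ 16 v.val 5 = ρ 5
      exact Function.update_of_ne (by decide) _ _
    have e1 : val w A (update ρ 16 v.val) (.mul (.arr 14 (vr 16))
        (notT (eqT (vr 16) (vr 5))) : T) =
        val w A (update ρ 16 v.val) (.arr 14 (vr 16)) *
          val w A (update ρ 16 v.val) (notT (eqT (vr 16) (vr 5))) := rfl
    rw [e1, val_notT, val_eqT, val_arr h hv, hv, h5]
    by_cases hc : v ∈ fs n A 14 <;> by_cases hd : v.val = ρ 5 <;> simp [hc, hd]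
  · apply sup_upd
    intro x hx
    have hv : val w A (update ρ 16 x) (vr 16) = x := by
      show update ρ 16 x 16 = x
      exact Function.update_self _ _ _
    have e1 : val w A (update ρ 16 x) (.mul (.arr 14 (vr 16))
        (notT (eqT (vr 16) (vr 5))) : T) =
        val w A (update ρ 16 x) (.arr 14 (vr 16)) *
          val w A (update ρ 16 x) (notT (eqT (vr 16) (vr 5))) := rfl
    rw [e1, val_arr_of_sup hb (by rw [hv]; exact hx), zero_mul]

/-- the body of the loop -/
def AlgF4_body : P := sq [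
    .upd 11 16 (.mul (.arr 3 (vr 16)) (.add (notT (.arr 14 (vr 16))) (eqT (vr 16) (vr 5)))),
    .ite (.mul (.arr 14 (vr 5)) (.lt (NT 11 11) (tauT (.num 0))))
      (.upd 14 16 (.mul (.arr 14 (vr 16)) (notT (eqT (vr 16) (vr 5))))) .skip]

/-- the invariant of the loop -/
structure AlgF4_J (n : ℕ) (W U O : Finset (Fin n)) (A : Fin 16 → ℕ → Bool) : Prop where
  inv : Inv n A
  e1 : fs n A 1 = U
  e2 : fs n A 2 = O
  e3 : fs n A 3 = W
  s3 : Sup n A 3
  s14 : Sup n A 14

open Classical in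
/-- one round of the loop -/
theorem AlgF4_step (h : Enc G w) {ρ : Fin 20 → ℕ} {A : Fin 16 → ℕ → Bool}
    {W U O : Finset (Fin n)} (hJ : AlgF4_J n W U O A) :
    AlgF4_J n W U O (run w AlgF4_body ρ A) ∧
      fs n (run w AlgF4_body ρ A) 14 =
        if (∃ v ∈ fs n A 14, v.val = ρ 5) ∧
            E G (W \ (fs n A 14).filter fun v => v.val ≠ ρ 5) ≤ (ρ 0 : ℤ)
          then (fs n A 14).filter fun v => v.val ≠ ρ 5 else fs n A 14 := by
  set A1 := run w (.upd 11 16 (.mul (.arr 3 (vr 16)) (.add (notT (.arr 14 (vr 16)))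
    (eqT (vr 16) (vr 5)))) : P) ρ A with hA1
  set A2 := run w (.ite (.mul (.arr 14 (vr 5)) (.lt (NT 11 11) (tauT (.num 0))))
      (.upd 14 16 (.mul (.arr 14 (vr 16)) (notT (eqT (vr 16) (vr 5))))) .skip : P) ρ A1 with hA2
  have hrun : run w AlgF4_body ρ A = A2 := rfl
  rw [hrun]
  obtain ⟨e11, s11⟩ := AlgF4_upd11 h (ρ := ρ) hJ.s3
  rw [← hA1] at e11 s11
  have n1 : ∀ b : Fin 16, b ≠ 11 → fs n A1 b = fs n A b := fun b hb => fs_upd_ne hb _ _
  have m1 : ∀ b : Fin 16, b ≠ 11 → (Sup n A1 b ↔ Sup n A b) := fun b hb => sup_upd_ne hb _ _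
  have s14 : Sup n A1 14 := (m1 14 (by decide)).2 hJ.s14
  have hc : (0 < val w A1 ρ (.mul (.arr 14 (vr 5)) (.lt (NT 11 11) (tauT (.num 0))) : T)) ↔
      ((∃ v ∈ fs n A 14, v.val = ρ 5) ∧
            E G (W \ (fs n A 14).filter fun v => v.val ≠ ρ 5) ≤ (ρ 0 : ℤ)) := by
    have v1 := val_NT h (ρ := ρ) s11 s11
    rw [e11, ← two_E, hJ.e3] at v1
    have v3 : val w A1 ρ (tauT (.num 0)) = 2 * (0 + ρ 0) + 1 := val_tauT _
    have v4 : val w A1 ρ (.mul (.arr 14 (vr 5)) (.lt (NT 11 11) (tauT (.num 0))) : T) =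
        val w A1 ρ (.arr 14 (vr 5)) *
        (if val w A1 ρ (NT 11 11) < val w A1 ρ (tauT (.num 0)) then 1 else 0) := rfl
    have v5 : val w A1 ρ (.arr 14 (vr 5)) = if (∃ v ∈ fs n A 14, v.val = ρ 5) then 1 else 0 := by
      by_cases hx : ρ 5 < n
      · have hv : val w A1 ρ (vr 5) = (⟨ρ 5, hx⟩ : Fin n).val := rfl
        rw [val_arr h hv, n1 14 (by decide)]
        refine if_congr ⟨fun hm => ⟨_, hm, rfl⟩, ?_⟩ rfl rfl
        rintro ⟨v, hv, hv'⟩
        have : v = ⟨ρ 5, hx⟩ := Fin.ext hv'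
        rw [← this]
        exact hv
      · have hv : n ≤ val w A1 ρ (vr 5) := not_lt.1 hx
        rw [val_arr_of_sup s14 hv, if_neg]
        rintro ⟨v, _, hv'⟩
        exact hx (hv' ▸ v.isLt)
    rw [v4, v3, v5]
    by_cases q1 : (∃ v ∈ fs n A 14, v.val = ρ 5)
    · by_cases q2 : val w A1 ρ (NT 11 11) < 2 * (0 + ρ 0) + 1
      · simp only [q1, q2, if_true, mul_one, zero_lt_one, true_iff, true_and]
        omega
      · simp only [q1, q2, if_false, if_true, mul_zero, lt_irrefl, false_iff, true_and]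
        omega
    · simp only [q1, if_false, zero_mul, lt_irrefl, false_and]
  have r2 : A2 = if 0 < val w A1 ρ (.mul (.arr 14 (vr 5)) (.lt (NT 11 11) (tauT (.num 0))) : T)
      then run w (.upd 14 16 (.mul (.arr 14 (vr 16)) (notT (eqT (vr 16) (vr 5)))) : P) ρ A1
      else A1 := rfl
  have n2 : ∀ b : Fin 16, b ≠ 14 → fs n A2 b = fs n A1 b := by
    intro b hb
    rw [r2]
    split
    · exact fs_upd_ne hb _ _
    · rfl
  have m2 : ∀ b : Fin 16, b ≠ 14 → (Sup n A2 b ↔ Sup n A1 b) := by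
    intro b hb
    rw [r2]
    split
    · exact sup_upd_ne hb _ _
    · rfl
  refine ⟨⟨⟨?_, ?_, ?_, ?_⟩, ?_, ?_, ?_, ?_, ?_⟩, ?_⟩
  · rw [n2 0 (by decide), n1 0 (by decide), hJ.inv.all]
  · exact (m2 0 (by decide)).2 ((m1 0 (by decide)).2 hJ.inv.s0)
  · exact (m2 1 (by decide)).2 ((m1 1 (by decide)).2 hJ.inv.s1)
  · exact (m2 2 (by decide)).2 ((m1 2 (by decide)).2 hJ.inv.s2)
  · rw [n2 1 (by decide), n1 1 (by decide), hJ.e1]
  · rw [n2 2 (by decide), n1 2 (by decide), hJ.e2]
  · rw [n2 3 (by decide), n1 3 (by decide), hJ.e3]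
  · exact (m2 3 (by decide)).2 ((m1 3 (by decide)).2 hJ.s3)
  · rw [r2]
    split
    · exact (AlgF4_upd14 h (ρ := ρ) s14).2
    · exact s14
  · rw [r2]
    by_cases hg : ((∃ v ∈ fs n A 14, v.val = ρ 5) ∧
            E G (W \ (fs n A 14).filter fun v => v.val ≠ ρ 5) ≤ (ρ 0 : ℤ))
    · rw [if_pos (hc.2 hg), if_pos hg, (AlgF4_upd14 h (ρ := ρ) s14).1, n1 14 (by decide)]
    · rw [if_neg (fun hc' => hg (hc.1 hc')), if_neg hg, n1 14 (by decide)]

/-- the loop -/
theorem AlgF4_loop (h : Enc G w) {ρ : Fin 20 → ℕ} {W U O : Finset (Fin n)} (N : ℕ)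
    {A : Fin 16 → ℕ → Bool} (hJ : AlgF4_J n W U O A) :
    AlgF4_J n W U O (down (fun x A' => run w AlgF4_body (update ρ 5 x) A') N A) ∧
      fs n (down (fun x A' => run w AlgF4_body (update ρ 5 x) A') N A) 14 =
        grd G (ρ 0) W N (fs n A 14) := by
  induction N generalizing A with
  | zero => exact ⟨hJ, rfl⟩
  | succ N ih =>
    obtain ⟨J1, e1⟩ := AlgF4_step h (ρ := update ρ 5 N) hJ
    obtain ⟨J2, e2⟩ := ih J1
    refine ⟨J2, ?_⟩
    have e : down (fun x A' => run w AlgF4_body (update ρ 5 x) A') (N + 1) A =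
        down (fun x A' => run w AlgF4_body (update ρ 5 x) A') N
          (run w AlgF4_body (update ρ 5 N) A) := rfl
    have h5 : update ρ 5 N 5 = N := Function.update_self _ _ _
    have h0 : update ρ 5 N 0 = ρ 0 := Function.update_of_ne (by decide) _ _
    rw [h5, h0] at e1
    rw [e, e2, e1]
    rfl

theorem comp4 (h : Enc G w) : Comp G w (.seq pSet pF4) (Φ4 G) := by
  intro ρ A hA
  obtain ⟨I1, f1, f2, S1, hS⟩ := run_set h (ρ := ρ) hA
  set A1 := run w pSet ρ A with hA1
  set A2 := run w (.upd 14 16 (.mul (.arr 3 (vr 16)) (notT (.arr 5 (vr 16)))) : P) ρ A1 with hA2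
  set A3 := run w (.loop 5 AlgF4_body : P) ρ A2 with hA3
  set A4 := run w (.upd 12 16 (.mul (.arr 3 (vr 16)) (notT (.arr 14 (vr 16)))) : P) ρ A3 with hA4
  have hrun : run w (.seq pSet pF4) ρ A = A4 := rfl
  rw [hrun]
  have s3 : Sup n A1 3 := S1 3 (by decide) (by decide)
  obtain ⟨e14, s14⟩ := AlgF4_sdiff h (ρ := ρ) s3 14 5
  rw [← hA2] at e14 s14
  have n2 : ∀ b : Fin 16, b ≠ 14 → fs n A2 b = fs n A1 b := fun b hb => fs_upd_ne hb _ _
  have m2 : ∀ b : Fin 16, b ≠ 14 → (Sup n A2 b ↔ Sup n A1 b) := fun b hb => sup_upd_ne hb _ _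
  have J2 : AlgF4_J n (fs n A1 3) (fs n A 1) (fs n A 2) A2 := by
    refine ⟨⟨?_, ?_, ?_, ?_⟩, ?_, ?_, ?_, ?_, s14⟩
    · rw [n2 0 (by decide), I1.all]
    · exact (m2 0 (by decide)).2 I1.s0
    · exact (m2 1 (by decide)).2 I1.s1
    · exact (m2 2 (by decide)).2 I1.s2
    · rw [n2 1 (by decide), f1]
    · rw [n2 2 (by decide), f2]
    · rw [n2 3 (by decide)]
    · exact (m2 3 (by decide)).2 s3
  obtain ⟨J3, e3⟩ := AlgF4_loop h (ρ := ρ) w.length J2
  have r3 : down (fun x A' => run w AlgF4_body (update ρ 5 x) A') w.length A2 = A3 := rfl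
  rw [r3] at J3 e3
  obtain ⟨e12, s12⟩ := AlgF4_sdiff h (ρ := ρ) J3.s3 12 14
  rw [← hA4] at e12 s12
  have n4 : ∀ b : Fin 16, b ≠ 12 → fs n A4 b = fs n A3 b := fun b hb => fs_upd_ne hb _ _
  have m4 : ∀ b : Fin 16, b ≠ 12 → (Sup n A4 b ↔ Sup n A3 b) := fun b hb => sup_upd_ne hb _ _
  refine ⟨⟨?_, ?_, ?_, ?_⟩, ?_, ?_, s12, ?_⟩
  · rw [n4 0 (by decide), J3.inv.all]
  · exact (m4 0 (by decide)).2 J3.inv.s0
  · exact (m4 1 (by decide)).2 J3.inv.s1
  · exact (m4 2 (by decide)).2 J3.inv.s2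
  · rw [n4 1 (by decide), J3.e1]
  · rw [n4 2 (by decide), J3.e2]
  · rintro F ⟨u, hu, rfl⟩
    have hW := hS u hu
    rw [e12, J3.e3, e3, e14, h.len, hW.a3, hW.a5]
    rfl

end Pool.Agent.helper81.JB
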