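import Pool.Agent.helper81.JB.AlgP2

/-!
# JB-AlgP3: the whole program

* `run_main`: array 0 is set by `pV` (`val_nT`; the other arrays are empty); then the loop over
  `τ' = n * n - 1, …, 0` (`down`): the invariant `Inv` holds; after round `τ` the output is good for
  `τ` (`run_tau`, `H`); in the later rounds `τ' < τ` and the second part of `run_tau` keeps it good for `τ`
  (`σ = τ ≥ τ'`).
* `outp_eq`: `List.map` over `List.range (n * n)` cut to length `n` is `List.map` over `List.range n`
  (`n ≤ n * n`).
-/

set_option autoImplicit false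

open Finset

namespace Pool.Agent.helper81.JB

open Pool.Agent.helper81.LC (Tm Pr val run b2n down outp)
open Function (update)

variable {n : ℕ} {G : SimpleGraph (Fin n)} {w : List Bool}

/-- the state after `pV` -/
theorem AlgP3_init (h : Enc G w) :
    Inv n (run w pV (fun _ => 0) (fun _ _ => false)) := by
  have hnd : ∀ (x : ℕ), val w (fun _ _ => false : Fin 16 → ℕ → Bool)
      (update (fun _ => 0 : Fin 20 → ℕ) 16 x) (.lt (vr 16) nT) = if x < n then 1 else 0 := by
    intro x
    have h1 := val_nT (A := (fun _ _ => false : Fin 16 → ℕ → Bool))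
      (ρ := update (fun _ => 0 : Fin 20 → ℕ) 16 x) h
    simp only [LC.val, h1, Function.update_self]
  refine ⟨?_, ?_, ?_, ?_⟩
  · rw [pV, fs_upd h]
    ext v
    simp only [mem_filter, mem_univ, true_and, iff_true]
    rw [hnd]
    simp [v.isLt]
  · refine sup_upd 0 16 _ fun x hx => ?_
    rw [hnd]
    simp [not_lt.2 hx]
  · refine (sup_upd_ne (by decide) 16 _).2 ?_
    intro x hx
    simp at hx
  · refine (sup_upd_ne (by decide) 16 _).2 ?_
    intro x hx
    simp at hx

/-- the loop over `τ` -/
theorem AlgP3_down (h : Enc G w) (hm : G.edgeSet.ncard < n * n) {τ : ℕ}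
    (H : ∀ U, (∀ F ∈ Fm G τ U, cutN G F ≤ cutN G U) → ∃ F ∈ Fm G τ U, good G τ F)
    (ρ : Fin 20 → ℕ) :
    ∀ (N : ℕ) (A : Fin 16 → ℕ → Bool), Inv n A → (τ < N ∨ good G τ (fs n A 2)) →
      good G τ (fs n (down (fun x A' => run w (.loop 1 pPass) (update ρ 0 x) A') N A) 2) := by
  intro N
  induction N with
  | zero =>
    intro A _ hg
    rcases hg with hg | hg
    · exact absurd hg (Nat.not_lt_zero τ)
    · exact hg
  | succ N ih =>
    intro A hA hg
    have e : down (fun x A' => run w (.loop 1 pPass) (update ρ 0 x) A') (N + 1) A =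
        down (fun x A' => run w (.loop 1 pPass) (update ρ 0 x) A') N
          (run w (.loop 1 pPass) (update ρ 0 N) A) := rfl
    rw [e]
    obtain ⟨I1, g1, U, hU⟩ := run_tau h hm (ρ := update ρ 0 N) hA
    have h0 : (update ρ 0 N) 0 = N := Function.update_self _ _ _
    rw [h0] at g1 hU
    refine ih _ I1 ?_
    rcases lt_trichotomy τ N with hlt | heq | hgt
    · exact Or.inl hlt
    · right
      subst heq
      obtain ⟨F, hF, hgF⟩ := H U fun F hF => (hU F hF).1
      exact (hU F hF).2 hgF
    · right
      rcases hg with hg | hg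
      · omega
      · exact g1 _ (by exact_mod_cast hgt.le) hg

theorem run_main (h : Enc G w) (hm : G.edgeSet.ncard < n * n) {τ : ℕ} (hτ : τ < n * n)
    (H : ∀ U, (∀ F ∈ Fm G τ U, cutN G F ≤ cutN G U) → ∃ F ∈ Fm G τ U, good G τ F) :
    good G τ (fs n (run w pMain (fun _ => 0) (fun _ _ => false)) 2) := by
  have e : run w pMain (fun _ => 0) (fun _ _ => false) =
      down (fun x A' => run w (.loop 1 pPass) (update (fun _ => 0 : Fin 20 → ℕ) 0 x) A')
        w.length (run w pV (fun _ => 0) (fun _ _ => false)) := rfl
  rw [e, h.len]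
  exact AlgP3_down h hm H _ (n * n) _ (AlgP3_init h) (Or.inl hτ)

theorem outp_eq (h : Enc G w) :
    outp pMain 2 nT w = (List.finRange n).map fun v =>
      decide (v ∈ fs n (run w pMain (fun _ => 0) (fun _ _ => false)) 2) := by
  have hn : val w (run w pMain (fun _ => 0) (fun _ _ => false)) (fun _ => 0) nT = n :=
    val_nT h
  unfold outp
  rw [hn, h.len, ← List.map_take, List.take_range, min_eq_left (Nat.le_mul_self n)]
  generalize run w pMain (fun _ => 0) (fun _ _ => false) = B
  rw [← List.map_coe_finRange_eq_range, List.map_map]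
  refine List.map_congr_left fun v _ => ?_
  simp only [Function.comp, mem_fs]
  cases B 2 v.val <;> simp

end Pool.Agent.helper81.JB
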