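import Pool.Agent.helper81.JB.A1M

/-!
# JB-Lo: conversions and lower bounds

* `eIn_eq`: the edges inside `X`; the ordered pairs `(a, b) ∈ X × X` with `G.Adj a b` map 2 to 1 onto the
  edges inside `X` (`Sym2.mk`).  For instance by induction on `X` (`E_insert`), or via
  `SimpleGraph.sum_degrees_eq_twice_card_edges` for the induced graph (`fromEdgeSet`).
* `ncard_eq`: `eIn G univ = G.edgeSet.ncard`, `two_E`.
* `lower_gen`: one of `X ∩ W`, `Xᶜ ∩ W` has at least `k + 1` elements, say `Y`, and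
  `2 E Y = Y.card (Y.card - 1) - Mo Y Y ≥ (k + 1) k - 2 s` (`Mo_mono`), `E_mono`.
* `HG a b`: the graph on `Fin (a + 1)`, complete on the first `a` vertices, the last vertex is adjacent
  to the first `b` vertices (`b ≤ a`). It has `a (a - 1) / 2 + b` edges.
* `lower_r`: `HG (2 k + 1) r` and `W` the first `2 k + 1` vertices (`s = 0`).
* `lower_s`: `HG (2 k) (2 k - s)`, `W = univ`, `Mo univ univ = 2 s`.
-/

set_option autoImplicit false

open Finset

namespace Pool.Agent.helper81.JB

/-- the graph with the edges of `G` inside `X` -/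
def Lo_H {n : ℕ} (G : SimpleGraph (Fin n)) (X : Finset (Fin n)) : SimpleGraph (Fin n) where
  Adj a b := G.Adj a b ∧ a ∈ X ∧ b ∈ X
  symm := ⟨fun _ _ h => ⟨h.1.symm, h.2.2, h.2.1⟩⟩
  loopless := ⟨fun _ h => h.1.ne rfl⟩

theorem Lo_edgeSet {n : ℕ} (G : SimpleGraph (Fin n)) (X : Finset (Fin n)) :
    {e ∈ G.edgeSet | ∀ v ∈ e, v ∈ X} = (Lo_H G X).edgeSet := by
  ext e
  induction e using Sym2.ind with
  | _ a b =>
    simp [Lo_H, SimpleGraph.mem_edgeSet]

theorem Lo_sum {n : ℕ} (G : SimpleGraph (Fin n)) (X : Finset (Fin n)) :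
    N G X X = 2 * (eIn G X : ℤ) := by
  classical
  have h1 : eIn G X = (Lo_H G X).edgeFinset.card := by
    unfold eIn
    rw [Lo_edgeSet, Set.ncard_eq_toFinset_card', SimpleGraph.edgeFinset]
  have h2 := (Lo_H G X).sum_degrees_eq_twice_card_edges
  have h3 : N G X X = ∑ v, ((Lo_H G X).degree v : ℤ) := by
    unfold N
    rw [← Finset.sum_subset (Finset.subset_univ X)]
    · refine Finset.sum_congr rfl fun a ha => ?_
      have h4 : (Lo_H G X).degree a = (X.filter fun b => G.Adj a b).card := by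
        rw [← SimpleGraph.card_neighborFinset_eq_degree]
        congr 1
        ext b
        rw [SimpleGraph.mem_neighborFinset, Finset.mem_filter]
        constructor
        · rintro ⟨h5, _, h6⟩
          exact ⟨h6, h5⟩
        · rintro ⟨h6, h5⟩
          exact ⟨h5, ha, h6⟩
      rw [h4, Finset.card_filter, Nat.cast_sum]
      refine Finset.sum_congr rfl fun b _ => ?_
      unfold ind
      by_cases hab : G.Adj a b
      · simp [hab]
      · simp [hab]
    · intro a _ ha
      have : (Lo_H G X).degree a = 0 := by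
        rw [SimpleGraph.degree_eq_zero_iff_notMem_support]
        intro hs
        obtain ⟨b, hb⟩ := hs
        exact ha hb.2.1
      rw [this]
      rfl
  rw [h3, h1]
  exact_mod_cast h2

theorem eIn_eq {n : ℕ} (G : SimpleGraph (Fin n)) (X : Finset (Fin n)) :
    (eIn G X : ℤ) = E G X := by
  have h1 := Lo_sum G X
  have h2 := two_E G X
  linarith

theorem ncard_eq {n : ℕ} (G : SimpleGraph (Fin n)) :
    N G univ univ = 2 * (G.edgeSet.ncard : ℤ) := by
  rw [Lo_sum G univ]
  have : eIn G univ = G.edgeSet.ncard := by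
    unfold eIn
    congr 1
    ext e
    simp
  rw [this]

theorem Lo_large {V : Type} [Fintype V] [DecidableEq V] (G : SimpleGraph V) {W Y : Finset V}
    {k s : ℤ} (hk : 0 ≤ k) (hY : Y ⊆ W) (hs : Mo G W W ≤ 2 * s) (hc : k + 1 ≤ (Y.card : ℤ)) :
    k * (k + 1) - 2 * s ≤ 2 * E G Y := by
  have h1 := N_add_Mo_self G Y
  have h2 := Mo_mono G hY hY
  have h3 := two_E G Y
  nlinarith

theorem lower_gen {V : Type} [Fintype V] [DecidableEq V] (G : SimpleGraph V) {W : Finset V}
    {k s : ℤ} (hk : 0 ≤ k) (hW : (W.card : ℤ) = 2 * k + 1) (hs : Mo G W W ≤ 2 * s) (X : Finset V) :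
    k * (k + 1) - 2 * s ≤ 2 * E G X ∨ k * (k + 1) - 2 * s ≤ 2 * E G Xᶜ := by
  have h1 : (W ∩ X).card + (W \ X).card = W.card := Finset.card_inter_add_card_sdiff W X
  have h2 : ((W ∩ X).card : ℤ) + ((W \ X).card : ℤ) = 2 * k + 1 := by
    rw [← hW]
    exact_mod_cast h1
  rcases le_or_gt (k + 1) ((W ∩ X).card : ℤ) with h | h
  · left
    have h3 := Lo_large G hk Finset.inter_subset_left hs h
    have h4 := E_mono G (Finset.inter_subset_right : W ∩ X ⊆ X)
    linarith
  · right
    have h5 : k + 1 ≤ ((W \ X).card : ℤ) := by linarith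
    have h3 := Lo_large G hk Finset.sdiff_subset hs h5
    have h6 : W \ X ⊆ Xᶜ := fun v hv => by
      rw [Finset.mem_compl]
      exact (Finset.mem_sdiff.1 hv).2
    have h4 := E_mono G h6
    linarith

/-- complete graph on the first `a` vertices, the last vertex is adjacent to the first `b` -/
def HG (a b : ℕ) : SimpleGraph (Fin (a + 1)) where
  Adj i j := i ≠ j ∧ (i.val < a ∨ j.val < b) ∧ (j.val < a ∨ i.val < b)
  symm := ⟨fun _ _ h => ⟨h.1.symm, h.2.2, h.2.1⟩⟩
  loopless := ⟨fun _ h => h.1 rfl⟩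

theorem Lo_card (a : ℕ) : ((univ : Finset (Fin (a + 1))).erase (Fin.last a)).card = a := by
  rw [Finset.card_erase_of_mem (Finset.mem_univ _)]
  simp

theorem Lo_val {a : ℕ} {i : Fin (a + 1)} (h : i ∈ (univ : Finset (Fin (a + 1))).erase (Fin.last a)) :
    i.val < a := by
  have h1 : i ≠ Fin.last a := Finset.ne_of_mem_erase h
  have h2 : i.val ≠ a := fun e => h1 (Fin.ext (by simpa using e))
  have h3 := i.isLt
  omega

theorem Lo_Mo (a b : ℕ) :
    Mo (HG a b) (univ.erase (Fin.last a)) (univ.erase (Fin.last a)) = 0 := by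
  refine Mo_eq_zero _ fun i hi j hj hij => ?_
  exact ⟨hij, Or.inl (Lo_val hi), Or.inl (Lo_val hj)⟩

theorem N_HG (a b : ℕ) (h : b ≤ a) :
    N (HG a b) univ univ = a * (a - 1) + 2 * b := by
  classical
  set L : Fin (a + 1) := Fin.last a with hL
  set W : Finset (Fin (a + 1)) := univ.erase L with hW
  have h0 : L ∉ W := by simp [hW]
  have h1 : (univ : Finset (Fin (a + 1))) = insert L W := by
    rw [hW, Finset.insert_erase (Finset.mem_univ _)]
  have h2 : N (HG a b) W W = a * (a - 1) := by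
    have h3 := N_add_Mo_self (HG a b) W
    rw [Lo_Mo a b, Lo_card a] at h3
    linarith
  have h4 : N (HG a b) {L} W = b := by
    rw [N_sing_sum]
    have h5 : ∀ j ∈ W, ind (HG a b) L j = if j.val < b then 1 else 0 := by
      intro j hj
      have hj' : j.val < a := Lo_val hj
      have hLj : L ≠ j := fun e => h0 (e ▸ hj)
      by_cases hb : j.val < b
      · rw [if_pos hb]
        exact ind_adj _ ⟨hLj, Or.inr hb, Or.inl hj'⟩
      · rw [if_neg hb]
        refine ind_not _ fun hA => ?_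
        rcases hA.2.1 with h6 | h6
        · exact absurd h6 (by simp [hL])
        · exact hb h6
    rw [Finset.sum_congr rfl h5]
    have h6 : ∑ j ∈ W, (if j.val < b then (1 : ℤ) else 0) =
        ((W.filter fun j => j.val < b).card : ℤ) := by
      rw [Finset.card_filter]
      push_cast
      rfl
    rw [h6]
    have h7 : (W.filter fun j => j.val < b) =
        (Finset.univ : Finset (Fin b)).map (Fin.castLEEmb (by omega : b ≤ a + 1)) := by
      ext j
      simp only [Finset.mem_filter, Finset.mem_map, Finset.mem_univ, true_and]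
      constructor
      · rintro ⟨_, hj⟩
        exact ⟨⟨j.val, hj⟩, Fin.ext rfl⟩
      · rintro ⟨i, rfl⟩
        refine ⟨?_, i.isLt⟩
        rw [hW, Finset.mem_erase]
        refine ⟨fun e => ?_, Finset.mem_univ _⟩
        have h8 := congrArg Fin.val e
        simp [hL] at h8
        have := i.isLt
        omega
    rw [h7]
    simp
  rw [h1, N_insert_left _ h0, N_insert_right _ h0, N_insert_right _ h0, h2, h4, N_sing, ind_self]
  ring

theorem lower_r (k r : ℕ) (hr : r ≤ k) : ∃ (n : ℕ) (G : SimpleGraph (Fin n)),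
    G.edgeSet.ncard = k * (2 * k + 1) + r ∧
      ∀ X, k * (k + 1) / 2 ≤ eIn G X ∨ k * (k + 1) / 2 ≤ eIn G Xᶜ := by
  refine ⟨2 * k + 1 + 1, HG (2 * k + 1) r, ?_, fun X => ?_⟩
  · have h1 := ncard_eq (HG (2 * k + 1) r)
    rw [N_HG _ _ (by omega)] at h1
    have h2 : (((HG (2 * k + 1) r).edgeSet.ncard : ℕ) : ℤ) = ((k * (2 * k + 1) + r : ℕ) : ℤ) := by
      push_cast at h1 ⊢
      linarith
    exact_mod_cast h2
  · have h3 : ((univ.erase (Fin.last (2 * k + 1))).card : ℤ) = 2 * (k : ℤ) + 1 := by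
      rw [Lo_card]
      push_cast
      ring
    have h4 := lower_gen (HG (2 * k + 1) r) (W := univ.erase (Fin.last (2 * k + 1)))
      (k := (k : ℤ)) (s := 0) (by positivity) h3 (by rw [Lo_Mo]; norm_num) X
    rw [← eIn_eq, ← eIn_eq] at h4
    rcases h4 with h4 | h4
    · left
      have h5 : k * (k + 1) ≤ 2 * eIn (HG (2 * k + 1) r) X := by
        have h6 : ((k * (k + 1) : ℕ) : ℤ) ≤ ((2 * eIn (HG (2 * k + 1) r) X : ℕ) : ℤ) := by
          push_cast
          linarith
        exact_mod_cast h6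
      omega
    · right
      have h5 : k * (k + 1) ≤ 2 * eIn (HG (2 * k + 1) r) Xᶜ := by
        have h6 : ((k * (k + 1) : ℕ) : ℤ) ≤ ((2 * eIn (HG (2 * k + 1) r) Xᶜ : ℕ) : ℤ) := by
          push_cast
          linarith
        exact_mod_cast h6
      omega

theorem lower_s (k s : ℕ) (hs : s ≤ k) : ∃ (n : ℕ) (G : SimpleGraph (Fin n)),
    G.edgeSet.ncard = k * (2 * k + 1) - s ∧
      ∀ X, k * (k + 1) / 2 - s ≤ eIn G X ∨ k * (k + 1) / 2 - s ≤ eIn G Xᶜ := by
  refine ⟨2 * k + 1, HG (2 * k) (2 * k - s), ?_, fun X => ?_⟩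
  · have h1 := ncard_eq (HG (2 * k) (2 * k - s))
    rw [N_HG _ _ (by omega), Nat.cast_sub (by omega : s ≤ 2 * k)] at h1
    have h0 : s ≤ k * (2 * k + 1) := by nlinarith
    have h2 : (((HG (2 * k) (2 * k - s)).edgeSet.ncard : ℕ) : ℤ) =
        ((k * (2 * k + 1) - s : ℕ) : ℤ) := by
      rw [Nat.cast_sub h0]
      push_cast at h1 ⊢
      linarith
    exact_mod_cast h2
  · have h3 : (((univ : Finset (Fin (2 * k + 1))).card : ℕ) : ℤ) = 2 * (k : ℤ) + 1 := by
      simp
    have h7 : Mo (HG (2 * k) (2 * k - s)) univ univ ≤ 2 * (s : ℤ) := by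
      have h8 := N_add_Mo_self (HG (2 * k) (2 * k - s)) univ
      rw [N_HG _ _ (by omega), Nat.cast_sub (by omega : s ≤ 2 * k), h3] at h8
      push_cast at h8
      linarith
    have h4 := lower_gen (HG (2 * k) (2 * k - s)) (W := univ)
      (k := (k : ℤ)) (s := (s : ℤ)) (by positivity) h3 h7 X
    rw [← eIn_eq, ← eIn_eq] at h4
    rcases h4 with h4 | h4
    · left
      have h5 : k * (k + 1) ≤ 2 * eIn (HG (2 * k) (2 * k - s)) X + 2 * s := by
        have h6 : ((k * (k + 1) : ℕ) : ℤ) ≤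
            ((2 * eIn (HG (2 * k) (2 * k - s)) X + 2 * s : ℕ) : ℤ) := by
          push_cast
          linarith
        exact_mod_cast h6
      omega
    · right
      have h5 : k * (k + 1) ≤ 2 * eIn (HG (2 * k) (2 * k - s)) Xᶜ + 2 * s := by
        have h6 : ((k * (k + 1) : ℕ) : ℤ) ≤
            ((2 * eIn (HG (2 * k) (2 * k - s)) Xᶜ + 2 * s : ℕ) : ℤ) := by
          push_cast
          linarith
        exact_mod_cast h6
      omega

end Pool.Agent.helper81.JB
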