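import Pool.Agent.helper81.JB.MC
import Pool.Agent.helper81.JB.Lo

/-!
# JB-Val: the values of `g(m)`

* `gg_r`, `gg_s`: the set in the definition of `gg` contains the value by `upper_r`, `upper_s`
  (`eIn_eq`, `ncard_eq`), so `gg ≤` (`Nat.sInf_le`); it is nonempty, so `gg` is a member
  (`Nat.sInf_mem`), and `lower_r`, `lower_s` give `≥`.
* `gg_gap`: `k = 4 j`, `m = k (2 k + 1) + j = 32 j ^ 2 + 5 j`, `g(m) = k (k + 1) / 2 = 8 j ^ 2 + 2 j`,
  `m / 4 = 8 j ^ 2 + 5 j / 4`, `√(m / 32) ≥ j`, so `m / 4 + √(m / 32) - g(m) ≥ j / 4`, and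
  `√m ≤ 6 j` (`32 j ^ 2 + 5 j ≤ 36 j ^ 2` for `j ≥ 2`).
-/

set_option autoImplicit false

open Finset

namespace Pool.Agent.helper81.JB

/-- the value of `gg` from an upper bound for all graphs and one graph attaining it -/
theorem Val_gg_eq (m t : ℕ)
    (hup : ∀ (n : ℕ) (G : SimpleGraph (Fin n)), N G univ univ = 2 * (m : ℤ) →
      ∃ S, E G S ≤ (t : ℤ) ∧ E G Sᶜ ≤ (t : ℤ))
    (hlo : ∃ (n : ℕ) (G : SimpleGraph (Fin n)), G.edgeSet.ncard = m ∧
      ∀ X, t ≤ eIn G X ∨ t ≤ eIn G Xᶜ) : gg m = t := by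
  have hmem : t ∈ {t : ℕ | ∀ (n : ℕ) (G : SimpleGraph (Fin n)), G.edgeSet.ncard = m →
      ∃ X : Finset (Fin n), eIn G X ≤ t ∧ eIn G Xᶜ ≤ t} := by
    intro n G hG
    obtain ⟨S, h1, h2⟩ := hup n G (by rw [ncard_eq, hG])
    refine ⟨S, ?_, ?_⟩
    · have := eIn_eq G S
      omega
    · have := eIn_eq G Sᶜ
      omega
  apply le_antisymm
  · exact Nat.sInf_le hmem
  · have h := Nat.sInf_mem ⟨t, hmem⟩
    obtain ⟨n, G, hG, hX⟩ := hlo
    obtain ⟨X, h1, h2⟩ := h n G hG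
    rcases hX X with h3 | h3
    · exact h3.trans h1
    · exact h3.trans h2

theorem Val_even (k : ℕ) : 2 * (k * (k + 1) / 2) = k * (k + 1) :=
  Nat.mul_div_cancel' (Nat.even_mul_succ_self k).two_dvd

theorem gg_r (k r : ℕ) (hr : r ≤ k) (hr4 : 4 * r ≤ k ∨ r ≤ 4) :
    gg (k * (2 * k + 1) + r) = k * (k + 1) / 2 := by
  apply Val_gg_eq
  · intro n G hG
    have he := Val_even k
    apply upper_r G (k := (k : ℤ)) (r := (r : ℤ)) (by positivity) (by positivity)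
      (by exact_mod_cast hr) (by exact_mod_cast hr4)
    · exact_mod_cast he
    · rw [hG]; push_cast; ring
  · exact lower_r k r hr

theorem gg_s (k s : ℕ) (hk : 2 ≤ k) (hs14 : 14 * s ≤ k ∨ s ≤ 1) :
    gg (k * (2 * k + 1) - s) = k * (k + 1) / 2 - s := by
  have hsk : s ≤ k := by omega
  have he := Val_even k
  have h1 : s ≤ k * (k + 1) / 2 := by nlinarith
  have h2 : s ≤ k * (2 * k + 1) := by nlinarith
  apply Val_gg_eq
  · intro n G hG
    apply upper_s G (k := (k : ℤ)) (s := (s : ℤ)) (by exact_mod_cast hk) (by positivity)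
      (by exact_mod_cast hs14)
    · rw [Nat.cast_sub h1]
      have he' : 2 * ((k * (k + 1) / 2 : ℕ) : ℤ) = (k : ℤ) * (k + 1) := by exact_mod_cast he
      linarith
    · rw [hG, Nat.cast_sub h2]; push_cast; ring
  · exact lower_s k s hsk

theorem gg_gap (j : ℕ) (hj : 2 ≤ j) : ∃ m : ℕ, m = 32 * j ^ 2 + 5 * j ∧
    (gg m : ℝ) ≤ m / 4 + Real.sqrt (m / 32) - Real.sqrt m / 24 := by
  refine ⟨_, rfl, ?_⟩
  have h1 : gg (32 * j ^ 2 + 5 * j) = 8 * j ^ 2 + 2 * j := by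
    have h := gg_r (4 * j) j (by omega) (Or.inl le_rfl)
    have e1 : 4 * j * (2 * (4 * j) + 1) + j = 32 * j ^ 2 + 5 * j := by ring
    have e2 : 4 * j * (4 * j + 1) / 2 = 8 * j ^ 2 + 2 * j := by
      have : 4 * j * (4 * j + 1) = 2 * (8 * j ^ 2 + 2 * j) := by ring
      rw [this]; simp
    rw [e1, e2] at h
    exact h
  rw [h1]
  have hj' : (2 : ℝ) ≤ j := by exact_mod_cast hj
  push_cast
  have h2 : (j : ℝ) ≤ Real.sqrt ((32 * (j : ℝ) ^ 2 + 5 * j) / 32) := by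
    apply Real.le_sqrt_of_sq_le
    linarith
  have h3 : Real.sqrt (32 * (j : ℝ) ^ 2 + 5 * j) ≤ 6 * j := by
    rw [Real.sqrt_le_left (by positivity)]
    nlinarith
  linarith

end Pool.Agent.helper81.JB
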