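import Pool.Agent.helper81.JB.AlgR4
import Pool.Agent.helper81.JB.AlgP3
import Pool.Agent.helper81.JB.Val
import Pool.Agent.helper81.LC.Poly

/-!
# JB-AlgM: the algorithmic theorem

`f = outp pMain 2 nT` is polynomial-time computable (`polyTime_outp`).  For a graph with `n ≤ 1`
vertices there are no edges and `eIn = 0` for every set.  For `n ≥ 2`: `τ = gg m`; the number of edges is at most
`n * (n - 1) / 2 < n * n`, and `gg m ≤ m` (or `τ = k (k + 1) / 2 (- s) ≤ m` directly); `enc_adjBits`,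
`run_main` with `exists_good_r` / `exists_good_s`, `outp_eq`, `eIn_eq`, `ncard_eq`, `gg_r`, `gg_s`.
-/

set_option autoImplicit false

open Finset

namespace Pool.Agent.helper81.JB

open Pool.Agent.helper81.LC (outp)
open Pool.Agent.helper64.LP (PolyTime adjBits)

/-- the numbers of edges for which we know `g(m)` -/
def Rng (m : ℕ) : Prop :=
  (∃ k r : ℕ, r ≤ k ∧ (4 * r ≤ k ∨ r ≤ 4) ∧ m = k * (2 * k + 1) + r) ∨
  ∃ k s : ℕ, 2 ≤ k ∧ (14 * s ≤ k ∨ s ≤ 1) ∧ m = k * (2 * k + 1) - s

/-- a graph with at most one vertex has no edges inside a set -/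
theorem AlgM_small {n : ℕ} (hn : n < 2) (G : SimpleGraph (Fin n)) (X : Finset (Fin n)) :
    eIn G X = 0 := by
  have h : {e ∈ G.edgeSet | ∀ v ∈ e, v ∈ X} = ∅ := by
    ext e
    simp only [Set.mem_ofPred_eq, Set.mem_empty_iff_false, iff_false, not_and]
    intro he
    exfalso
    induction e using Sym2.ind with
    | _ a b =>
      rw [SimpleGraph.mem_edgeSet] at he
      have h1 := he.ne
      have ha := a.isLt
      have hb := b.isLt
      apply h1
      ext
      omega
  unfold eIn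
  rw [h, Set.ncard_empty]

/-- the number of edges is smaller than the length of the input -/
theorem AlgM_lt {n : ℕ} (hn : 2 ≤ n) (G : SimpleGraph (Fin n)) : G.edgeSet.ncard < n * n := by
  have h1 := ncard_eq G
  have h2 : N G univ univ ≤ (n : ℤ) * n := by
    rw [N_sum]
    calc ∑ a ∈ (univ : Finset (Fin n)), N G {a} univ
        ≤ ∑ _a ∈ (univ : Finset (Fin n)), (n : ℤ) :=
          Finset.sum_le_sum fun a _ => by
            have := N_le_card G (w := a) (univ : Finset (Fin n))
            simpa using this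
      _ = (n : ℤ) * n := by simp
  have h3 : (0 : ℤ) < (n : ℤ) * n := by positivity
  have h4 : (G.edgeSet.ncard : ℤ) < (n : ℤ) * n := by linarith
  exact_mod_cast h4

/-- the output is good for `τ` -/
theorem AlgM_fin {n : ℕ} {G : SimpleGraph (Fin n)} {w : List Bool} (h : Enc G w) (hn : 2 ≤ n)
    {τ : ℕ} (hτ : τ ≤ G.edgeSet.ncard) (hg : gg G.edgeSet.ncard = τ)
    (H : ∀ U, (∀ F ∈ Fm G τ U, cutN G F ≤ cutN G U) → ∃ F ∈ Fm G τ U, good G τ F) :
    eIn G (fs n (LC.run w pMain (fun _ => 0) (fun _ _ => false)) 2) ≤ gg G.edgeSet.ncard ∧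
      eIn G (fs n (LC.run w pMain (fun _ => 0) (fun _ _ => false)) 2)ᶜ ≤ gg G.edgeSet.ncard := by
  have hm := AlgM_lt hn G
  have h1 := run_main h hm (lt_of_le_of_lt hτ hm) H
  rw [hg]
  constructor
  · have h2 := h1.1
    rw [← eIn_eq] at h2
    exact_mod_cast h2
  · have h2 := h1.2
    rw [← eIn_eq] at h2
    exact_mod_cast h2

theorem algorithm : ∃ f : List Bool → List Bool, PolyTime f ∧
    ∀ (n : ℕ) (G : SimpleGraph (Fin n)) (Ad : Fin n → Fin n → Bool),
      (∀ i j, Ad i j = true ↔ G.Adj i j) → Rng G.edgeSet.ncard →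
      ∃ X : Finset (Fin n), f (adjBits n Ad) = (List.finRange n).map (fun v => decide (v ∈ X)) ∧
        eIn G X ≤ gg G.edgeSet.ncard ∧ eIn G Xᶜ ≤ gg G.edgeSet.ncard := by
  refine ⟨outp pMain 2 nT, LC.polyTime_outp _ _ _, ?_⟩
  intro n G Ad hA hR
  have hE : Enc G (adjBits n Ad) := enc_adjBits Ad hA
  refine ⟨_, outp_eq hE, ?_⟩
  rcases Nat.lt_or_ge n 2 with hn | hn
  · rw [AlgM_small hn, AlgM_small hn]
    exact ⟨Nat.zero_le _, Nat.zero_le _⟩
  rcases hR with ⟨k, r, hrk, hr4, hm⟩ | ⟨k, s, hk, hs, hm⟩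
  · have he := Val_even k
    refine AlgM_fin hE hn (τ := k * (k + 1) / 2) ?_ ?_ ?_
    · rw [hm]
      have : k * (k + 1) / 2 ≤ k * (k + 1) := Nat.div_le_self _ _
      nlinarith
    · rw [hm]; exact gg_r k r hrk hr4
    · intro U hU
      refine exists_good_r hn (k := (k : ℤ)) (r := (r : ℤ)) (by positivity) (by positivity)
        (by exact_mod_cast hrk) (by exact_mod_cast hr4) ?_ ?_ hU
      · exact_mod_cast he
      · rw [ncard_eq, hm]; push_cast; ring
  · have he := Val_even k
    have hsk : s ≤ k := by omega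
    have h1 : s ≤ k * (k + 1) / 2 := by nlinarith
    have h2 : s ≤ k * (2 * k + 1) := by nlinarith
    refine AlgM_fin hE hn (τ := k * (k + 1) / 2 - s) ?_ ?_ ?_
    · rw [hm]
      have : k * (k + 1) / 2 ≤ k * (2 * k + 1) :=
        (Nat.div_le_self _ _).trans (Nat.mul_le_mul_left k (by omega))
      exact Nat.sub_le_sub_right this s
    · rw [hm]; exact gg_s k s hk hs
    · intro U hU
      refine exists_good_s hn (k := (k : ℤ)) (s := (s : ℤ)) (by exact_mod_cast hk)
        (by positivity) (by exact_mod_cast hs) ?_ ?_ hU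
      · rw [Nat.cast_sub h1]
        have he' : 2 * ((k * (k + 1) / 2 : ℕ) : ℤ) = (k : ℤ) * (k + 1) := by exact_mod_cast he
        linarith
      · rw [ncard_eq, hm, Nat.cast_sub h2]; push_cast; ring

end Pool.Agent.helper81.JB
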