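import Pool.Agent.helper81.JB.F

/-!
# JB-F2: the second final contradiction (`final_s`)

Read the doc string of `F.lean` for the proofs of `out_total` (the part on `f`) and `final_s`.
-/

set_option autoImplicit false

open Finset

namespace Pool.Agent.helper81.JB

variable {V : Type} [Fintype V] [DecidableEq V] {G : SimpleGraph V} {τ L : ℤ} {U : Finset V}

theorem F2_E_univ (h : Stk G τ L U) : E G univ = 4 * τ - L := by
  have h1 := two_E G (univ : Finset V)
  have h2 := h.tot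
  linarith

theorem F2_sum_al_nonneg (h : Stk G τ L U) (S : Finset V) : 0 ≤ ∑ v ∈ S, al G U v :=
  Finset.sum_nonneg fun v _ => h.loc.one v

/-- the number of edges of `G` which are not inside `W` -/
theorem out_total (h : Rdy G τ L U) (hL : -3 ≤ L) {R : ℤ} {u : V} (hu : u ∈ Zr G τ U)
    (hy : τ - E G Uᶜ ≤ L + R - 2) (hy' : τ - E G (sw U u)ᶜ ≤ L + R - 2) :
    (4 * τ - L) - E G (Bg G τ U ∪ Bg G τ (sw U u)) ≤ 2 * (R - 5) := by
  have hS := h.stk
  have hS2 := h.stk2 u hu
  have huB : u ∈ Bg G τ U := Zr_subset hu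
  have huU : u ∈ U := Bg_subset huB
  have hu2 : u ∈ Zr G τ (sw U u) := u_mem_Zr_sw hS hL hu
  have huB2 : u ∈ Bg G τ (sw U u) := Zr_subset hu2
  have o1 := out_le hS hS2 hL hu hy'
  have hss : sw (sw U u) u = U := sw_sw huU
  have o2 := out_le (R := R) hS2 (hss.symm ▸ hS) hL hu2 (by rw [hss]; exact hy)
  rw [hss] at o2
  have n1 := F2_sum_al_nonneg hS2 (Bg G τ (sw U u))
  have n2 := F2_sum_al_nonneg hS (Bg G τ U)
  -- names
  obtain ⟨B, hB⟩ : ∃ B, B = Bg G τ U := ⟨_, rfl⟩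
  obtain ⟨B2, hB2⟩ : ∃ B2, B2 = Bg G τ (sw U u) := ⟨_, rfl⟩
  have hBU : B ⊆ U := by rw [hB]; exact Bg_subset
  have hB2U : B2.erase u ⊆ Uᶜ := by rw [hB2]; exact D1_erase_subset
  rw [← hB2] at o1 n1 huB2
  rw [← hB] at o2 n2 huB
  rw [← hB, ← hB2]
  obtain ⟨C, hC⟩ : ∃ C, C = U \ B := ⟨_, rfl⟩
  obtain ⟨C2, hC2⟩ : ∃ C2, C2 = Uᶜ \ B2 := ⟨_, rfl⟩
  have hC2' : C2 = Uᶜ \ B2.erase u := by
    rw [hC2]
    ext v
    simp only [mem_sdiff, mem_compl, mem_erase, not_and]
    constructor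
    · rintro ⟨h1, h2⟩
      exact ⟨h1, fun _ => h2⟩
    · rintro ⟨h1, h2⟩
      exact ⟨h1, h2 (fun e => h1 (e ▸ huU))⟩
  have hCe : (sw U u)ᶜ \ B = C := by
    rw [sw_compl, hC]
    ext v
    simp only [mem_sdiff, mem_erase]
    constructor
    · rintro ⟨⟨_, h2⟩, h3⟩
      exact ⟨h2, h3⟩
    · rintro ⟨h2, h3⟩
      exact ⟨⟨fun e => h3 (e ▸ huB), h2⟩, h3⟩
  rw [← hC2] at o1
  rw [hCe] at o2
  -- decompositions
  have dBC : Disjoint B C := by rw [hC]; exact disjoint_sdiff
  have dB2C2 : Disjoint (B2.erase u) C2 := by rw [hC2']; exact disjoint_sdiff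
  have eU : U = B ∪ C := by rw [hC]; exact (union_sdiff_of_subset hBU).symm
  have eUc : Uᶜ = B2.erase u ∪ C2 := by rw [hC2']; exact (union_sdiff_of_subset hB2U).symm
  have q1 : N G U C2 = N G B C2 + N G C C2 := by
    conv_lhs => rw [eU]
    exact N_union_left G dBC C2
  have q2 : N G (sw U u) C = N G {u} C + N G Uᶜ C := by
    unfold sw
    exact N_insert_left G (by simpa using huU) C
  have q3 : N G C (B.erase u) = N G C B - N G {u} C := N_erase_right G huB C
  have q4 : N G Uᶜ C = N G (B2.erase u) C + N G C2 C := by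
    conv_lhs => rw [eUc]
    exact N_union_left G dB2C2 C
  -- the total
  have hdU : Disjoint U Uᶜ := disjoint_compl_right
  have dX : Disjoint (B ∪ B2.erase u) (C ∪ C2) := by
    rw [disjoint_union_left, disjoint_union_right, disjoint_union_right]
    refine ⟨⟨dBC, ?_⟩, ?_, dB2C2⟩
    · exact disjoint_of_subset_left hBU (disjoint_of_subset_right
        (by rw [hC2]; exact sdiff_subset) hdU)
    · exact (disjoint_of_subset_left (by rw [hC]; exact sdiff_subset)
        (disjoint_of_subset_right hB2U hdU)).symm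
  have eX : (univ : Finset V) = (B ∪ B2.erase u) ∪ (C ∪ C2) := by
    have h1 : (univ : Finset V) = U ∪ Uᶜ := (union_compl U).symm
    rw [h1]
    conv_lhs => rw [eUc]
    conv_lhs => rw [eU]
    ext v
    simp only [mem_union]
    tauto
  have eW : B ∪ B2 = B ∪ B2.erase u := by
    ext v
    simp only [mem_union, mem_erase]
    constructor
    · rintro (h1 | h1)
      · exact Or.inl h1
      · by_cases h2 : v = u
        · exact Or.inl (h2 ▸ huB)
        · exact Or.inr ⟨h2, h1⟩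
    · rintro (h1 | ⟨_, h1⟩)
      · exact Or.inl h1
      · exact Or.inr h1
  have dB : Disjoint B (B2.erase u) :=
    disjoint_of_subset_left hBU (disjoint_of_subset_right hB2U hdU)
  have dC : Disjoint C C2 := by
    refine disjoint_of_subset_left ?_ (disjoint_of_subset_right ?_ hdU)
    · rw [hC]; exact sdiff_subset
    · rw [hC2]; exact sdiff_subset
  have t1 := F2_E_univ hS
  have t2 : E G univ = E G (B ∪ B2.erase u) + E G (C ∪ C2) + N G (B ∪ B2.erase u) (C ∪ C2) := by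
    conv_lhs => rw [eX]
    exact E_union G dX
  have t3 : E G (C ∪ C2) = E G C + E G C2 + N G C C2 := E_union G dC
  have t4 : N G (B ∪ B2.erase u) (C ∪ C2) = N G B C + N G B C2 + (N G (B2.erase u) C +
      N G (B2.erase u) C2) := by
    rw [N_union_left G dB, N_union_right G dC, N_union_right G dC]
  rw [eW]
  have c1 := N_comm G C B
  have c2 := N_comm G C2 (B2.erase u)
  have p1 := N_nonneg G C2 C
  linarith

theorem F2_Mo_eq {W V1 : Finset V} (h1 : V1 ⊆ W) (h2 : supp G W ⊆ V1) :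
    Mo G V1 V1 = Mo G W W := by
  classical
  have h3 : ∀ a ∈ W \ V1, ∀ b ∈ W, a ≠ b → G.Adj a b := by
    intro a ha b hb hne
    rw [mem_sdiff] at ha
    by_contra hcon
    apply ha.2
    apply h2
    unfold supp
    rw [mem_filter]
    exact ⟨ha.1, b, hb, fun e => hne e.symm, hcon⟩
  have hd : Disjoint V1 (W \ V1) := disjoint_sdiff
  have e1 : Mo G W W = Mo G V1 W + Mo G (W \ V1) W := by
    conv_lhs => rw [← union_sdiff_of_subset h1]
    rw [Mo_union_left G hd]
    rw [union_sdiff_of_subset h1]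
  have e2 : Mo G (W \ V1) W = 0 := Mo_eq_zero G h3
  have e3 : Mo G V1 W = Mo G V1 V1 + Mo G V1 (W \ V1) := by
    conv_lhs => rw [← union_sdiff_of_subset h1]
    rw [Mo_union_right G hd]
  have e4 : Mo G V1 (W \ V1) = 0 := by
    rw [Mo_comm]
    exact Mo_eq_zero G fun a ha b hb hne => h3 a ha b (h1 hb) hne
  linarith

theorem F2_supp_card (W : Finset V) : ((supp G W).card : ℤ) ≤ Mo G W W := by
  classical
  have hsub : supp G W ⊆ W := by
    unfold supp
    exact filter_subset _ _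
  rw [Mo_sum]
  calc ((supp G W).card : ℤ) = ∑ a ∈ supp G W, (1 : ℤ) := by simp
    _ ≤ ∑ a ∈ supp G W, Mo G {a} W := by
        refine sum_le_sum fun a ha => ?_
        unfold supp at ha
        rw [mem_filter] at ha
        obtain ⟨_, b, hb, hne, hadj⟩ := ha
        rw [Mo_sing_sum, ← mis_not G hadj (fun e => hne e.symm)]
        exact single_le_sum (f := fun b => mis G a b) (fun b _ => mis_nonneg G a b) hb
    _ ≤ ∑ a ∈ W, Mo G {a} W :=
        sum_le_sum_of_subset_of_nonneg hsub fun a _ _ => Mo_nonneg G {a} W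

theorem F2_card_eq {k s x c e : ℤ} (hs : 2 ≤ s) (hk : 14 * s ≤ k) (hx : 3 * x ≤ 3 * s - 1)
    (hc : k + 1 ≤ c) (he : 2 * e ≤ k * (k + 1) - 2 * s + 2 * x)
    (h : c * (c - 1) - 2 * e ≤ 5 * (3 * s + 1 - 5)) : c = k + 1 := by
  by_contra hne
  have h1 : k + 2 ≤ c := by omega
  have h2 : (k + 2) * (k + 1) ≤ c * (c - 1) := by nlinarith
  nlinarith

theorem final_s (h : Rdy G τ L U) {k s : ℤ} (hk : 0 < k) (hs : 0 ≤ s) (hsk : s ≤ k)
    (hs14 : 14 * s ≤ k ∨ s ≤ 1) (hτ : 2 * τ = k * (k + 1) - 2 * s) (hL : L = k - 3 * s)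
    (hL4 : -3 ≤ L) :
    ∃ u ∈ Zr G τ U,
      (supp G (Bg G τ U ∪ Bg G τ (sw U u))).card ≤ (Bg G τ U).card ∧
      (Bg G τ U).card ≤ (Bg G τ U ∪ Bg G τ (sw U u)).card ∧
      ∀ V1 ⊆ Bg G τ U ∪ Bg G τ (sw U u), V1.card = (Bg G τ U).card →
        supp G (Bg G τ U ∪ Bg G τ (sw U u)) ⊆ V1 → E G V1 ≤ τ ∧ E G V1ᶜ ≤ τ := by
  have hS := h.stk
  obtain ⟨cB, yB⟩ := s_side hS hk hs hsk hτ hL (by linarith)
  have hLR : L + (3 * s + 1) - 2 = k - 1 := by linarith
  have g1 := y_ge hS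
  have g2 := hS.big
  have hs2 : 2 ≤ s := by
    by_contra hcon
    have : s ≤ 1 := by omega
    linarith
  have hk14 : 14 * s ≤ k := by
    rcases hs14 with h1 | h1
    · exact h1
    · omega
  obtain ⟨u, hu⟩ := exists_Zr hS (R := 3 * s + 1) (by rw [hLR]; exact yB) (by linarith)
  have hS2 := h.stk2 u hu
  obtain ⟨cB2, yB2⟩ := s_side hS2 hk hs hsk hτ hL (by linarith)
  have g1' := y_ge hS2
  have g2' := hS2.big
  have huB : u ∈ Bg G τ U := Zr_subset hu
  have huU : u ∈ U := Bg_subset huB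
  have hu2 : u ∈ Zr G τ (sw U u) := u_mem_Zr_sw hS hL4 hu
  have huB2 : u ∈ Bg G τ (sw U u) := Zr_subset hu2
  have hss : sw (sw U u) u = U := sw_sw huU
  have hE1 : E G (Bg G τ U) ≤ E G U := E_mono G Bg_subset
  have hE2 : E G (Bg G τ (sw U u)) ≤ E G (sw U u) := E_mono G Bg_subset
  have hcards : ((Bg G τ U).card : ℤ) = k + 1 ∧ ((Bg G τ (sw U u)).card : ℤ) = k + 1 := by
    rcases le_total (Bg G τ (sw U u)).card (Bg G τ U).card with hle | hle
    · have co := core (R := 3 * s + 1) (κ := k) hS hS2 hL4 hu (by rw [hLR]; exact yB)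
        (by rw [hLR]; exact yB2) cB2 hle (by linarith) (h.sp u hu)
      have e1 : ((Bg G τ U).card : ℤ) = k + 1 :=
        F2_card_eq (x := E G U - τ) (e := E G (Bg G τ U)) hs2 hk14 (by linarith) cB
          (by linarith) co
      have e2 : ((Bg G τ (sw U u)).card : ℤ) ≤ ((Bg G τ U).card : ℤ) := by exact_mod_cast hle
      exact ⟨e1, by linarith⟩
    · have co := core (R := 3 * s + 1) (κ := k) hS2 (hss.symm ▸ hS) hL4 hu2
        (by rw [hLR]; exact yB2) (by rw [hLR, hss]; exact yB) (by rw [hss]; exact cB)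
        (by rw [hss]; exact hle) (by linarith) (h.sp2 u hu)
      have e1 : ((Bg G τ (sw U u)).card : ℤ) = k + 1 :=
        F2_card_eq (x := E G (sw U u) - τ) (e := E G (Bg G τ (sw U u))) hs2 hk14 (by linarith) cB2
          (by linarith) co
      have e2 : ((Bg G τ U).card : ℤ) ≤ ((Bg G τ (sw U u)).card : ℤ) := by exact_mod_cast hle
      exact ⟨by linarith, e1⟩
  obtain ⟨eB, eB2⟩ := hcards
  have hf := out_total h hL4 (R := 3 * s + 1) hu (by rw [hLR]; exact yB)
    (by rw [hLR]; exact yB2)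
  -- the number of vertices of `W`
  have hB2U : (Bg G τ (sw U u)).erase u ⊆ Uᶜ := D1_erase_subset
  have eW : Bg G τ U ∪ Bg G τ (sw U u) = Bg G τ U ∪ (Bg G τ (sw U u)).erase u := by
    ext v
    simp only [mem_union, mem_erase]
    constructor
    · rintro (h1 | h1)
      · exact Or.inl h1
      · by_cases h2 : v = u
        · exact Or.inl (h2 ▸ huB)
        · exact Or.inr ⟨h2, h1⟩
    · rintro (h1 | ⟨_, h1⟩)
      · exact Or.inl h1
      · exact Or.inr h1
  have dB : Disjoint (Bg G τ U) ((Bg G τ (sw U u)).erase u) :=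
    disjoint_of_subset_left Bg_subset (disjoint_of_subset_right hB2U disjoint_compl_right)
  have cW : ((Bg G τ U ∪ Bg G τ (sw U u)).card : ℤ) = 2 * k + 1 := by
    have h1 : ((Bg G τ (sw U u)).erase u).card + 1 = (Bg G τ (sw U u)).card :=
      card_erase_add_one huB2
    have h2 : (((Bg G τ (sw U u)).erase u).card : ℤ) + 1 = (Bg G τ (sw U u)).card := by
      exact_mod_cast h1
    rw [eW, card_union_of_disjoint dB]
    push_cast
    linarith
  have hEu := F2_E_univ hS
  have h4τ : 4 * τ - L = k * (2 * k + 1) - s := by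
    rw [hL]
    linarith
  have hWu : E G (Bg G τ U ∪ Bg G τ (sw U u)) ≤ 4 * τ - L := by
    rw [← hEu]
    exact E_mono G (subset_univ _)
  have hMo := N_add_Mo_self G (Bg G τ U ∪ Bg G τ (sw U u))
  rw [← two_E, cW] at hMo
  have hMoW : Mo G (Bg G τ U ∪ Bg G τ (sw U u)) (Bg G τ U ∪ Bg G τ (sw U u)) =
      2 * s + 2 * ((4 * τ - L) - E G (Bg G τ U ∪ Bg G τ (sw U u))) := by
    rw [h4τ]
    linarith
  have hsup := F2_supp_card (G := G) (Bg G τ U ∪ Bg G τ (sw U u))
  refine ⟨u, hu, ?_, card_le_card subset_union_left, ?_⟩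
  · have h1 : ((supp G (Bg G τ U ∪ Bg G τ (sw U u))).card : ℤ) ≤ (Bg G τ U).card := by
      rw [eB]
      linarith
    exact_mod_cast h1
  intro V1 hV1 hc hsV
  have hcZ : (V1.card : ℤ) = k + 1 := by
    rw [← eB]
    exact_mod_cast hc
  have hm1 := F2_Mo_eq hV1 hsV
  have hm2 := N_add_Mo_self G V1
  rw [← two_E, hcZ] at hm2
  constructor
  · linarith
  · have s1 := E_super G V1ᶜ (Bg G τ U ∪ Bg G τ (sw U u))
    have s2 : E G (V1ᶜ ∪ (Bg G τ U ∪ Bg G τ (sw U u))) ≤ 4 * τ - L := by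
      rw [← hEu]
      exact E_mono G (subset_univ _)
    have s3 : V1ᶜ ∩ (Bg G τ U ∪ Bg G τ (sw U u)) = (Bg G τ U ∪ Bg G τ (sw U u)) \ V1 := by
      ext v
      simp only [mem_inter, mem_compl, mem_sdiff]
      tauto
    have s4 : (((Bg G τ U ∪ Bg G τ (sw U u)) \ V1).card : ℤ) = k := by
      have h1 := card_sdiff_add_card_eq_card hV1
      have h2 : (((Bg G τ U ∪ Bg G τ (sw U u)) \ V1).card : ℤ) + V1.card =
          (Bg G τ U ∪ Bg G τ (sw U u)).card := by exact_mod_cast h1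
      linarith
    have s5 := E_le_choose G ((Bg G τ U ∪ Bg G τ (sw U u)) \ V1)
    rw [s4] at s5
    rw [s3] at s1
    linarith

end Pool.Agent.helper81.JB
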