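import Pool.Agent.helper81.JB.Defs

/-!
# JB-Win: averaging over cyclic windows

`win P t i` is the set of the first `t` elements of `P` in the cyclic order starting at `i`.
Let `r i v` be the number of the `z ∈ P` in the cyclic interval `[i, v)`; `v ∈ win P t i ↔ v ∈ P ∧ r i v < t`.
* for `i` fixed, `v ↦ r i v` is a bijection of `P` onto `{0, …, P.card - 1}`: it is injective on `P`
  (strictly monotone for the cyclic order starting at `i`: if `v ≠ v'` are in `P` and `v` comes before
  `v'` then `[i, v) ⊆ [i, v')` and `v` is in the second one only) and `r i v < P.card`.  So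
  `(win P t i).card = t` for `t ≤ P.card`.
* for `v ∈ P` fixed, `i ↦ r i v` is a bijection of `P` onto `{0, …, P.card - 1}` (the same
  argument: for `i ∈ P`, `[i, v)` shrinks when `i` moves towards `v`).  So exactly `t` of the
  `i ∈ P` satisfy `v ∈ win P t i`, and `∑_{i ∈ P} ∑_{v ∈ win P t i} f v = t * ∑_{v ∈ P} f v`.  One of the
  `i ∈ P` has `P.card * ∑_{win P t i} f ≤ t * ∑_P f` (`Finset.exists_le_of_sum_le`).
-/

set_option autoImplicit false

open Finset

namespace Pool.Agent.helper81.JB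

/-- the cyclic interval from `i` to `v` (without `v`) in `P` -/
private def winI {n : ℕ} (P : Finset (Fin n)) (i v : Fin n) : Finset (Fin n) :=
  P.filter fun z => if i ≤ v then i ≤ z ∧ z < v else i ≤ z ∨ z < v

private theorem winI_mem {n : ℕ} {P : Finset (Fin n)} {i v z : Fin n} :
    z ∈ winI P i v ↔ z ∈ P ∧ ((i ≤ v ∧ i ≤ z ∧ z < v) ∨ (v < i ∧ (i ≤ z ∨ z < v))) := by
  unfold winI
  rw [mem_filter]
  by_cases h : i ≤ v
  · have h' : ¬ v < i := not_lt.2 h
    simp [h, h']
  · have h' : v < i := not_le.1 h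
    simp [h, h']

private theorem winI_lt {n : ℕ} {P : Finset (Fin n)} {i v : Fin n} (hv : v ∈ P) :
    (winI P i v).card < P.card := by
  apply card_lt_card
  have hs : winI P i v ⊆ P := filter_subset _ _
  rw [ssubset_iff_of_subset hs]
  refine ⟨v, hv, fun h => ?_⟩
  rw [winI_mem] at h
  rcases h.2 with h2 | h2
  · exact lt_irrefl _ h2.2.2
  · rcases h2.2 with h3 | h3
    · exact absurd (lt_of_lt_of_le h2.1 h3) (lt_irrefl _)
    · exact lt_irrefl _ h3

private theorem winI_ssub {n : ℕ} {P : Finset (Fin n)} {i v j w z : Fin n}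
    (h : ∀ x, x ∈ winI P i v → x ∈ winI P j w) (hz : z ∈ winI P j w) (hz' : z ∉ winI P i v) :
    (winI P i v).card < (winI P j w).card :=
  card_lt_card ((ssubset_iff_of_subset h).2 ⟨z, hz, hz'⟩)

/-- `v ↦ r i v` is injective -/
private theorem winI_inj_right {n : ℕ} {P : Finset (Fin n)} (i : Fin n) {v w : Fin n} (hv : v ∈ P)
    (hw : w ∈ P) (h : (winI P i v).card = (winI P i w).card) : v = w := by
  by_contra hne
  have key : ∀ a b : Fin n, a ∈ P → b ∈ P →
      ((i ≤ a ∧ i ≤ b ∧ a < b) ∨ (i ≤ a ∧ b < i) ∨ (a < i ∧ b < i ∧ a < b)) →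
      (winI P i a).card < (winI P i b).card := by
    intro a b ha hb hc
    apply winI_ssub (z := a)
    · intro x hx
      rw [winI_mem] at hx ⊢
      simp only [Fin.lt_def, Fin.le_def] at hx hc ⊢
      refine ⟨hx.1, ?_⟩
      omega
    · rw [winI_mem]
      simp only [Fin.lt_def, Fin.le_def] at hc ⊢
      refine ⟨ha, ?_⟩
      omega
    · rw [winI_mem]
      simp only [Fin.lt_def, Fin.le_def] at hc ⊢
      rintro ⟨-, h2⟩
      omega
  have hne' : (v : ℕ) ≠ w := fun h2 => hne (Fin.ext h2)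
  have h3 : ((i ≤ v ∧ i ≤ w ∧ v < w) ∨ (i ≤ v ∧ w < i) ∨ (v < i ∧ w < i ∧ v < w)) ∨
      ((i ≤ w ∧ i ≤ v ∧ w < v) ∨ (i ≤ w ∧ v < i) ∨ (w < i ∧ v < i ∧ w < v)) := by
    simp only [Fin.lt_def, Fin.le_def]
    omega
  rcases h3 with h3 | h3
  · exact absurd (key v w hv hw h3) (by omega)
  · exact absurd (key w v hw hv h3) (by omega)

/-- `i ↦ r i v` is injective -/
private theorem winI_inj_left {n : ℕ} {P : Finset (Fin n)} {v : Fin n} {i j : Fin n} (hi : i ∈ P)
    (hj : j ∈ P) (h : (winI P i v).card = (winI P j v).card) : i = j := by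
  by_contra hne
  have key : ∀ a b : Fin n, a ∈ P → b ∈ P →
      ((a ≤ v ∧ b ≤ v ∧ b < a) ∨ (a ≤ v ∧ v < b) ∨ (v < a ∧ v < b ∧ b < a)) →
      (winI P a v).card < (winI P b v).card := by
    intro a b ha hb hc
    apply winI_ssub (z := b)
    · intro x hx
      rw [winI_mem] at hx ⊢
      simp only [Fin.lt_def, Fin.le_def] at hx hc ⊢
      refine ⟨hx.1, ?_⟩
      omega
    · rw [winI_mem]
      simp only [Fin.lt_def, Fin.le_def] at hc ⊢
      refine ⟨hb, ?_⟩
      omega
    · rw [winI_mem]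
      simp only [Fin.lt_def, Fin.le_def] at hc ⊢
      rintro ⟨-, h2⟩
      omega
  have hne' : (i : ℕ) ≠ j := fun h2 => hne (Fin.ext h2)
  have h3 : ((i ≤ v ∧ j ≤ v ∧ j < i) ∨ (i ≤ v ∧ v < j) ∨ (v < i ∧ v < j ∧ j < i)) ∨
      ((j ≤ v ∧ i ≤ v ∧ i < j) ∨ (j ≤ v ∧ v < i) ∨ (v < j ∧ v < i ∧ i < j)) := by
    simp only [Fin.lt_def, Fin.le_def]
    omega
  rcases h3 with h3 | h3
  · exact absurd (key i j hi hj h3) (by omega)
  · exact absurd (key j i hj hi h3) (by omega)

private theorem win_count {α : Type} [DecidableEq α] {P : Finset α} {f : α → ℕ}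
    (hinj : ∀ x ∈ P, ∀ y ∈ P, f x = f y → x = y) (hlt : ∀ x ∈ P, f x < P.card) {t : ℕ}
    (ht : t ≤ P.card) : (P.filter fun x => f x < t).card = t := by
  have himg : P.image f = range P.card := by
    apply eq_of_subset_of_card_le
    · intro k hk
      obtain ⟨x, hx, rfl⟩ := mem_image.1 hk
      exact mem_range.2 (hlt x hx)
    · rw [card_range, card_image_of_injOn]
      exact fun x hx y hy h => hinj x hx y hy h
  have h2 : (P.filter fun x => f x < t).image f = range t := by
    ext k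
    rw [mem_image, mem_range]
    constructor
    · rintro ⟨x, hx, rfl⟩
      exact (mem_filter.1 hx).2
    · intro hk
      have h3 : k ∈ P.image f := by
        rw [himg]
        exact mem_range.2 (lt_of_lt_of_le hk ht)
      obtain ⟨x, hx, rfl⟩ := mem_image.1 h3
      exact ⟨x, mem_filter.2 ⟨hx, hk⟩, rfl⟩
  have h3 : ((P.filter fun x => f x < t).image f).card = (P.filter fun x => f x < t).card := by
    apply card_image_of_injOn
    intro x hx y hy h
    exact hinj x (mem_filter.1 hx).1 y (mem_filter.1 hy).1 h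
  rw [← h3, h2, card_range]

private theorem win_eq {n : ℕ} (P : Finset (Fin n)) (t : ℕ) (i : Fin n) :
    win P t i = P.filter fun v => (winI P i v).card < t := rfl

theorem win_subset {n : ℕ} (P : Finset (Fin n)) (t : ℕ) (i : Fin n) : win P t i ⊆ P :=
  filter_subset _ _

theorem win_card {n : ℕ} (P : Finset (Fin n)) {t : ℕ} (ht : t ≤ P.card) (i : Fin n) :
    (win P t i).card = t := by
  rw [win_eq]
  exact win_count (fun x hx y hy h => winI_inj_right i hx hy h) (fun x hx => winI_lt hx) ht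

theorem exists_win {n : ℕ} {P : Finset (Fin n)} (hP : P.Nonempty) {t : ℕ} (ht : t ≤ P.card)
    (f : Fin n → ℤ) : ∃ i ∈ P, (P.card : ℤ) * ∑ v ∈ win P t i, f v ≤ t * ∑ v ∈ P, f v := by
  apply exists_le_of_sum_le hP
  have h1 : ∑ i ∈ P, ∑ v ∈ win P t i, f v = t * ∑ v ∈ P, f v := by
    have h2 : ∀ i ∈ P, ∑ v ∈ win P t i, f v =
        ∑ v ∈ P, if (winI P i v).card < t then f v else 0 := by
      intro i _
      rw [win_eq, sum_filter]
    rw [sum_congr rfl h2, sum_comm, mul_sum]
    refine sum_congr rfl fun v hv => ?_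
    rw [← sum_filter, sum_const, win_count (f := fun i => (winI P i v).card)
      (fun x hx y hy h => winI_inj_left hx hy h) (fun x _ => winI_lt hv) ht]
    simp
  rw [← mul_sum, h1, sum_const, nsmul_eq_mul]

end Pool.Agent.helper81.JB
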