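import Pool.Agent.helper81.JB.D1
import Pool.Agent.helper81.JB.Win

/-!
# JB-Fl: the special flips

* `flip_vs`: `Z = Zr τ U` is a clique of vertices with `al = 0`, `T ⊆ Zp` is a clique of vertices with
  `al = 2` outside of `U`, all of them adjacent to all of `insert w X`; `w` is not adjacent to `X ⊆ Z`;
  `q = X.card = T.card = al w / 2 + 1`. The flip inequality for `insert w X`, `T`:
  `2 (q + 1) q ≤ al w + 2 q + q (q - 1) + q (q - 1)`, i.e. `2 q ≤ al w`, contradiction
  (`w ∉ X` as `w ∉ Z`).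
* `flip_s1`: `S = S1 τ U`, `t = S.card`, `T.card = t - 1`: `N S T = t (t - 1) - Mo S T` (`N_add_Mo`),
  `N S S = t (t - 1) - Mo S S`, `N T T = (t - 1) (t - 2)`, `∑_T al = 2 (t - 1)`.  The flip inequality
  is `2 t (t - 1) - 2 Mo S T ≤ ∑_S al + 2 (t - 1) + t (t - 1) - Mo S S + (t - 1) (t - 2)`, i.e.
  `Mo S S ≤ ∑_S al + 2 Mo S T`.
* `sp_of_flip`: `vs`: choose any `X` (`hvs` gives one for which all flips are not improving);
  if `(Cn Zp (insert w X)).card ≥ X.card` choose `T ⊆ Cn ..` with `T.card = X.card`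
  (`hvs` gives one), `flip_vs`. `sr`: if `S1.card = 1` take `R = ∅` and the flip of `S1`, `∅`
  (`Mo S1 S1 = 0` for one vertex, `al ≥ 0`); otherwise `Zp` is nonempty, `exists_win` for `t = S1.card - 1`,
  `f v = Mo {v} S1` (`Mo_comm`, `Mo_sum`), `flip_s1`.
-/

set_option autoImplicit false

open Finset

namespace Pool.Agent.helper81.JB

section
variable {V : Type} [Fintype V] [DecidableEq V] {G : SimpleGraph V} {τ L : ℤ} {U : Finset V}
  {u : V}

theorem flip_vs (h : Stk G τ L U) (h2 : Stk G τ L (sw U u)) (hL : -3 ≤ L) (hu : u ∈ Zr G τ U)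
    {w : V} (hw : w ∈ S1 G τ U) {X T : Finset V} (hX : X ⊆ Xn G (Zr G τ U) w)
    (hXc : (X.card : ℤ) = al G U w / 2 + 1) (hT : T ⊆ Cn G (Zp G τ U u) (insert w X))
    (hTc : T.card = X.card) (hf : Flip G U (insert w X) T) : False := by
  have hZ : ∀ {v : V}, v ∈ X → v ∈ Zr G τ U := fun {v} hv => by
    have h1 := hX hv
    simp only [Xn, mem_filter] at h1
    exact h1.1
  have hwX : ∀ {v : V}, v ∈ X → ¬ G.Adj w v := fun {v} hv => by
    have h1 := hX hv
    simp only [Xn, mem_filter] at h1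
    exact h1.2
  have hTZ : ∀ {v : V}, v ∈ T → v ∈ Zp G τ U u := fun {v} hv => by
    have h1 := hT hv
    simp only [Cn, mem_filter] at h1
    exact h1.1
  have hTa : ∀ {v : V}, v ∈ T → ∀ z ∈ insert w X, G.Adj z v := fun {v} hv => by
    have h1 := hT hv
    simp only [Cn, mem_filter] at h1
    exact h1.2
  have hwZ : w ∉ Zr G τ U := by
    unfold S1 at hw
    exact (mem_sdiff.1 hw).2
  have hwX' : w ∉ X := fun hc => hwZ (hZ hc)
  have huU : u ∈ U := Bg_subset (Zr_subset hu)
  have hwU : w ∈ U := Bg_subset (mem_sdiff.1 (by unfold S1 at hw; exact hw)).1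
  have hXU : ∀ {v : V}, v ∈ X → v ∈ U := fun {v} hv => Bg_subset (Zr_subset (hZ hv))
  have hTU : ∀ {v : V}, v ∈ T → v ∉ U := fun {v} hv => by
    have h1 := Zp_subset huU (hTZ hv)
    exact mem_compl.1 h1
  have hdisj : Disjoint (insert w X) T := by
    rw [Finset.disjoint_left]
    intro a ha hat
    rcases mem_insert.1 ha with rfl | ha
    · exact hTU hat hwU
    · exact hTU hat (hXU ha)
  have hcard : ((insert w X).card : ℤ) = X.card + 1 := by
    rw [card_insert_of_notMem hwX']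
    push_cast
    ring
  have e1 : N G (insert w X) T + Mo G (insert w X) T = (insert w X).card * T.card :=
    N_add_Mo G hdisj
  have e2 : Mo G (insert w X) T = 0 := Mo_eq_zero G fun a ha b hb _ => hTa hb a ha
  have e3 : N G X X + Mo G X X = X.card * (X.card - 1) := N_add_Mo_self G X
  have e4 : Mo G X X = 0 := Mo_eq_zero G fun a ha b hb hab => Zr_adj h hL (hZ ha) (hZ hb) hab
  have e5 : N G T T + Mo G T T = T.card * (T.card - 1) := N_add_Mo_self G T
  have e6 : Mo G T T = 0 :=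
    Mo_eq_zero G fun a ha b hb hab => Zp_adj h2 hL (hTZ ha) (hTZ hb) hab
  have e7 : N G {w} X = 0 := by
    rw [N_sing_sum]
    exact sum_eq_zero fun b hb => ind_not G (hwX hb)
  have e8 : N G {w} {w} = 0 := by
    rw [N_sing, ind_self]
  have e9 : N G (insert w X) (insert w X) = N G X X := by
    rw [N_insert_left G hwX', N_insert_right G hwX', N_insert_right G hwX', e7, e8]
    rw [N_comm G X X]
    have : N G {w} X = 0 := e7
    linarith
  have e10 : ∑ v ∈ insert w X, al G U v = al G U w := by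
    rw [sum_insert hwX', sum_eq_zero, add_zero]
    intro v hv
    exact (mem_Zr.1 (hZ hv)).2
  have e11 : ∑ v ∈ T, al G U v = 2 * T.card := by
    rw [sum_congr rfl fun v hv => Zp_al h h2 hL hu (hTZ hv), sum_const, nsmul_eq_mul]
    ring
  unfold Flip at hf
  rw [e9, e10, e11] at hf
  rw [hTc] at hf e1 e5
  rw [hcard] at e1
  have h1 : N G (insert w X) T = (X.card + 1) * X.card := by linarith
  have h3 : N G X X = X.card * (X.card - 1) := by linarith
  have h4 : N G T T = X.card * (X.card - 1) := by linarith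
  rw [h1, h3, h4] at hf
  have h5 : 2 * (X.card : ℤ) ≤ al G U w := by nlinarith
  omega

theorem flip_s1 (h : Stk G τ L U) (h2 : Stk G τ L (sw U u)) (hL : -3 ≤ L) (hu : u ∈ Zr G τ U)
    {T : Finset V} (hT : T ⊆ Zp G τ U u) (hTc : T.card + 1 = (S1 G τ U).card)
    (hf : Flip G U (S1 G τ U) T) :
    Mo G (S1 G τ U) (S1 G τ U) ≤ ∑ v ∈ S1 G τ U, al G U v + 2 * Mo G (S1 G τ U) T := by
  have huU : u ∈ U := Bg_subset (Zr_subset hu)
  have hSU : ∀ {v : V}, v ∈ S1 G τ U → v ∈ U := fun {v} hv => by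
    unfold S1 at hv
    exact Bg_subset (mem_sdiff.1 hv).1
  have hTU : ∀ {v : V}, v ∈ T → v ∉ U := fun {v} hv => mem_compl.1 (Zp_subset huU (hT hv))
  have hdisj : Disjoint (S1 G τ U) T := by
    rw [Finset.disjoint_left]
    intro a ha hat
    exact hTU hat (hSU ha)
  have e1 := N_add_Mo G hdisj
  have e3 := N_add_Mo_self G (S1 G τ U)
  have e5 := N_add_Mo_self G T
  have e6 : Mo G T T = 0 :=
    Mo_eq_zero G fun a ha b hb hab => Zp_adj h2 hL (hT ha) (hT hb) hab
  have e11 : ∑ v ∈ T, al G U v = 2 * T.card := by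
    rw [sum_congr rfl fun v hv => Zp_al h h2 hL hu (hT hv), sum_const, nsmul_eq_mul]
    ring
  have hc : ((S1 G τ U).card : ℤ) = T.card + 1 := by
    rw [← hTc]
    push_cast
    ring
  unfold Flip at hf
  rw [e11] at hf
  rw [hc] at e1 e3
  have h1 : N G (S1 G τ U) T = (T.card + 1) * T.card - Mo G (S1 G τ U) T := by linarith
  have h3 : N G (S1 G τ U) (S1 G τ U) =
      (T.card + 1) * T.card - Mo G (S1 G τ U) (S1 G τ U) := by linarith
  have h4 : N G T T = T.card * (T.card - 1) := by linarith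
  rw [h1, h3, h4] at hf
  nlinarith

end

theorem sp_of_flip {n : ℕ} {G : SimpleGraph (Fin n)} {τ L : ℤ} {U : Finset (Fin n)} {u : Fin n}
    (h : Stk G τ L U) (h2 : Stk G τ L (sw U u)) (hL : -3 ≤ L) (hu : u ∈ Zr G τ U)
    (hvs : ∀ w ∈ S1 G τ U, al G U w / 2 + 1 ≤ ((Xn G (Zr G τ U) w).card : ℤ) →
      ∃ X ⊆ Xn G (Zr G τ U) w, (X.card : ℤ) = al G U w / 2 + 1 ∧
        (X.card ≤ (Cn G (Zp G τ U u) (insert w X)).card →
          ∃ T ⊆ Cn G (Zp G τ U u) (insert w X), T.card = X.card ∧ Flip G U (insert w X) T))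
    (hsr : ∀ i ∈ Zp G τ U u, (S1 G τ U).card ≤ (Zp G τ U u).card + 1 →
      Flip G U (S1 G τ U) (win (Zp G τ U u) ((S1 G τ U).card - 1) i)) :
    Sp G τ U u := by
  constructor
  · intro w hw hle
    obtain ⟨X, hX, hXc, hT⟩ := hvs w hw hle
    refine ⟨X, hX, hXc, ?_⟩
    by_contra hcon
    obtain ⟨T, hT1, hT2, hT3⟩ := hT (not_lt.1 hcon)
    exact flip_vs h h2 hL hu hw hX hXc hT1 hT2 hT3
  · intro hne hle
    have hpos : 1 ≤ (S1 G τ U).card := hne.card_pos
    by_cases h1 : (S1 G τ U).card = 1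
    · refine ⟨∅, empty_subset _, by rw [card_empty, h1], ?_, ?_⟩
      · have : Mo G (S1 G τ U) ∅ = 0 := by
          rw [Mo_sum]
          exact sum_eq_zero fun a _ => by rw [Mo_sing_sum, sum_empty]
        rw [this]
        simp
      · obtain ⟨a, ha⟩ := card_eq_one.1 h1
        have e1 : Mo G (S1 G τ U) (S1 G τ U) = 0 := by
          rw [ha, Mo_sing_sum, sum_singleton, mis_self]
        have e2 : 0 ≤ ∑ v ∈ S1 G τ U, al G U v := sum_nonneg fun v _ => h.loc.one v
        have e3 := Mo_nonneg G (S1 G τ U) ∅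
        rw [e1]
        linarith
    · have hZne : (Zp G τ U u).Nonempty := by
        rw [← card_pos]
        omega
      obtain ⟨i, hi, hw⟩ := exists_win hZne (t := (S1 G τ U).card - 1) (by omega)
        (fun v => Mo G {v} (S1 G τ U))
      have hRs := win_subset (Zp G τ U u) ((S1 G τ U).card - 1) i
      have hRc := win_card (Zp G τ U u) (t := (S1 G τ U).card - 1) (by omega) i
      have hRc' : (win (Zp G τ U u) ((S1 G τ U).card - 1) i).card + 1 = (S1 G τ U).card := by
        omega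
      refine ⟨win (Zp G τ U u) ((S1 G τ U).card - 1) i, hRs, hRc', ?_,
        flip_s1 h h2 hL hu hRs hRc' (hsr i hi hle)⟩
      rw [Mo_comm G (S1 G τ U), Mo_sum, Mo_comm G (S1 G τ U) (Zp G τ U u),
        Mo_sum G (Zp G τ U u), hRc]
      exact hw

end Pool.Agent.helper81.JB
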