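import Pool.Agent.helper81.JB.AlgP
import Pool.Agent.helper81.JB.F2
import Pool.Agent.helper81.JB.Fl

/-!
# JB-AlgR1: a cut which is locally optimal for the family `Fm`: flips of few vertices

`hU : ∀ F ∈ Fm G τ U, cutN G F ≤ cutN G U`, `hb : ∀ F ∈ Fm G τ U, ¬ good G τ F`, `2 ≤ n`;
`W = Wv a 0 c U` with `a < 2`, i.e. `W = U` or `W = Uᶜ`; `sw W u = Wv a 1 u U` (`Wv_one`).
* `f1_eq`: list the elements of `D` and fill up with the number `n < n * n`.
* `cutN_compl`: `N_comm`. `cutN_sw`: `al G W u = 0` (`sw W u` is the complement of `W.erase u = W \ {u} ∪ ∅`,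
  `flip_formula`).
* `flip_fm`: for `S ⊆ W`, `R ⊆ Wᶜ`: `W \ S ∪ R = symmDiff W (S ∪ R)`; for `W = U` this is `f1 ..`, for
  `W = Uᶜ` it is the complement of `symmDiff U (S ∪ R)`; `flip_of_le`.
* `flip_fm_sw`: `sw W u = (symmDiff W {u})ᶜ` for `u ∈ W`, so
  `sw W u \ S ∪ R` is `U` or `Uᶜ` changed in at most four vertices.
-/

set_option autoImplicit false

open Finset

namespace Pool.Agent.helper81.JB

variable {n : ℕ} {G : SimpleGraph (Fin n)} {τ L : ℤ} {U W : Finset (Fin n)} {u : Fin n}

theorem AlgR1_eq (v a : Fin n) : (v.val = a.val) = (v = a) := by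
  rw [Fin.ext_iff]

theorem f1_eq (hn : 2 ≤ n) (U D : Finset (Fin n)) (hD : D.card ≤ 4) :
    ∃ p < n * n, ∃ q < n * n, ∃ r < n * n, ∃ s < n * n, f1 p q r s U = symmDiff U D := by
  have hnn : n < n * n := by nlinarith
  have hv : ∀ v : Fin n, v.val ≠ n := fun v => v.isLt.ne
  have hlt : ∀ v : Fin n, v.val < n * n := fun v => v.isLt.trans hnn
  obtain ⟨l, hl, hlD⟩ : ∃ l : List (Fin n), l.Nodup ∧ l.toFinset = D :=
    ⟨D.toList, D.nodup_toList, D.toList_toFinset⟩
  have hlen : l.length ≤ 4 := by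
    rw [← List.toFinset_card_of_nodup hl, hlD]
    exact hD
  subst hlD
  match l, hl, hlen with
  | [], _, _ =>
    refine ⟨n, hnn, n, hnn, n, hnn, n, hnn, ?_⟩
    ext v
    by_cases h : v ∈ U <;> simp [f1, mem_symmDiff, hv v, h]
  | [a], _, _ =>
    refine ⟨a.val, hlt a, n, hnn, n, hnn, n, hnn, ?_⟩
    ext v
    simp only [f1, mem_symmDiff, mem_filter, mem_univ, true_and, AlgR1_eq, if_neg (hv v),
      List.toFinset_cons, List.toFinset_nil, insert_empty_eq, mem_singleton]
    by_cases h : v ∈ U <;> by_cases h1 : v = a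
    · subst h1
      simp [h]
    · simp [h, h1]
    · subst h1
      simp [h]
    · simp [h, h1]
  | [a, b], hl, _ =>
    refine ⟨a.val, hlt a, b.val, hlt b, n, hnn, n, hnn, ?_⟩
    have hab : a ≠ b := by
      intro e
      simp [e] at hl
    ext v
    simp only [f1, mem_symmDiff, mem_filter, mem_univ, true_and, AlgR1_eq, if_neg (hv v),
      List.toFinset_cons, List.toFinset_nil, mem_insert, insert_empty_eq, mem_singleton]
    by_cases h : v ∈ U <;> by_cases h1 : v = a
    · subst h1
      simp [h, hab]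
    · by_cases h2 : v = b
      · subst h2
        simp [h, h1]
      · simp [h, h1, h2]
    · subst h1
      simp [h, hab]
    · by_cases h2 : v = b
      · subst h2
        simp [h, h1]
      · simp [h, h1, h2]
  | [a, b, c], hl, _ =>
    refine ⟨a.val, hlt a, b.val, hlt b, c.val, hlt c, n, hnn, ?_⟩
    simp only [List.nodup_cons, List.mem_cons, List.not_mem_nil, or_false, not_or,
      List.nodup_nil, and_true, not_false_eq_true] at hl
    obtain ⟨⟨hab, hac⟩, hbc⟩ := hl
    ext v
    simp only [f1, mem_symmDiff, mem_filter, mem_univ, true_and, AlgR1_eq, if_neg (hv v),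
      List.toFinset_cons, List.toFinset_nil, mem_insert, insert_empty_eq, mem_singleton]
    by_cases h : v ∈ U <;> by_cases h1 : v = a
    · subst h1
      simp [h, hab, hac]
    · by_cases h2 : v = b
      · subst h2
        simp [h, h1, hbc]
      · by_cases h3 : v = c
        · subst h3
          simp [h, h1, h2]
        · simp [h, h1, h2, h3]
    · subst h1
      simp [h, hab, hac]
    · by_cases h2 : v = b
      · subst h2
        simp [h, h1, hbc]
      · by_cases h3 : v = c
        · subst h3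
          simp [h, h1, h2]
        · simp [h, h1, h2, h3]
  | [a, b, c, d], hl, _ =>
    refine ⟨a.val, hlt a, b.val, hlt b, c.val, hlt c, d.val, hlt d, ?_⟩
    simp only [List.nodup_cons, List.mem_cons, List.not_mem_nil, or_false, not_or,
      List.nodup_nil, and_true, not_false_eq_true] at hl
    obtain ⟨⟨hab, hac, had⟩, ⟨hbc, hbd⟩, hcd⟩ := hl
    ext v
    simp only [f1, mem_symmDiff, mem_filter, mem_univ, true_and, AlgR1_eq,
      List.toFinset_cons, List.toFinset_nil, mem_insert, insert_empty_eq, mem_singleton]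
    by_cases h : v ∈ U <;> by_cases h1 : v = a
    · subst h1
      simp [h, hab, hac, had]
    · by_cases h2 : v = b
      · subst h2
        simp [h, h1, hbc, hbd]
      · by_cases h3 : v = c
        · subst h3
          simp [h, h1, h2, hcd]
        · by_cases h4 : v = d
          · subst h4
            simp [h, h1, h2, h3]
          · simp [h, h1, h2, h3, h4]
    · subst h1
      simp [h, hab, hac, had]
    · by_cases h2 : v = b
      · subst h2
        simp [h, h1, hbc, hbd]
      · by_cases h3 : v = c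
        · subst h3
          simp [h, h1, h2, hcd]
        · by_cases h4 : v = d
          · subst h4
            simp [h, h1, h2, h3]
          · simp [h, h1, h2, h3, h4]

theorem cutN_compl (X : Finset (Fin n)) : cutN G Xᶜ = cutN G X := by
  unfold cutN
  rw [compl_compl, N_comm]

theorem good_compl (X : Finset (Fin n)) : good G τ Xᶜ ↔ good G τ X := by
  unfold good
  rw [compl_compl]
  exact and_comm

theorem cutN_sw (hu : u ∈ W) (ha : al G W u = 0) : cutN G (sw W u) = cutN G W := by
  have h1 := flip_formula G (U := W) (S := {u}) (R := ∅) (by simpa using hu) (by simp)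
  have h2 : W \ {u} ∪ ∅ = (sw W u)ᶜ := by
    rw [sw_compl, union_empty, sdiff_singleton_eq_erase]
  rw [h2, compl_compl, sum_singleton, sum_empty, N_sing, ind_self, N_empty_left, N_empty_right,
    ha, N_comm] at h1
  unfold cutN
  linarith

theorem Wv_zero (c : ℕ) : Wv 0 0 c U = U := by
  simp [Wv]

theorem Wv_compl (c : ℕ) : Wv 1 0 c U = Uᶜ := by
  simp [Wv]

theorem Wv_one (a : ℕ) (u : Fin n) : Wv a 1 u.val U = sw (Wv a 0 u.val U) u := by
  ext v
  simp only [Wv, sw, one_ne_zero, if_false, if_true, mem_filter, mem_univ, true_and, mem_insert,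
    mem_compl, AlgR1_eq]
  tauto

theorem AlgR1_cut (hn : 2 ≤ n) (hU : ∀ F ∈ Fm G τ U, cutN G F ≤ cutN G U)
    (hW : W = U ∨ W = Uᶜ) {D : Finset (Fin n)} (hD : D.card ≤ 4) :
    cutN G (symmDiff W D) ≤ cutN G W := by
  obtain ⟨p, hp, q, hq, r, hr, s, hs, hF⟩ := f1_eq hn U D hD
  have h1 := hU (symmDiff U D) (Or.inl ⟨p, hp, q, hq, r, hr, s, hs, hF.symm⟩)
  rcases hW with rfl | rfl
  · exact h1
  · have h2 : symmDiff Uᶜ D = (symmDiff U D)ᶜ := by
      ext v
      simp only [mem_symmDiff, mem_compl]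
      tauto
    rw [h2, cutN_compl, cutN_compl]
    exact h1

theorem AlgR1_symm {S R : Finset (Fin n)} (hS : S ⊆ W) (hR : R ⊆ Wᶜ) :
    W \ S ∪ R = symmDiff W (S ∪ R) := by
  ext v
  have h1 := @hS v
  have h2 := @hR v
  simp only [mem_compl] at h2
  simp only [mem_symmDiff, mem_union, mem_sdiff]
  tauto

theorem flip_fm (hn : 2 ≤ n) (hU : ∀ F ∈ Fm G τ U, cutN G F ≤ cutN G U)
    (hW : W = U ∨ W = Uᶜ) {S R : Finset (Fin n)} (hS : S ⊆ W) (hR : R ⊆ Wᶜ)
    (hc : S.card + R.card ≤ 3) : Flip G W S R := by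
  refine flip_of_le G hS hR ?_
  rw [AlgR1_symm hS hR]
  exact AlgR1_cut hn hU hW (by
    have := card_union_le S R
    omega)

theorem flip_fm_sw (hn : 2 ≤ n) (hU : ∀ F ∈ Fm G τ U, cutN G F ≤ cutN G U)
    (hW : W = U ∨ W = Uᶜ) (hu : u ∈ W) (ha : al G W u = 0) {S R : Finset (Fin n)}
    (hS : S ⊆ sw W u) (hR : R ⊆ (sw W u)ᶜ) (hc : S.card + R.card ≤ 3) :
    Flip G (sw W u) S R := by
  refine flip_of_le G hS hR ?_
  rw [AlgR1_symm hS hR]
  have h1 : symmDiff (sw W u) (S ∪ R) = (symmDiff W (symmDiff {u} (S ∪ R)))ᶜ := by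
    ext v
    by_cases hv : v = u
    · subst hv
      simp only [mem_symmDiff, mem_compl, sw, mem_insert, mem_singleton]
      tauto
    · simp only [mem_symmDiff, mem_compl, sw, mem_insert, mem_singleton, hv, false_or]
      tauto
  have h2 : (symmDiff {u} (S ∪ R)).card ≤ 4 := by
    have h3 : symmDiff {u} (S ∪ R) ⊆ {u} ∪ (S ∪ R) := by
      intro v hv
      simp only [mem_symmDiff, mem_union, mem_singleton] at hv ⊢
      tauto
    have h4 := card_le_card h3
    have h5 := card_union_le {u} (S ∪ R)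
    have h6 := card_union_le S R
    rw [card_singleton] at h5
    omega
  have h3 := AlgR1_cut hn hU hW h2
  have h4 := cutN_sw hu ha
  rw [h1]
  change cutN G (symmDiff W (symmDiff {u} (S ∪ R)))ᶜ ≤ cutN G (sw W u)
  rw [cutN_compl, h4]
  exact h3

end Pool.Agent.helper81.JB
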