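import Pool.Agent.helper81.JB.AlgW

/-!
# JB-AlgF: the families of sets computed by the pieces (definitions; proofs in `AlgF1`, ..., `AlgF5`)
-/

set_option autoImplicit false

open Finset

namespace Pool.Agent.helper81.JB

open Pool.Agent.helper81.LC (Tm Pr val run b2n down)
open Function (update)

variable {n : ℕ} {G : SimpleGraph (Fin n)} {w : List Bool}

/-- the working class as a function of the variables -/
def WW (ρ : Fin 20 → ℕ) (U : Finset (Fin n)) : Finset (Fin n) := Wv (ρ 2) (ρ 3) (ρ 4) U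

/-- family 1 -/
def Φ1 : Fam n := fun ρ U F => F = f1 (ρ 2) (ρ 3) (ρ 4) (ρ 5) U

/-- family 2 -/
def Φ2 (G : SimpleGraph (Fin n)) : Fam n := fun ρ U F =>
  ∃ u x : Fin n, ρ 4 = u.val ∧ ρ 5 = x.val ∧ F = f2 G (ρ 0) (WW ρ U) u x

/-- family 3 -/
def Φ3 (G : SimpleGraph (Fin n)) : Fam n := fun ρ U F =>
  ∃ u x : Fin n, ρ 4 = u.val ∧ ρ 5 = x.val ∧ F = f3 G (ρ 0) (WW ρ U) u x

/-- family 4 -/
def Φ4 (G : SimpleGraph (Fin n)) : Fam n := fun ρ U F =>
  ∃ u : Fin n, ρ 4 = u.val ∧ F = f4 G (ρ 0) (WW ρ U)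

/-- family 5 -/
def Φ5 (G : SimpleGraph (Fin n)) : Fam n := fun ρ U F =>
  ∃ u : Fin n, ρ 4 = u.val ∧ F = f5 G (ρ 0) (WW ρ U) u

end Pool.Agent.helper81.JB
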