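import Pool.Agent.helper81.JB.Defs

/-!
# JB-A1: API for `ind`, `mis`, `N`

All statements are elementary manipulations of finite double sums.
-/

set_option autoImplicit false
set_option linter.unusedSectionVars false

open Finset

namespace Pool.Agent.helper81.JB

variable {V : Type} [Fintype V] [DecidableEq V] (G : SimpleGraph V)

theorem ind_comm (a b : V) : ind G a b = ind G b a := by
  unfold ind
  rw [G.adj_comm]

theorem ind_self (a : V) : ind G a a = 0 := by
  unfold ind
  rw [if_neg (G.irrefl)]

theorem ind_nonneg (a b : V) : 0 ≤ ind G a b := by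
  unfold ind
  split_ifs <;> norm_num

theorem ind_le_one (a b : V) : ind G a b ≤ 1 := by
  unfold ind
  split_ifs <;> norm_num

theorem ind_adj {a b : V} (h : G.Adj a b) : ind G a b = 1 := by
  unfold ind
  rw [if_pos h]

theorem ind_not {a b : V} (h : ¬ G.Adj a b) : ind G a b = 0 := by
  unfold ind
  rw [if_neg h]

theorem mis_comm (a b : V) : mis G a b = mis G b a := by
  have h : (a ≠ b ∧ ¬ G.Adj a b) ↔ (b ≠ a ∧ ¬ G.Adj b a) := by
    rw [G.adj_comm, ne_comm]
  unfold mis
  by_cases h1 : a ≠ b ∧ ¬ G.Adj a b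
  · rw [if_pos h1, if_pos (h.1 h1)]
  · rw [if_neg h1, if_neg (fun h2 => h1 (h.2 h2))]

theorem mis_self (a : V) : mis G a a = 0 := by
  unfold mis
  rw [if_neg (fun h => h.1 rfl)]

theorem mis_nonneg (a b : V) : 0 ≤ mis G a b := by
  unfold mis
  split_ifs <;> norm_num

theorem mis_le_one (a b : V) : mis G a b ≤ 1 := by
  unfold mis
  split_ifs <;> norm_num

theorem mis_adj {a b : V} (h : G.Adj a b) : mis G a b = 0 := by
  unfold mis
  rw [if_neg (fun h' => h'.2 h)]

theorem mis_not {a b : V} (h : ¬ G.Adj a b) (hab : a ≠ b) : mis G a b = 1 := by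
  unfold mis
  rw [if_pos ⟨hab, h⟩]

theorem ind_add_mis {a b : V} (h : a ≠ b) : ind G a b + mis G a b = 1 := by
  by_cases hab : G.Adj a b
  · rw [ind_adj G hab, mis_adj G hab]; norm_num
  · rw [ind_not G hab, mis_not G hab h]; norm_num

/-! ### `N` -/

theorem N_nonneg (A B : Finset V) : 0 ≤ N G A B :=
  Finset.sum_nonneg fun a _ => Finset.sum_nonneg fun b _ => ind_nonneg G a b

theorem N_comm (A B : Finset V) : N G A B = N G B A := by
  unfold N
  rw [Finset.sum_comm]
  exact Finset.sum_congr rfl fun a _ => Finset.sum_congr rfl fun b _ => ind_comm G b a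

theorem N_sing (a b : V) : N G {a} {b} = ind G a b := by
  unfold N
  rw [Finset.sum_singleton, Finset.sum_singleton]

theorem N_sing_sum (a : V) (B : Finset V) : N G {a} B = ∑ b ∈ B, ind G a b := by
  unfold N
  rw [Finset.sum_singleton]

theorem N_sum (A B : Finset V) : N G A B = ∑ a ∈ A, N G {a} B := by
  simp only [N_sing_sum]
  rfl

theorem N_empty_left (B : Finset V) : N G ∅ B = 0 := by
  unfold N
  rw [Finset.sum_empty]

theorem N_empty_right (A : Finset V) : N G A ∅ = 0 := by
  rw [N_comm, N_empty_left]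

theorem N_union_left {A A' : Finset V} (h : Disjoint A A') (B : Finset V) :
    N G (A ∪ A') B = N G A B + N G A' B := by
  unfold N
  rw [Finset.sum_union h]

theorem N_union_right {B B' : Finset V} (h : Disjoint B B') (A : Finset V) :
    N G A (B ∪ B') = N G A B + N G A B' := by
  rw [N_comm, N_union_left G h, N_comm G B, N_comm G B']

theorem N_insert_left {a : V} {A : Finset V} (h : a ∉ A) (B : Finset V) :
    N G (insert a A) B = N G {a} B + N G A B := by
  rw [N_sum G (insert a A), Finset.sum_insert h, ← N_sum]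

theorem N_insert_right {b : V} {B : Finset V} (h : b ∉ B) (A : Finset V) :
    N G A (insert b B) = N G {b} A + N G A B := by
  rw [N_comm, N_insert_left G h, N_comm G B]

theorem N_erase_left {a : V} {A : Finset V} (h : a ∈ A) (B : Finset V) :
    N G (A.erase a) B = N G A B - N G {a} B := by
  have h1 := N_insert_left G (Finset.notMem_erase a A) B
  rw [Finset.insert_erase h] at h1
  rw [h1]
  ring

theorem N_erase_right {b : V} {B : Finset V} (h : b ∈ B) (A : Finset V) :
    N G A (B.erase b) = N G A B - N G {b} A := by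
  rw [N_comm, N_erase_left G h, N_comm G B]

theorem N_sdiff_left {S A : Finset V} (h : S ⊆ A) (B : Finset V) :
    N G (A \ S) B = N G A B - N G S B := by
  have h1 := N_union_left G (Finset.sdiff_disjoint (s := S) (t := A)) B
  rw [Finset.sdiff_union_of_subset h] at h1
  rw [h1]
  ring

theorem N_sdiff_right {S B : Finset V} (h : S ⊆ B) (A : Finset V) :
    N G A (B \ S) = N G A B - N G A S := by
  rw [N_comm, N_sdiff_left G h, N_comm G B, N_comm G S]

theorem N_compl_right (A B : Finset V) : N G A Bᶜ = N G A univ - N G A B := by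
  rw [Finset.compl_eq_univ_sdiff, N_sdiff_right G (Finset.subset_univ B)]

theorem N_compl_left (A B : Finset V) : N G Aᶜ B = N G univ B - N G A B := by
  rw [Finset.compl_eq_univ_sdiff, N_sdiff_left G (Finset.subset_univ A)]

theorem N_mono {A A' B B' : Finset V} (h : A ⊆ A') (h' : B ⊆ B') : N G A B ≤ N G A' B' := by
  unfold N
  refine (Finset.sum_le_sum fun a _ => Finset.sum_le_sum_of_subset_of_nonneg h'
    fun b _ _ => ind_nonneg G a b).trans ?_
  exact Finset.sum_le_sum_of_subset_of_nonneg h fun a _ _ =>
    Finset.sum_nonneg fun b _ => ind_nonneg G a b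

theorem N_le_card {w : V} (A : Finset V) : N G {w} A ≤ A.card := by
  rw [N_sing_sum]
  calc ∑ b ∈ A, ind G w b ≤ ∑ _b ∈ A, (1 : ℤ) := Finset.sum_le_sum fun b _ => ind_le_one G w b
    _ = A.card := by rw [Finset.sum_const, nsmul_eq_mul, mul_one]

/-- a vertex with a neighbour in `B` -/
theorem one_le_N {a b : V} {B : Finset V} (h : G.Adj a b) (hb : b ∈ B) : 1 ≤ N G {a} B := by
  have h1 := N_mono G (Finset.Subset.refl {a}) (Finset.singleton_subset_iff.2 hb)
  rw [N_sing, ind_adj G h] at h1
  exact h1

end Pool.Agent.helper81.JB
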