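import Pool.Agent.helper81.JB.A1

/-!
# JB-A1E: API for `E`

* `two_E`: `N G A A` is even, e.g. by induction on `A` (`Finset.induction_on`):
  `N (insert a A) (insert a A) = N A A + 2 * N {a} A` since `ind a a = 0` and `ind` is symmetric.
* `E_insert`, `E_union`, ...: from `two_E` (`2 * E = N`) and the statements for `N`.
* `E_super`: `A ∪ B` is the disjoint union of `A \ B`, `A ∩ B`, `B \ A`; the difference of the two
  sides is `N (A \ B) (B \ A) ≥ 0`.
-/

set_option autoImplicit false

open Finset

namespace Pool.Agent.helper81.JB

variable {V : Type} [Fintype V] [DecidableEq V] (G : SimpleGraph V)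

/-! ### `E` -/

theorem A1E_step {a : V} {A : Finset V} (h : a ∉ A) :
    N G (insert a A) (insert a A) = N G A A + 2 * N G {a} A := by
  rw [N_insert_left G h, N_insert_right G h, N_insert_right G h, N_sing, ind_self]
  ring

theorem two_E (A : Finset V) : 2 * E G A = N G A A := by
  classical
  have h : (2 : ℤ) ∣ N G A A := by
    induction A using Finset.induction_on with
    | empty => rw [N_empty_left]; exact dvd_zero _
    | insert a s ha ih =>
      rw [A1E_step G ha]
      exact dvd_add ih (dvd_mul_right _ _)
  unfold E
  omega

theorem E_nonneg (A : Finset V) : 0 ≤ E G A := by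
  have h := two_E G A
  have h' := N_nonneg G A A
  omega

theorem E_insert {v : V} {A : Finset V} (h : v ∉ A) : E G (insert v A) = E G A + N G {v} A := by
  have h1 := two_E G A
  have h2 := two_E G (insert v A)
  have h3 := A1E_step G h
  omega

theorem E_erase {v : V} {A : Finset V} (h : v ∈ A) : E G (A.erase v) = E G A - N G {v} A := by
  have h1 := E_insert G (Finset.notMem_erase v A)
  rw [Finset.insert_erase h] at h1
  have h2 := N_erase_right G h {v}
  rw [N_sing, ind_self] at h2
  omega

theorem E_union {A B : Finset V} (h : Disjoint A B) :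
    E G (A ∪ B) = E G A + E G B + N G A B := by
  have h1 := two_E G A
  have h2 := two_E G B
  have h3 := two_E G (A ∪ B)
  rw [N_union_left G h, N_union_right G h, N_union_right G h, N_comm G B A] at h3
  omega

theorem E_sdiff {S A : Finset V} (h : S ⊆ A) :
    E G (A \ S) = E G A - E G S - N G S (A \ S) := by
  have h1 := E_union G (Finset.disjoint_sdiff (s := S) (t := A))
  rw [Finset.union_sdiff_of_subset h] at h1
  omega

theorem E_mono {A B : Finset V} (h : A ⊆ B) : E G A ≤ E G B := by
  have h1 := two_E G A
  have h2 := two_E G B
  have h3 := N_mono G h h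
  omega

theorem E_super (A B : Finset V) : E G A + E G B ≤ E G (A ∪ B) + E G (A ∩ B) := by
  have h1 := E_sdiff G (Finset.inter_subset_right (s₁ := A) (s₂ := B))
  have h2 : B \ (A ∩ B) = B \ A := by
    ext x; simp only [Finset.mem_sdiff, Finset.mem_inter]; tauto
  rw [h2] at h1
  have h3 := E_union G (Finset.disjoint_sdiff (s := A) (t := B))
  rw [Finset.union_sdiff_self_eq_union] at h3
  have h4 : N G (A ∩ B) (B \ A) ≤ N G A (B \ A) :=
    N_mono G Finset.inter_subset_left (Finset.Subset.refl _)
  omega

end Pool.Agent.helper81.JB
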