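import Pool.Agent.helper81.JB.A1E

/-!
# JB-A1M: API for `Mo`

* `N_add_Mo`, `N_add_Mo_self`: `ind a b + mis a b = 1` for `a ≠ b`, and `= 0` for `a = b`.
-/

set_option autoImplicit false

open Finset

namespace Pool.Agent.helper81.JB

variable {V : Type} [Fintype V] [DecidableEq V] (G : SimpleGraph V)

/-! ### `Mo` -/

theorem Mo_nonneg (A B : Finset V) : 0 ≤ Mo G A B := by
  exact Finset.sum_nonneg fun a _ => Finset.sum_nonneg fun b _ => mis_nonneg G a b

theorem Mo_comm (A B : Finset V) : Mo G A B = Mo G B A := by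
  unfold Mo
  rw [Finset.sum_comm]
  exact Finset.sum_congr rfl fun b _ => Finset.sum_congr rfl fun a _ => mis_comm G a b

theorem Mo_sum (A B : Finset V) : Mo G A B = ∑ a ∈ A, Mo G {a} B := by
  unfold Mo
  simp

theorem Mo_sing_sum (a : V) (B : Finset V) : Mo G {a} B = ∑ b ∈ B, mis G a b := by
  unfold Mo
  simp

theorem Mo_union_left {A A' : Finset V} (h : Disjoint A A') (B : Finset V) :
    Mo G (A ∪ A') B = Mo G A B + Mo G A' B := by
  unfold Mo
  rw [Finset.sum_union h]

theorem Mo_union_right {B B' : Finset V} (h : Disjoint B B') (A : Finset V) :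
    Mo G A (B ∪ B') = Mo G A B + Mo G A B' := by
  rw [Mo_comm G A, Mo_union_left G h, Mo_comm G B, Mo_comm G B']

theorem Mo_mono {A A' B B' : Finset V} (h : A ⊆ A') (h' : B ⊆ B') : Mo G A B ≤ Mo G A' B' := by
  unfold Mo
  calc ∑ a ∈ A, ∑ b ∈ B, mis G a b ≤ ∑ a ∈ A, ∑ b ∈ B', mis G a b :=
        Finset.sum_le_sum fun a _ =>
          Finset.sum_le_sum_of_subset_of_nonneg h' fun b _ _ => mis_nonneg G a b
    _ ≤ ∑ a ∈ A', ∑ b ∈ B', mis G a b :=
        Finset.sum_le_sum_of_subset_of_nonneg h fun a _ _ =>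
          Finset.sum_nonneg fun b _ => mis_nonneg G a b

theorem Mo_eq_zero {A B : Finset V} (h : ∀ a ∈ A, ∀ b ∈ B, a ≠ b → G.Adj a b) :
    Mo G A B = 0 := by
  unfold Mo
  refine Finset.sum_eq_zero fun a ha => Finset.sum_eq_zero fun b hb => ?_
  by_cases hab : a = b
  · rw [hab]; exact mis_self G b
  · exact mis_adj G (h a ha b hb hab)

theorem N_add_Mo {A B : Finset V} (h : Disjoint A B) :
    N G A B + Mo G A B = A.card * B.card := by
  unfold N Mo
  rw [← Finset.sum_add_distrib]
  have h1 : ∀ a ∈ A, (∑ b ∈ B, ind G a b + ∑ b ∈ B, mis G a b) = (B.card : ℤ) := by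
    intro a ha
    rw [← Finset.sum_add_distrib]
    have h2 : ∀ b ∈ B, ind G a b + mis G a b = 1 := fun b hb =>
      ind_add_mis G (fun hab => (Finset.disjoint_left.1 h ha) (hab ▸ hb))
    rw [Finset.sum_congr rfl h2]
    simp
  rw [Finset.sum_congr rfl h1]
  simp

theorem N_add_Mo_self (A : Finset V) : N G A A + Mo G A A = A.card * (A.card - 1) := by
  have h0 : ∀ a ∈ A, N G {a} A + Mo G {a} A = (A.card : ℤ) - 1 := by
    intro a ha
    unfold N Mo
    simp only [Finset.sum_singleton]
    rw [← Finset.sum_add_distrib, ← Finset.add_sum_erase A _ ha, ind_self, mis_self]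
    have h2 : ∀ b ∈ A.erase a, ind G a b + mis G a b = 1 := fun b hb =>
      ind_add_mis G (Finset.ne_of_mem_erase hb).symm
    rw [Finset.sum_congr rfl h2]
    have h3 : (A.erase a).card = A.card - 1 := Finset.card_erase_of_mem ha
    have h4 : 1 ≤ A.card := Finset.card_pos.2 ⟨a, ha⟩
    simp only [Finset.sum_const, nsmul_eq_mul, mul_one, add_zero, zero_add]
    rw [h3, Nat.cast_sub h4]
    simp
  have h1 : N G A A + Mo G A A = ∑ a ∈ A, (N G {a} A + Mo G {a} A) := by
    unfold N Mo
    simp only [Finset.sum_singleton]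
    rw [← Finset.sum_add_distrib]
  rw [h1, Finset.sum_congr rfl h0, Finset.sum_const, nsmul_eq_mul]

theorem N_add_Mo_of_notMem {w : V} {A : Finset V} (h : w ∉ A) :
    N G {w} A + Mo G {w} A = A.card := by
  have := N_add_Mo G (A := {w}) (B := A) (Finset.disjoint_singleton_left.2 h)
  simpa using this

theorem N_add_Mo_of_mem {w : V} {A : Finset V} (h : w ∈ A) :
    N G {w} A + Mo G {w} A = A.card - 1 := by
  unfold N Mo
  simp only [Finset.sum_singleton]
  rw [← Finset.sum_add_distrib, ← Finset.add_sum_erase A _ h, ind_self, mis_self]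
  have h2 : ∀ b ∈ A.erase w, ind G w b + mis G w b = 1 := fun b hb =>
    ind_add_mis G (Finset.ne_of_mem_erase hb).symm
  rw [Finset.sum_congr rfl h2]
  have h3 : (A.erase w).card = A.card - 1 := Finset.card_erase_of_mem h
  have h4 : 1 ≤ A.card := Finset.card_pos.2 ⟨w, h⟩
  simp only [Finset.sum_const, nsmul_eq_mul, mul_one, add_zero, zero_add]
  rw [h3, Nat.cast_sub h4]
  simp

theorem E_le_choose (A : Finset V) : 2 * E G A ≤ A.card * (A.card - 1) := by
  rw [two_E]
  have h1 := N_add_Mo_self G A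
  have h2 := Mo_nonneg G A A
  linarith

/-- the number of nonneighbours in `Z` of a vertex outside of `Z` -/
theorem Mo_eq_Xn {w : V} {Z : Finset V} (h : w ∉ Z) : Mo G {w} Z = (Xn G Z w).card := by
  classical
  unfold Mo Xn
  rw [Finset.sum_singleton, Finset.card_filter, Nat.cast_sum]
  refine Finset.sum_congr rfl fun b hb => ?_
  have hwb : w ≠ b := fun e => h (e ▸ hb)
  by_cases hA : G.Adj w b
  · rw [mis_adj G hA]; simp [hA]
  · rw [mis_not G hA hwb]; simp [hA]

end Pool.Agent.helper81.JB
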