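import Pool.Agent.helper81.JB.A1M

/-!
# JB-A2: sums of `al`; moving one vertex; the flip formula

Let `x = E G U - τ`, `y = τ - E G Uᶜ`.  If `N G univ univ = 2 * (4 * τ - L)` then the cut
`N G U Uᶜ` is `2 τ - L - x + y` (`N univ univ = N U U + N Uᶜ Uᶜ + 2 * N U Uᶜ`), so
`∑_{U} al = N U Uᶜ - N U U = y - L - 3 x` and `∑_{Uᶜ} al = 3 y - L - x`.

* `flip_formula`: for `S ⊆ U`, `R ⊆ Uᶜ`, `W = U \ S ∪ R`: `Wᶜ = Uᶜ \ R ∪ S` and
  `N W Wᶜ = N (U \ S) (Uᶜ \ R) + N (U \ S) S + N R (Uᶜ \ R) + N R S`; expand with `N_sdiff_*`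
  and `sum_al_sub`, `sum_al_compl`.
-/

set_option autoImplicit false

open Finset

namespace Pool.Agent.helper81.JB

variable {V : Type} [Fintype V] [DecidableEq V] (G : SimpleGraph V)

theorem al_mem {U : Finset V} {v : V} (h : v ∈ U) : al G U v = N G {v} Uᶜ - N G {v} U := by
  unfold al
  rw [if_pos h]

theorem al_notMem {U : Finset V} {v : V} (h : v ∉ U) : al G U v = N G {v} U - N G {v} Uᶜ := by
  unfold al
  rw [if_neg h]

theorem al_compl (U : Finset V) (v : V) : al G Uᶜ v = al G U v := by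
  by_cases h : v ∈ U
  · have h' : v ∉ Uᶜ := by simpa using h
    rw [al_notMem G h', al_mem G h, compl_compl]
  · have h' : v ∈ Uᶜ := by simpa using h
    rw [al_mem G h', al_notMem G h, compl_compl]

theorem sum_al_sub {U S : Finset V} (h : S ⊆ U) :
    ∑ v ∈ S, al G U v = N G S Uᶜ - N G S U := by
  rw [N_sum G S Uᶜ, N_sum G S U, ← Finset.sum_sub_distrib]
  exact Finset.sum_congr rfl fun v hv => al_mem G (h hv)

theorem sum_al_compl {U R : Finset V} (h : R ⊆ Uᶜ) :
    ∑ v ∈ R, al G U v = N G R U - N G R Uᶜ := by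
  rw [N_sum G R U, N_sum G R Uᶜ, ← Finset.sum_sub_distrib]
  refine Finset.sum_congr rfl fun v hv => al_notMem G ?_
  have := h hv
  simpa using this

theorem N_univ_split (U : Finset V) :
    N G univ univ = N G U U + N G Uᶜ Uᶜ + 2 * N G U Uᶜ := by
  have h1 : N G U Uᶜ = N G U univ - N G U U := N_compl_right G U U
  have h2 : N G Uᶜ Uᶜ = N G Uᶜ univ - N G Uᶜ U := N_compl_right G Uᶜ U
  have h3 : N G Uᶜ univ = N G univ univ - N G U univ := N_compl_left G U univ
  have h4 : N G Uᶜ U = N G U Uᶜ := N_comm G _ _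
  linarith

theorem cut_eq {τ L : ℤ} {U : Finset V} (h : N G univ univ = 2 * (4 * τ - L)) :
    N G U Uᶜ = 2 * τ - L - (E G U - τ) + (τ - E G Uᶜ) := by
  have h1 := N_univ_split G U
  have h2 := two_E G U
  have h3 := two_E G Uᶜ
  linarith

theorem sum_al_U {τ L : ℤ} {U : Finset V} (h : N G univ univ = 2 * (4 * τ - L)) :
    ∑ v ∈ U, al G U v = (τ - E G Uᶜ) - L - 3 * (E G U - τ) := by
  have h1 := cut_eq G (U := U) h
  have h2 := two_E G U
  rw [sum_al_sub G (Finset.Subset.refl U)]
  linarith

theorem sum_al_Uc {τ L : ℤ} {U : Finset V} (h : N G univ univ = 2 * (4 * τ - L)) :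
    ∑ v ∈ Uᶜ, al G U v = 3 * (τ - E G Uᶜ) - L - (E G U - τ) := by
  have h1 := cut_eq G (U := U) h
  have h2 := two_E G Uᶜ
  have h3 : N G Uᶜ U = N G U Uᶜ := N_comm G _ _
  rw [sum_al_compl G (Finset.Subset.refl Uᶜ)]
  linarith

/-! ### moving one vertex -/

theorem sw_compl {U : Finset V} {u : V} : (sw U u)ᶜ = U.erase u := by
  unfold sw
  ext v
  simp only [mem_compl, mem_insert, mem_erase, not_or, not_not]

theorem sw_sw {U : Finset V} {u : V} (h : u ∈ U) : sw (sw U u) u = U := by
  have h1 : sw (sw U u) u = insert u (sw U u)ᶜ := rfl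
  rw [h1, sw_compl, Finset.insert_erase h]

theorem mem_sw_self (U : Finset V) (u : V) : u ∈ sw U u := by
  exact Finset.mem_insert_self u Uᶜ

theorem al_sw_self {U : Finset V} {u : V} (h : u ∈ U) : al G (sw U u) u = - al G U u := by
  have h' : u ∉ Uᶜ := by simpa using h
  rw [al_mem G (mem_sw_self U u), al_mem G h, sw_compl, N_erase_right G h, N_sing, ind_self]
  have h1 : N G {u} (sw U u) = N G {u} {u} + N G {u} Uᶜ := N_insert_right G h' {u}
  rw [h1, N_sing, ind_self]
  ring

theorem al_sw_compl {U : Finset V} {u v : V} (h : u ∈ U) (hv : v ∉ U) :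
    al G (sw U u) v = al G U v - 2 * ind G u v := by
  have h' : u ∉ Uᶜ := by simpa using h
  have hv' : v ∈ sw U u := Finset.mem_insert_of_mem (by simpa using hv)
  rw [al_mem G hv', al_notMem G hv, sw_compl, N_erase_right G h, N_sing]
  have h1 : N G {v} (sw U u) = N G {u} {v} + N G {v} Uᶜ := N_insert_right G h' {v}
  rw [h1, N_sing]
  ring

theorem al_sw_mem {U : Finset V} {u v : V} (h : u ∈ U) (hv : v ∈ U) (hne : v ≠ u) :
    al G (sw U u) v = al G U v + 2 * ind G u v := by
  have h' : u ∉ Uᶜ := by simpa using h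
  have hv' : v ∉ sw U u := by
    unfold sw
    simp only [mem_insert, mem_compl, not_or, not_not]
    exact ⟨hne, hv⟩
  rw [al_notMem G hv', al_mem G hv, sw_compl, N_erase_right G h, N_sing]
  have h1 : N G {v} (sw U u) = N G {u} {v} + N G {v} Uᶜ := N_insert_right G h' {v}
  rw [h1, N_sing]
  ring

theorem E_sw {U : Finset V} {u : V} (h : u ∈ U) : E G (sw U u) = E G Uᶜ + N G {u} Uᶜ := by
  exact E_insert G (by simpa using h)

theorem E_sw_compl {U : Finset V} {u : V} (h : u ∈ U) : E G (sw U u)ᶜ = E G U - N G {u} U := by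
  rw [sw_compl]
  exact E_erase G h

/-! ### flips -/

theorem flip_formula {U S R : Finset V} (hS : S ⊆ U) (hR : R ⊆ Uᶜ) :
    N G (U \ S ∪ R) (U \ S ∪ R)ᶜ = N G U Uᶜ - (∑ v ∈ S, al G U v) - (∑ v ∈ R, al G U v)
      - N G S S - N G R R + 2 * N G S R := by
  have hc : (U \ S ∪ R)ᶜ = Uᶜ \ R ∪ S := by
    ext v
    have h1 := @hS v
    have h2 := @hR v
    simp only [mem_compl] at h2
    simp only [mem_compl, mem_union, mem_sdiff]
    tauto
  have hd1 : Disjoint (U \ S) R := by
    rw [Finset.disjoint_left]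
    intro v hv hvR
    have := hR hvR
    rw [mem_compl] at this
    exact this (mem_sdiff.1 hv).1
  have hd2 : Disjoint (Uᶜ \ R) S := by
    rw [Finset.disjoint_left]
    intro v hv hvS
    have := (mem_sdiff.1 hv).1
    rw [mem_compl] at this
    exact this (hS hvS)
  rw [hc, N_union_left G hd1, N_union_right G hd2, N_union_right G hd2, N_sdiff_left G hS,
    N_sdiff_left G hS, N_sdiff_right G hR, N_sdiff_right G hR, N_sdiff_right G hR,
    sum_al_sub G hS, sum_al_compl G hR, N_comm G U R, N_comm G U S, N_comm G R S]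
  ring

theorem flip_of_le {U S R : Finset V} (hS : S ⊆ U) (hR : R ⊆ Uᶜ)
    (h : N G (U \ S ∪ R) (U \ S ∪ R)ᶜ ≤ N G U Uᶜ) : Flip G U S R := by
  rw [flip_formula G hS hR] at h
  unfold Flip
  linarith

/-- the flips of at most three vertices -/
theorem loc_of_flip {U : Finset V} (h : ∀ S ⊆ U, ∀ R ⊆ Uᶜ, S.card + R.card ≤ 3 → Flip G U S R) :
    Loc G U := by
  refine ⟨?_, ?_, ?_⟩
  · intro v
    by_cases hv : v ∈ U
    · have h1 := h {v} (by simpa using hv) ∅ (by simp) (by simp)
      unfold Flip at h1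
      rw [N_empty_right, N_empty_right, N_sing, ind_self, Finset.sum_singleton,
        Finset.sum_empty] at h1
      linarith
    · have h1 := h ∅ (by simp) {v} (by simpa using hv) (by simp)
      unfold Flip at h1
      rw [N_empty_left, N_empty_right, N_sing, ind_self, Finset.sum_singleton,
        Finset.sum_empty] at h1
      linarith
  · intro v hv w hw hvw
    have h1 := h {v} (by simpa using hv) {w} (by simpa using hw) (by simp)
    unfold Flip at h1
    rw [N_sing, N_sing, N_sing, ind_self, ind_self, ind_adj G hvw, Finset.sum_singleton,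
      Finset.sum_singleton] at h1
    linarith
  · intro v hv v' hv' hne hnadj w hw hvw hvw'
    have hn : v ∉ ({v'} : Finset V) := by simpa using hne
    have h1 := h {v, v'} (by
        intro z hz
        rw [mem_insert, mem_singleton] at hz
        rcases hz with rfl | rfl <;> assumption) {w} (by simpa using hw) (by
        have := Finset.card_le_two (a := v) (b := v')
        have h3 : ({w} : Finset V).card = 1 := Finset.card_singleton w
        omega)
    unfold Flip at h1
    rw [N_insert_left G hn, N_insert_left G hn, N_insert_right G hn, N_insert_right G hn,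
      Finset.sum_singleton, Finset.sum_insert hn, Finset.sum_singleton] at h1
    simp only [N_sing, ind_self, ind_adj G hvw, ind_adj G hvw', ind_not G hnadj] at h1
    linarith

end Pool.Agent.helper81.JB
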