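import Pool.Agent.helper81.JB.AlgS

/-!
# JB-AlgC: the semantics of `pCons`

* `run_cons`: unfold `pCons`, `sq`, `run`; arrays 13 and 11 are `Fᶜ` and `Uᶜ`
  (`fs_upd`, `val_arr`, `val_notT`), the conditions are `2 * E F < 2 * τ + 1`, `2 * E Fᶜ < 2 * τ + 1`
  (`val_NT`, `two_E`) and `cut U < cut F`.
* `srch_piece`: `run_cons` after `p` (`Comp`); split on the two conditions, `good_mono`.
-/

set_option autoImplicit false

open Finset

namespace Pool.Agent.helper81.JB

open Pool.Agent.helper81.LC (Tm Pr val run b2n down)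
open Function (update)

variable {n : ℕ} {G : SimpleGraph (Fin n)} {w : List Bool}

/-- complement -/
theorem AlgC_compl (h : Enc G w) {ρ : Fin 20 → ℕ} {A : Fin 16 → ℕ → Bool}
    (h0 : fs n A 0 = univ) (s0 : Sup n A 0) (a b : Fin 16) :
    fs n (run w (.upd a 16 (.mul (.arr 0 (vr 16)) (notT (.arr b (vr 16)))) : P) ρ A) a =
        (fs n A b)ᶜ ∧
      Sup n (run w (.upd a 16 (.mul (.arr 0 (vr 16)) (notT (.arr b (vr 16)))) : P) ρ A) a := by
  constructor
  · rw [fs_upd h]
    ext v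
    rw [mem_filter, mem_compl]
    have hv : val w A (update ρ 16 v.val) (vr 16) = v.val := by
      show update ρ 16 v.val 16 = v.val
      exact Function.update_self _ _ _
    have e1 : val w A (update ρ 16 v.val) (.mul (.arr 0 (vr 16)) (notT (.arr b (vr 16))) : T) =
        val w A (update ρ 16 v.val) (.arr 0 (vr 16)) *
          val w A (update ρ 16 v.val) (notT (.arr b (vr 16))) := rfl
    rw [e1, val_notT, val_arr h hv, val_arr h hv, h0]
    by_cases hb : v ∈ fs n A b <;> simp [hb]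
  · apply sup_upd
    intro x hx
    have hv : val w A (update ρ 16 x) (vr 16) = x := by
      show update ρ 16 x 16 = x
      exact Function.update_self _ _ _
    have e1 : val w A (update ρ 16 x) (.mul (.arr 0 (vr 16)) (notT (.arr b (vr 16))) : T) =
        val w A (update ρ 16 x) (.arr 0 (vr 16)) *
          val w A (update ρ 16 x) (notT (.arr b (vr 16))) := rfl
    rw [e1, val_arr_of_sup s0 (by rw [hv]; exact hx), zero_mul]

/-- copy -/
theorem AlgC_copy (h : Enc G w) {ρ : Fin 20 → ℕ} {A : Fin 16 → ℕ → Bool} (a : Fin 16)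
    {b : Fin 16} (hb : Sup n A b) :
    fs n (run w (.upd a 16 (.arr b (vr 16)) : P) ρ A) a = fs n A b ∧
      Sup n (run w (.upd a 16 (.arr b (vr 16)) : P) ρ A) a := by
  constructor
  · rw [fs_upd h]
    ext v
    rw [mem_filter]
    have hv : val w A (update ρ 16 v.val) (vr 16) = v.val := by
      show update ρ 16 v.val 16 = v.val
      exact Function.update_self _ _ _
    rw [val_arr h hv]
    by_cases hb : v ∈ fs n A b <;> simp [hb]
  · apply sup_upd
    intro x hx
    have hv : val w A (update ρ 16 x) (vr 16) = x := by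
      show update ρ 16 x 16 = x
      exact Function.update_self _ _ _
    exact val_arr_of_sup hb (by rw [hv]; exact hx)

open Classical in
theorem run_cons (h : Enc G w) {ρ : Fin 20 → ℕ} {A : Fin 16 → ℕ → Bool} (hA : Inv n A)
    (h12 : Sup n A 12) : Inv n (run w pCons ρ A) ∧
      fs n (run w pCons ρ A) 1 =
        (if cutN G (fs n A 1) < cutN G (fs n A 12) then fs n A 12 else fs n A 1) ∧
      fs n (run w pCons ρ A) 2 =
        (if good G (ρ 0) (fs n A 12) then fs n A 12 else fs n A 2) := by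
  -- the four stages
  set A1 := run w (.upd 13 16 (.mul (.arr 0 (vr 16)) (notT (.arr 12 (vr 16)))) : P) ρ A with hA1
  set A2 := run w (.ite (.mul (.lt (NT 12 12) (tauT (.num 0))) (.lt (NT 13 13) (tauT (.num 0))))
    (.upd 2 16 (.arr 12 (vr 16))) .skip : P) ρ A1 with hA2
  set A3 := run w (.upd 11 16 (.mul (.arr 0 (vr 16)) (notT (.arr 1 (vr 16)))) : P) ρ A2 with hA3
  set A4 := run w (.ite (.lt (NT 1 11) (NT 12 13)) (.upd 1 16 (.arr 12 (vr 16))) .skip : P) ρ A3
    with hA4
  have hrun : run w pCons ρ A = A4 := rfl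
  rw [hrun]
  -- stage 1
  obtain ⟨e13, s13⟩ := AlgC_compl h (ρ := ρ) hA.all hA.s0 13 12
  rw [← hA1] at e13 s13
  have n1 : ∀ b : Fin 16, b ≠ 13 → fs n A1 b = fs n A b := fun b hb => fs_upd_ne hb _ _
  have m1 : ∀ b : Fin 16, b ≠ 13 → (Sup n A1 b ↔ Sup n A b) := fun b hb => sup_upd_ne hb _ _
  -- stage 2
  have c2 : (0 < val w A1 ρ (.mul (.lt (NT 12 12) (tauT (.num 0)))
      (.lt (NT 13 13) (tauT (.num 0))) : T)) ↔ good G (ρ 0) (fs n A 12) := by
    have v1 := val_NT h (ρ := ρ) ((m1 12 (by decide)).2 h12) ((m1 12 (by decide)).2 h12)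
    have v2 := val_NT h (ρ := ρ) s13 s13
    rw [n1 12 (by decide), ← two_E] at v1
    rw [e13, ← two_E] at v2
    have v3 : val w A1 ρ (tauT (.num 0)) = 2 * (0 + ρ 0) + 1 := val_tauT _
    have v4 : val w A1 ρ (.mul (.lt (NT 12 12) (tauT (.num 0)))
        (.lt (NT 13 13) (tauT (.num 0))) : T) =
        (if val w A1 ρ (NT 12 12) < val w A1 ρ (tauT (.num 0)) then 1 else 0) *
        (if val w A1 ρ (NT 13 13) < val w A1 ρ (tauT (.num 0)) then 1 else 0) := rfl
    rw [v4, v3]
    unfold good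
    by_cases q1 : val w A1 ρ (NT 12 12) < 2 * (0 + ρ 0) + 1 <;>
      by_cases q2 : val w A1 ρ (NT 13 13) < 2 * (0 + ρ 0) + 1
    · simp only [q1, q2, if_true, mul_one, Nat.lt_one_iff, zero_lt_one, true_iff]
      constructor <;> omega
    · simp only [q1, q2, if_true, if_false, mul_zero, lt_irrefl, false_iff, not_and]
      intro _
      omega
    · simp only [q1, q2, if_true, if_false, zero_mul, lt_irrefl, false_iff, not_and]
      intro hq
      omega
    · simp only [q1, q2, if_false, mul_zero, lt_irrefl, false_iff, not_and]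
      intro hq
      omega
  have r2 : A2 = if 0 < val w A1 ρ (.mul (.lt (NT 12 12) (tauT (.num 0)))
      (.lt (NT 13 13) (tauT (.num 0))) : T) then run w (.upd 2 16 (.arr 12 (vr 16)) : P) ρ A1
      else A1 := rfl
  have e2 : fs n A2 2 = if good G (ρ 0) (fs n A 12) then fs n A 12 else fs n A 2 := by
    rw [r2]
    by_cases hg : good G (ρ 0) (fs n A 12)
    · rw [if_pos (c2.2 hg), if_pos hg, (AlgC_copy h (ρ := ρ) 2 ((m1 12 (by decide)).2 h12)).1,
        n1 12 (by decide)]
    · rw [if_neg (fun hc => hg (c2.1 hc)), if_neg hg, n1 2 (by decide)]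
  have s2 : Sup n A2 2 := by
    rw [r2]
    split
    · exact (AlgC_copy h (ρ := ρ) 2 ((m1 12 (by decide)).2 h12)).2
    · exact (m1 2 (by decide)).2 hA.s2
  have n2 : ∀ b : Fin 16, b ≠ 2 → fs n A2 b = fs n A1 b := by
    intro b hb
    rw [r2]
    split
    · exact fs_upd_ne hb _ _
    · rfl
  have m2 : ∀ b : Fin 16, b ≠ 2 → (Sup n A2 b ↔ Sup n A1 b) := by
    intro b hb
    rw [r2]
    split
    · exact sup_upd_ne hb _ _
    · rfl
  -- stage 3
  have a2 : fs n A2 0 = univ := by rw [n2 0 (by decide), n1 0 (by decide), hA.all]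
  have b2 : Sup n A2 0 := (m2 0 (by decide)).2 ((m1 0 (by decide)).2 hA.s0)
  obtain ⟨e11, s11⟩ := AlgC_compl h (ρ := ρ) a2 b2 11 1
  rw [← hA3] at e11 s11
  have n3 : ∀ b : Fin 16, b ≠ 11 → fs n A3 b = fs n A2 b := fun b hb => fs_upd_ne hb _ _
  have m3 : ∀ b : Fin 16, b ≠ 11 → (Sup n A3 b ↔ Sup n A2 b) := fun b hb => sup_upd_ne hb _ _
  have f1 : fs n A3 1 = fs n A 1 := by
    rw [n3 1 (by decide), n2 1 (by decide), n1 1 (by decide)]
  have f11 : fs n A3 11 = (fs n A 1)ᶜ := by
    rw [e11, n2 1 (by decide), n1 1 (by decide)]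
  have f12 : fs n A3 12 = fs n A 12 := by
    rw [n3 12 (by decide), n2 12 (by decide), n1 12 (by decide)]
  have f13 : fs n A3 13 = (fs n A 12)ᶜ := by
    rw [n3 13 (by decide), n2 13 (by decide), e13]
  have g1 : Sup n A3 1 := (m3 1 (by decide)).2 ((m2 1 (by decide)).2 ((m1 1 (by decide)).2 hA.s1))
  have g12 : Sup n A3 12 :=
    (m3 12 (by decide)).2 ((m2 12 (by decide)).2 ((m1 12 (by decide)).2 h12))
  have g13 : Sup n A3 13 := (m3 13 (by decide)).2 ((m2 13 (by decide)).2 s13)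
  -- stage 4
  have c4 : (0 < val w A3 ρ (.lt (NT 1 11) (NT 12 13) : T)) ↔
      cutN G (fs n A 1) < cutN G (fs n A 12) := by
    have v1 := val_NT h (ρ := ρ) g1 s11
    have v2 := val_NT h (ρ := ρ) g12 g13
    rw [f1, f11] at v1
    rw [f12, f13] at v2
    have v4 : val w A3 ρ (.lt (NT 1 11) (NT 12 13) : T) =
        (if val w A3 ρ (NT 1 11) < val w A3 ρ (NT 12 13) then 1 else 0) := rfl
    rw [v4]
    unfold cutN
    rw [← v1, ← v2]
    by_cases q1 : val w A3 ρ (NT 1 11) < val w A3 ρ (NT 12 13)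
    · simp only [q1, if_true, zero_lt_one, true_iff]
      exact_mod_cast q1
    · simp only [q1, if_false, lt_irrefl, false_iff]
      intro hc
      apply q1
      exact_mod_cast hc
  have r4 : A4 = if 0 < val w A3 ρ (.lt (NT 1 11) (NT 12 13) : T) then
      run w (.upd 1 16 (.arr 12 (vr 16)) : P) ρ A3 else A3 := rfl
  have e4 : fs n A4 1 =
      if cutN G (fs n A 1) < cutN G (fs n A 12) then fs n A 12 else fs n A 1 := by
    rw [r4]
    by_cases hg : cutN G (fs n A 1) < cutN G (fs n A 12)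
    · rw [if_pos (c4.2 hg), if_pos hg, (AlgC_copy h (ρ := ρ) 1 g12).1, f12]
    · rw [if_neg (fun hc => hg (c4.1 hc)), if_neg hg, f1]
  have s4 : Sup n A4 1 := by
    rw [r4]
    split
    · exact (AlgC_copy h (ρ := ρ) 1 g12).2
    · exact g1
  have n4 : ∀ b : Fin 16, b ≠ 1 → fs n A4 b = fs n A3 b := by
    intro b hb
    rw [r4]
    split
    · exact fs_upd_ne hb _ _
    · rfl
  have m4 : ∀ b : Fin 16, b ≠ 1 → (Sup n A4 b ↔ Sup n A3 b) := by
    intro b hb
    rw [r4]
    split
    · exact sup_upd_ne hb _ _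
    · rfl
  refine ⟨⟨?_, ?_, s4, ?_⟩, e4, ?_⟩
  · rw [n4 0 (by decide), n3 0 (by decide), a2]
  · exact (m4 0 (by decide)).2 ((m3 0 (by decide)).2 b2)
  · exact (m4 2 (by decide)).2 ((m3 2 (by decide)).2 s2)
  · rw [n4 2 (by decide), n3 2 (by decide), e2]

theorem srch_piece (h : Enc G w) {p : P} {Φ : Fam n} (hp : Comp G w p Φ) :
    Srch G w (.seq p pCons) Φ := by
  classical
  intro ρ A hA
  obtain ⟨I1, e1, e2, s12, hF⟩ := hp ρ A hA
  obtain ⟨I2, r1, r2⟩ := run_cons h I1 (ρ := ρ) s12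
  have e : run w (.seq p pCons) ρ A = run w pCons ρ (run w p ρ A) := rfl
  rw [e]
  rw [e1] at r1
  rw [e2] at r2
  refine ⟨I2, ?_, ?_, ?_⟩
  · rw [r1]
    split
    · rename_i hlt
      exact hlt.le
    · exact le_rfl
  · intro σ hσ hg
    rw [r2]
    split
    · rename_i hg'
      exact good_mono hσ hg'
    · exact hg
  · intro hle
    rw [r1] at hle
    have hnlt : ¬ cutN G (fs n A 1) < cutN G (fs n (run w p ρ A) 12) := by
      intro hlt
      rw [if_pos hlt] at hle
      exact absurd hlt (not_lt.2 hle)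
    rw [if_neg hnlt] at r1
    refine ⟨r1, fun F hΦ => ?_⟩
    have h12 := hF F hΦ
    rw [h12] at hnlt r2
    refine ⟨not_lt.1 hnlt, fun hg => ?_⟩
    rw [r2, if_pos hg]
    exact hg

end Pool.Agent.helper81.JB
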