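import Pool.Agent.helper81.JB.AlgF

/-!
# JB-AlgF3: the piece `pF3` computes the set `f3`

Unfold the piece and `run`, use `run_set` (AlgW) for the state after `pSet`, and `fs_upd`, `sup_upd`,
`val_*` for the following updates (name the state after each update).  The family is functional
(`F = f ...`), so `Comp` says that array 12 holds `f ...` whenever the parameters are vertices.
* `comp3`: array 14 `S1`, array 11 `win` (compare the definition of `win`; the two summands of the term are
  exclusive).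
-/

set_option autoImplicit false

open Finset

namespace Pool.Agent.helper81.JB

open Pool.Agent.helper81.LC (Tm Pr val run b2n down)
open Function (update)

variable {n : ℕ} {G : SimpleGraph (Fin n)} {w : List Bool}

section AlgF3

variable {A : Fin 16 → ℕ → Bool} {ρ : Fin 20 → ℕ}

theorem algF3_mul (s t : T) : val w A ρ (.mul s t) = val w A ρ s * val w A ρ t := rfl

theorem algF3_add (s t : T) : val w A ρ (.add s t) = val w A ρ s + val w A ρ t := rfl

theorem algF3_sub (s t : T) : val w A ρ (.sub s t) = val w A ρ s - val w A ρ t := rfl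

theorem algF3_num (c : ℕ) : val w A ρ (.num c) = c := rfl

theorem algF3_var (i : Fin 20) : val w A ρ (.var i) = ρ i := rfl

theorem algF3_lt (s t : T) : val w A ρ (.lt s t) = if val w A ρ s < val w A ρ t then 1 else 0 :=
  rfl

theorem algF3_sum (i : Fin 20) (t : T) : val w A ρ (.sum i t) =
    ∑ x ∈ range w.length, val w A (update ρ i x) t := rfl

theorem algF3_seq (p q : P) : run w (.seq p q) ρ A = run w q ρ (run w p ρ A) := rfl

/-- a product of an indicator and a number is positive -/
theorem algF3_pos_mul {p : Prop} [Decidable p] {x : ℕ} :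
    0 < (if p then 1 else 0) * x ↔ p ∧ 0 < x := by
  by_cases hp : p <;> simp [hp]

theorem algF3_pos_not {x : ℕ} : 0 < (if x = 0 then 1 else 0) ↔ x = 0 := by
  by_cases hx : x = 0 <;> simp [hx]

theorem algF3_pos_if {p : Prop} [Decidable p] : 0 < (if p then 1 else 0) ↔ p := by
  by_cases hp : p <;> simp [hp]

theorem algF3_if_zero {p : Prop} [Decidable p] : (if p then 1 else 0) = 0 ↔ ¬ p := by
  by_cases hp : p <;> simp [hp]

/-- an array which is a subset of an array without entries `≥ n` -/
theorem algF3_sup (a b : Fin 16) (sa : Sup n A a) (t : T) :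
    Sup n (run w (.upd b 16 (.mul (.arr a (vr 16)) t)) ρ A) b := by
  refine sup_upd _ _ _ fun x hx => ?_
  rw [algF3_mul, val_arr_of_sup sa (by simpa [algF3_var] using hx), zero_mul]

/-- a sum over the entries of an array -/
theorem algF3_sum_arr (h : Enc G w) {a : Fin 16} (sa : Sup n A a) (t : T) :
    val w A ρ (.sum 15 (.mul (.arr a (vr 15)) t)) =
      ∑ z ∈ fs n A a, val w A (update ρ 15 z.val) t := by
  classical
  rw [algF3_sum]
  have h1 : ∀ x ∈ range w.length, x ∉ range n →
      val w A (update ρ 15 x) (.mul (.arr a (vr 15)) t) = 0 := by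
    intro x _ hx
    rw [mem_range, not_lt] at hx
    rw [algF3_mul, val_arr_of_sup sa (by simpa [algF3_var] using hx), zero_mul]
  have h2 : range n ⊆ range w.length := by
    intro x hx
    rw [mem_range] at hx ⊢
    rw [h.len]
    exact lt_of_lt_of_le hx (Nat.le_mul_self n)
  rw [← sum_subset h2 h1, sum_range]
  have h3 : ∀ z : Fin n, val w A (update ρ 15 z.val) (.mul (.arr a (vr 15)) t) =
      if z ∈ fs n A a then val w A (update ρ 15 z.val) t else 0 := by
    intro z
    rw [algF3_mul, val_arr h (v := z) (by simp [algF3_var])]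
    by_cases hz : z ∈ fs n A a <;> simp [hz]
  rw [sum_congr rfl fun z _ => h3 z, sum_ite_mem, univ_inter]

/-- the term for the order of the window -/
theorem algF3_ord {i v z : Fin n} (hi : ρ 5 = i.val) (hv : ρ 16 = v.val) :
    val w A (update ρ 15 z.val)
      (.add (.mul (.mul (.lt (vr 5) (.add (vr 16) (.num 1))) (.lt (vr 5) (.add (vr 15) (.num 1))))
        (.lt (vr 15) (vr 16)))
      (.mul (.lt (vr 16) (vr 5)) (.add (.lt (vr 5) (.add (vr 15) (.num 1)))
        (.lt (vr 15) (vr 16))))) =
      if (if i ≤ v then i ≤ z ∧ z < v else i ≤ z ∨ z < v) then 1 else 0 := by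
  have e5 : (update ρ 15 z.val) 5 = i.val := by simpa using hi
  have e15 : (update ρ 15 z.val) 15 = z.val := by simp
  have e16 : (update ρ 15 z.val) 16 = v.val := by simpa using hv
  simp only [algF3_add, algF3_mul, algF3_lt, algF3_num, algF3_var, e5, e15, e16, Fin.le_def,
    Fin.lt_def]
  by_cases c1 : i.val ≤ v.val <;> by_cases c2 : i.val ≤ z.val <;> by_cases c3 : z.val < v.val
  all_goals
    have d1 : (i.val < v.val + 1) = (i.val ≤ v.val) := by rw [Nat.lt_succ_iff]
    have d2 : (i.val < z.val + 1) = (i.val ≤ z.val) := by rw [Nat.lt_succ_iff]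
    have d3 : (v.val < i.val) = ¬ (i.val ≤ v.val) := by rw [not_le]
    simp only [d1, d2, d3, c1, c2, c3, if_true, if_false, and_true, and_false, or_true, or_false,
      not_true, not_false_iff]
  all_goals first | rfl | omega

end AlgF3

theorem comp3 (h : Enc G w) : Comp G w (.seq pSet pF3) (Φ3 G) := by
  classical
  intro ρ A hA
  obtain ⟨hI, hf1, hf2, hS, hset⟩ := run_set (ρ := ρ) h hA
  rw [algF3_seq]
  set B := run w pSet ρ A with hB
  -- the states after the three updates
  let B1 := run w (.upd 14 16 (.mul (.arr 5 (vr 16)) (notT (.arr 6 (vr 16))))) ρ B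
  let B2 := run w (.upd 11 16 (.mul (.arr 9 (vr 16)) (.lt (.sum 15 (.mul (.arr 9 (vr 15))
    (.add (.mul (.mul (.lt (vr 5) (.add (vr 16) (.num 1))) (.lt (vr 5) (.add (vr 15) (.num 1))))
      (.lt (vr 15) (vr 16)))
    (.mul (.lt (vr 16) (vr 5)) (.add (.lt (vr 5) (.add (vr 15) (.num 1)))
      (.lt (vr 15) (vr 16))))))) (.sub (cardT 14) (.num 1))))) ρ B1
  let B3 := run w (.upd 12 16 (.add (.mul (.arr 3 (vr 16)) (notT (.arr 14 (vr 16))))
    (.arr 11 (vr 16)))) ρ B2
  have hrun : run w pF3 ρ B = B3 := rfl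
  rw [hrun]
  -- unchanged arrays
  have e1 : ∀ b : Fin 16, b ≠ 14 → fs n B1 b = fs n B b := fun b hb => fs_upd_ne hb _ _
  have e2 : ∀ b : Fin 16, b ≠ 11 → fs n B2 b = fs n B1 b := fun b hb => fs_upd_ne hb _ _
  have e3 : ∀ b : Fin 16, b ≠ 12 → fs n B3 b = fs n B2 b := fun b hb => fs_upd_ne hb _ _
  have s1 : ∀ b : Fin 16, b ≠ 14 → (Sup n B1 b ↔ Sup n B b) := fun b hb => sup_upd_ne hb _ _
  have s2 : ∀ b : Fin 16, b ≠ 11 → (Sup n B2 b ↔ Sup n B1 b) := fun b hb => sup_upd_ne hb _ _
  have s3 : ∀ b : Fin 16, b ≠ 12 → (Sup n B3 b ↔ Sup n B2 b) := fun b hb => sup_upd_ne hb _ _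
  -- supports
  have u3 : Sup n B 3 := hS 3 (by decide) (by decide)
  have u5 : Sup n B 5 := hS 5 (by decide) (by decide)
  have u9 : Sup n B 9 := hS 9 (by decide) (by decide)
  have p14 : Sup n B1 14 := algF3_sup 5 14 u5 _
  have p9 : Sup n B1 9 := (s1 9 (by decide)).2 u9
  have p11 : Sup n B2 11 := algF3_sup 9 11 p9 _
  have p3 : Sup n B2 3 := (s2 3 (by decide)).2 ((s1 3 (by decide)).2 u3)
  have p12 : Sup n B3 12 := by
    refine sup_upd _ _ _ fun x hx => ?_
    rw [algF3_add, algF3_mul, val_arr_of_sup p3 (by simpa [algF3_var] using hx),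
      val_arr_of_sup p11 (by simpa [algF3_var] using hx), zero_mul]
  have low : ∀ b : Fin 16, b.val < 3 → fs n B3 b = fs n B b ∧ (Sup n B3 b ↔ Sup n B b) := by
    intro b hb
    have n11 : b ≠ 11 := by rintro rfl; exact absurd hb (by decide)
    have n12 : b ≠ 12 := by rintro rfl; exact absurd hb (by decide)
    have n14 : b ≠ 14 := by rintro rfl; exact absurd hb (by decide)
    exact ⟨by rw [e3 b n12, e2 b n11, e1 b n14], by rw [s3 b n12, s2 b n11, s1 b n14]⟩
  refine ⟨⟨by rw [(low 0 (by decide)).1, hI.all], (low 0 (by decide)).2.2 hI.s0,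
    (low 1 (by decide)).2.2 hI.s1, (low 2 (by decide)).2.2 hI.s2⟩,
    by rw [(low 1 (by decide)).1, hf1], by rw [(low 2 (by decide)).1, hf2], p12, ?_⟩
  rintro F ⟨u, x, hu, hx, rfl⟩
  have hSet := hset u hu
  unfold WW f3
  set W := Wv (ρ 2) (ρ 3) (ρ 4) (fs n A 1) with hW
  -- array 14
  have f14 : fs n B1 14 = S1 G (ρ 0) W := by
    show fs n (run w (.upd 14 16 _) ρ B) 14 = _
    rw [fs_upd h]
    unfold S1
    ext v
    simp only [mem_filter, mem_univ, true_and, mem_sdiff]
    rw [algF3_mul, val_arr h (v := v) (by simp [algF3_var]), val_notT,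
      val_arr h (v := v) (by simp [algF3_var]), algF3_pos_mul, algF3_pos_not, algF3_if_zero,
      hSet.a5, hSet.a6]
  -- array 11
  have f9 : fs n B1 9 = Zp G (ρ 0) W u := by rw [e1 9 (by decide), hSet.a9]
  have f11 : fs n B2 11 = win (Zp G (ρ 0) W u) ((S1 G (ρ 0) W).card - 1) x := by
    show fs n (run w (.upd 11 16 _) ρ B1) 11 = _
    rw [fs_upd h]
    unfold win
    ext v
    simp only [mem_filter, mem_univ, true_and]
    rw [algF3_mul, val_arr h (v := v) (by simp [algF3_var]), algF3_lt, algF3_pos_mul,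
      algF3_pos_if, algF3_sub, algF3_num, val_cardT h p14, f14, algF3_sum_arr h p9,
      sum_congr rfl fun z _ => algF3_ord (i := x) (v := v) (z := z) (by simpa using hx) (by simp),
      f9, card_filter]
  -- array 12
  show fs n (run w (.upd 12 16 _) ρ B2) 12 = _
  rw [fs_upd h]
  ext v
  simp only [mem_filter, mem_univ, true_and, mem_union, mem_sdiff]
  rw [algF3_add, algF3_mul, val_arr h (v := v) (by simp [algF3_var]), val_notT,
    val_arr h (v := v) (by simp [algF3_var]), val_arr h (v := v) (by simp [algF3_var]), f11,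
    e2 3 (by decide), e1 3 (by decide), hSet.a3, e2 14 (by decide), f14]
  by_cases c1 : v ∈ W <;> by_cases c2 : v ∈ S1 G (ρ 0) W <;>
    by_cases c3 : v ∈ win (Zp G (ρ 0) W u) ((S1 G (ρ 0) W).card - 1) x <;>
    simp only [c1, c2, c3, if_true, if_false] <;> simp

end Pool.Agent.helper81.JB
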