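import Pool.Agent.helper81.JB.AlgF

/-!
# JB-AlgF5: the piece `pF5` computes the set `f5`

Unfold the piece and `run`, use `run_set` (AlgW) for the state after `pSet`, and `fs_upd`, `sup_upd`,
`val_*` for the following updates (name the state after each update).  The family is functional
(`F = f ...`), so `Comp` says that array 12 holds `f ...` whenever the parameters are vertices.
* `comp5`: array 10 `D`, array 14 `suppF D`, array 15 `D \ suppF D`, array 12 is the union.
-/

set_option autoImplicit false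

open Finset

namespace Pool.Agent.helper81.JB

open Pool.Agent.helper81.LC (Tm Pr val run b2n down)
open Function (update)

variable {n : ℕ} {G : SimpleGraph (Fin n)} {w : List Bool}

section AlgF5

variable {A : Fin 16 → ℕ → Bool} {ρ : Fin 20 → ℕ}

theorem algF5_mul (s t : T) : val w A ρ (.mul s t) = val w A ρ s * val w A ρ t := rfl

theorem algF5_add (s t : T) : val w A ρ (.add s t) = val w A ρ s + val w A ρ t := rfl

theorem algF5_sub (s t : T) : val w A ρ (.sub s t) = val w A ρ s - val w A ρ t := rfl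

theorem algF5_var (i : Fin 20) : val w A ρ (.var i) = ρ i := rfl

theorem algF5_lt (s t : T) : val w A ρ (.lt s t) = if val w A ρ s < val w A ρ t then 1 else 0 :=
  rfl

theorem algF5_sum (i : Fin 20) (t : T) : val w A ρ (.sum i t) =
    ∑ x ∈ range w.length, val w A (update ρ i x) t := rfl

theorem algF5_seq (p q : P) : run w (.seq p q) ρ A = run w q ρ (run w p ρ A) := rfl

/-- a product of an indicator and a number is positive -/
theorem algF5_pos_mul {p : Prop} [Decidable p] {x : ℕ} :
    0 < (if p then 1 else 0) * x ↔ p ∧ 0 < x := by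
  by_cases hp : p <;> simp [hp]

theorem algF5_pos_not {x : ℕ} : 0 < (if x = 0 then 1 else 0) ↔ x = 0 := by
  by_cases hx : x = 0 <;> simp [hx]

theorem algF5_pos_if {p : Prop} [Decidable p] : 0 < (if p then 1 else 0) ↔ p := by
  by_cases hp : p <;> simp [hp]

theorem algF5_if_zero {p : Prop} [Decidable p] : (if p then 1 else 0) = 0 ↔ ¬ p := by
  by_cases hp : p <;> simp [hp]

/-- an array which is a subset of an array without entries `≥ n` -/
theorem algF5_sup (a b : Fin 16) (sa : Sup n A a) (t : T) :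
    Sup n (run w (.upd b 16 (.mul (.arr a (vr 16)) t)) ρ A) b := by
  refine sup_upd _ _ _ fun x hx => ?_
  rw [algF5_mul, val_arr_of_sup sa (by simpa [algF5_var] using hx), zero_mul]

/-- the sum for the set `suppF` -/
theorem algF5_supp (h : Enc G w) {a : Fin 16} (sa : Sup n A a) {v : Fin n}
    (hv : ρ 16 = v.val) :
    0 < val w A ρ (.sum 15 (.mul (.mul (.arr a (vr 15)) (notT (eqT (vr 15) (vr 16))))
      (notT (adjT (vr 16) (vr 15))))) ↔ ∃ b ∈ fs n A a, b ≠ v ∧ ¬ G.Adj v b := by
  classical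
  rw [algF5_sum, Finset.sum_pos_iff]
  have key : ∀ z : Fin n, val w A (update ρ 15 z.val)
      (.mul (.mul (.arr a (vr 15)) (notT (eqT (vr 15) (vr 16)))) (notT (adjT (vr 16) (vr 15)))) =
      if (z ∈ fs n A a ∧ z ≠ v) ∧ ¬ G.Adj v z then 1 else 0 := by
    intro z
    have e15 : val w A (update ρ 15 z.val) (vr 15) = z.val := by simp [algF5_var]
    have e16 : val w A (update ρ 15 z.val) (vr 16) = v.val := by
      rw [algF5_var, Function.update_of_ne (by decide), hv]
    rw [algF5_mul, algF5_mul, val_arr h e15, val_notT, val_notT, val_eqT, e15, e16,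
      val_adjT h e16 e15]
    have c0 : (z.val = v.val) = (z = v) := by rw [Fin.ext_iff]
    by_cases c1 : z ∈ fs n A a <;> by_cases c2 : z = v <;> by_cases c3 : G.Adj v z <;>
      simp [c1, c2, c3, c0]
  constructor
  · rintro ⟨x, _, hx⟩
    by_cases hxn : x < n
    · have := key ⟨x, hxn⟩
      simp only at this
      rw [this] at hx
      rw [algF5_pos_if] at hx
      exact ⟨⟨x, hxn⟩, hx.1.1, hx.1.2, hx.2⟩
    · exfalso
      rw [algF5_mul, algF5_mul, val_arr_of_sup sa (by simpa [algF5_var] using hxn), zero_mul,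
        zero_mul] at hx
      exact lt_irrefl _ hx
  · rintro ⟨b, hb, hne, hadj⟩
    refine ⟨b.val, mem_range.2 (AlgT_lt_len h b.isLt), ?_⟩
    rw [key b, algF5_pos_if]
    exact ⟨⟨hb, hne⟩, hadj⟩

end AlgF5

theorem comp5 (h : Enc G w) : Comp G w (.seq pSet pF5) (Φ5 G) := by
  classical
  intro ρ A hA
  obtain ⟨hI, hf1, hf2, hS, hset⟩ := run_set (ρ := ρ) h hA
  rw [algF5_seq]
  set B := run w pSet ρ A with hB
  -- the states after the four updates
  let B1 := run w (.upd 10 16 (.mul (.arr 0 (vr 16)) (.add (.arr 5 (vr 16)) (.arr 7 (vr 16)))))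
    ρ B
  let B2 := run w (.upd 14 16 (.mul (.arr 10 (vr 16)) (.sum 15 (.mul (.mul (.arr 10 (vr 15))
    (notT (eqT (vr 15) (vr 16)))) (notT (adjT (vr 16) (vr 15))))))) ρ B1
  let B3 := run w (.upd 15 16 (.mul (.arr 10 (vr 16)) (notT (.arr 14 (vr 16))))) ρ B2
  let B4 := run w (.upd 12 16 (.add (.arr 14 (vr 16)) (.mul (.arr 15 (vr 16))
    (.lt (rankT (vr 16) 15) (.sub (cardT 5) (cardT 14)))))) ρ B3
  have hrun : run w pF5 ρ B = B4 := rfl
  rw [hrun]
  -- unchanged arrays
  have e1 : ∀ b : Fin 16, b ≠ 10 → fs n B1 b = fs n B b := fun b hb => fs_upd_ne hb _ _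
  have e2 : ∀ b : Fin 16, b ≠ 14 → fs n B2 b = fs n B1 b := fun b hb => fs_upd_ne hb _ _
  have e3 : ∀ b : Fin 16, b ≠ 15 → fs n B3 b = fs n B2 b := fun b hb => fs_upd_ne hb _ _
  have e4 : ∀ b : Fin 16, b ≠ 12 → fs n B4 b = fs n B3 b := fun b hb => fs_upd_ne hb _ _
  have s1 : ∀ b : Fin 16, b ≠ 10 → (Sup n B1 b ↔ Sup n B b) := fun b hb => sup_upd_ne hb _ _
  have s2 : ∀ b : Fin 16, b ≠ 14 → (Sup n B2 b ↔ Sup n B1 b) := fun b hb => sup_upd_ne hb _ _
  have s3 : ∀ b : Fin 16, b ≠ 15 → (Sup n B3 b ↔ Sup n B2 b) := fun b hb => sup_upd_ne hb _ _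
  have s4 : ∀ b : Fin 16, b ≠ 12 → (Sup n B4 b ↔ Sup n B3 b) := fun b hb => sup_upd_ne hb _ _
  -- supports
  have u5 : Sup n B 5 := hS 5 (by decide) (by decide)
  have p10 : Sup n B1 10 := algF5_sup 0 10 hI.s0 _
  have p14 : Sup n B2 14 := algF5_sup 10 14 p10 _
  have p10' : Sup n B2 10 := (s2 10 (by decide)).2 p10
  have p15 : Sup n B3 15 := algF5_sup 10 15 p10' _
  have q14 : Sup n B3 14 := (s3 14 (by decide)).2 p14
  have q5 : Sup n B3 5 := (s3 5 (by decide)).2 ((s2 5 (by decide)).2 ((s1 5 (by decide)).2 u5))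
  have p12 : Sup n B4 12 := by
    refine sup_upd _ _ _ fun x hx => ?_
    rw [algF5_add, algF5_mul, val_arr_of_sup q14 (by simpa [algF5_var] using hx),
      val_arr_of_sup p15 (by simpa [algF5_var] using hx), zero_mul, add_zero]
  have low : ∀ b : Fin 16, b.val < 3 → fs n B4 b = fs n B b ∧ (Sup n B4 b ↔ Sup n B b) := by
    intro b hb
    have n10 : b ≠ 10 := by rintro rfl; exact absurd hb (by decide)
    have n12 : b ≠ 12 := by rintro rfl; exact absurd hb (by decide)
    have n14 : b ≠ 14 := by rintro rfl; exact absurd hb (by decide)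
    have n15 : b ≠ 15 := by rintro rfl; exact absurd hb (by decide)
    exact ⟨by rw [e4 b n12, e3 b n15, e2 b n14, e1 b n10],
      by rw [s4 b n12, s3 b n15, s2 b n14, s1 b n10]⟩
  refine ⟨⟨by rw [(low 0 (by decide)).1, hI.all], (low 0 (by decide)).2.2 hI.s0,
    (low 1 (by decide)).2.2 hI.s1, (low 2 (by decide)).2.2 hI.s2⟩,
    by rw [(low 1 (by decide)).1, hf1], by rw [(low 2 (by decide)).1, hf2], p12, ?_⟩
  rintro F ⟨u, hu, rfl⟩
  have hSet := hset u hu
  unfold WW f5
  set W := Wv (ρ 2) (ρ 3) (ρ 4) (fs n A 1) with hW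
  -- array 10
  have f10 : fs n B1 10 = Bg G (ρ 0) W ∪ Bg G (ρ 0) (sw W u) := by
    show fs n (run w (.upd 10 16 _) ρ B) 10 = _
    rw [fs_upd h]
    ext v
    simp only [mem_filter, mem_univ, true_and, mem_union]
    have hv : val w B (update ρ 16 v.val) (vr 16) = v.val := by simp [algF5_var]
    rw [algF5_mul, algF5_add, val_arr h hv, val_arr h hv, val_arr h hv, hI.all, hSet.a5, hSet.a7]
    by_cases c1 : v ∈ Bg G (ρ 0) W <;> by_cases c2 : v ∈ Bg G (ρ 0) (sw W u) <;> simp [c1, c2]
  set D := Bg G (ρ 0) W ∪ Bg G (ρ 0) (sw W u) with hD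
  -- array 14
  have f14 : fs n B2 14 = suppF G D := by
    show fs n (run w (.upd 14 16 _) ρ B1) 14 = _
    rw [fs_upd h]
    unfold suppF
    ext v
    simp only [mem_filter, mem_univ, true_and]
    rw [algF5_mul, val_arr h (v := v) (by simp [algF5_var]), algF5_pos_mul,
      algF5_supp h p10 (v := v) (by simp), f10]
  -- array 15
  have f15 : fs n B3 15 = D \ suppF G D := by
    show fs n (run w (.upd 15 16 _) ρ B2) 15 = _
    rw [fs_upd h]
    ext v
    simp only [mem_filter, mem_univ, true_and, mem_sdiff]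
    rw [algF5_mul, val_arr h (v := v) (by simp [algF5_var]), val_notT,
      val_arr h (v := v) (by simp [algF5_var]), algF5_pos_mul, algF5_pos_not, algF5_if_zero,
      e2 10 (by decide), f10, f14]
  have g14 : fs n B3 14 = suppF G D := by rw [e3 14 (by decide), f14]
  have g5 : fs n B3 5 = Bg G (ρ 0) W := by
    rw [e3 5 (by decide), e2 5 (by decide), e1 5 (by decide), hSet.a5]
  -- array 12
  show fs n (run w (.upd 12 16 _) ρ B3) 12 = _
  rw [fs_upd h]
  ext v
  have hv : val w B3 (update ρ 16 v.val) (vr 16) = v.val := by simp [algF5_var]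
  simp only [mem_filter, mem_univ, true_and, mem_union, firstk]
  rw [algF5_add, algF5_mul, algF5_lt, algF5_sub, val_arr h hv, val_arr h hv, val_cardT h q5,
    val_cardT h q14, val_rankT h p15 (i := v) (fun y => by
      rw [algF5_var, Function.update_of_ne (by decide)]; simp), f15, g14, g5]
  by_cases c1 : v ∈ suppF G D <;> by_cases c2 : v ∈ D \ suppF G D <;>
    by_cases c3 : ((D \ suppF G D).filter fun z => z < v).card <
      (Bg G (ρ 0) W).card - (suppF G D).card <;>
    simp only [c1, c2, c3, if_true, if_false] <;> simp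

end Pool.Agent.helper81.JB
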