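import Pool.Agent.helper81.JB.AlgF1
import Pool.Agent.helper81.JB.AlgF2
import Pool.Agent.helper81.JB.AlgF3
import Pool.Agent.helper81.JB.AlgF4
import Pool.Agent.helper81.JB.AlgF5

/-!
# JB-AlgP: the family considered in one pass

`Fm G τ U`: the sets considered in a pass which does not change the current cut `U`.
* `srch_pass`: `srch_loop`, `srch_seq`, `srch_piece`, `comp1`, ..., `comp5`, and `srch_mono` at the end
  (`Function.update` at different variables; `w.length = n * n`; `u.val < n * n`).
-/

set_option autoImplicit false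

open Finset

namespace Pool.Agent.helper81.JB

open Pool.Agent.helper81.LC (Tm Pr val run b2n down outp)
open Function (update)

variable {n : ℕ} {G : SimpleGraph (Fin n)} {w : List Bool}

/-- the sets considered in a pass which does not change the current cut `U` -/
def Fm (G : SimpleGraph (Fin n)) (τ : ℤ) (U : Finset (Fin n)) : Set (Finset (Fin n)) :=
  {F | (∃ p < n * n, ∃ q < n * n, ∃ r < n * n, ∃ s < n * n, F = f1 p q r s U) ∨
    ∃ a < n * n, ∃ b < n * n, ∃ u : Fin n, F = f5 G τ (Wv a b u.val U) u ∨
      F = f4 G τ (Wv a b u.val U) ∨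
      ∃ x : Fin n, F = f2 G τ (Wv a b u.val U) u x ∨ F = f3 G τ (Wv a b u.val U) u x}

/-- the value of a variable after updates of other variables -/
theorem AlgP_upd (ρ : Fin 20 → ℕ) (i j : Fin 20) (x : ℕ) (h : j ≠ i) :
    update ρ i x j = ρ j := Function.update_of_ne h x ρ

theorem srch_pass (h : Enc G w) : Srch G w pPass fun ρ U F => F ∈ Fm G (ρ 0) U := by
  have hl := h.len
  have c1 := srch_loop (i := 2) (by decide) (srch_loop (i := 3) (by decide)
    (srch_loop (i := 4) (by decide) (srch_loop (i := 5) (by decide)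
      (srch_piece h (comp1 h)))))
  have c5 := srch_piece h (comp5 h)
  have c4 := srch_piece h (comp4 h)
  have c2 := srch_loop (i := 5) (by decide) (srch_piece h (comp2 h))
  have c3 := srch_loop (i := 5) (by decide) (srch_piece h (comp3 h))
  have c6 := srch_loop (i := 2) (by decide) (srch_loop (i := 3) (by decide)
    (srch_loop (i := 4) (by decide) (srch_seq c5 (srch_seq c4 (srch_seq c2 c3)))))
  refine srch_mono (srch_seq c1 c6) ?_
  intro ρ U F hF
  rw [Fm, Set.mem_ofPred_eq] at hF
  rcases hF with ⟨p, hp, q, hq, r, hr, s, hs, hF⟩ | ⟨a, ha, b, hb, u, hF⟩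
  · left
    refine ⟨p, hl ▸ hp, q, hl ▸ hq, r, hl ▸ hr, s, hl ▸ hs, ?_⟩
    simpa [Φ1, AlgP_upd] using hF
  · right
    have hu : u.val < w.length := AlgT_lt_len h u.isLt
    refine ⟨a, hl ▸ ha, b, hl ▸ hb, u.val, hu, ?_⟩
    rcases hF with hF | hF | ⟨x, hF | hF⟩
    · left
      refine ⟨u, ?_, ?_⟩
      · simp
      · simpa [WW, AlgP_upd] using hF
    · right; left
      refine ⟨u, ?_, ?_⟩
      · simp
      · simpa [WW, AlgP_upd] using hF
    · right; right; left
      refine ⟨x.val, AlgT_lt_len h x.isLt, u, x, ?_, ?_, ?_⟩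
      · simp [AlgP_upd]
      · simp
      · simpa [WW, AlgP_upd] using hF
    · right; right; right
      refine ⟨x.val, AlgT_lt_len h x.isLt, u, x, ?_, ?_, ?_⟩
      · simp [AlgP_upd]
      · simp
      · simpa [WW, AlgP_upd] using hF

end Pool.Agent.helper81.JB
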