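import Pool.Agent.helper81.JB.AlgP
import Pool.Agent.helper81.JB.Lo
import Pool.Agent.helper81.JB.A2

/-!
# JB-AlgP2: the passes for one value of `τ`

* `cutN_le`: `2 * cutN ≤ N univ univ = 2 * (number of edges)` (`ncard_eq` in `Lo.lean`; `N_univ_split` in
  `A2.lean`).
* `run_tau`: `n * n` passes; the cut value is an integer between `0` and the number `m < n * n` of edges,
  and it does not decrease.  If it increased in every pass it would be at least
  `n * n > m`. So there is a pass with equal cut values before and after it: `srch_pass` gives `U` and the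
  statement for the output after this pass; the later passes keep it good (third part of `Srch`).
  Work with a general lemma on `down`: for all `j`, after `j` passes either the cut value
  is at least `j` or the conclusion holds.  (`ρ 0` is not changed by the loop over variable 1.)
-/

set_option autoImplicit false

open Finset

namespace Pool.Agent.helper81.JB

open Pool.Agent.helper81.LC (Tm Pr val run b2n down outp)
open Function (update)

variable {n : ℕ} {G : SimpleGraph (Fin n)} {w : List Bool}

theorem cutN_nonneg (X : Finset (Fin n)) : 0 ≤ cutN G X := N_nonneg G X Xᶜ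

theorem cutN_le (X : Finset (Fin n)) : cutN G X ≤ G.edgeSet.ncard := by
  have h1 := N_univ_split G X
  have h2 := ncard_eq G
  have h3 := N_nonneg G X X
  have h4 := N_nonneg G Xᶜ Xᶜ
  unfold cutN
  linarith

/-- `j` passes: either the cut value is at least `j` larger, or the family has been searched -/
theorem AlgP2_down {g : ℕ → (Fin 16 → ℕ → Bool) → (Fin 16 → ℕ → Bool)} {t : ℤ}
    (hg : ∀ x A, Inv n A → Inv n (g x A) ∧
      cutN G (fs n A 1) ≤ cutN G (fs n (g x A) 1) ∧
      (∀ σ : ℤ, t ≤ σ → good G σ (fs n A 2) → good G σ (fs n (g x A) 2)) ∧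
      (cutN G (fs n (g x A) 1) ≤ cutN G (fs n A 1) →
        ∀ F ∈ Fm G t (fs n A 1), cutN G F ≤ cutN G (fs n A 1) ∧
          (good G t F → good G t (fs n (g x A) 2)))) :
    ∀ (j : ℕ) (A : Fin 16 → ℕ → Bool), Inv n A → Inv n (down g j A) ∧
      (∀ σ : ℤ, t ≤ σ → good G σ (fs n A 2) → good G σ (fs n (down g j A) 2)) ∧
      (cutN G (fs n A 1) + j ≤ cutN G (fs n (down g j A) 1) ∨
        ∃ U, ∀ F ∈ Fm G t U, cutN G F ≤ cutN G U ∧
          (good G t F → good G t (fs n (down g j A) 2))) := by
  intro j
  induction j with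
  | zero =>
    intro A hA
    refine ⟨hA, fun σ _ h => h, Or.inl ?_⟩
    simp [down]
  | succ j ih =>
    intro A hA
    obtain ⟨h1, h2, h3, h4⟩ := hg j A hA
    obtain ⟨g1, g2, g3⟩ := ih (g j A) h1
    refine ⟨g1, fun σ hσ h => g2 σ hσ (h3 σ hσ h), ?_⟩
    rcases le_or_gt (cutN G (fs n (g j A) 1)) (cutN G (fs n A 1)) with hc | hc
    · right
      refine ⟨fs n A 1, fun F hF => ?_⟩
      obtain ⟨e1, e2⟩ := h4 hc F hF
      exact ⟨e1, fun hgF => g2 t le_rfl (e2 hgF)⟩
    · rcases g3 with g3 | g3
      · left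
        change cutN G (fs n A 1) + ((j + 1 : ℕ) : ℤ) ≤ cutN G (fs n (down g j (g j A)) 1)
        push_cast
        linarith
      · right
        exact g3

theorem run_tau (h : Enc G w) (hm : G.edgeSet.ncard < n * n) {ρ : Fin 20 → ℕ}
    {A : Fin 16 → ℕ → Bool} (hA : Inv n A) :
    Inv n (run w (.loop 1 pPass) ρ A) ∧
    (∀ σ : ℤ, (ρ 0 : ℤ) ≤ σ → good G σ (fs n A 2) →
      good G σ (fs n (run w (.loop 1 pPass) ρ A) 2)) ∧
    ∃ U, ∀ F ∈ Fm G (ρ 0) U, cutN G F ≤ cutN G U ∧
      (good G (ρ 0) F → good G (ρ 0) (fs n (run w (.loop 1 pPass) ρ A) 2)) := by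
  have hlen : w.length = n * n := h.len
  have key := AlgP2_down (G := G) (n := n) (t := (ρ 0 : ℤ))
    (g := fun x A' => run w pPass (update ρ 1 x) A') (by
      intro x A' hA'
      obtain ⟨h1, h2, h3, h4⟩ := srch_pass h (update ρ 1 x) A' hA'
      have e0 : update ρ 1 x 0 = ρ 0 := Function.update_of_ne (by decide) _ _
      rw [e0] at h3 h4
      exact ⟨h1, h2, h3, fun hc => (h4 hc).2⟩) w.length A hA
  obtain ⟨k1, k2, k3⟩ := key
  refine ⟨k1, k2, ?_⟩
  rcases k3 with k3 | k3
  · exfalso
    have e1 := cutN_nonneg (G := G) (fs n A 1)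
    have e2 := cutN_le (G := G)
      (fs n (down (fun x A' => run w pPass (update ρ 1 x) A') w.length A) 1)
    have e3 : (G.edgeSet.ncard : ℤ) < (w.length : ℤ) := by
      rw [hlen]
      exact_mod_cast hm
    linarith
  · exact k3

end Pool.Agent.helper81.JB
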