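import Pool.Agent.helper81.JB.AlgR3

/-!
# JB-AlgR4: some set of the family is good

* `f5_props`: `D = Bg W ∪ Bg (sw W u)`; `suppF = supp`; `firstk_card`.
* `exists_good_r`: suppose that no set of the family is good.  `U` itself is in the family (`f1_eq` for
  `D = ∅`), so `τ + 1 ≤ E U` or `τ + 1 ≤ E Uᶜ`; `rdy_fm` for `W = U` or `W = Uᶜ` with `L = k - r`, `contra_r`.
* `exists_good_s`: the same with `L = k - 3 s` (`-3 ≤ L`), `final_s` and `f5_props`: `f5 G τ W u` is in the family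
  (`W = Wv a 0 u U`).
-/

set_option autoImplicit false

open Finset

namespace Pool.Agent.helper81.JB

variable {n : ℕ} {G : SimpleGraph (Fin n)} {τ L : ℤ} {U W : Finset (Fin n)} {u : Fin n}

theorem AlgR4_suppF (D : Finset (Fin n)) : suppF G D = supp G D := by
  ext z
  simp only [suppF, supp, mem_filter]

theorem f5_props (h1 : (supp G (Bg G τ W ∪ Bg G τ (sw W u))).card ≤ (Bg G τ W).card)
    (h2 : (Bg G τ W).card ≤ (Bg G τ W ∪ Bg G τ (sw W u)).card) :
    f5 G τ W u ⊆ Bg G τ W ∪ Bg G τ (sw W u) ∧ (f5 G τ W u).card = (Bg G τ W).card ∧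
      supp G (Bg G τ W ∪ Bg G τ (sw W u)) ⊆ f5 G τ W u := by
  classical
  obtain ⟨D, hD⟩ : ∃ D, D = Bg G τ W ∪ Bg G τ (sw W u) := ⟨_, rfl⟩
  have he : f5 G τ W u = supp G D ∪ firstk (D \ supp G D) ((Bg G τ W).card - (supp G D).card) := by
    unfold f5
    simp only [AlgR4_suppF]
    rw [hD]
  rw [← hD] at h1 h2 ⊢
  have hs : supp G D ⊆ D := by
    intro z hz
    simp only [supp, mem_filter] at hz
    exact hz.1
  have hf : firstk (D \ supp G D) ((Bg G τ W).card - (supp G D).card) ⊆ D \ supp G D :=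
    firstk_subset _ _
  have hd : Disjoint (supp G D)
      (firstk (D \ supp G D) ((Bg G τ W).card - (supp G D).card)) := by
    rw [disjoint_left]
    intro z hz hz2
    exact (mem_sdiff.1 (hf hz2)).2 hz
  have hc : (D \ supp G D).card = D.card - (supp G D).card := card_sdiff_of_subset hs
  have hq : (firstk (D \ supp G D) ((Bg G τ W).card - (supp G D).card)).card =
      (Bg G τ W).card - (supp G D).card := firstk_card _ (by rw [hc]; omega)
  rw [he]
  refine ⟨union_subset hs (hf.trans sdiff_subset), ?_, subset_union_left⟩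
  rw [card_union_of_disjoint hd, hq]
  omega

theorem AlgR4_big (hn : 2 ≤ n) (hb : ∀ F ∈ Fm G τ U, ¬ good G τ F) :
    ∃ W, (W = U ∨ W = Uᶜ) ∧ τ + 1 ≤ E G W := by
  obtain ⟨p, hp, q, hq, r, hr, s, hs, he⟩ := f1_eq hn U ∅ (by simp)
  have h1 : ¬ good G τ U := by
    refine hb _ (Or.inl ⟨p, hp, q, hq, r, hr, s, hs, ?_⟩)
    rw [he]
    ext z
    simp [mem_symmDiff]
  by_contra hcon
  push Not at hcon
  apply h1
  have h2 := hcon U (Or.inl rfl)
  have h3 := hcon Uᶜ (Or.inr rfl)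
  unfold good
  exact ⟨by omega, by omega⟩

/-- the range with extra edges -/
theorem exists_good_r (hn : 2 ≤ n) {k r : ℤ} (hk : 0 ≤ k) (hr : 0 ≤ r)
    (hrk : r ≤ k) (hr4 : 4 * r ≤ k ∨ r ≤ 4) (hτ : 2 * τ = k * (k + 1))
    (hm : N G univ univ = 2 * (k * (2 * k + 1) + r))
    (hU : ∀ F ∈ Fm G τ U, cutN G F ≤ cutN G U) : ∃ F ∈ Fm G τ U, good G τ F := by
  by_contra hcon
  have hb : ∀ F ∈ Fm G τ U, ¬ good G τ F := fun F hF hg => hcon ⟨F, hF, hg⟩
  obtain ⟨W, hW, hE⟩ := AlgR4_big hn hb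
  have ht : N G univ univ = 2 * (4 * τ - (k - r)) := by
    rw [hm]
    linear_combination (-4 : ℤ) * hτ
  exact contra_r (rdy_fm hn hU hb hW ht (by omega) hE) hk hr hrk hr4 hτ rfl

/-- the range with missing edges -/
theorem exists_good_s (hn : 2 ≤ n) {k s : ℤ} (hk : 2 ≤ k) (hs : 0 ≤ s)
    (hs14 : 14 * s ≤ k ∨ s ≤ 1) (hτ : 2 * τ = k * (k + 1) - 2 * s)
    (hm : N G univ univ = 2 * (k * (2 * k + 1) - s))
    (hU : ∀ F ∈ Fm G τ U, cutN G F ≤ cutN G U) : ∃ F ∈ Fm G τ U, good G τ F := by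
  by_contra hcon
  have hb : ∀ F ∈ Fm G τ U, ¬ good G τ F := fun F hF hg => hcon ⟨F, hF, hg⟩
  obtain ⟨W, hW, hE⟩ := AlgR4_big hn hb
  have ht : N G univ univ = 2 * (4 * τ - (k - 3 * s)) := by
    rw [hm]
    linear_combination (-4 : ℤ) * hτ
  have hL : -3 ≤ k - 3 * s := by omega
  have hR := rdy_fm hn hU hb hW ht hL hE
  obtain ⟨u, _, h1, h2, h3⟩ := final_s hR (by omega) hs (by omega) hs14 hτ rfl hL
  obtain ⟨g1, g2, g3⟩ := f5_props h1 h2
  have hnn : 2 * 2 ≤ n * n := Nat.mul_le_mul hn hn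
  obtain ⟨a, ha, hWv⟩ := AlgR2_exists_Wv hn hW
  refine hb (f5 G τ W u) (Or.inr ⟨a, ha, 0, by omega, u, Or.inl (by rw [hWv])⟩) ?_
  exact h3 _ g1 g2 g3

end Pool.Agent.helper81.JB
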