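import Pool.Agent.helper81.JB.A1M
import Pool.Agent.helper81.JB.Alg

/-!
# JB-AlgT: the values of the basic terms

`Enc G w`: `w` is the adjacency matrix of `G` (row by row).  `fs n A a`: the set of vertices stored in
array `a`. `Sup n A a`: array `a` has no entries `≥ n`.

* `val_nT`: the number of `x < n * n` with `x * x < n * n` is `n` (`x * x < n * n ↔ x < n`,
  `Nat.mul_self_lt_mul_self_iff`; `n ≤ n * n`).
* `val_adjT`: `.inp` of `i * n + j`.
* `val_NT`, `val_degT`, `val_cardT`, `val_rankT`: `∑ x ∈ range (n * n)` of a function vanishing for `x ≥ n`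
  is `∑ x ∈ range n`, i.e. `∑ v : Fin n` (`Finset.sum_subset`, `Fin.sum_univ_eq_sum_range` or
  `Finset.sum_range`); beware that `adjT` is only evaluated meaningfully at indices `< n`, the other terms of
  the sum are `0` because of the factor `.arr` and `Sup`.
* `val_halfT`: the number of `j < w.length` with `2 j + 1 < x` is `x / 2` if `x / 2 ≤ w.length`.
-/

set_option autoImplicit false

open Finset

namespace Pool.Agent.helper81.JB

open Pool.Agent.helper81.LC (Tm Pr val run b2n)
open Function (update)

/-- `w` is the adjacency matrix of `G` -/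
structure Enc {n : ℕ} (G : SimpleGraph (Fin n)) (w : List Bool) : Prop where
  len : w.length = n * n
  adj : ∀ i j : Fin n, w.getD (i.val * n + j.val) false = true ↔ G.Adj i j

/-- the set of the vertices in array `a` -/
def fs (n : ℕ) (A : Fin 16 → ℕ → Bool) (a : Fin 16) : Finset (Fin n) :=
  univ.filter fun v => A a v.val = true

/-- array `a` has no entries `≥ n` -/
def Sup (n : ℕ) (A : Fin 16 → ℕ → Bool) (a : Fin 16) : Prop := ∀ x, A a x = true → x < n

variable {n : ℕ} {G : SimpleGraph (Fin n)} {w : List Bool} {A : Fin 16 → ℕ → Bool}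
  {ρ : Fin 20 → ℕ}

theorem mem_fs {a : Fin 16} {v : Fin n} : v ∈ fs n A a ↔ A a v.val = true := by
  simp [fs]

theorem AlgT_lt_len (h : Enc G w) {x : ℕ} (hx : x < n) : x < w.length := by
  rw [h.len]
  exact lt_of_lt_of_le hx (Nat.le_mul_self n)

theorem AlgT_b2n (b : Bool) : b2n b = if b = true then 1 else 0 := by
  cases b <;> simp [b2n]

theorem val_arr (h : Enc G w) {a : Fin 16} {t : T} {v : Fin n} (ht : val w A ρ t = v.val) :
    val w A ρ (.arr a t) = if v ∈ fs n A a then 1 else 0 := by
  have hl : v.val < w.length := AlgT_lt_len h v.isLt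
  simp only [LC.val, ht, AlgT_b2n, mem_fs, hl, decide_true, Bool.true_and]

/-- the value of an array at any variable -/
theorem val_arr_of_sup {a : Fin 16} (hs : Sup n A a) {t : T} (ht : n ≤ val w A ρ t) :
    val w A ρ (.arr a t) = 0 := by
  have hA : A a (val w A ρ t) = false := by
    cases hb : A a (val w A ρ t) with
    | false => rfl
    | true => exact absurd (hs _ hb) (not_lt.2 ht)
  simp only [LC.val, AlgT_b2n, hA, Bool.and_false, Bool.false_eq_true, if_false]

theorem val_nT (h : Enc G w) : val w A ρ nT = n := by
  have h1 : val w A ρ nT = ∑ x ∈ range (n * n), if x < n then 1 else 0 := by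
    simp only [nT, vr, LC.val, h.len, Function.update_self]
    refine sum_congr rfl fun x _ => ?_
    simp only [Nat.mul_self_lt_mul_self_iff]
  rw [h1, ← sum_filter, sum_const, smul_eq_mul, mul_one]
  have h2 : (range (n * n)).filter (fun x => x < n) = range n := by
    ext x
    simp only [mem_filter, mem_range]
    constructor
    · rintro ⟨_, hx⟩; exact hx
    · intro hx; exact ⟨lt_of_lt_of_le hx (Nat.le_mul_self n), hx⟩
  rw [h2, card_range]

open Classical in
theorem val_adjT (h : Enc G w) {s t : T} {i j : Fin n} (hs : val w A ρ s = i.val)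
    (ht : val w A ρ t = j.val) : val w A ρ (adjT s t) = if G.Adj i j then 1 else 0 := by
  have h1 : val w A ρ (adjT s t) = b2n (w.getD (i.val * n + j.val) false) := by
    have := val_nT (A := A) (ρ := ρ) h
    simp only [adjT, LC.val, hs, ht, this]
  rw [h1, AlgT_b2n]
  simp only [h.adj i j]

theorem val_eqT (s t : T) : val w A ρ (eqT s t) =
    if val w A ρ s = val w A ρ t then 1 else 0 := by
  simp only [eqT, LC.val]
  split_ifs <;> omega

theorem val_notT (t : T) : val w A ρ (notT t) = if val w A ρ t = 0 then 1 else 0 := by
  simp only [notT, LC.val]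
  split_ifs <;> omega

theorem val_tauT (d : T) : val w A ρ (tauT d) = 2 * (val w A ρ d + ρ 0) + 1 := by
  simp only [tauT, vr, LC.val]

/-! ### updates -/

theorem fs_upd (h : Enc G w) (a : Fin 16) (i : Fin 20) (t : T) :
    fs n (run w (.upd a i t) ρ A) a =
      univ.filter fun v => 0 < val w A (update ρ i v.val) t := by
  ext v
  have hl : v.val < w.length := AlgT_lt_len h v.isLt
  simp [fs, LC.run, hl]

theorem fs_upd_ne {a b : Fin 16} (hb : b ≠ a) (i : Fin 20) (t : T) :
    fs n (run w (.upd a i t) ρ A) b = fs n A b := by
  ext v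
  simp [fs, LC.run, Function.update_of_ne hb]

theorem sup_upd (a : Fin 16) (i : Fin 20) (t : T)
    (ht : ∀ x, n ≤ x → val w A (update ρ i x) t = 0) :
    Sup n (run w (.upd a i t) ρ A) a := by
  intro x hx
  simp only [LC.run, Function.update_self, decide_eq_true_eq] at hx
  by_contra hn
  have := ht x (not_lt.1 hn)
  omega

theorem sup_upd_ne {a b : Fin 16} (hb : b ≠ a) (i : Fin 20) (t : T) :
    Sup n (run w (.upd a i t) ρ A) b ↔ Sup n A b := by
  simp only [Sup, LC.run, Function.update_of_ne hb]

/-- lookup in a concatenation of rows of length `n` -/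
theorem AlgT_flat (m : ℕ) (Ad : Fin m → Fin n → Bool) :
    ((List.finRange m).flatMap fun i => (List.finRange n).map fun j => Ad i j).length = m * n ∧
      ∀ (i : Fin m) (j : Fin n),
        ((List.finRange m).flatMap fun i => (List.finRange n).map fun j => Ad i j).getD
          (i.val * n + j.val) false = Ad i j := by
  induction m with
  | zero => exact ⟨by simp, fun i => i.elim0⟩
  | succ m ih =>
    obtain ⟨hl, hv⟩ := ih fun i j => Ad i.succ j
    have hc : ((List.finRange (m + 1)).flatMap fun i => (List.finRange n).map fun j => Ad i j) =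
        ((List.finRange n).map fun j => Ad 0 j) ++
          ((List.finRange m).flatMap fun i => (List.finRange n).map fun j => Ad i.succ j) := by
      rw [List.finRange_succ, List.flatMap_cons, List.flatMap_map]
    rw [hc]
    refine ⟨?_, ?_⟩
    · rw [List.length_append, hl, List.length_map, List.length_finRange]
      ring
    · intro i j
      refine Fin.cases ?_ (fun i' => ?_) i
      · rw [List.getD_append _ _ _ _ (by simp)]
        simp [List.getD_eq_getElem?_getD]
      · rw [List.getD_append_right _ _ _ _ (by
          simp only [List.length_map, List.length_finRange, Fin.val_succ]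
          nlinarith [Nat.zero_le (i'.val * n)])]
        have he : i'.succ.val * n + j.val - ((List.finRange n).map fun j => Ad 0 j).length =
            i'.val * n + j.val := by
          simp only [List.length_map, List.length_finRange, Fin.val_succ]
          have : (i'.val + 1) * n = i'.val * n + n := by ring
          omega
        rw [he]
        exact hv i' j

/-- the encoding used in the final statement -/
theorem enc_adjBits (Ad : Fin n → Fin n → Bool) (hA : ∀ i j, Ad i j = true ↔ G.Adj i j) :
    Enc G (Pool.Agent.helper64.LP.adjBits n Ad) := by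
  obtain ⟨hl, hv⟩ := AlgT_flat n Ad
  refine ⟨hl, fun i j => ?_⟩
  rw [← hA i j]
  exact Bool.eq_iff_iff.1 (hv i j)

end Pool.Agent.helper81.JB
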