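import Pool.Agent.helper81.JB.AlgT

/-!
# JB-AlgT2: the values of the counting terms

`∑ x ∈ range (n * n)` of a function vanishing for `x ≥ n` is `∑ x ∈ range n`, i.e. `∑ v : Fin n`
(`Finset.sum_subset`, `Finset.sum_range`); beware that `adjT` is only evaluated meaningfully at indices
`< n`, the other terms of the sum are `0` because of the factor `.arr` and `Sup` (`val_arr_of_sup`).
* `val_halfT`: the number of `j < w.length` with `2 j + 1 < x` is `x / 2` if `x / 2 ≤ w.length`.
-/

set_option autoImplicit false

open Finset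

namespace Pool.Agent.helper81.JB

open Pool.Agent.helper81.LC (Tm Pr val run b2n down)
open Function (update)

variable {n : ℕ} {G : SimpleGraph (Fin n)} {w : List Bool} {A : Fin 16 → ℕ → Bool}
  {ρ : Fin 20 → ℕ}

theorem AlgT2_sum (h : Enc G w) (f : ℕ → ℕ) (hf : ∀ x, n ≤ x → f x = 0) :
    ∑ x ∈ range w.length, f x = ∑ v : Fin n, f v.val := by
  rw [h.len, ← Finset.sum_range (fun x => f x)]
  symm
  apply Finset.sum_subset
  · intro x hx
    rw [mem_range] at hx ⊢
    exact lt_of_lt_of_le hx (Nat.le_mul_self n)
  · intro x _ hx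
    rw [mem_range, not_lt] at hx
    exact hf x hx

open Classical in
theorem AlgT2_N (S S' : Finset (Fin n)) : N G S S' =
    ((∑ u : Fin n, ∑ v : Fin n, (if u ∈ S then 1 else 0) * (if v ∈ S' then 1 else 0) *
      (if G.Adj u v then 1 else 0) : ℕ) : ℤ) := by
  unfold N
  push_cast
  rw [← Finset.sum_filter_add_sum_filter_not univ (fun u => u ∈ S)]
  rw [Finset.sum_eq_zero (s := univ.filter fun u => ¬ u ∈ S), add_zero]
  · rw [show (univ.filter fun u => u ∈ S) = S by ext x; simp]
    refine Finset.sum_congr rfl fun u hu => ?_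
    rw [← Finset.sum_filter_add_sum_filter_not univ (fun v => v ∈ S')]
    rw [Finset.sum_eq_zero (s := univ.filter fun v => ¬ v ∈ S'), add_zero]
    · rw [show (univ.filter fun v => v ∈ S') = S' by ext x; simp]
      refine Finset.sum_congr rfl fun v hv => ?_
      simp [hu, hv, ind]
    · intro v hv
      rw [mem_filter] at hv
      simp [hv.2]
  · intro u hu
    rw [mem_filter] at hu
    simp [hu.2]

theorem val_NT (h : Enc G w) {a b : Fin 16} (ha : Sup n A a) (hb : Sup n A b) :
    ((val w A ρ (NT a b) : ℕ) : ℤ) = N G (fs n A a) (fs n A b) := by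
  classical
  rw [AlgT2_N]
  congr 1
  have e1 : val w A ρ (NT a b) = ∑ x ∈ range w.length, ∑ y ∈ range w.length,
      val w A (update (update ρ 17 x) 18 y) (.mul (.mul (.arr a (vr 17)) (.arr b (vr 18)))
        (adjT (vr 17) (vr 18))) := rfl
  have e17 : ∀ x y : ℕ, val w A (update (update ρ 17 x) 18 y) (vr 17) = x := by
    intro x y
    simp [vr, LC.val, Function.update_of_ne]
  have e18 : ∀ x y : ℕ, val w A (update (update ρ 17 x) 18 y) (vr 18) = y := by
    intro x y
    simp [vr, LC.val]
  rw [e1, AlgT2_sum h (fun x => ∑ y ∈ range w.length, val w A (update (update ρ 17 x) 18 y)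
    (.mul (.mul (.arr a (vr 17)) (.arr b (vr 18))) (adjT (vr 17) (vr 18))))]
  · refine Finset.sum_congr rfl fun i _ => ?_
    rw [AlgT2_sum h (fun y => val w A (update (update ρ 17 i.val) 18 y)
      (.mul (.mul (.arr a (vr 17)) (.arr b (vr 18))) (adjT (vr 17) (vr 18))))]
    · refine Finset.sum_congr rfl fun j _ => ?_
      have h1 := val_arr (A := A) (a := a) h (e17 i.val j.val)
      have h2 := val_arr (A := A) (a := b) h (e18 i.val j.val)
      have h3 := val_adjT (A := A) h (e17 i.val j.val) (e18 i.val j.val)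
      change val w A _ (.arr a (vr 17)) * val w A _ (.arr b (vr 18)) *
        val w A _ (adjT (vr 17) (vr 18)) = _
      rw [h1, h2, h3]
    · intro y hy
      have h2 := val_arr_of_sup (w := w) hb (t := vr 18) (ρ := update (update ρ 17 i.val) 18 y)
        (by rw [e18]; exact hy)
      change val w A _ (.arr a (vr 17)) * val w A _ (.arr b (vr 18)) *
        val w A _ (adjT (vr 17) (vr 18)) = _
      rw [h2, mul_zero, zero_mul]
  · intro x hx
    apply Finset.sum_eq_zero
    intro y _
    have h2 := val_arr_of_sup (w := w) ha (t := vr 17) (ρ := update (update ρ 17 x) 18 y)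
      (by rw [e17]; exact hx)
    change val w A _ (.arr a (vr 17)) * val w A _ (.arr b (vr 18)) *
      val w A _ (adjT (vr 17) (vr 18)) = _
    rw [h2, zero_mul, zero_mul]

theorem val_degT (h : Enc G w) {b : Fin 16} (hb : Sup n A b) {x : T} {i : Fin n}
    (hx : ∀ y, val w A (update ρ 18 y) x = i.val) :
    ((val w A ρ (degT x b) : ℕ) : ℤ) = N G {i} (fs n A b) := by
  classical
  have e18 : ∀ y : ℕ, val w A (update ρ 18 y) (vr 18) = y := by
    intro y
    simp [vr, LC.val]
  have e1 : val w A ρ (degT x b) = ∑ y ∈ range w.length,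
      val w A (update ρ 18 y) (.mul (.arr b (vr 18)) (adjT x (vr 18))) := rfl
  rw [AlgT2_N]
  congr 1
  rw [Finset.sum_eq_single i]
  · rw [e1, AlgT2_sum h (fun y => val w A (update ρ 18 y) (.mul (.arr b (vr 18))
      (adjT x (vr 18))))]
    · refine Finset.sum_congr rfl fun j _ => ?_
      have h2 := val_arr (A := A) (a := b) h (e18 j.val)
      have h3 := val_adjT (A := A) h (hx j.val) (e18 j.val)
      change val w A _ (.arr b (vr 18)) * val w A _ (adjT x (vr 18)) = _
      rw [h2, h3]
      simp
    · intro y hy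
      have h2 := val_arr_of_sup (w := w) hb (t := vr 18) (ρ := update ρ 18 y)
        (by rw [e18]; exact hy)
      change val w A _ (.arr b (vr 18)) * val w A _ (adjT x (vr 18)) = _
      rw [h2, zero_mul]
  · intro u _ hu
    simp [hu]
  · intro hi
    exact absurd (mem_univ _) hi

theorem val_cardT (h : Enc G w) {a : Fin 16} (ha : Sup n A a) :
    val w A ρ (cardT a) = (fs n A a).card := by
  classical
  have e18 : ∀ y : ℕ, val w A (update ρ 18 y) (vr 18) = y := by
    intro y
    simp [vr, LC.val]
  have e1 : val w A ρ (cardT a) = ∑ y ∈ range w.length,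
      val w A (update ρ 18 y) (.arr a (vr 18)) := rfl
  rw [e1, AlgT2_sum h (fun y => val w A (update ρ 18 y) (.arr a (vr 18)))]
  · have e2 : ∀ v : Fin n, val w A (update ρ 18 v.val) (.arr a (vr 18)) =
        if v ∈ fs n A a then 1 else 0 := fun v => val_arr (A := A) (a := a) h (e18 v.val)
    simp only [e2]
    rw [Finset.sum_ite_mem, Finset.univ_inter, Finset.sum_const, smul_eq_mul, mul_one]
  · intro y hy
    exact val_arr_of_sup (w := w) ha (t := vr 18) (ρ := update ρ 18 y) (by rw [e18]; exact hy)

theorem val_rankT (h : Enc G w) {a : Fin 16} (ha : Sup n A a) {x : T} {i : Fin n}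
    (hx : ∀ y, val w A (update ρ 18 y) x = i.val) :
    val w A ρ (rankT x a) = ((fs n A a).filter fun z => z < i).card := by
  classical
  have e18 : ∀ y : ℕ, val w A (update ρ 18 y) (vr 18) = y := by
    intro y
    simp [vr, LC.val]
  have e1 : val w A ρ (rankT x a) = ∑ y ∈ range w.length,
      val w A (update ρ 18 y) (.mul (.arr a (vr 18)) (.lt (vr 18) x)) := rfl
  rw [e1, AlgT2_sum h (fun y => val w A (update ρ 18 y) (.mul (.arr a (vr 18))
    (.lt (vr 18) x)))]
  · have e2 : ∀ v : Fin n, val w A (update ρ 18 v.val) (.mul (.arr a (vr 18)) (.lt (vr 18) x)) =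
        if v ∈ (fs n A a).filter (fun z => z < i) then 1 else 0 := by
      intro v
      have h2 := val_arr (A := A) (a := a) h (e18 v.val)
      have h3 : val w A (update ρ 18 v.val) (.lt (vr 18) x) = if v < i then 1 else 0 := by
        change (if val w A (update ρ 18 v.val) (vr 18) < val w A (update ρ 18 v.val) x
          then 1 else 0) = _
        rw [e18, hx v.val]
        rfl
      change val w A _ (.arr a (vr 18)) * val w A _ (.lt (vr 18) x) = _
      rw [h2, h3]
      by_cases hv : v ∈ fs n A a <;> by_cases hv2 : v < i <;> simp [hv, hv2]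
    simp only [e2]
    rw [Finset.sum_ite_mem, Finset.univ_inter, Finset.sum_const, smul_eq_mul, mul_one]
  · intro y hy
    have h2 := val_arr_of_sup (w := w) ha (t := vr 18) (ρ := update ρ 18 y)
      (by rw [e18]; exact hy)
    change val w A _ (.arr a (vr 18)) * val w A _ (.lt (vr 18) x) = _
    rw [h2, zero_mul]

theorem val_halfT {t : T} {x : ℕ} (hx : ∀ y, val w A (update ρ 14 y) t = x)
    (hl : x / 2 ≤ w.length) : val w A ρ (halfT t) = x / 2 := by
  have e14 : ∀ y : ℕ, val w A (update ρ 14 y) (vr 14) = y := by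
    intro y
    simp [vr, LC.val]
  have e1 : val w A ρ (halfT t) = ∑ y ∈ range w.length, if y < x / 2 then 1 else 0 := by
    change ∑ y ∈ range w.length, (if 2 * val w A (update ρ 14 y) (vr 14) + 1 <
      val w A (update ρ 14 y) t then 1 else 0) = _
    refine Finset.sum_congr rfl fun y _ => ?_
    rw [e14, hx]
    by_cases h : y < x / 2
    · rw [if_pos h, if_pos (by omega)]
    · rw [if_neg h, if_neg (by omega)]
  rw [e1, ← sum_filter, sum_const, smul_eq_mul, mul_one]
  have h2 : (range w.length).filter (fun y => y < x / 2) = range (x / 2) := by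
    ext y
    simp only [mem_filter, mem_range]
    constructor
    · rintro ⟨_, hy⟩; exact hy
    · intro hy; exact ⟨lt_of_lt_of_le hy hl, hy⟩
  rw [h2, card_range]

end Pool.Agent.helper81.JB
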