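import Pool.Agent.helper81.JB.AlgC

/-!
# JB-AlgW: the arrays computed by `pSet`

`SetUp G W u τ A`: arrays 3 to 9 hold `W`, `sw W u`, `Bg`, `Zr`, ... for the class `W`.
`run_set`: unfold `pSet`, `sq`, `run` and use `fs_upd`, `fs_upd_ne`, `sup_upd`, ... step by step
(name the state after each update); `W = Wv (ρ 2) (ρ 3) (ρ 4) U`.
* `Bg`: `v ∈ Bg ↔ v ∈ W ∧ E W - τ ≤ N {v} W ↔ v ∈ W ∧ N W W < 2 * (N {v} W + τ) + 1`
  (`two_E`; `val_tauT`, `val_degT`, `val_NT`).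
* `Zr`: for `v ∈ W`: `al W v = N {v} Wᶜ - N {v} W = N {v} univ - 2 * N {v} W`.
-/

set_option autoImplicit false

open Finset

namespace Pool.Agent.helper81.JB

open Pool.Agent.helper81.LC (Tm Pr val run b2n down)
open Function (update)

variable {n : ℕ} {G : SimpleGraph (Fin n)} {w : List Bool}

/-- the arrays 3 to 9 for the class `W` -/
structure SetUp (G : SimpleGraph (Fin n)) (W : Finset (Fin n)) (u : Fin n) (τ : ℤ)
    (A : Fin 16 → ℕ → Bool) : Prop where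
  a3 : fs n A 3 = W
  a4 : fs n A 4 = sw W u
  a5 : fs n A 5 = Bg G τ W
  a6 : fs n A 6 = Zr G τ W
  a7 : fs n A 7 = Bg G τ (sw W u)
  a8 : fs n A 8 = Zr G τ (sw W u)
  a9 : fs n A 9 = Zp G τ W u

/-- arrays 3 to 9 have no entries `≥ n` -/
def Sups (n : ℕ) (A : Fin 16 → ℕ → Bool) : Prop := ∀ a : Fin 16, 3 ≤ a.val → a.val ≤ 9 → Sup n A a

/-- the effect of an update of array `a` -/
structure AlgW_Stp (n : ℕ) (A A' : Fin 16 → ℕ → Bool) (a : Fin 16) (S : Finset (Fin n)) :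
    Prop where
  eq : fs n A' a = S
  sup : Sup n A' a
  ne : ∀ b, b ≠ a → fs n A' b = fs n A b
  nes : ∀ b, b ≠ a → Sup n A b → Sup n A' b

theorem AlgW_stp (h : Enc G w) (ρ : Fin 20 → ℕ) (A : Fin 16 → ℕ → Bool) (a : Fin 16) (t : T)
    (S : Finset (Fin n))
    (h1 : ∀ v : Fin n, 0 < val w A (update ρ 16 v.val) t ↔ v ∈ S)
    (h2 : ∀ x, n ≤ x → val w A (update ρ 16 x) t = 0) :
    AlgW_Stp n A (run w (.upd a 16 t) ρ A) a S := by
  refine ⟨?_, sup_upd a 16 t h2, fun b hb => fs_upd_ne hb 16 t, fun b hb hs =>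
    (sup_upd_ne hb 16 t).2 hs⟩
  rw [fs_upd h]
  ext v
  rw [mem_filter, h1]
  simp

theorem AlgW_v16 {ρ : Fin 20 → ℕ} {A : Fin 16 → ℕ → Bool} (x : ℕ) :
    val w A (update ρ 16 x) (vr 16) = x := by
  show update ρ 16 x 16 = x
  exact Function.update_self _ _ _

theorem AlgW_vi {ρ : Fin 20 → ℕ} {A : Fin 16 → ℕ → Bool} (x : ℕ) {i : Fin 20} (hi : i ≠ 16) :
    val w A (update ρ 16 x) (vr i) = ρ i := by
  show update ρ 16 x i = ρ i
  exact Function.update_of_ne hi _ _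

theorem AlgW_arr (h : Enc G w) {ρ : Fin 20 → ℕ} {A : Fin 16 → ℕ → Bool} (a : Fin 16)
    (v : Fin n) : val w A (update ρ 16 v.val) (.arr a (vr 16)) =
      if v ∈ fs n A a then 1 else 0 := val_arr h (AlgW_v16 v.val)

theorem AlgW_arr0 {ρ : Fin 20 → ℕ} {A : Fin 16 → ℕ → Bool} {a : Fin 16} (ha : Sup n A a)
    {x : ℕ} (hx : n ≤ x) : val w A (update ρ 16 x) (.arr a (vr 16)) = 0 :=
  val_arr_of_sup ha (by rw [AlgW_v16]; exact hx)

theorem AlgW_mul {ρ : Fin 20 → ℕ} {A : Fin 16 → ℕ → Bool} (s t : T) :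
    val w A ρ (.mul s t) = val w A ρ s * val w A ρ t := rfl

theorem AlgW_add {ρ : Fin 20 → ℕ} {A : Fin 16 → ℕ → Bool} (s t : T) :
    val w A ρ (.add s t) = val w A ρ s + val w A ρ t := rfl

theorem AlgW_lt {ρ : Fin 20 → ℕ} {A : Fin 16 → ℕ → Bool} (s t : T) :
    val w A ρ (.lt s t) = if val w A ρ s < val w A ρ t then 1 else 0 := rfl

theorem AlgW_num {ρ : Fin 20 → ℕ} {A : Fin 16 → ℕ → Bool} (c : ℕ) :
    val w A ρ (.num c : T) = c := rfl

theorem AlgW_deg (h : Enc G w) {ρ : Fin 20 → ℕ} {A : Fin 16 → ℕ → Bool} {b : Fin 16}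
    (hb : Sup n A b) (v : Fin n) :
    ((val w A (update ρ 16 v.val) (degT (vr 16) b) : ℕ) : ℤ) = N G {v} (fs n A b) := by
  apply val_degT h hb
  intro y
  show update (update ρ 16 v.val) 18 y 16 = v.val
  rw [Function.update_of_ne (by decide), Function.update_self]

/-- the step `Bg` -/
theorem AlgW_bg (h : Enc G w) (ρ : Fin 20 → ℕ) (A : Fin 16 → ℕ → Bool) (a b : Fin 16)
    (hb : Sup n A b) :
    AlgW_Stp n A (run w (.upd a 16 (.mul (.arr b (vr 16))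
      (.lt (NT b b) (tauT (degT (vr 16) b))))) ρ A) a (Bg G (ρ 0) (fs n A b)) := by
  classical
  apply AlgW_stp h
  · intro v
    have hd := AlgW_deg h (ρ := ρ) hb v
    have hN := val_NT h (ρ := update ρ 16 v.val) hb hb
    rw [← two_E] at hN
    have h0 : update ρ 16 v.val 0 = ρ 0 := Function.update_of_ne (by decide) _ _
    rw [AlgW_mul, AlgW_arr h, AlgW_lt, val_tauT, h0]
    unfold Bg
    rw [mem_filter, ← hd]
    by_cases hv : v ∈ fs n A b
    · by_cases hlt : val w A (update ρ 16 v.val) (NT b b) <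
        2 * (val w A (update ρ 16 v.val) (degT (vr 16) b) + ρ 0) + 1
      · rw [if_pos hv, if_pos hlt]
        simp only [hv, true_and, mul_one, zero_lt_one, true_iff]
        omega
      · rw [if_pos hv, if_neg hlt]
        simp only [hv, true_and, mul_zero, lt_irrefl, false_iff]
        omega
    · rw [if_neg hv]
      simp [hv]
  · intro x hx
    rw [AlgW_mul, AlgW_arr0 hb hx, zero_mul]

theorem AlgW_N_compl (v : Fin n) (X : Finset (Fin n)) :
    N G {v} univ = N G {v} X + N G {v} Xᶜ := by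
  classical
  unfold N
  rw [Finset.sum_singleton, Finset.sum_singleton, Finset.sum_singleton,
    ← Finset.sum_add_sum_compl X]

/-- the step `Zr` -/
theorem AlgW_zr (h : Enc G w) (ρ : Fin 20 → ℕ) (A : Fin 16 → ℕ → Bool) (a b c : Fin 16) (τ : ℤ)
    (h0 : fs n A 0 = univ) (s0 : Sup n A 0) (hb : Sup n A b) (hc : Sup n A c)
    (hbc : fs n A c = Bg G τ (fs n A b)) :
    AlgW_Stp n A (run w (.upd a 16 (.mul (.arr c (vr 16))
      (eqT (degT (vr 16) 0) (.mul (.num 2) (degT (vr 16) b))))) ρ A) a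
      (Zr G τ (fs n A b)) := by
  classical
  apply AlgW_stp h
  · intro v
    have hd := AlgW_deg h (ρ := ρ) hb v
    have hd0 := AlgW_deg h (ρ := ρ) s0 v
    rw [h0, AlgW_N_compl v (fs n A b)] at hd0
    rw [AlgW_mul, AlgW_arr h, val_eqT, AlgW_mul, AlgW_num, hbc]
    unfold Zr
    rw [mem_filter]
    by_cases hv : v ∈ Bg G τ (fs n A b)
    · have hvb : v ∈ fs n A b := by
        unfold Bg at hv
        exact (mem_filter.1 hv).1
      have hal : al G (fs n A b) v = N G {v} (fs n A b)ᶜ - N G {v} (fs n A b) := by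
        unfold al
        rw [if_pos hvb]
      rw [hal]
      by_cases he : val w A (update ρ 16 v.val) (degT (vr 16) 0) =
        2 * val w A (update ρ 16 v.val) (degT (vr 16) b)
      · rw [if_pos hv, if_pos he]
        simp only [hv, true_and, mul_one, zero_lt_one, true_iff]
        omega
      · rw [if_pos hv, if_neg he]
        simp only [hv, true_and, mul_zero, lt_irrefl, false_iff]
        omega
    · rw [if_neg hv]
      simp [hv]
  · intro x hx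
    rw [AlgW_mul, AlgW_arr0 hc hx, zero_mul]

/-- step 1 -/
theorem AlgW_1 (h : Enc G w) (ρ : Fin 20 → ℕ) (A : Fin 16 → ℕ → Bool)
    (h0 : fs n A 0 = univ) (s0 : Sup n A 0) :
    AlgW_Stp n A (run w (.upd 11 16 (.mul (.arr 0 (vr 16)) (.add (.mul (notT (vr 2))
      (.arr 1 (vr 16))) (.mul (notT (notT (vr 2))) (notT (.arr 1 (vr 16))))))) ρ A) 11
      (if ρ 2 = 0 then fs n A 1 else (fs n A 1)ᶜ) := by
  apply AlgW_stp h
  · intro v
    rw [AlgW_mul, AlgW_arr h, AlgW_add, AlgW_mul, AlgW_mul, val_notT, val_notT, val_notT,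
      val_notT, AlgW_arr h, AlgW_vi v.val (show (2 : Fin 20) ≠ 16 by decide), h0]
    by_cases h2 : ρ 2 = 0 <;> by_cases hv : v ∈ fs n A 1 <;> simp [h2, hv]
  · intro x hx
    rw [AlgW_mul, AlgW_arr0 s0 hx, zero_mul]

/-- step 2 -/
theorem AlgW_2 (h : Enc G w) (ρ : Fin 20 → ℕ) (A : Fin 16 → ℕ → Bool)
    (h0 : fs n A 0 = univ) (s0 : Sup n A 0) :
    AlgW_Stp n A (run w (.upd 3 16 (.mul (.arr 0 (vr 16)) (.add (.mul (notT (vr 3))
      (.arr 11 (vr 16))) (.mul (notT (notT (vr 3))) (.add (notT (.arr 11 (vr 16)))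
        (eqT (vr 16) (vr 4))))))) ρ A) 3
      (if ρ 3 = 0 then fs n A 11 else
        univ.filter fun v => v ∉ fs n A 11 ∨ v.val = ρ 4) := by
  apply AlgW_stp h
  · intro v
    rw [AlgW_mul, AlgW_arr h, AlgW_add, AlgW_mul, AlgW_mul, AlgW_add, val_notT, val_notT,
      val_notT, val_notT, AlgW_arr h, val_eqT, AlgW_v16,
      AlgW_vi v.val (show (3 : Fin 20) ≠ 16 by decide),
      AlgW_vi v.val (show (4 : Fin 20) ≠ 16 by decide), h0]
    by_cases h3 : ρ 3 = 0 <;> by_cases hv : v ∈ fs n A 11 <;> by_cases h4 : v.val = ρ 4 <;>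
      simp [h3, hv, h4]
  · intro x hx
    rw [AlgW_mul, AlgW_arr0 s0 hx, zero_mul]

/-- step 3 -/
theorem AlgW_3 (h : Enc G w) (ρ : Fin 20 → ℕ) (A : Fin 16 → ℕ → Bool)
    (h0 : fs n A 0 = univ) (s0 : Sup n A 0) :
    AlgW_Stp n A (run w (.upd 4 16 (.mul (.arr 0 (vr 16)) (.add (notT (.arr 3 (vr 16)))
      (eqT (vr 16) (vr 4))))) ρ A) 4
      (univ.filter fun v => v ∉ fs n A 3 ∨ v.val = ρ 4) := by
  apply AlgW_stp h
  · intro v
    rw [AlgW_mul, AlgW_arr h, AlgW_add, val_notT, AlgW_arr h, val_eqT, AlgW_v16,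
      AlgW_vi v.val (show (4 : Fin 20) ≠ 16 by decide), h0]
    by_cases hv : v ∈ fs n A 3 <;> by_cases h4 : v.val = ρ 4 <;> simp [hv, h4]
  · intro x hx
    rw [AlgW_mul, AlgW_arr0 s0 hx, zero_mul]

/-- step 8 -/
theorem AlgW_8 (h : Enc G w) (ρ : Fin 20 → ℕ) (A : Fin 16 → ℕ → Bool) (s8 : Sup n A 8) :
    AlgW_Stp n A (run w (.upd 9 16 (.mul (.arr 8 (vr 16)) (notT (eqT (vr 16) (vr 4))))) ρ A) 9
      ((fs n A 8).filter fun v => v.val ≠ ρ 4) := by
  apply AlgW_stp h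
  · intro v
    rw [AlgW_mul, AlgW_arr h, val_notT, val_eqT, AlgW_v16,
      AlgW_vi v.val (show (4 : Fin 20) ≠ 16 by decide)]
    by_cases hv : v ∈ fs n A 8 <;> by_cases h4 : v.val = ρ 4 <;> simp [hv, h4]
  · intro x hx
    rw [AlgW_mul, AlgW_arr0 s8 hx, zero_mul]

theorem run_set (h : Enc G w) {ρ : Fin 20 → ℕ} {A : Fin 16 → ℕ → Bool} (hA : Inv n A) :
    Inv n (run w pSet ρ A) ∧ fs n (run w pSet ρ A) 1 = fs n A 1 ∧
      fs n (run w pSet ρ A) 2 = fs n A 2 ∧ Sups n (run w pSet ρ A) ∧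
      ∀ u : Fin n, ρ 4 = u.val →
        SetUp G (Wv (ρ 2) (ρ 3) (ρ 4) (fs n A 1)) u (ρ 0) (run w pSet ρ A) := by
  obtain ⟨A1, hA1⟩ : ∃ A1, A1 = run w (.upd 11 16 (.mul (.arr 0 (vr 16)) (.add
    (.mul (notT (vr 2)) (.arr 1 (vr 16)))
    (.mul (notT (notT (vr 2))) (notT (.arr 1 (vr 16)))))) : P) ρ A := ⟨_, rfl⟩
  obtain ⟨A2, hA2⟩ : ∃ A2, A2 = run w (.upd 3 16 (.mul (.arr 0 (vr 16)) (.add
    (.mul (notT (vr 3)) (.arr 11 (vr 16)))
    (.mul (notT (notT (vr 3))) (.add (notT (.arr 11 (vr 16))) (eqT (vr 16) (vr 4)))))) : P)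
      ρ A1 := ⟨_, rfl⟩
  obtain ⟨A3, hA3⟩ : ∃ A3, A3 = run w (.upd 4 16 (.mul (.arr 0 (vr 16))
    (.add (notT (.arr 3 (vr 16))) (eqT (vr 16) (vr 4)))) : P) ρ A2 := ⟨_, rfl⟩
  obtain ⟨A4, hA4⟩ : ∃ A4, A4 = run w (.upd 5 16 (.mul (.arr 3 (vr 16))
    (.lt (NT 3 3) (tauT (degT (vr 16) 3)))) : P) ρ A3 := ⟨_, rfl⟩
  obtain ⟨A5, hA5⟩ : ∃ A5, A5 = run w (.upd 6 16 (.mul (.arr 5 (vr 16))
    (eqT (degT (vr 16) 0) (.mul (.num 2) (degT (vr 16) 3)))) : P) ρ A4 := ⟨_, rfl⟩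
  obtain ⟨A6, hA6⟩ : ∃ A6, A6 = run w (.upd 7 16 (.mul (.arr 4 (vr 16))
    (.lt (NT 4 4) (tauT (degT (vr 16) 4)))) : P) ρ A5 := ⟨_, rfl⟩
  obtain ⟨A7, hA7⟩ : ∃ A7, A7 = run w (.upd 8 16 (.mul (.arr 7 (vr 16))
    (eqT (degT (vr 16) 0) (.mul (.num 2) (degT (vr 16) 4)))) : P) ρ A6 := ⟨_, rfl⟩
  obtain ⟨A8, hA8⟩ : ∃ A8, A8 = run w (.upd 9 16 (.mul (.arr 8 (vr 16))
    (notT (eqT (vr 16) (vr 4)))) : P) ρ A7 := ⟨_, rfl⟩
  have hrun : run w pSet ρ A = A8 := by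
    rw [hA8, hA7, hA6, hA5, hA4, hA3, hA2, hA1]
    rfl
  rw [hrun]
  have p1 := AlgW_1 h ρ A hA.all hA.s0
  rw [← hA1] at p1
  have z1 : fs n A1 0 = univ := by rw [p1.ne 0 (by decide), hA.all]
  have t1 : Sup n A1 0 := p1.nes 0 (by decide) hA.s0
  have p2 := AlgW_2 h ρ A1 z1 t1
  rw [← hA2] at p2
  have z2 : fs n A2 0 = univ := by rw [p2.ne 0 (by decide), z1]
  have t2 : Sup n A2 0 := p2.nes 0 (by decide) t1
  have p3 := AlgW_3 h ρ A2 z2 t2
  rw [← hA3] at p3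
  have z3 : fs n A3 0 = univ := by rw [p3.ne 0 (by decide), z2]
  have t3 : Sup n A3 0 := p3.nes 0 (by decide) t2
  have u3 : Sup n A3 3 := p3.nes 3 (by decide) p2.sup
  have p4 := AlgW_bg h ρ A3 5 3 u3
  rw [← hA4] at p4
  have z4 : fs n A4 0 = univ := by rw [p4.ne 0 (by decide), z3]
  have t4 : Sup n A4 0 := p4.nes 0 (by decide) t3
  have u4 : Sup n A4 3 := p4.nes 3 (by decide) u3
  have e4 : fs n A4 5 = Bg G (ρ 0) (fs n A4 3) := by
    rw [p4.eq, p4.ne 3 (by decide)]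
  have p5 := AlgW_zr h ρ A4 6 3 5 (ρ 0) z4 t4 u4 p4.sup e4
  rw [← hA5] at p5
  have z5 : fs n A5 0 = univ := by rw [p5.ne 0 (by decide), z4]
  have t5 : Sup n A5 0 := p5.nes 0 (by decide) t4
  have v5 : Sup n A5 4 := p5.nes 4 (by decide) (p4.nes 4 (by decide) p3.sup)
  have p6 := AlgW_bg h ρ A5 7 4 v5
  rw [← hA6] at p6
  have z6 : fs n A6 0 = univ := by rw [p6.ne 0 (by decide), z5]
  have t6 : Sup n A6 0 := p6.nes 0 (by decide) t5
  have v6 : Sup n A6 4 := p6.nes 4 (by decide) v5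
  have e6 : fs n A6 7 = Bg G (ρ 0) (fs n A6 4) := by
    rw [p6.eq, p6.ne 4 (by decide)]
  have p7 := AlgW_zr h ρ A6 8 4 7 (ρ 0) z6 t6 v6 p6.sup e6
  rw [← hA7] at p7
  have z7 : fs n A7 0 = univ := by rw [p7.ne 0 (by decide), z6]
  have t7 : Sup n A7 0 := p7.nes 0 (by decide) t6
  have p8 := AlgW_8 h ρ A7 p7.sup
  rw [← hA8] at p8
  have keep : ∀ b : Fin 16, b = 0 ∨ b = 1 ∨ b = 2 → fs n A8 b = fs n A b := by
    intro b hb
    have hne : ∀ c : Fin 16, c = 11 ∨ c = 3 ∨ c = 4 ∨ c = 5 ∨ c = 6 ∨ c = 7 ∨ c = 8 ∨ c = 9 →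
        b ≠ c := by
      intro c hc
      rcases hb with rfl | rfl | rfl <;>
        rcases hc with rfl | rfl | rfl | rfl | rfl | rfl | rfl | rfl <;> decide
    rw [p8.ne b (hne 9 (by simp)), p7.ne b (hne 8 (by simp)), p6.ne b (hne 7 (by simp)),
      p5.ne b (hne 6 (by simp)), p4.ne b (hne 5 (by simp)), p3.ne b (hne 4 (by simp)),
      p2.ne b (hne 3 (by simp)), p1.ne b (hne 11 (by simp))]
  have keeps : ∀ b : Fin 16, b = 0 ∨ b = 1 ∨ b = 2 → Sup n A b → Sup n A8 b := by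
    intro b hb hs
    have hne : ∀ c : Fin 16, c = 11 ∨ c = 3 ∨ c = 4 ∨ c = 5 ∨ c = 6 ∨ c = 7 ∨ c = 8 ∨ c = 9 →
        b ≠ c := by
      intro c hc
      rcases hb with rfl | rfl | rfl <;>
        rcases hc with rfl | rfl | rfl | rfl | rfl | rfl | rfl | rfl <;> decide
    exact p8.nes b (hne 9 (by simp)) (p7.nes b (hne 8 (by simp)) (p6.nes b (hne 7 (by simp))
      (p5.nes b (hne 6 (by simp)) (p4.nes b (hne 5 (by simp)) (p3.nes b (hne 4 (by simp))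
      (p2.nes b (hne 3 (by simp)) (p1.nes b (hne 11 (by simp)) hs)))))))
  have s3 : Sup n A8 3 := p8.nes 3 (by decide) (p7.nes 3 (by decide) (p6.nes 3 (by decide)
    (p5.nes 3 (by decide) u4)))
  have s4 : Sup n A8 4 := p8.nes 4 (by decide) (p7.nes 4 (by decide) v6)
  have s5 : Sup n A8 5 := p8.nes 5 (by decide) (p7.nes 5 (by decide) (p6.nes 5 (by decide)
    (p5.nes 5 (by decide) p4.sup)))
  have s6 : Sup n A8 6 := p8.nes 6 (by decide) (p7.nes 6 (by decide) (p6.nes 6 (by decide) p5.sup))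
  have s7 : Sup n A8 7 := p8.nes 7 (by decide) (p7.nes 7 (by decide) p6.sup)
  have s8 : Sup n A8 8 := p8.nes 8 (by decide) p7.sup
  have s9 : Sup n A8 9 := p8.sup
  refine ⟨⟨?_, keeps 0 (by simp) hA.s0, keeps 1 (by simp) hA.s1, keeps 2 (by simp) hA.s2⟩,
    keep 1 (by simp), keep 2 (by simp), ?_, ?_⟩
  · rw [keep 0 (by simp), hA.all]
  · intro a ha1 ha2
    have : a = 3 ∨ a = 4 ∨ a = 5 ∨ a = 6 ∨ a = 7 ∨ a = 8 ∨ a = 9 := by
      revert a
      decide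
    rcases this with rfl | rfl | rfl | rfl | rfl | rfl | rfl
    · exact s3
    · exact s4
    · exact s5
    · exact s6
    · exact s7
    · exact s8
    · exact s9
  · intro u hu
    have e11 : fs n A1 11 = if ρ 2 = 0 then fs n A 1 else (fs n A 1)ᶜ := p1.eq
    have w2 : fs n A2 3 = Wv (ρ 2) (ρ 3) (ρ 4) (fs n A 1) := by
      rw [p2.eq, e11]
      rfl
    have w3 : fs n A3 3 = Wv (ρ 2) (ρ 3) (ρ 4) (fs n A 1) := by
      rw [p3.ne 3 (by decide), w2]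
    have w4 : fs n A4 3 = Wv (ρ 2) (ρ 3) (ρ 4) (fs n A 1) := by
      rw [p4.ne 3 (by decide), w3]
    have x3 : fs n A3 4 = sw (Wv (ρ 2) (ρ 3) (ρ 4) (fs n A 1)) u := by
      rw [p3.eq, w2]
      ext v
      unfold sw
      rw [mem_filter, mem_insert, mem_compl, hu]
      have : v.val = u.val ↔ v = u := Fin.val_inj
      rw [this]
      simp only [mem_univ, true_and]
      exact or_comm
    have x5 : fs n A5 4 = sw (Wv (ρ 2) (ρ 3) (ρ 4) (fs n A 1)) u := by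
      rw [p5.ne 4 (by decide), p4.ne 4 (by decide), x3]
    have x6 : fs n A6 4 = sw (Wv (ρ 2) (ρ 3) (ρ 4) (fs n A 1)) u := by
      rw [p6.ne 4 (by decide), x5]
    refine ⟨?_, ?_, ?_, ?_, ?_, ?_, ?_⟩
    · rw [p8.ne 3 (by decide), p7.ne 3 (by decide), p6.ne 3 (by decide), p5.ne 3 (by decide), w4]
    · rw [p8.ne 4 (by decide), p7.ne 4 (by decide), x6]
    · rw [p8.ne 5 (by decide), p7.ne 5 (by decide), p6.ne 5 (by decide), p5.ne 5 (by decide),
        p4.eq, w3]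
    · rw [p8.ne 6 (by decide), p7.ne 6 (by decide), p6.ne 6 (by decide), p5.eq, w4]
    · rw [p8.ne 7 (by decide), p7.ne 7 (by decide), p6.eq, x5]
    · rw [p8.ne 8 (by decide), p7.eq, x6]
    · rw [p8.eq, p7.eq, x6]
      unfold Zp
      ext v
      rw [mem_filter, mem_erase, hu]
      have : v.val = u.val ↔ v = u := Fin.val_inj
      rw [ne_eq, this]
      exact and_comm

end Pool.Agent.helper81.JB
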