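import Pool.Agent.helper81.JB.A2

/-!
# JB-B: first consequences of a stuck state

`x = E G U - τ ≥ 1`, `y = τ - E G Uᶜ`, `B = Bg G τ U`.

* `y_ge`: `0 ≤ ∑_{U} al = y - L - 3 x` (`sum_al_U`, `loc.one`).
* `deg_out`: for `v ∈ B`: `E (U.erase v) = τ + x - N {v} U ≤ τ`, so by `mv`
  `τ + 1 ≤ E (insert v Uᶜ) = τ - y + N {v} Uᶜ`.
* `E_Bg`: suppose `E B ≤ τ`. Let `S` be from `mn`, `g = E U - E (U \ S)`, so `g ≥ x` (`E (U \ S) ≤ τ`)
  and `g = N S (U \ S) + E S` (`E_sdiff`).  For `v ∈ S`: `E (U \ S.erase v) = E (U \ S) + N {v} (U \ S)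
  ≥ τ + 1` gives `N {v} (U \ S) ≥ g - x + 1 ≥ 1`.  `S` is not empty (`E U > τ`). `S` is not `{v}`: then
  `v ∉ B`, `N {v} U < x` and `E (U \ {v}) = τ + x - N {v} U > τ`. So `S.card ≥ 2` and
  `N S (U \ S) ≥ 2 (g - x + 1)` (sum over two of the vertices, the others give `≥ 0`).
  `E (Uᶜ ∪ S) - E Uᶜ = E S + N S Uᶜ` and `N S Uᶜ = ∑_S al + N S U`, `N S U = N S (U \ S) + 2 E S`.
  So `E (Uᶜ ∪ S) - E Uᶜ = ∑_S al + 3 g - 2 N S (U \ S) ≤ ∑_U al + 3 g - 4 (g - x + 1)
  ≤ (y - L - 3 x) + 4 x - 4 - g ≤ y - L - 4`, and `E (Uᶜ ∪ S) ≤ τ - L - 4 ≤ τ`, contradiction with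
  the last part of `mn`.
-/

set_option autoImplicit false

open Finset

namespace Pool.Agent.helper81.JB

variable {V : Type} [Fintype V] [DecidableEq V] {G : SimpleGraph V} {τ L : ℤ} {U : Finset V}

theorem y_ge (h : Stk G τ L U) : L + 3 * (E G U - τ) ≤ τ - E G Uᶜ := by
  have h1 := sum_al_U G (U := U) h.tot
  have h2 : 0 ≤ ∑ v ∈ U, al G U v := Finset.sum_nonneg fun v _ => h.loc.one v
  linarith

theorem deg_out (h : Stk G τ L U) {v : V} (hv : v ∈ Bg G τ U) :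
    (τ - E G Uᶜ) + 1 ≤ N G {v} Uᶜ := by
  unfold Bg at hv
  rw [Finset.mem_filter] at hv
  have h1 := E_erase G hv.1
  have h2 := h.mv v hv.1 (by linarith [hv.2])
  have h3 : v ∉ Uᶜ := by simpa using hv.1
  rw [E_insert G h3] at h2
  linarith

theorem E_Bg (h : Stk G τ L U) (hL : -4 ≤ L) : τ + 1 ≤ E G (Bg G τ U) := by
  by_contra hcon
  have hB : E G (Bg G τ U) ≤ τ := by omega
  obtain ⟨S, hSU, hE, hS, hb⟩ := h.mn hB
  have hSU' : S ⊆ U := hSU.trans sdiff_subset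
  -- `g = E U - E (U \ S)`
  have hg := E_sdiff G hSU'
  have hdeg : ∀ v ∈ S, τ + 1 - E G (U \ S) ≤ N G {v} (U \ S) := by
    intro v hv
    have h1 : U \ S.erase v = insert v (U \ S) := by
      ext z
      have hz := hSU' hv
      simp only [mem_sdiff, mem_erase, mem_insert, not_and]
      constructor
      · rintro ⟨h1, h2⟩
        by_cases hzv : z = v
        · exact Or.inl hzv
        · exact Or.inr ⟨h1, h2 hzv⟩
      · rintro (rfl | ⟨h1, h2⟩)
        · exact ⟨hz, fun h => absurd rfl h⟩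
        · exact ⟨h1, fun _ => h2⟩
    have h2 := hS v hv
    have h3 : v ∉ U \ S := fun hh => (mem_sdiff.1 hh).2 hv
    rw [h1, E_insert G h3] at h2
    linarith
  have hcard : 2 ≤ S.card := by
    by_contra hlt
    have hlt' : S.card = 0 ∨ S.card = 1 := by omega
    rcases hlt' with h0 | h1
    · rw [Finset.card_eq_zero] at h0
      rw [h0, Finset.sdiff_empty] at hE
      have := h.big
      omega
    · rw [Finset.card_eq_one] at h1
      obtain ⟨v, rfl⟩ := h1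
      have hv : v ∈ U \ Bg G τ U := hSU (Finset.mem_singleton_self v)
      rw [mem_sdiff] at hv
      have h2 : ¬ E G U - τ ≤ N G {v} U := by
        intro hle
        apply hv.2
        unfold Bg
        rw [Finset.mem_filter]
        exact ⟨hv.1, hle⟩
      have h3 := E_erase G hv.1
      rw [Finset.erase_eq] at h3
      omega
  have hN : 2 * (τ + 1 - E G (U \ S)) ≤ N G S (U \ S) := by
    have h1 : (S.card : ℤ) * (τ + 1 - E G (U \ S)) ≤ N G S (U \ S) := by
      rw [N_sum G S (U \ S), ← nsmul_eq_mul]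
      exact Finset.card_nsmul_le_sum S _ _ hdeg
    have h2 : (2 : ℤ) ≤ S.card := by exact_mod_cast hcard
    nlinarith
  have hd : Disjoint Uᶜ S := by
    rw [Finset.disjoint_left]
    intro v hv hvS
    rw [mem_compl] at hv
    exact hv (hSU' hvS)
  have hu := E_union G hd
  rw [N_comm G Uᶜ S] at hu
  have hal := sum_al_sub G hSU'
  have hNS : N G S (U \ S) = N G S U - N G S S := N_sdiff_right G hSU' S
  have h2E := two_E G S
  have hle : ∑ v ∈ S, al G U v ≤ ∑ v ∈ U, al G U v :=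
    Finset.sum_le_sum_of_subset_of_nonneg hSU' fun v _ _ => h.loc.one v
  have htot := sum_al_U G (U := U) h.tot
  linarith

theorem Bg_subset : Bg G τ U ⊆ U := by
  unfold Bg
  exact Finset.filter_subset _ _

theorem Zr_subset : Zr G τ U ⊆ Bg G τ U := by
  unfold Zr
  exact Finset.filter_subset _ _

theorem mem_Zr {v : V} : v ∈ Zr G τ U ↔ v ∈ Bg G τ U ∧ al G U v = 0 := by
  unfold Zr
  exact Finset.mem_filter

theorem mem_S1 (h : Loc G U) {v : V} : v ∈ S1 G τ U ↔ v ∈ Bg G τ U ∧ 1 ≤ al G U v := by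
  unfold S1
  rw [mem_sdiff, mem_Zr]
  have h1 := h.one v
  constructor
  · rintro ⟨h2, h3⟩
    refine ⟨h2, ?_⟩
    have h4 : al G U v ≠ 0 := fun h5 => h3 ⟨h2, h5⟩
    omega
  · rintro ⟨h2, h3⟩
    refine ⟨h2, ?_⟩
    rintro ⟨_, h4⟩
    omega

end Pool.Agent.helper81.JB
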