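import Pool.Agent.helper81.JB.B

/-!
# JB-C: numerical consequences, and vertices of `Bg` with small `al` are adjacent

`x = E G U - τ ≥ 1`, `y = τ - E G Uᶜ`, `B = Bg G τ U`.

* `card_mul_le`: `B.card * (y + 1) ≤ N B Uᶜ ≤ N U Uᶜ = 2 τ - L - x + y` (`deg_out`, `N_sum`, `cut_eq`).
* `r_side`: `2 τ = k (k + 1)`, `L = k - r`, `r ≤ k`. From `E_Bg` and `E_le_choose`:
  `B.card (B.card - 1) ≥ 2 τ + 2 > (k + 1) k`, so `B.card ≥ k + 2`. Then (if `y + 1 ≥ 0`, otherwise the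
  claim is clear; in fact `y ≥ L + 3 ≥ 3`) `(k + 2) (y + 1) ≤ k (k + 1) - L - x + y`, so
  `(k + 1) y ≤ k ^ 2 - 2 - L - x < (k + 1) (k - 1)`, `y ≤ k - 2`.
* `s_side`: `2 τ = k (k + 1) - 2 s`, `L = k - 3 s`, `s ≤ k`: `B.card (B.card - 1) ≥ k (k + 1) - 2 s + 2 >
  k (k - 1)`, so `B.card ≥ k + 1`; `k y ≤ k ^ 2 - 1 - 2 s - L - x < k ^ 2` (as `1 + 2 s + L + x > 0`),
  `y ≤ k - 1`.
* `adj01`: let `v, w ∈ B` be different and not adjacent with `al v + al w ≤ 1`; say `al v = 0` (both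
  are `≥ 0`) and `al w ≤ 1`.  For `c ∉ U`: `al c ≥ 2 * ind v c + ind w c`: adjacent to both:
  `three` gives `al c ≥ 3`; adjacent to `v` only: `two` gives `al c ≥ 2`; adjacent to `w` only: `two`
  gives `al c ≥ 1`; `one`.  Sum over `Uᶜ` (`sum_al_Uc`, `deg_out`):
  `3 y - L - x ≥ 2 N {v} Uᶜ + N {w} Uᶜ ≥ 3 (y + 1)`, i.e. `- L - x ≥ 3`, contradiction to
  `L ≥ -3`, `x ≥ 1`.
-/

set_option autoImplicit false

open Finset

namespace Pool.Agent.helper81.JB

variable {V : Type} [Fintype V] [DecidableEq V] {G : SimpleGraph V} {τ L : ℤ} {U : Finset V}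

theorem card_mul_le (h : Stk G τ L U) :
    ((Bg G τ U).card : ℤ) * ((τ - E G Uᶜ) + 1) ≤ 2 * τ - L - (E G U - τ) + (τ - E G Uᶜ) := by
  have h1 : ((Bg G τ U).card : ℤ) * ((τ - E G Uᶜ) + 1) ≤ ∑ v ∈ Bg G τ U, N G {v} Uᶜ := by
    have := Finset.card_nsmul_le_sum (Bg G τ U) (fun v => N G {v} Uᶜ) ((τ - E G Uᶜ) + 1)
      fun v hv => deg_out h hv
    rwa [nsmul_eq_mul] at this
  rw [← N_sum] at h1
  have h2 : N G (Bg G τ U) Uᶜ ≤ N G U Uᶜ := N_mono G Bg_subset (Finset.Subset.refl _)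
  rw [cut_eq G h.tot] at h2
  exact h1.trans h2

theorem r_side (h : Stk G τ L U) {k r : ℤ} (hk : 0 ≤ k) (hr : 0 ≤ r) (hrk : r ≤ k)
    (hτ : 2 * τ = k * (k + 1)) (hL : L = k - r) :
    k + 2 ≤ ((Bg G τ U).card : ℤ) ∧ τ - E G Uᶜ ≤ k - 2 := by
  have h1 := E_Bg h (by linarith)
  have h2 := E_le_choose G (Bg G τ U)
  have h3 := card_mul_le h
  have h4 := y_ge h
  have h5 := h.big
  have hc0 : (0 : ℤ) ≤ ((Bg G τ U).card : ℤ) := by positivity
  generalize ((Bg G τ U).card : ℤ) = c at h2 h3 hc0 ⊢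
  have hc : k + 2 ≤ c := by
    by_contra hcon
    have h6 : 0 ≤ (k + 1 - c) * (k + c) := mul_nonneg (by linarith [Int.not_le.1 hcon])
      (by linarith)
    nlinarith
  refine ⟨hc, ?_⟩
  generalize E G U = eu at h3 h4 h5
  obtain ⟨y, hy⟩ : ∃ y, y = τ - E G Uᶜ := ⟨_, rfl⟩
  rw [← hy] at h3 h4 ⊢
  by_contra hcon
  have hcon' : k - 1 ≤ y := by linarith [Int.not_le.1 hcon]
  have h7 : (k + 2) * (y + 1) ≤ c * (y + 1) := mul_le_mul_of_nonneg_right hc (by linarith)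
  have h8 : (k + 1) * (k - 1) ≤ (k + 1) * y := mul_le_mul_of_nonneg_left hcon' (by linarith)
  nlinarith

theorem s_side (h : Stk G τ L U) {k s : ℤ} (hk : 0 < k) (hs : 0 ≤ s) (hsk : s ≤ k)
    (hτ : 2 * τ = k * (k + 1) - 2 * s) (hL : L = k - 3 * s) (hL4 : -4 ≤ L) :
    k + 1 ≤ ((Bg G τ U).card : ℤ) ∧ τ - E G Uᶜ ≤ k - 1 := by
  have h1 := E_Bg h hL4
  have h2 := E_le_choose G (Bg G τ U)
  have h3 := card_mul_le h
  have h4 := y_ge h
  have h5 := h.big
  have hc0 : (0 : ℤ) ≤ ((Bg G τ U).card : ℤ) := by positivity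
  generalize ((Bg G τ U).card : ℤ) = c at h2 h3 hc0 ⊢
  have hc : k + 1 ≤ c := by
    by_contra hcon
    have h6 : 0 ≤ (k - c) * (k + c - 1) := mul_nonneg (by linarith [Int.not_le.1 hcon])
      (by linarith)
    nlinarith
  refine ⟨hc, ?_⟩
  generalize E G U = eu at h3 h4 h5
  obtain ⟨y, hy⟩ : ∃ y, y = τ - E G Uᶜ := ⟨_, rfl⟩
  rw [← hy] at h3 h4 ⊢
  by_contra hcon
  have hcon' : k ≤ y := by linarith [Int.not_le.1 hcon]
  have h7 : (k + 1) * (y + 1) ≤ c * (y + 1) := mul_le_mul_of_nonneg_right hc (by linarith)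
  have h8 : k * k ≤ k * y := mul_le_mul_of_nonneg_left hcon' hk.le
  nlinarith

theorem C_adj (h : Stk G τ L U) (hL : -3 ≤ L) {v w : V} (hv : v ∈ Bg G τ U)
    (hw : w ∈ Bg G τ U) (hne : v ≠ w) (hv0 : al G U v = 0) (hw1 : al G U w ≤ 1) :
    G.Adj v w := by
  by_contra hadj
  have hvU := Bg_subset hv
  have hwU := Bg_subset hw
  have hcl : ∀ c ∈ Uᶜ, 2 * ind G v c + ind G w c ≤ al G U c := by
    intro c hc
    have hcU : c ∉ U := Finset.mem_compl.1 hc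
    by_cases h1 : G.Adj v c
    · by_cases h2 : G.Adj w c
      · rw [ind_adj G h1, ind_adj G h2]
        have := h.loc.three v hvU w hwU hne hadj c hcU h1 h2
        linarith
      · rw [ind_adj G h1, ind_not G h2]
        have := h.loc.two v hvU c hcU h1
        linarith
    · by_cases h2 : G.Adj w c
      · rw [ind_not G h1, ind_adj G h2]
        have := h.loc.two w hwU c hcU h2
        linarith
      · rw [ind_not G h1, ind_not G h2]
        have := h.loc.one c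
        linarith
  have h1 := Finset.sum_le_sum hcl
  rw [Finset.sum_add_distrib, ← Finset.mul_sum, ← N_sing_sum, ← N_sing_sum,
    sum_al_Uc G h.tot] at h1
  have h2 := deg_out h hv
  have h3 := deg_out h hw
  have h4 := h.big
  linarith

theorem adj01 (h : Stk G τ L U) (hL : -3 ≤ L) {v w : V} (hv : v ∈ Bg G τ U)
    (hw : w ∈ Bg G τ U) (hne : v ≠ w) (ha : al G U v + al G U w ≤ 1) : G.Adj v w := by
  have h1 := h.loc.one v
  have h2 := h.loc.one w
  by_cases h3 : al G U v = 0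
  · exact C_adj h hL hv hw hne h3 (by linarith)
  · have h4 : 1 ≤ al G U v := by omega
    exact (C_adj h hL hw hv hne.symm (by linarith) (by linarith)).symm

end Pool.Agent.helper81.JB
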