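import Pool.Agent.helper81.JB.D1

/-!
# JB-D1b: missing pairs between the two big sets, and edges outside of them

The notation is the one of `D1.lean` (read the doc string there for the proofs of `M2_le`, `M2_le'`,
`out_le`; they are the last items).
-/

set_option autoImplicit false

open Finset

namespace Pool.Agent.helper81.JB

variable {V : Type} [Fintype V] [DecidableEq V] {G : SimpleGraph V} {τ L R : ℤ} {U : Finset V}
  {u : V}

theorem D1b_split (hU : u ∈ U) (A : Finset V) :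
    N G A Uᶜ = N G A ((Bg G τ (sw U u)).erase u) + N G A (Uᶜ \ Bg G τ (sw U u)) := by
  have h1 : Uᶜ \ Bg G τ (sw U u) = Uᶜ \ (Bg G τ (sw U u)).erase u := by
    ext v
    simp only [mem_sdiff, mem_compl, mem_erase, not_and]
    constructor
    · rintro ⟨h2, h3⟩
      exact ⟨h2, fun _ => h3⟩
    · rintro ⟨h2, h3⟩
      refine ⟨h2, h3 ?_⟩
      rintro rfl
      exact h2 hU
  have h2 := D1_erase_subset (G := G) (τ := τ) (U := U) (u := u)
  rw [h1, N_sdiff_right G h2]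
  ring

theorem D1b_card (h : Stk G τ L U) (hL : -3 ≤ L) (hu : u ∈ Zr G τ U) :
    (((Bg G τ (sw U u)).erase u).card : ℤ) = (Bg G τ (sw U u)).card - 1 := by
  have hB2 := (mem_Zr.1 (u_mem_Zr_sw h hL hu)).1
  have h6 : ((Bg G τ (sw U u)).erase u).card + 1 = (Bg G τ (sw U u)).card :=
    Finset.card_erase_add_one hB2
  have h7 : (((Bg G τ (sw U u)).erase u).card : ℤ) + 1 = (Bg G τ (sw U u)).card := by
    exact_mod_cast h6
  linarith

theorem D1b_N_add_Mo (h : Stk G τ L U) (hL : -3 ≤ L) (hu : u ∈ Zr G τ U) {w : V}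
    (hw : w ∈ Bg G τ U) :
    N G {w} ((Bg G τ (sw U u)).erase u) + Mo G {w} ((Bg G τ (sw U u)).erase u) =
      (Bg G τ (sw U u)).card - 1 := by
  have hwU : w ∈ U := Bg_subset hw
  have h1 : w ∉ (Bg G τ (sw U u)).erase u := by
    intro h2
    have := D1_erase_subset h2
    exact (Finset.mem_compl.1 this) hwU
  rw [N_add_Mo_of_notMem G h1, D1b_card h hL hu]

theorem M2_le (h : Stk G τ L U) (h2 : Stk G τ L (sw U u)) (hL : -3 ≤ L) (hu : u ∈ Zr G τ U)
    (hy : τ - E G Uᶜ ≤ L + R - 2) {w : V} (hw : w ∈ Bg G τ U) :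
    2 * Mo G {w} ((Bg G τ (sw U u)).erase u) ≤
      R - 5 + 2 * N G {w} (Uᶜ \ Bg G τ (sw U u)) := by
  have hU : u ∈ U := Bg_subset (mem_Zr.1 hu).1
  have h3 := D1b_N_add_Mo h hL hu hw
  have h4 := deg_out h hw
  rw [D1b_split (G := G) (τ := τ) hU {w}] at h4
  have h5 := card_B2_le h h2 hL hu
  have h6 := h.big
  linarith

theorem M2_le' (h : Stk G τ L U) (h2 : Stk G τ L (sw U u)) (hL : -3 ≤ L) (hu : u ∈ Zr G τ U)
    (hle : (Bg G τ (sw U u)).card ≤ (Bg G τ U).card) {w : V} (hw : w ∈ Bg G τ U) :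
    Mo G {w} ((Bg G τ (sw U u)).erase u) ≤
      Mo G {w} (Bg G τ U) - al G U w + N G {w} (Uᶜ \ Bg G τ (sw U u)) := by
  have _ := h2
  have hU : u ∈ U := Bg_subset (mem_Zr.1 hu).1
  have hwU : w ∈ U := Bg_subset hw
  have h3 := D1b_N_add_Mo h hL hu hw
  have h4 := D1b_split (G := G) (τ := τ) hU {w}
  have h5 := al_mem G hwU
  have h6 : N G {w} (Bg G τ U) ≤ N G {w} U := N_mono G (Finset.Subset.refl _) Bg_subset
  have h7 := N_add_Mo_of_mem G hw
  have h8 : ((Bg G τ (sw U u)).card : ℤ) ≤ (Bg G τ U).card := by exact_mod_cast hle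
  linarith

theorem out_le (h : Stk G τ L U) (h2 : Stk G τ L (sw U u)) (hL : -3 ≤ L) (hu : u ∈ Zr G τ U)
    (hy' : τ - E G (sw U u)ᶜ ≤ L + R - 2) :
    E G (Uᶜ \ Bg G τ (sw U u)) +
      N G (Uᶜ \ Bg G τ (sw U u)) ((Bg G τ (sw U u)).erase u) + N G U (Uᶜ \ Bg G τ (sw U u)) ≤
      R - 5 - ∑ v ∈ Bg G τ (sw U u), al G (sw U u) v := by
  have hU : u ∈ U := Bg_subset (mem_Zr.1 hu).1
  have hB2 := (mem_Zr.1 (u_mem_Zr_sw h hL hu)).1
  have hC : Uᶜ \ Bg G τ (sw U u) = sw U u \ Bg G τ (sw U u) := by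
    have h3 : sw U u \ Bg G τ (sw U u) = insert u Uᶜ \ Bg G τ (sw U u) := rfl
    rw [h3, Finset.insert_sdiff_of_mem _ hB2]
  rw [hC]
  set W := sw U u with hW
  set B2 := Bg G τ W with hB2def
  set C := W \ B2 with hCdef
  have hsub : B2 ⊆ W := Bg_subset
  have hCW : C ⊆ W := Finset.sdiff_subset
  -- the degrees to `U`
  have e1 : ∑ v ∈ C, al G W v = N G C Wᶜ - N G C W := sum_al_sub G hCW
  have e2 : N G C Wᶜ = N G C U - N G {u} C := by
    rw [hW, sw_compl, N_erase_right G hU]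
  have e3 : ∑ v ∈ C, al G W v + ∑ v ∈ B2, al G W v = ∑ v ∈ W, al G W v := Finset.sum_sdiff hsub
  have e4 := sum_al_U G (U := W) h2.tot
  have e5 : N G C C = N G C W - N G C B2 := by
    conv_lhs => rw [hCdef]
    rw [← hCdef, hCdef, N_sdiff_right G hsub]
  have e6 : N G C (B2.erase u) = N G C B2 - N G {u} C := N_erase_right G hB2 C
  have e7 := two_E G C
  have e8 := two_E G W
  have e9 := two_E G B2
  have e10 : N G C W = N G W W - N G B2 W := by rw [hCdef, N_sdiff_left G hsub]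
  have e11 : N G C B2 = N G W B2 - N G B2 B2 := by rw [hCdef, N_sdiff_left G hsub]
  have e12 : N G W B2 = N G B2 W := N_comm G _ _
  have e13 := E_Bg h2 (by linarith)
  have e14 : N G U C = N G C U := N_comm G _ _
  have e15 := N_nonneg G C B2
  linarith

end Pool.Agent.helper81.JB
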