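import Pool.Agent.helper81.JB.A1M

/-!
# JB-D2: an abstract counting lemma (`vs_lemma`)

`Z`, `S`, `P` are disjoint sets of vertices, `a w ≥ 1` for `w ∈ S`, `s ≥ 0`, `Xn G Z w` is the set of
the vertices of `Z` not adjacent to `w`, `Cn G P T` is the set of the vertices of `P` adjacent to all
of `T`, `A = ∑_S a`.

Proof.  Let `VS` be the set of the `w ∈ S` with `a w < 2 * (Xn G Z w).card`, i.e. `q w := a w / 2 + 1 ≤
(Xn G Z w).card`, and let `D = VS.card`. Suppose `D ≥ 1`.  For `w ∈ VS` choose `X w ⊆ Xn G Z w` with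
`(X w).card = q w` from `h5`.  The vertices of `P` outside of `Cn G P (insert w (X w))` are not
adjacent to `w` or to some `z ∈ X w`, so
`P.card + 1 - q w ≤ Mo {w} P + ∑_{z ∈ X w} Mo {z} P
   ≤ (R - 5) / 2 + s w + ∑_{z ∈ X w} (Mo {z} S + s z)`
(multiply by 2 to avoid the half).  Sum over `w ∈ VS`:
* `∑_{w ∈ VS} s w + ∑_{w ∈ VS} ∑_{z ∈ X w} s z ≤ D * ∑_{S ∪ Z} s ≤ D * (R - 5 - A')`
  (`X w ⊆ Z`, `s ≥ 0`, `D ≥ 1`);
* `∑_{w ∈ VS} ∑_{z ∈ X w} Mo {z} S = ∑_{w' ∈ S} ∑_{w ∈ VS} ∑_{z ∈ X w} mis z w'`.  For `w' ∈ VS` the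
  inner double sum is at most `Q := ∑_{w ∈ VS} q w` (`mis ≤ 1`), for `w' ∈ S \ VS` it is at most
  `D * (Xn G Z w').card ≤ D * a w' / 2` (`X w ⊆ Z`).  So the sum is `≤ D * Q + (D / 2) ∑_{S \ VS} a`.
* `2 Q ≤ ∑_{VS} a + 2 D`.
Hence (doubled) `2 D (P.card + 1) - 2 Q ≤ D (R - 5) + 2 D (R - 5 - A') + 2 D Q + D ∑_{S \ VS} a`, and
with `P.card ≥ κ - A'` and `∑_{VS} a + ∑_{S \ VS} a = A`:
`2 D (κ + 1) ≤ aV + 2 D + 2 D ^ 2 + D A + 3 D (R - 5)`, where `aV = ∑_{VS} a`, and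
`1 ≤ D ≤ aV ≤ A ≤ R - 5`, so `aV ≤ D (R - 5)`, `2 D ^ 2 ≤ 2 D (R - 5)`, `D A ≤ D (R - 5)` and
`2 (κ + 1) ≤ 2 + 7 (R - 5)`, contradiction to `κ ≥ 4 R`.
-/

set_option autoImplicit false

open Finset

namespace Pool.Agent.helper81.JB

variable {V : Type} [Fintype V] [DecidableEq V] {G : SimpleGraph V}

omit [Fintype V] in
private theorem D2_mis_nonneg (G : SimpleGraph V) (a b : V) : 0 ≤ mis G a b := by
  unfold mis
  split_ifs <;> norm_num

omit [Fintype V] in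
private theorem D2_mis_le (G : SimpleGraph V) (a b : V) : mis G a b ≤ 1 := by
  unfold mis
  split_ifs <;> norm_num

omit [Fintype V] in
private theorem D2_mis_comm (G : SimpleGraph V) (a b : V) : mis G a b = mis G b a := by
  have h : (a ≠ b ∧ ¬ G.Adj a b) ↔ (b ≠ a ∧ ¬ G.Adj b a) := by rw [ne_comm, G.adj_comm]
  unfold mis
  by_cases hc : a ≠ b ∧ ¬ G.Adj a b
  · rw [if_pos hc, if_pos (h.1 hc)]
  · rw [if_neg hc, if_neg fun h' => hc (h.2 h')]

private theorem D2_count (G : SimpleGraph V) {P T : Finset V} (h : Disjoint T P) :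
    (P.card : ℤ) ≤ (Cn G P T).card + ∑ z ∈ T, Mo G {z} P := by
  classical
  have h1 : ∑ z ∈ T, Mo G {z} P = ∑ v ∈ P, ∑ z ∈ T, mis G z v := by
    rw [sum_comm]
    exact sum_congr rfl fun z _ => Mo_sing_sum G z P
  have h2 : ((Cn G P T).card : ℤ) = ∑ v ∈ P, if ∀ z ∈ T, G.Adj z v then (1 : ℤ) else 0 := by
    unfold Cn
    rw [card_filter]
    push_cast
    exact sum_congr rfl fun v _ => by congr
  have h3 : (P.card : ℤ) = ∑ v ∈ P, (1 : ℤ) := by simp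
  rw [h1, h2, h3, ← sum_add_distrib]
  refine sum_le_sum fun v hv => ?_
  by_cases hc : ∀ z ∈ T, G.Adj z v
  · rw [if_pos hc]
    have := sum_nonneg fun z (_ : z ∈ T) => D2_mis_nonneg G z v
    linarith
  · rw [if_neg hc, zero_add]
    push Not at hc
    obtain ⟨z, hz, hzv⟩ := hc
    have hne : z ≠ v := fun e => (disjoint_left.1 h hz) (e ▸ hv)
    have h4 : mis G z v = 1 := by
      unfold mis
      rw [if_pos ⟨hne, hzv⟩]
    rw [← h4]
    exact single_le_sum (f := fun z => mis G z v) (fun z _ => D2_mis_nonneg G z v) hz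

theorem vs_lemma {Z S P : Finset V} {a s : V → ℤ} {R κ A' : ℤ}
    (hZS : Disjoint Z S) (hZP : Disjoint Z P) (hSP : Disjoint S P)
    (h1 : ∀ w ∈ S, 1 ≤ a w) (hA : ∑ w ∈ S, a w ≤ R - 5)
    (h2 : κ - A' ≤ P.card) (hs : ∀ v, 0 ≤ s v)
    (hs2 : ∑ v ∈ S ∪ Z, s v ≤ R - 5 - A')
    (h3 : ∀ w ∈ S, 2 * Mo G {w} P ≤ R - 5 + 2 * s w)
    (h4 : ∀ z ∈ Z, Mo G {z} P ≤ Mo G {z} S + s z)
    (h5 : ∀ w ∈ S, a w / 2 + 1 ≤ ((Xn G Z w).card : ℤ) →
      ∃ X ⊆ Xn G Z w, (X.card : ℤ) = a w / 2 + 1 ∧ (Cn G P (insert w X)).card < X.card)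
    (h6 : 4 * R ≤ κ) :
    ∀ w ∈ S, 2 * ((Xn G Z w).card : ℤ) ≤ a w := by
  classical
  set VS : Finset V := S.filter fun w => a w < 2 * ((Xn G Z w).card : ℤ) with hVS
  by_cases hne : VS.Nonempty
  swap
  · intro w hw
    by_contra hc
    push Not at hc
    exact hne ⟨w, mem_filter.2 ⟨hw, hc⟩⟩
  exfalso
  have hVSS : VS ⊆ S := filter_subset _ _
  have hx : ∀ w ∈ VS, ∃ X ⊆ Xn G Z w, (X.card : ℤ) = a w / 2 + 1 ∧
      (Cn G P (insert w X)).card < X.card := by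
    intro w hw
    have hw' := mem_filter.1 hw
    exact h5 w hw'.1 (by omega)
  choose! X hX1 hX2 hX3 using hx
  have hXZ : ∀ w ∈ VS, X w ⊆ Z := fun w hw => (hX1 w hw).trans (filter_subset _ _)
  have hwX : ∀ w ∈ VS, w ∉ X w := fun w hw h =>
    disjoint_left.1 hZS (hXZ w hw h) (hVSS hw)
  set D : ℤ := (VS.card : ℤ) with hD
  set Q : ℤ := ∑ w ∈ VS, (a w / 2 + 1) with hQ
  set aV : ℤ := ∑ w ∈ VS, a w with haV
  set aN : ℤ := ∑ w ∈ S \ VS, a w with haN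
  have hD1 : 1 ≤ D := by
    have := hne.card_pos
    omega
  have hsplit : aV + aN = ∑ w ∈ S, a w := by
    rw [haV, haN, add_comm]
    exact sum_sdiff hVSS
  -- one vertex of `VS`
  have k1 : ∀ w ∈ VS, 2 * (P.card : ℤ) + 2 ≤ 2 * (a w / 2 + 1) + (R - 5) +
      2 * (s w + ∑ z ∈ X w, s z) + 2 * ∑ z ∈ X w, Mo G {z} S := by
    intro w hw
    have hdis : Disjoint (insert w (X w)) P := by
      rw [disjoint_insert_left]
      exact ⟨disjoint_left.1 hSP (hVSS hw), disjoint_of_subset_left (hXZ w hw) hZP⟩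
    have c1 := D2_count G hdis
    rw [sum_insert (hwX w hw)] at c1
    have c2 : ((Cn G P (insert w (X w))).card : ℤ) + 1 ≤ a w / 2 + 1 := by
      rw [← hX2 w hw]
      exact_mod_cast hX3 w hw
    have c3 := h3 w (hVSS hw)
    have c4 : ∑ z ∈ X w, Mo G {z} P ≤ ∑ z ∈ X w, Mo G {z} S + ∑ z ∈ X w, s z := by
      rw [← sum_add_distrib]
      exact sum_le_sum fun z hz => h4 z (hXZ w hw hz)
    linarith
  have k2 := sum_le_sum k1
  rw [sum_const, nsmul_eq_mul, sum_add_distrib, sum_add_distrib, sum_add_distrib, sum_const,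
    nsmul_eq_mul, ← mul_sum, ← mul_sum, ← mul_sum] at k2
  -- the sum of `s`
  have k3 : ∑ w ∈ VS, (s w + ∑ z ∈ X w, s z) ≤ D * (R - 5 - A') := by
    have e : ∀ w ∈ VS, s w + ∑ z ∈ X w, s z ≤ R - 5 - A' := by
      intro w hw
      refine le_trans ?_ hs2
      rw [← sum_insert (f := s) (hwX w hw)]
      refine sum_le_sum_of_subset_of_nonneg ?_ fun v _ _ => hs v
      rw [insert_subset_iff]
      exact ⟨mem_union_left _ (hVSS hw), (hXZ w hw).trans subset_union_right⟩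
    have := sum_le_sum e
    rwa [sum_const, nsmul_eq_mul] at this
  -- the double counting
  have k4 : 2 * ∑ w ∈ VS, ∑ z ∈ X w, Mo G {z} S ≤ 2 * D * Q + D * aN := by
    have e1 : ∑ w ∈ VS, ∑ z ∈ X w, Mo G {z} S =
        ∑ w' ∈ S, ∑ w ∈ VS, ∑ z ∈ X w, mis G z w' := by
      rw [sum_comm]
      refine sum_congr rfl fun w _ => ?_
      rw [sum_comm]
      exact sum_congr rfl fun z _ => Mo_sing_sum G z S
    have e2 : ∑ w' ∈ VS, ∑ w ∈ VS, ∑ z ∈ X w, mis G z w' ≤ D * Q := by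
      have f : ∀ w' ∈ VS, ∑ w ∈ VS, ∑ z ∈ X w, mis G z w' ≤ Q := by
        intro w' _
        refine sum_le_sum fun w hw => ?_
        rw [← hX2 w hw]
        calc ∑ z ∈ X w, mis G z w' ≤ ∑ z ∈ X w, (1 : ℤ) :=
              sum_le_sum fun z _ => D2_mis_le G z w'
          _ = ((X w).card : ℤ) := by simp
      have := sum_le_sum f
      rwa [sum_const, nsmul_eq_mul] at this
    have e3 : 2 * ∑ w' ∈ S \ VS, ∑ w ∈ VS, ∑ z ∈ X w, mis G z w' ≤ D * aN := by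
      rw [haN, mul_sum, mul_sum]
      refine sum_le_sum fun w' hw' => ?_
      obtain ⟨hS', hn⟩ := mem_sdiff.1 hw'
      have hb : 2 * ((Xn G Z w').card : ℤ) ≤ a w' := by
        by_contra hc
        push Not at hc
        exact hn (mem_filter.2 ⟨hS', hc⟩)
      have hw'Z : w' ∉ Z := fun h => disjoint_left.1 hZS h hS'
      have f : ∀ w ∈ VS, ∑ z ∈ X w, mis G z w' ≤ ((Xn G Z w').card : ℤ) := by
        intro w hw
        rw [← Mo_eq_Xn G hw'Z, Mo_sing_sum]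
        calc ∑ z ∈ X w, mis G z w' ≤ ∑ z ∈ Z, mis G z w' :=
              sum_le_sum_of_subset_of_nonneg (hXZ w hw) fun z _ _ => D2_mis_nonneg G z w'
          _ = ∑ z ∈ Z, mis G w' z := sum_congr rfl fun z _ => D2_mis_comm G z w'
      have g := sum_le_sum f
      rw [sum_const, nsmul_eq_mul] at g
      nlinarith
    have e4 : ∑ w' ∈ S, ∑ w ∈ VS, ∑ z ∈ X w, mis G z w' =
        ∑ w' ∈ S \ VS, ∑ w ∈ VS, ∑ z ∈ X w, mis G z w' +
        ∑ w' ∈ VS, ∑ w ∈ VS, ∑ z ∈ X w, mis G z w' := (sum_sdiff hVSS).symm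
    rw [e1, e4]
    linarith
  have k5 : 2 * Q ≤ aV + 2 * D := by
    have e : ∀ w ∈ VS, 2 * (a w / 2 + 1) ≤ a w + 2 := fun w _ => by omega
    have f : ∑ w ∈ VS, (a w + 2) = aV + D * 2 := by
      rw [sum_add_distrib, sum_const, nsmul_eq_mul]
    have := sum_le_sum e
    rw [← mul_sum, f] at this
    linarith
  have k6 : D ≤ aV := by
    have e : ∀ w ∈ VS, (1 : ℤ) ≤ a w := fun w hw => h1 w (hVSS hw)
    have := sum_le_sum e
    rw [sum_const, nsmul_eq_mul, mul_one] at this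
    exact this
  have k7 : 0 ≤ aN := sum_nonneg fun w hw => le_trans zero_le_one (h1 w (mem_sdiff.1 hw).1)
  have k8 : aV + aN ≤ R - 5 := hsplit ▸ hA
  have k9 : D * (2 * (P.card : ℤ) + 2) ≤ 2 * Q + D * (R - 5) + 2 * (D * (R - 5 - A')) +
      (2 * D * Q + D * aN) := by linarith
  have k10 : 2 * D * (κ - A') ≤ 2 * D * (P.card : ℤ) :=
    mul_le_mul_of_nonneg_left h2 (by linarith)
  have k11 : (D + 1) * (2 * Q) ≤ (D + 1) * (aV + 2 * D) :=
    mul_le_mul_of_nonneg_left k5 (by linarith)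
  have k12 : D * (aV + aN) ≤ D * (R - 5) := mul_le_mul_of_nonneg_left k8 (by linarith)
  have k13 : aV ≤ D * (R - 5) := by nlinarith
  have k14 : D * D ≤ D * (R - 5) := mul_le_mul_of_nonneg_left (by linarith) (by linarith)
  have k15 : D * (2 * (κ + 1)) ≤ D * (2 + 7 * (R - 5)) := by nlinarith
  have k16 : 2 * (κ + 1) ≤ 2 + 7 * (R - 5) := le_of_mul_le_mul_left k15 (by linarith)
  linarith

end Pool.Agent.helper81.JB
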