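import Pool.Agent.helper81.JB.D2

/-!
# JB-D3: an abstract counting lemma (`mo_lemma`)

`B = Z ∪ S` (disjoint), `Z` is a clique, `a w ≥ 1` on `S`, `A = ∑_S a`, `M w` is `Mo {w} P'` for a set
`P' ⊇ P`; here we only need the inequality `hM`.

Proof.  By `vs_lemma`-type bounds (`hX`): `Mo S Z = ∑_{w ∈ S} (Xn G Z w).card ≤ A / 2`
(`Mo_eq_Xn`).  If `S` is empty then `Mo B B = 0` (`Mo_eq_zero`) and `0 ≤ A ≤ R - 5`. Otherwise let
`t = S.card ≤ A ≤ R - 5`, `Y = Mo S S`, `F = ∑_S s ≤ R - 5 - A'`, `n = P.card ≥ κ - A' ≥ 4 R - (R - 5) =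
3 R + 5` (`A' ≤ R - 5`), so `t ≤ n + 1` and `hR` gives `T ⊆ P` with `T.card = t - 1`,
`n * Mo S T ≤ (t - 1) Mo S P` and `Y ≤ A + 2 Mo S T`.  By `hM`:
`Mo S P ≤ ∑_{w ∈ S} (Mo {w} B - a w + s w) = Y + Mo S Z - A + F`, so
`2 Mo S P ≤ 2 Y - A + 2 F`.  Hence `n Y ≤ n A + (t - 1) (2 Y - A + 2 F)`.  With
`n ≥ 3 (t - 1)`: `(n - 2 (t - 1)) Y ≤ (n - (t - 1)) A + 2 (t - 1) F
  ≤ (n - 2 (t - 1)) (2 A + 2 F)`
(the difference is `(n - 3 (t - 1)) A + 2 F (n - 3 (t - 1)) ≥ 0`), so `Y ≤ 2 A + 2 F`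
(`n - 2 (t - 1) > 0`).  `Mo B B = Mo Z Z + 2 Mo S Z + Y ≤ A + 2 A + 2 F ≤ 5 (R - 5)`.
-/

set_option autoImplicit false

open Finset

namespace Pool.Agent.helper81.JB

variable {V : Type} [Fintype V] [DecidableEq V] {G : SimpleGraph V}

theorem mo_lemma {Z S P : Finset V} {a s : V → ℤ} {R κ A' : ℤ}
    (hZS : Disjoint Z S) (hZ : ∀ v ∈ Z, ∀ w ∈ Z, v ≠ w → G.Adj v w)
    (h1 : ∀ w ∈ S, 1 ≤ a w) (hA : ∑ w ∈ S, a w ≤ R - 5) (hA' : 0 ≤ A') (hA'' : A' ≤ R - 5)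
    (h2 : κ - A' ≤ P.card) (hs : ∀ v, 0 ≤ s v) (hs2 : ∑ v ∈ S, s v ≤ R - 5 - A')
    (hX : ∀ w ∈ S, 2 * ((Xn G Z w).card : ℤ) ≤ a w)
    (hM : ∀ w ∈ S, Mo G {w} P ≤ Mo G {w} (Z ∪ S) - a w + s w)
    (hR : S.Nonempty → S.card ≤ P.card + 1 → ∃ T ⊆ P, T.card + 1 = S.card ∧
      (P.card : ℤ) * Mo G S T ≤ (T.card : ℤ) * Mo G S P ∧
      Mo G S S ≤ ∑ v ∈ S, a v + 2 * Mo G S T)
    (h6 : 4 * R ≤ κ) :
    Mo G (Z ∪ S) (Z ∪ S) ≤ 5 * (R - 5) := by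
  rcases S.eq_empty_or_nonempty with rfl | hne
  · have h0 : Mo G (Z ∪ ∅) (Z ∪ ∅) = 0 := by
      rw [union_empty]
      exact Mo_eq_zero G hZ
    rw [h0]
    simp only [sum_empty] at hA
    linarith
  -- abbreviations
  obtain ⟨Y, hY⟩ : ∃ Y, Y = Mo G S S := ⟨_, rfl⟩
  obtain ⟨W, hW⟩ : ∃ W, W = Mo G S Z := ⟨_, rfl⟩
  obtain ⟨A, hAdef⟩ : ∃ A, A = ∑ w ∈ S, a w := ⟨_, rfl⟩
  obtain ⟨F, hF⟩ : ∃ F, F = ∑ w ∈ S, s w := ⟨_, rfl⟩
  have htA : (S.card : ℤ) ≤ A := by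
    rw [hAdef]
    have := Finset.sum_le_sum h1
    simpa using this
  have hF0 : 0 ≤ F := by
    rw [hF]
    exact Finset.sum_nonneg fun v _ => hs v
  have hA0 : A ≤ R - 5 := by rw [hAdef]; exact hA
  have hF2 : F ≤ R - 5 - A' := by rw [hF]; exact hs2
  have hcard1 : (1 : ℤ) ≤ S.card := by exact_mod_cast hne.card_pos
  have hn : 3 * R + 5 ≤ (P.card : ℤ) := by linarith
  have hSP : S.card ≤ P.card + 1 := by
    have : (S.card : ℤ) ≤ (P.card : ℤ) + 1 := by linarith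
    exact_mod_cast this
  obtain ⟨T, -, hTc, hT1, hT2⟩ := hR hne hSP
  have hTc' : (T.card : ℤ) + 1 = S.card := by exact_mod_cast hTc
  -- `2 * Mo S Z ≤ A`
  have hWA : 2 * W ≤ A := by
    rw [hW, Mo_sum, hAdef, Finset.mul_sum]
    refine Finset.sum_le_sum fun w hw => ?_
    rw [Mo_eq_Xn G (Finset.disjoint_right.1 hZS hw)]
    exact hX w hw
  -- the sum of `hM`
  have hMS : Mo G S P ≤ W + Y - A + F := by
    have e1 : Mo G S P ≤ ∑ w ∈ S, (Mo G {w} (Z ∪ S) - a w + s w) := by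
      rw [Mo_sum]
      exact Finset.sum_le_sum hM
    have e2 : ∑ w ∈ S, (Mo G {w} (Z ∪ S) - a w + s w) = W + Y - A + F := by
      rw [Finset.sum_add_distrib, Finset.sum_sub_distrib, ← Mo_sum,
        Mo_union_right G hZS, ← hW, ← hY, ← hAdef, ← hF]
    linarith
  rw [← hY, ← hAdef] at hT2
  have hT0 : (0 : ℤ) ≤ T.card := by positivity
  have hnT : 3 * (T.card : ℤ) + 1 ≤ P.card := by linarith
  -- the main inequality
  have hmain : (P.card : ℤ) * Y ≤ P.card * A + T.card * (2 * Y - A + 2 * F) := by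
    have hP0 : (0 : ℤ) ≤ P.card := by positivity
    have e1 : (P.card : ℤ) * Y ≤ P.card * (A + 2 * Mo G S T) :=
      mul_le_mul_of_nonneg_left hT2 hP0
    have e2 : (T.card : ℤ) * (2 * Mo G S P) ≤ T.card * (2 * Y - A + 2 * F) :=
      mul_le_mul_of_nonneg_left (by linarith) hT0
    linarith
  have hYF : Y ≤ 2 * A + 2 * F := by
    by_contra hcon
    push Not at hcon
    have hAn : 0 ≤ A := by linarith
    have e1 : 0 < ((P.card : ℤ) - 2 * T.card) * (Y - 2 * A - 2 * F) :=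
      mul_pos (by linarith) (by linarith)
    have e2 : 0 ≤ ((P.card : ℤ) - 3 * T.card) * A := mul_nonneg (by linarith) hAn
    have e3 : 0 ≤ ((P.card : ℤ) - 3 * T.card) * F := mul_nonneg (by linarith) hF0
    nlinarith
  -- conclusion
  have hBB : Mo G (Z ∪ S) (Z ∪ S) = 2 * W + Y := by
    rw [Mo_union_left G hZS, Mo_union_right G hZS, Mo_union_right G hZS, Mo_eq_zero G hZ,
      Mo_comm G Z S, ← hW, ← hY]
    ring
  rw [hBB]
  linarith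

end Pool.Agent.helper81.JB
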