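import Pool.Agent.helper81.JB.D1b
import Pool.Agent.helper81.JB.D3

/-!
# JB-D4: the core theorem

`core`: apply `vs_lemma` and `mo_lemma` with `Z = Zr τ U`, `S = S1 τ U`, `P = Zp τ U u`, `a = al U`,
`s v = N {v} (Uᶜ \ Bg τ (sw U u))`, `A' = ∑_{B2} al (sw U u)`.

* `Z ∪ S = Bg τ U`, disjoint; `Z, S ⊆ U`, `P ⊆ Uᶜ`.
* `∑_S a = ∑_B a ≤ R - 5` (`sum_Bg_eq`, `A_le`), `A' ≤ R - 5` (`A_le` for `sw U u`), `A' ≥ 0`.
* `P.card ≥ B2.card - 1 - A' ≥ κ - A'` (`card_Zp_ge`).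
* `∑_{S ∪ Z} s = N B (Uᶜ \ B2) ≤ N U (Uᶜ \ B2) ≤ R - 5 - A'` (`out_le`, the other terms are `≥ 0`).
* `h3`: `P ⊆ B2.erase u`, `M2_le`, `Mo_mono`. `h4`, `hM`: `M2_le'`; for `z ∈ Z`: `al z = 0` and
  `Mo {z} B = Mo {z} Z + Mo {z} S = Mo {z} S` (`Zr_adj`).
* `h5`, `hR`: `Sp`.
* the conclusion: `Mo B B = B.card (B.card - 1) - 2 E B` (`N_add_Mo_self`, `two_E`).
-/

set_option autoImplicit false

open Finset

namespace Pool.Agent.helper81.JB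

variable {V : Type} [Fintype V] [DecidableEq V] {G : SimpleGraph V} {τ L R κ : ℤ} {U : Finset V}
  {u : V}

theorem core (h : Stk G τ L U) (h2 : Stk G τ L (sw U u)) (hL : -3 ≤ L) (hu : u ∈ Zr G τ U)
    (hy : τ - E G Uᶜ ≤ L + R - 2) (hy' : τ - E G (sw U u)ᶜ ≤ L + R - 2)
    (hκ : κ + 1 ≤ (Bg G τ (sw U u)).card) (hle : (Bg G τ (sw U u)).card ≤ (Bg G τ U).card)
    (hR : 4 * R ≤ κ) (hsp : Sp G τ U u) :
    ((Bg G τ U).card : ℤ) * ((Bg G τ U).card - 1) - 2 * E G (Bg G τ U) ≤ 5 * (R - 5) := by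
  have huB : u ∈ Bg G τ U := Zr_subset hu
  have huU : u ∈ U := Bg_subset huB
  have hunion : Zr G τ U ∪ S1 G τ U = Bg G τ U := Finset.union_sdiff_of_subset Zr_subset
  have hZS : Disjoint (Zr G τ U) (S1 G τ U) := by
    unfold S1
    exact Finset.disjoint_sdiff
  have hZU : Zr G τ U ⊆ U := Zr_subset.trans Bg_subset
  have hSB : S1 G τ U ⊆ Bg G τ U := by
    unfold S1
    exact Finset.sdiff_subset
  have hSU : S1 G τ U ⊆ U := hSB.trans Bg_subset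
  have hPU : Zp G τ U u ⊆ Uᶜ := Zp_subset huU
  have hPB : Zp G τ U u ⊆ (Bg G τ (sw U u)).erase u := Zp_subset_B2
  have hZP : Disjoint (Zr G τ U) (Zp G τ U u) := by
    rw [Finset.disjoint_left]
    intro a ha ha'
    exact (mem_compl.1 (hPU ha')) (hZU ha)
  have hSP : Disjoint (S1 G τ U) (Zp G τ U u) := by
    rw [Finset.disjoint_left]
    intro a ha ha'
    exact (mem_compl.1 (hPU ha')) (hSU ha)
  have h1 : ∀ w ∈ S1 G τ U, 1 ≤ al G U w := fun w hw => ((mem_S1 h.loc).1 hw).2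
  have hA : ∑ w ∈ S1 G τ U, al G U w ≤ R - 5 := by
    rw [sum_Bg_eq h]
    exact A_le h hy
  have hA' : 0 ≤ ∑ v ∈ Bg G τ (sw U u), al G (sw U u) v :=
    Finset.sum_nonneg fun v _ => h2.loc.one v
  have hA'' : ∑ v ∈ Bg G τ (sw U u), al G (sw U u) v ≤ R - 5 := A_le h2 hy'
  have hP : κ - ∑ v ∈ Bg G τ (sw U u), al G (sw U u) v ≤ (Zp G τ U u).card := by
    have := card_Zp_ge h h2 hL hu
    linarith
  have hs : ∀ v, 0 ≤ N G {v} (Uᶜ \ Bg G τ (sw U u)) := fun v => N_nonneg G _ _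
  have hout : N G U (Uᶜ \ Bg G τ (sw U u)) ≤
      R - 5 - ∑ v ∈ Bg G τ (sw U u), al G (sw U u) v := by
    have e1 := out_le h h2 hL hu hy'
    have e2 := E_nonneg G (Uᶜ \ Bg G τ (sw U u))
    have e3 := N_nonneg G (Uᶜ \ Bg G τ (sw U u)) ((Bg G τ (sw U u)).erase u)
    linarith
  have hsub : ∀ A : Finset V, A ⊆ U → ∑ v ∈ A, N G {v} (Uᶜ \ Bg G τ (sw U u)) ≤
      R - 5 - ∑ v ∈ Bg G τ (sw U u), al G (sw U u) v := by
    intro A hAU
    rw [← N_sum]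
    exact (N_mono G hAU (Finset.Subset.refl _)).trans hout
  have hs2 : ∑ v ∈ S1 G τ U ∪ Zr G τ U, N G {v} (Uᶜ \ Bg G τ (sw U u)) ≤
      R - 5 - ∑ v ∈ Bg G τ (sw U u), al G (sw U u) v :=
    hsub _ (Finset.union_subset hSU hZU)
  have hs3 : ∑ v ∈ S1 G τ U, N G {v} (Uᶜ \ Bg G τ (sw U u)) ≤
      R - 5 - ∑ v ∈ Bg G τ (sw U u), al G (sw U u) v := hsub _ hSU
  have hmono : ∀ w, Mo G {w} (Zp G τ U u) ≤ Mo G {w} ((Bg G τ (sw U u)).erase u) := fun w =>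
    Mo_mono G (Finset.Subset.refl _) hPB
  have hZadj : ∀ v ∈ Zr G τ U, ∀ w ∈ Zr G τ U, v ≠ w → G.Adj v w := fun v hv w hw hne =>
    Zr_adj h hL hv hw hne
  have h3 : ∀ w ∈ S1 G τ U, 2 * Mo G {w} (Zp G τ U u) ≤
      R - 5 + 2 * N G {w} (Uᶜ \ Bg G τ (sw U u)) := by
    intro w hw
    have e1 := M2_le h h2 hL hu hy (hSB hw)
    have e2 := hmono w
    linarith
  have h4 : ∀ z ∈ Zr G τ U, Mo G {z} (Zp G τ U u) ≤
      Mo G {z} (S1 G τ U) + N G {z} (Uᶜ \ Bg G τ (sw U u)) := by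
    intro z hz
    have e1 := M2_le' h h2 hL hu hle (Zr_subset hz)
    have e2 := hmono z
    have e3 : al G U z = 0 := (mem_Zr.1 hz).2
    have e4 : Mo G {z} (Bg G τ U) = Mo G {z} (Zr G τ U) + Mo G {z} (S1 G τ U) := by
      rw [← hunion, Mo_union_right G hZS]
    have e5 : Mo G {z} (Zr G τ U) = 0 := by
      refine Mo_eq_zero G fun a ha b hb hne => ?_
      rw [Finset.mem_singleton] at ha
      subst ha
      exact hZadj a hz b hb hne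
    linarith
  have hX := vs_lemma (G := G) (a := al G U)
    (s := fun v => N G {v} (Uᶜ \ Bg G τ (sw U u))) hZS hZP hSP h1 hA hP hs hs2 h3 h4 hsp.vs hR
  have hM : ∀ w ∈ S1 G τ U, Mo G {w} (Zp G τ U u) ≤
      Mo G {w} (Zr G τ U ∪ S1 G τ U) - al G U w + N G {w} (Uᶜ \ Bg G τ (sw U u)) := by
    intro w hw
    have e1 := M2_le' h h2 hL hu hle (hSB hw)
    have e2 := hmono w
    rw [hunion]
    linarith
  have hMo := mo_lemma (G := G) (a := al G U)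
    (s := fun v => N G {v} (Uᶜ \ Bg G τ (sw U u))) hZS hZadj h1 hA hA' hA'' hP hs hs3 hX hM
    hsp.sr hR
  rw [hunion] at hMo
  have e1 := N_add_Mo_self G (Bg G τ U)
  have e2 := two_E G (Bg G τ U)
  linarith

end Pool.Agent.helper81.JB
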