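import Pool.Agent.helper81.JB.Q

/-!
# JB: judicious bipartitions (MP_f18503_lc), definitions

`N G A B` is the number of ordered pairs `(a, b)` of adjacent vertices with `a ∈ A`, `b ∈ B`; `E G A` is
the number of edges inside `A` (so `2 * E G A = N G A A`); `Mo G A B` is the number of ordered pairs of
different nonadjacent vertices.  For a class `U` of a bipartition `(U, Uᶜ)`, `al G U v` is the degree of
`v` to the other class minus the degree of `v` to its own class.
-/

set_option autoImplicit false

open Finset

namespace Pool.Agent.helper81.JB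

variable {V : Type} [Fintype V] [DecidableEq V]

open Classical in
/-- `1` if `a` and `b` are adjacent, otherwise `0` -/
noncomputable def ind (G : SimpleGraph V) (a b : V) : ℤ := if G.Adj a b then 1 else 0

open Classical in
/-- `1` if `a` and `b` are different and not adjacent, otherwise `0` -/
noncomputable def mis (G : SimpleGraph V) (a b : V) : ℤ := if a ≠ b ∧ ¬ G.Adj a b then 1 else 0

/-- number of ordered pairs of adjacent vertices -/
noncomputable def N (G : SimpleGraph V) (A B : Finset V) : ℤ := ∑ a ∈ A, ∑ b ∈ B, ind G a b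

/-- number of ordered pairs of different nonadjacent vertices -/
noncomputable def Mo (G : SimpleGraph V) (A B : Finset V) : ℤ := ∑ a ∈ A, ∑ b ∈ B, mis G a b

/-- number of edges inside `A` -/
noncomputable def E (G : SimpleGraph V) (A : Finset V) : ℤ := N G A A / 2

open Classical in
/-- degree to the other class minus degree to the own class, for the bipartition `(U, Uᶜ)` -/
noncomputable def al (G : SimpleGraph V) (U : Finset V) (v : V) : ℤ :=
  if v ∈ U then N G {v} Uᶜ - N G {v} U else N G {v} U - N G {v} Uᶜ

open Classical in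
/-- the vertices of `U` whose removal from `U` brings the number of edges inside down to `τ` -/
noncomputable def Bg (G : SimpleGraph V) (τ : ℤ) (U : Finset V) : Finset V :=
  U.filter fun v => E G U - τ ≤ N G {v} U

open Classical in
/-- the zero vertices of `Bg` -/
noncomputable def Zr (G : SimpleGraph V) (τ : ℤ) (U : Finset V) : Finset V :=
  (Bg G τ U).filter fun v => al G U v = 0

/-- the vertices of `Bg` which are not zero vertices -/
noncomputable def S1 (G : SimpleGraph V) (τ : ℤ) (U : Finset V) : Finset V :=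
  Bg G τ U \ Zr G τ U

/-- move `u` to the other class and exchange the names of the classes -/
def sw (U : Finset V) (u : V) : Finset V := insert u Uᶜ

/-- the zero vertices of the other class after moving `u` -/
noncomputable def Zp (G : SimpleGraph V) (τ : ℤ) (U : Finset V) (u : V) : Finset V :=
  (Zr G τ (sw U u)).erase u

open Classical in
/-- the vertices of `Z` which are not adjacent to `w` -/
noncomputable def Xn (G : SimpleGraph V) (Z : Finset V) (w : V) : Finset V :=
  Z.filter fun z => ¬ G.Adj w z

open Classical in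
/-- the vertices of `P` adjacent to all vertices of `S` -/
noncomputable def Cn (G : SimpleGraph V) (P S : Finset V) : Finset V :=
  P.filter fun v => ∀ z ∈ S, G.Adj z v

/-- flipping `S ⊆ U` and `R ⊆ Uᶜ` does not increase the cut -/
def Flip (G : SimpleGraph V) (U S R : Finset V) : Prop :=
  2 * N G S R ≤ ∑ v ∈ S, al G U v + ∑ v ∈ R, al G U v + N G S S + N G R R

/-- local optimality for flips of at most three vertices -/
structure Loc (G : SimpleGraph V) (U : Finset V) : Prop where
  one : ∀ v, 0 ≤ al G U v
  two : ∀ v ∈ U, ∀ w ∉ U, G.Adj v w → 2 ≤ al G U v + al G U w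
  three : ∀ v ∈ U, ∀ v' ∈ U, v ≠ v' → ¬ G.Adj v v' → ∀ w ∉ U, G.Adj v w → G.Adj v' w →
    4 ≤ al G U v + al G U v' + al G U w

/-- `U` is a locally optimal class with more than `τ` edges inside, and the candidates obtained from
`U` are bad; the graph has `4 τ - L` edges -/
structure Stk (G : SimpleGraph V) (τ L : ℤ) (U : Finset V) : Prop where
  loc : Loc G U
  tot : N G univ univ = 2 * (4 * τ - L)
  big : τ + 1 ≤ E G U
  mv : ∀ v ∈ U, E G (U.erase v) ≤ τ → τ + 1 ≤ E G (insert v Uᶜ)
  mn : E G (Bg G τ U) ≤ τ → ∃ S ⊆ U \ Bg G τ U, E G (U \ S) ≤ τ ∧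
    (∀ v ∈ S, τ + 1 ≤ E G (U \ S.erase v)) ∧ τ + 1 ≤ E G (Uᶜ ∪ S)

/-- the consequences of the special flips -/
structure Sp (G : SimpleGraph V) (τ : ℤ) (U : Finset V) (u : V) : Prop where
  vs : ∀ w ∈ S1 G τ U, al G U w / 2 + 1 ≤ ((Xn G (Zr G τ U) w).card : ℤ) →
    ∃ X ⊆ Xn G (Zr G τ U) w, (X.card : ℤ) = al G U w / 2 + 1 ∧
      (Cn G (Zp G τ U u) (insert w X)).card < X.card
  sr : (S1 G τ U).Nonempty → (S1 G τ U).card ≤ (Zp G τ U u).card + 1 →
    ∃ R ⊆ Zp G τ U u, R.card + 1 = (S1 G τ U).card ∧
      ((Zp G τ U u).card : ℤ) * Mo G (S1 G τ U) R ≤ (R.card : ℤ) * Mo G (S1 G τ U) (Zp G τ U u) ∧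
      Mo G (S1 G τ U) (S1 G τ U) ≤ ∑ v ∈ S1 G τ U, al G U v + 2 * Mo G (S1 G τ U) R

/-- the windows of `t` consecutive elements of `P`, starting at `i`, cyclically -/
def win {n : ℕ} (P : Finset (Fin n)) (t : ℕ) (i : Fin n) : Finset (Fin n) :=
  P.filter fun v => (P.filter fun z => if i ≤ v then i ≤ z ∧ z < v else i ≤ z ∨ z < v).card < t

end Pool.Agent.helper81.JB
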