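import Pool.Agent.helper81.JB.D4

/-!
# JB-F: the two final contradictions

`Rdy G τ L U`: `U` is stuck, and so is `sw U u` for every zero vertex `u` of `U`; the special flips do
not improve either of them.

* `exists_Zr`: `card_Z_ge`, `A_le`.
* `contra_r`: `κ = k + 1`, `R = r`, `L = k - r`; `y ≤ k - 2 = L + R - 2` by `r_side` for `U` and for
  `sw U u`.  From `y_ge`: `3 x ≤ R - 2` (for both).  If `r ≤ 4` this contradicts `x ≥ 1`.  Otherwise
  `4 r ≤ k`.  Let `u ∈ Zr`. If `B2.card ≤ B.card` apply `core` to `(U, u)`; otherwise apply `core` to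
  `(sw U u, u)` (`sw_sw`, `u_mem_Zr_sw`).  We get, for `B1 = B` or `B1 = B2`, `B1.card ≥ k + 2`,
  `E B1 ≤ τ + x` (or `τ + x'`; `E_mono`): `(k + 2) (k + 1) - 2 τ - 2 x ≤ 5 (r - 5)`, i.e.
  `2 (k + 1) ≤ 5 (r - 5) + 2 x`, `3 x ≤ r - 2`, `4 r ≤ k`: contradiction.
* `final_s`: `κ = k`, `R = 3 s + 1`, `L = k - 3 s`.  As before, `3 x ≤ R - 2 = 3 s - 1`, so `s ≥ 2` and
  `14 s ≤ k`, `4 R = 12 s + 4 ≤ 14 s ≤ k`.  `core` for the larger one, `B1`, of `B`, `B2`:
  `B1.card ≥ k + 2` gives `(k + 2) (k + 1) - 2 (τ + x) ≤ 5 (R - 5)`, where `2 τ = k (k + 1) - 2 s`,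
  contradiction. So `B1.card = k + 1`, and both of `B`, `B2` have `≥ k + 1` elements, so both have
  exactly `k + 1`.  `W = B ∪ B2`, `B ∩ B2 = {u}` (`B ⊆ U`, `B2 ⊆ Uᶜ ∪ {u}`), `W.card = 2 k + 1`,
  `W = B ∪ B2.erase u` (disjoint).  Let `f = (4 τ - L) - E W` (`E univ - E W`).
  `f ≤ 2 (R - 5)`: with `C = U \ B`, `C2 = Uᶜ \ B2`,
  `f = [E C + N C B + N C Uᶜ] + [E C2 + N C2 (B2.erase u) + N B C2]`
  (`univ` is the disjoint union of `B`, `C`, `B2.erase u`, `C2`); the second bracket is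
  `≤ R - 5` by `out_le` for `(U, u)` (`N B C2 ≤ N U C2`, `∑ al ≥ 0`), and the first bracket is
  `≤ R - 5` by `out_le` for `(sw U u, u)`: there `(sw U u)ᶜ \ Bg (sw (sw U u) u) = U.erase u \ B = C`,
  `(Bg (sw (sw U u) u)).erase u = B.erase u` and `N C (B.erase u) + N (sw U u) C = N C B + N C Uᶜ`.
  `Mo W W = (2 k + 1) (2 k) - 2 E W = 2 (2 k + 1) k - 2 (4 τ - L) + 2 f = 2 s + 2 f`
  (`4 τ - L = k (2 k + 1) - s`), so `Mo W W ≤ 2 s + 4 (3 s - 4) = 14 s - 16 ≤ k + 1`.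
  `supp.card ≤ Mo W W` (every `a ∈ supp` has `Mo {a} W ≥ 1`).
  Let `V1` be as in the statement, `V1.card = k + 1`: `Mo V1 V1 = Mo W W` (a pair `a ≠ b` of
  nonadjacent vertices of `W` is in `supp`, so in `V1`), so
  `2 E V1 = (k + 1) k - 2 s - 2 f ≤ 2 τ`.  And `E V1ᶜ ≤ E (W \ V1) + f` (`E_super` for `V1ᶜ`, `W`:
  `V1ᶜ ∩ W = W \ V1`, `E (V1ᶜ ∪ W) ≤ E univ = 4 τ - L`), `2 E (W \ V1) ≤ k (k - 1)`,
  so `2 E V1ᶜ ≤ k (k - 1) + 2 f ≤ k (k + 1) - 2 s` as `2 f + 2 s ≤ 14 s - 16 ≤ 2 k`.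
-/

set_option autoImplicit false

open Finset

namespace Pool.Agent.helper81.JB

variable {V : Type} [Fintype V] [DecidableEq V] {G : SimpleGraph V} {τ L : ℤ} {U : Finset V}

/-- the final state of the local search -/
structure Rdy (G : SimpleGraph V) (τ L : ℤ) (U : Finset V) : Prop where
  stk : Stk G τ L U
  stk2 : ∀ u ∈ Zr G τ U, Stk G τ L (sw U u)
  sp : ∀ u ∈ Zr G τ U, Sp G τ U u
  sp2 : ∀ u ∈ Zr G τ U, Sp G τ (sw U u) u

open Classical in
/-- the vertices of `W` which are not adjacent to all other vertices of `W` -/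
noncomputable def supp (G : SimpleGraph V) (W : Finset V) : Finset V :=
  W.filter fun a => ∃ b ∈ W, b ≠ a ∧ ¬ G.Adj a b

/-- the final arithmetic -/
theorem F_arith {k r τ b e x : ℤ} (hk : 0 ≤ k) (hr : 0 ≤ r) (h4 : 4 * r ≤ k)
    (hτ : 2 * τ = k * (k + 1)) (hb : k + 2 ≤ b) (he : e ≤ τ + x) (hx : 3 * x ≤ r - 2)
    (hc : b * (b - 1) - 2 * e ≤ 5 * (r - 5)) : False := by
  have h1 : (k + 2) * (k + 1) ≤ b * (b - 1) :=
    mul_le_mul hb (by linarith) (by linarith) (by linarith)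
  have h2 : (k + 2) * (k + 1) = k * (k + 1) + 2 * (k + 1) := by ring
  linarith

theorem exists_Zr (h : Stk G τ L U) {R : ℤ} (hy : τ - E G Uᶜ ≤ L + R - 2)
    (hB : R - 5 < (Bg G τ U).card) : ∃ u, u ∈ Zr G τ U := by
  have h1 := card_Z_ge h
  have h2 := A_le h hy
  have h3 : (0 : ℤ) < (Zr G τ U).card := by linarith
  have h4 : 0 < (Zr G τ U).card := by exact_mod_cast h3
  exact Finset.card_pos.1 h4

theorem contra_r (h : Rdy G τ L U) {k r : ℤ} (hk : 0 ≤ k) (hr : 0 ≤ r) (hrk : r ≤ k)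
    (hr4 : 4 * r ≤ k ∨ r ≤ 4) (hτ : 2 * τ = k * (k + 1)) (hL : L = k - r) : False := by
  obtain ⟨hb1, hy1⟩ := r_side h.stk hk hr hrk hτ hL
  have hx1 := y_ge h.stk
  have hbig := h.stk.big
  have h4 : 4 * r ≤ k := by
    rcases hr4 with h4 | h4
    · exact h4
    · exfalso
      linarith
  have hL3 : -3 ≤ L := by linarith
  obtain ⟨u, hu⟩ := exists_Zr h.stk (R := r) (by linarith) (by linarith)
  have hs2 := h.stk2 u hu
  obtain ⟨hb2, hy2⟩ := r_side hs2 hk hr hrk hτ hL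
  have hx2 := y_ge hs2
  have huU : u ∈ U := Bg_subset (mem_Zr.1 hu).1
  rcases le_total (Bg G τ (sw U u)).card (Bg G τ U).card with hle | hle
  · have hc := core h.stk hs2 hL3 hu (R := r) (κ := k + 1) (by linarith) (by linarith)
      (by linarith) hle (by linarith) (h.sp u hu)
    have he : E G (Bg G τ U) ≤ τ + (E G U - τ) := by
      have := E_mono G (Bg_subset (G := G) (τ := τ) (U := U))
      linarith
    exact F_arith hk hr h4 hτ hb1 he (by linarith) hc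
  · have hs3 : Stk G τ L (sw (sw U u) u) := by
      rw [sw_sw huU]
      exact h.stk
    have hc := core hs2 hs3 hL3 (u_mem_Zr_sw h.stk hL3 hu) (R := r) (κ := k + 1) (by linarith)
      (by rw [sw_sw huU]; linarith) (by rw [sw_sw huU]; linarith) (by rw [sw_sw huU]; exact hle)
      (by linarith) (h.sp2 u hu)
    have he : E G (Bg G τ (sw U u)) ≤ τ + (E G (sw U u) - τ) := by
      have := E_mono G (Bg_subset (G := G) (τ := τ) (U := sw U u))
      linarith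
    exact F_arith hk hr h4 hτ hb2 he (by linarith) hc

end Pool.Agent.helper81.JB
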