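import Pool.Agent.helper81.JB.F2
import Pool.Agent.helper81.JB.Fl

/-!
# JB-MC: a maximum cut of a graph without good bipartition is a final state (`Rdy`)

* `MaxCut.flip`: `flip_of_le`.  `MaxCut.compl`: `N_comm`, `compl_compl`.
* `MaxCut.sw`: `sw U u = (U \ {u})ᶜ`, `flip_formula` for `S = {u}`, `R = ∅`: the cut of `U \ {u}` is
  the cut of `U`, `N {u} {u} = 0`.
* `stk_of_maxCut`: `loc_of_flip`; `mv`: `NoGood` for `U.erase v`, `(U.erase v)ᶜ = insert v Uᶜ`; `mn`: the
  family of the `S ⊆ U \ Bg` with `E (U \ S) ≤ τ` contains `U \ Bg` (`U \ (U \ Bg) = Bg`); take a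
  member of minimal cardinality (`Finset.exists_min_image`); `S.erase v` is not a member;
  `(U \ S)ᶜ = Uᶜ ∪ S`.
* `rdy_of_maxCut`: for `u ∈ Zr τ U`: `al U u = 0`, `sw U u` is a maximum cut, `E (sw U u) = E Uᶜ + N {u} Uᶜ
  ≥ τ + 1` by `deg_out` (`E Uᶜ = τ - y`, `N {u} Uᶜ ≥ y + 1`), so it is stuck, `sp_of_flip`
  (with `Finset.exists_subset_card_eq` for `X` and `T`) for `(U, u)` and for `(sw U u, u)` (`sw_sw`,
  `u_mem_Zr_sw`).
* `upper_r`: suppose not; then `NoGood G τ` (if `E S ≤ τ` and `E Sᶜ ≤ τ` then `S` is good).  Take a maximum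
  cut `U` (`Finset.exists_max_image` on `univ`); by `NoGood` one of `U`, `Uᶜ` has `≥ τ + 1` edges inside,
  exchange the names; `rdy_of_maxCut`, `contra_r`.
* `upper_s`: the same with `final_s`: the set `V1` exists (`Finset.exists_subsuperset_card_eq`) and
  contradicts `NoGood`.
-/

set_option autoImplicit false

open Finset

namespace Pool.Agent.helper81.JB

section
variable {V : Type} [Fintype V] [DecidableEq V]

/-- `U` is a maximum cut -/
def MaxCut (G : SimpleGraph V) (U : Finset V) : Prop := ∀ W, N G W Wᶜ ≤ N G U Uᶜ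

/-- `G` has no bipartition with at most `τ` edges inside each class -/
def NoGood (G : SimpleGraph V) (τ : ℤ) : Prop := ∀ S, E G S ≤ τ → τ + 1 ≤ E G Sᶜ

variable {G : SimpleGraph V} {τ L : ℤ} {U : Finset V} {u : V}

theorem MaxCut.flip (h : MaxCut G U) {S R : Finset V} (hS : S ⊆ U) (hR : R ⊆ Uᶜ) :
    Flip G U S R := flip_of_le G hS hR (h _)

theorem MaxCut.compl (h : MaxCut G U) : MaxCut G Uᶜ := by
  intro W
  rw [compl_compl, N_comm G Uᶜ U]
  exact h W

theorem MaxCut.sw (h : MaxCut G U) (hu : u ∈ U) (ha : al G U u = 0) : MaxCut G (sw U u) := by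
  intro W
  have h1 := flip_formula G (U := U) (S := {u}) (R := ∅) (by simpa using hu) (by simp)
  have h2 : N G (JB.sw U u) (JB.sw U u)ᶜ = N G U Uᶜ := by
    have e1 : (JB.sw U u)ᶜ = U \ {u} ∪ ∅ := by
      rw [sw_compl, Finset.union_empty, Finset.sdiff_singleton_eq_erase]
    have e2 : JB.sw U u = (U \ {u} ∪ ∅)ᶜ := by rw [← e1, compl_compl]
    rw [e1, e2, N_comm, h1]
    simp [ha, N_sing, ind_self, N_empty_right]
  rw [h2]
  exact h W

theorem stk_of_maxCut (h : MaxCut G U) (hb : NoGood G τ)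
    (ht : N G univ univ = 2 * (4 * τ - L)) (hU : τ + 1 ≤ E G U) : Stk G τ L U where
  loc := loc_of_flip G fun S hS R hR _ => h.flip hS hR
  tot := ht
  big := hU
  mv := by
    intro v hv he
    have := hb _ he
    rwa [show (U.erase v)ᶜ = insert v Uᶜ by
      rw [Finset.compl_erase]] at this
  mn := by
    intro he
    classical
    let 𝒮 : Finset (Finset V) := (U \ Bg G τ U).powerset.filter fun S => E G (U \ S) ≤ τ
    have hne : 𝒮.Nonempty := by
      refine ⟨U \ Bg G τ U, ?_⟩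
      rw [Finset.mem_filter, Finset.mem_powerset]
      refine ⟨subset_rfl, ?_⟩
      rwa [Finset.sdiff_sdiff_eq_self Bg_subset]
    obtain ⟨S, hS, hmin⟩ := Finset.exists_min_image 𝒮 Finset.card hne
    rw [Finset.mem_filter, Finset.mem_powerset] at hS
    refine ⟨S, hS.1, hS.2, ?_, ?_⟩
    · intro v hv
      by_contra hcon
      push Not at hcon
      have h1 : S.erase v ∈ 𝒮 := by
        rw [Finset.mem_filter, Finset.mem_powerset]
        exact ⟨(Finset.erase_subset _ _).trans hS.1, by omega⟩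
      have h2 := hmin _ h1
      have h3 := Finset.card_erase_lt_of_mem hv
      omega
    · have h1 := hb _ hS.2
      have hSU : S ⊆ U := hS.1.trans Finset.sdiff_subset
      rwa [show (U \ S)ᶜ = Uᶜ ∪ S by
        ext x
        simp only [Finset.mem_compl, Finset.mem_sdiff, Finset.mem_union]
        tauto] at h1

end

theorem MC_sp {n : ℕ} {G : SimpleGraph (Fin n)} {τ L : ℤ} {U : Finset (Fin n)} {u : Fin n}
    (h : MaxCut G U) (hs : Stk G τ L U) (hs2 : Stk G τ L (sw U u)) (hL : -3 ≤ L)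
    (hu : u ∈ Zr G τ U) : Sp G τ U u := by
  have huU : u ∈ U := Bg_subset (Zr_subset hu)
  refine sp_of_flip hs hs2 hL hu ?_ ?_
  · intro w hw hq
    have hwU : w ∈ U := Bg_subset (Finset.sdiff_subset hw)
    have hal := hs.loc.one w
    obtain ⟨q, hq'⟩ : ∃ q : ℕ, (q : ℤ) = al G U w / 2 + 1 :=
      ⟨(al G U w / 2 + 1).toNat, by omega⟩
    obtain ⟨X, hX, hXc⟩ := Finset.exists_subset_card_eq (s := Xn G (Zr G τ U) w) (n := q) (by omega)
    refine ⟨X, hX, by omega, fun hle => ?_⟩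
    obtain ⟨T, hT, hTc⟩ := Finset.exists_subset_card_eq hle
    refine ⟨T, hT, hTc, h.flip ?_ ?_⟩
    · intro v hv
      rw [Finset.mem_insert] at hv
      rcases hv with rfl | hv
      · exact hwU
      · have h3 := hX hv
        simp only [Xn, Finset.mem_filter] at h3
        exact Bg_subset (Zr_subset h3.1)
    · intro v hv
      have h3 := hT hv
      simp only [Cn, Finset.mem_filter] at h3
      exact Zp_subset huU h3.1
  · intro i _ _
    exact h.flip (Finset.sdiff_subset.trans Bg_subset) ((win_subset _ _ _).trans (Zp_subset huU))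

theorem rdy_of_maxCut {n : ℕ} {G : SimpleGraph (Fin n)} {τ L : ℤ} {U : Finset (Fin n)}
    (h : MaxCut G U) (hb : NoGood G τ) (hL : -3 ≤ L)
    (ht : N G univ univ = 2 * (4 * τ - L)) (hU : τ + 1 ≤ E G U) : Rdy G τ L U := by
  have hs := stk_of_maxCut h hb ht hU
  have key : ∀ u ∈ Zr G τ U, MaxCut G (sw U u) ∧ Stk G τ L (sw U u) := by
    intro u hu
    have huU : u ∈ U := Bg_subset (Zr_subset hu)
    have h1 : MaxCut G (sw U u) := h.sw huU (mem_Zr.mp hu).2
    refine ⟨h1, stk_of_maxCut h1 hb ht ?_⟩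
    rw [E_sw G huU]
    have := deg_out hs (Zr_subset hu)
    linarith
  refine ⟨hs, fun u hu => (key u hu).2, fun u hu => MC_sp h hs (key u hu).2 hL hu, ?_⟩
  intro u hu
  have huU : u ∈ U := Bg_subset (Zr_subset hu)
  refine MC_sp (key u hu).1 (key u hu).2 ?_ hL (u_mem_Zr_sw hs hL hu)
  rw [sw_sw huU]
  exact hs

theorem MC_exists {n : ℕ} (G : SimpleGraph (Fin n)) {τ L : ℤ} (hL : -3 ≤ L)
    (ht : N G univ univ = 2 * (4 * τ - L)) (hb : NoGood G τ) : ∃ U, Rdy G τ L U := by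
  obtain ⟨U, -, hU⟩ := Finset.exists_max_image (univ : Finset (Finset (Fin n)))
    (fun U => N G U Uᶜ) ⟨∅, Finset.mem_univ _⟩
  have hm : MaxCut G U := fun W => hU W (Finset.mem_univ _)
  by_cases h : E G U ≤ τ
  · exact ⟨Uᶜ, rdy_of_maxCut hm.compl hb hL ht (hb _ h)⟩
  · push Not at h
    exact ⟨U, rdy_of_maxCut hm hb hL ht (by omega)⟩

theorem MC_noGood {n : ℕ} {G : SimpleGraph (Fin n)} {τ : ℤ}
    (h : ¬ ∃ S, E G S ≤ τ ∧ E G Sᶜ ≤ τ) : NoGood G τ := by
  intro S hS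
  by_contra hcon
  exact h ⟨S, hS, by omega⟩

theorem upper_r {n : ℕ} (G : SimpleGraph (Fin n)) {k r τ : ℤ} (hk : 0 ≤ k) (hr : 0 ≤ r)
    (hrk : r ≤ k) (hr4 : 4 * r ≤ k ∨ r ≤ 4) (hτ : 2 * τ = k * (k + 1))
    (hm : N G univ univ = 2 * (k * (2 * k + 1) + r)) : ∃ S, E G S ≤ τ ∧ E G Sᶜ ≤ τ := by
  by_contra hcon
  obtain ⟨U, hU⟩ := MC_exists G (τ := τ) (L := k - r) (by omega)
    (by rw [hm]; linear_combination (-4) * hτ) (MC_noGood hcon)
  exact contra_r hU hk hr hrk hr4 hτ rfl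

theorem MC_supp {n : ℕ} (G : SimpleGraph (Fin n)) (D : Finset (Fin n)) : supp G D ⊆ D := by
  intro x hx
  simp only [supp, Finset.mem_filter] at hx
  exact hx.1

theorem upper_s {n : ℕ} (G : SimpleGraph (Fin n)) {k s τ : ℤ} (hk : 2 ≤ k) (hs : 0 ≤ s)
    (hs14 : 14 * s ≤ k ∨ s ≤ 1) (hτ : 2 * τ = k * (k + 1) - 2 * s)
    (hm : N G univ univ = 2 * (k * (2 * k + 1) - s)) : ∃ S, E G S ≤ τ ∧ E G Sᶜ ≤ τ := by
  by_contra hcon
  obtain ⟨U, hU⟩ := MC_exists G (τ := τ) (L := k - 3 * s) (by omega)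
    (by rw [hm]; linear_combination (-4) * hτ) (MC_noGood hcon)
  obtain ⟨u, hu, h1, h2, h3⟩ := final_s hU (by omega) hs (by omega) hs14 hτ rfl (by omega)
  have hsub := MC_supp G (Bg G τ U ∪ Bg G τ (sw U u))
  obtain ⟨V1, hV1, hV2, hV3⟩ := Finset.exists_subsuperset_card_eq hsub h1 h2
  exact hcon ⟨V1, h3 V1 hV2 hV3 hV1⟩

end Pool.Agent.helper81.JB
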