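import Mathlib

/-!
# The question of MP_f18503_lc: the function `g(m)`
-/

set_option autoImplicit false

namespace Pool.Agent.helper81.JB

/-- The number of edges of `G` with both ends in `X`. -/
noncomputable def eIn {n : ℕ} (G : SimpleGraph (Fin n)) (X : Finset (Fin n)) : ℕ :=
  {e ∈ G.edgeSet | ∀ v ∈ e, v ∈ X}.ncard

/-- `g(m)`: the least `t` such that every graph with `m` edges has a bipartition `(X, Xᶜ)` with at
most `t` edges inside each class. -/
noncomputable def gg (m : ℕ) : ℕ :=
  sInf {t | ∀ (n : ℕ) (G : SimpleGraph (Fin n)), G.edgeSet.ncard = m →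
    ∃ X : Finset (Fin n), eIn G X ≤ t ∧ eIn G Xᶜ ≤ t}

end Pool.Agent.helper81.JB
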